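import Pool.Agent.Lib.MP_092512_nt.VC.V3

/-!
# TT / V3: (VC)

Kusmin-Landau, iterated mean value theorem and the van der Corput induction are in the folder `VC`.
-/

set_option autoImplicit false

open Finset

namespace Pool.Agent.Lib.TT

theorem vc (A : ℕ) (β0 : ℝ) (h0 : 0 < β0) : ∃ x0 : ℝ, 1 ≤ x0 ∧ ∀ x : ℝ, x0 ≤ x → ∀ t : ℝ, (Real.log x) ^ (A + 3) ≤ |t| → |t| ≤ 2 * x →
    ∀ k0 k1 : ℕ, x ^ β0 ≤ k0 → k1 ≤ 2 * k0 + 2 → ∀ c : ℝ, 0 ≤ c → c ≤ 1 →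
    ‖∑ k ∈ Ioc k0 k1, Complex.exp (Complex.I * (t * Real.log (k + c)))‖ ≤ k0 / (Real.log x) ^ A :=
  Pool.Agent.Lib.VDC.vc A β0 h0

end Pool.Agent.Lib.TT
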