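import Pool.Agent.Lib.MP_092512_nt.TT.Ca1
import Pool.Agent.Lib.MP_092512_nt.TT.V3

/-!
# TT / Ca2 (90 minutes): (6.2): `K ^ 10 < |t|`

Text (6.2). Classes `m = q k + a`, `n = d m`; `vc` with `A = 7`, `2 t`, `β0 = be P / 4`.
-/

set_option autoImplicit false

open Finset

namespace Pool.Agent.Lib.TT

open Pool.Agent.Lib.TCF (pht TUP rho)
open Pool.Agent.Lib.RG (Rough PN)
open Pool.Agent.Lib.MP_45349e_nt.LS (lam)

section psn

variable {q : ℕ} (ψ : (ZMod q)ˣ →* ℂ)

open Classical in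
private theorem Ca2_psn_mul (m n : ℕ) : psn ψ (m * n) = psn ψ m * psn ψ n := by
  unfold psn
  by_cases hm : m.Coprime q
  · by_cases hn : n.Coprime q
    · have hmn : (m * n).Coprime q := Nat.Coprime.mul_left hm hn
      rw [dif_pos hm, dif_pos hn, dif_pos hmn, ← map_mul]
      congr 1
      apply Units.ext
      rw [Units.val_mul, ZMod.coe_unitOfCoprime, ZMod.coe_unitOfCoprime, ZMod.coe_unitOfCoprime,
        Nat.cast_mul]
    · have hmn : ¬ (m * n).Coprime q := fun h => hn (Nat.Coprime.coprime_mul_left h)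
      rw [dif_neg hn, dif_neg hmn, mul_zero]
  · have hmn : ¬ (m * n).Coprime q := fun h => hm (Nat.Coprime.coprime_mul_right h)
    rw [dif_neg hm, dif_neg hmn, zero_mul]

private theorem Ca2_cop_mod (n : ℕ) : (n % q).Coprime q ↔ n.Coprime q := by
  unfold Nat.Coprime
  rw [(Nat.mod_modEq n q).gcd_eq]

open Classical in
private theorem Ca2_psn_mod (n : ℕ) : psn ψ n = psn ψ (n % q) := by
  unfold psn
  by_cases hn : n.Coprime q
  · have hm : (n % q).Coprime q := (Ca2_cop_mod n).2 hn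
    rw [dif_pos hn, dif_pos hm]
    congr 1
    apply Units.ext
    rw [ZMod.coe_unitOfCoprime, ZMod.coe_unitOfCoprime, ZMod.natCast_mod]
  · have hm : ¬ (n % q).Coprime q := fun h => hn ((Ca2_cop_mod n).1 h)
    rw [dif_neg hn, dif_neg hm]

open Classical in
private theorem Ca2_psn_le (hψ : ∀ b, ‖ψ b‖ = 1) (n : ℕ) : ‖psn ψ n‖ ≤ 1 := by
  unfold psn
  split_ifs with h
  · exact (hψ _).le
  · rw [norm_zero]
    exact zero_le_one

open Classical in
private theorem Ca2_psn_zero (n : ℕ) (h : ¬ n.Coprime q) : psn ψ n = 0 := by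
  unfold psn
  rw [dif_neg h]

end psn

private theorem Ca2_reidx (y d : ℕ) (hd : 1 ≤ d) (h : ℕ → ℂ) :
    ∑ n ∈ (Ioc y (2 * y)).filter (fun n => d ∣ n), h n =
      ∑ m ∈ Ioc (y / d) (2 * y / d), h (d * m) := by
  symm
  refine sum_nbij' (fun m => d * m) (fun n => n / d) ?_ ?_ ?_ ?_ ?_
  · intro m hm
    rw [mem_Ioc] at hm
    rw [mem_filter, mem_Ioc]
    refine ⟨⟨?_, ?_⟩, dvd_mul_right d m⟩
    · have h1 := (Nat.div_lt_iff_lt_mul hd).1 hm.1
      rwa [mul_comm] at h1
    · have h1 := (Nat.le_div_iff_mul_le hd).1 hm.2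
      rwa [mul_comm] at h1
  · intro n hn
    rw [mem_filter, mem_Ioc] at hn
    obtain ⟨⟨h1, h2⟩, m, rfl⟩ := hn
    rw [Nat.mul_div_cancel_left m hd, mem_Ioc]
    refine ⟨(Nat.div_lt_iff_lt_mul hd).2 (by rwa [mul_comm]),
      (Nat.le_div_iff_mul_le hd).2 (by rwa [mul_comm])⟩
  · intro m _
    exact Nat.mul_div_cancel_left m hd
  · intro n hn
    rw [mem_filter] at hn
    exact Nat.mul_div_cancel' hn.2
  · intro m _
    rfl

/-- the sum over one class -/
private theorem Ca2_class (q a Y0 Y1 : ℕ) (hq : 1 ≤ q) (ha : a < q) (hY : a ≤ Y0) (h01 : Y0 ≤ Y1) (f : ℕ → ℂ) :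
    ∑ m ∈ (Ioc Y0 Y1).filter (fun m => m % q = a), f m =
      ∑ k ∈ Ioc ((Y0 - a) / q) ((Y1 - a) / q), f (q * k + a) := by
  symm
  refine sum_nbij' (fun k => q * k + a) (fun m => m / q) ?_ ?_ ?_ ?_ ?_
  · intro k hk
    rw [mem_Ioc] at hk
    rw [mem_filter, mem_Ioc]
    have h1 := (Nat.div_lt_iff_lt_mul hq).1 hk.1
    have h2 := (Nat.le_div_iff_mul_le hq).1 hk.2
    rw [mul_comm] at h1 h2
    refine ⟨⟨by omega, by omega⟩, ?_⟩
    rw [Nat.mul_add_mod, Nat.mod_eq_of_lt ha]
  · intro m hm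
    rw [mem_filter, mem_Ioc] at hm
    obtain ⟨⟨h1, h2⟩, h3⟩ := hm
    have h4 := Nat.div_add_mod m q
    rw [h3] at h4
    rw [mem_Ioc]
    refine ⟨(Nat.div_lt_iff_lt_mul hq).2 ?_, (Nat.le_div_iff_mul_le hq).2 ?_⟩
    · rw [mul_comm]; omega
    · rw [mul_comm]; omega
  · intro k _
    show (q * k + a) / q = k
    rw [Nat.mul_add_div (by omega), Nat.div_eq_of_lt ha, add_zero]
  · intro m hm
    rw [mem_filter] at hm
    have h4 := Nat.div_add_mod m q
    rw [hm.2] at h4
    exact h4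
  · intro k _
    rfl

private theorem Ca2_norm (s : ℝ) : ‖Complex.exp (Complex.I * (s : ℂ))‖ = 1 := by
  rw [mul_comm, Complex.norm_exp_ofReal_mul_I]

open Classical in
theorem ca2 (P : Par) (hP : P.Ok) : ∃ x0 : ℕ, ∀ x : ℕ, x0 ≤ x → ∀ w : ℕ → ℝ,
    (∀ d, |w d| ≤ 1) → (∀ d, w d ≠ 0 → 1 ≤ d ∧ (d : ℝ) ≤ (yy P x : ℝ) ^ ((1 : ℝ) / 2)) →
    ∀ (t : ℝ) (ψ : (ZMod P.q)ˣ →* ℂ), (Real.log x) ^ 10 ≤ |t| → |t| ≤ x → (∀ b, ‖ψ b‖ = 1) →
    ‖∑ n ∈ Ioc (yy P x) (2 * yy P x), ((∑ d ∈ n.divisors, w d : ℝ) : ℂ) * (psn ψ n * Complex.exp (Complex.I * (t * Real.log n))) ^ 2‖ ≤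
      yy P x / (Real.log x) ^ 2 := by
  have hbe : 0 < be P := by
    unfold be dl
    have := hP.d0
    positivity
  have hbe1 : be P ≤ 1 := by
    unfold be dl
    have := hP.d1
    linarith
  have hq2 := hP.q2
  have hqR : (2 : ℝ) ≤ P.q := by exact_mod_cast hq2
  obtain ⟨xv, hxv1, hxv⟩ := vc 7 (be P / 4) (by positivity)
  obtain ⟨x1, hx1⟩ := (((Real.tendsto_log_atTop.comp tendsto_natCast_atTop_atTop).eventually
    (Filter.eventually_ge_atTop (max (8 : ℝ) (3 * P.q))))).exists_forall_of_atTop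
  obtain ⟨x2, hx2⟩ := (((tendsto_rpow_atTop (show 0 < be P / 4 by positivity)).comp tendsto_natCast_atTop_atTop).eventually
    (Filter.eventually_ge_atTop (8 * (P.q : ℝ)))).exists_forall_of_atTop
  refine ⟨max (max x1 x2) (max (⌈xv⌉₊) 4), fun x hx w hw hw0 t ψ ht htx hψ => ?_⟩
  have hKm := hx1 x ((le_max_left _ _).trans ((le_max_left _ _).trans hx))
  have hXm := hx2 x ((le_max_right _ _).trans ((le_max_left _ _).trans hx))
  have hxv2 : xv ≤ x := Nat.ceil_le.1 ((le_max_left _ _).trans ((le_max_right _ _).trans hx))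
  have hx4 : 4 ≤ x := (le_max_right _ _).trans ((le_max_right _ _).trans hx)
  obtain ⟨K, hKd⟩ : ∃ K : ℝ, K = Real.log x := ⟨_, rfl⟩
  simp only [Function.comp_apply, ← hKd] at hKm hXm
  have hK8 : (8 : ℝ) ≤ K := (le_max_left _ _).trans hKm
  have hKq : 3 * P.q ≤ K := (le_max_right _ _).trans hKm
  have hK0 : 0 < K := by linarith
  have hxR : (0 : ℝ) < x := by
    have : 0 < x := by omega
    exact_mod_cast this
  rw [← hKd] at ht ⊢
  -- the size of `y`
  obtain ⟨X, hX⟩ : ∃ X : ℝ, X = (x : ℝ) ^ (be P / 4) := ⟨_, rfl⟩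
  rw [← hX] at hXm
  have hX4 : X ^ 4 = (x : ℝ) ^ be P := by
    rw [hX, ← Real.rpow_natCast, ← Real.rpow_mul hxR.le]
    congr 1
    push_cast
    ring
  obtain ⟨y, hy⟩ : ∃ y, y = yy P x := ⟨_, rfl⟩
  rw [← hy] at hw0 ⊢
  have hyx : (y : ℝ) ≤ X ^ 4 := by
    rw [hy, yy, hX4]
    exact Nat.floor_le (by positivity)
  have hyl : X ^ 4 - 1 < y := by
    have h1 := Nat.lt_floor_add_one ((x : ℝ) ^ be P)
    rw [hy, yy, hX4]
    linarith
  have hX16 : (16 : ℝ) ≤ X := by linarith
  have hX0 : 0 < X := by linarith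
  have hyX : X ^ 4 / 4 ≤ (y : ℝ) := by
    have : (1 : ℝ) ≤ X ^ 4 / 2 := by
      have := one_le_pow₀ (n := 4) (show (1 : ℝ) ≤ X / 2 by linarith)
      have h2 : (X / 2) ^ 4 = X ^ 4 / 16 := by ring
      rw [h2] at this
      linarith
    linarith
  have hy1R : (1 : ℝ) ≤ y := by
    have h1 := one_le_pow₀ (n := 4) (show (1 : ℝ) ≤ X / 2 by linarith)
    have h2 : (X / 2) ^ 4 = X ^ 4 / 16 := by ring
    rw [h2] at h1
    linarith
  have hy1 : 1 ≤ y := by exact_mod_cast hy1R
  have hlogy : Real.log ((2 * y : ℕ) : ℝ) ≤ 2 * K := by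
    push_cast
    rw [Real.log_mul (by norm_num) (by linarith)]
    have h1 : Real.log y ≤ be P * K := by
      refine (Real.log_le_log (by linarith) hyx).trans ?_
      rw [hX4, Real.log_rpow hxR, hKd]
    have h2 := Real.log_two_lt_d9
    nlinarith
  -- exchange of the sums
  obtain ⟨h, hh⟩ : ∃ h : ℕ → ℂ, h = fun n => (psn ψ n *
      Complex.exp (Complex.I * (t * Real.log n))) ^ 2 := ⟨_, rfl⟩
  have hswap : ∑ n ∈ Ioc y (2 * y), ((∑ d ∈ n.divisors, w d : ℝ) : ℂ) * (psn ψ n *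
      Complex.exp (Complex.I * (t * Real.log n))) ^ 2 =
      ∑ d ∈ Icc 1 (2 * y), (w d : ℂ) * ∑ n ∈ (Ioc y (2 * y)).filter (fun n => d ∣ n), h n := by
    have h1 : ∀ n ∈ Ioc y (2 * y), ((∑ d ∈ n.divisors, w d : ℝ) : ℂ) * (psn ψ n *
        Complex.exp (Complex.I * (t * Real.log n))) ^ 2 =
        ∑ d ∈ Icc 1 (2 * y), if d ∣ n then (w d : ℂ) * h n else 0 := by
      intro n hn
      rw [mem_Ioc] at hn
      have h2 : n.divisors = (Icc 1 (2 * y)).filter (fun d => d ∣ n) := by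
        ext d
        rw [Nat.mem_divisors, mem_filter, mem_Icc]
        constructor
        · rintro ⟨h3, h4⟩
          have h5 := Nat.le_of_dvd (by omega) h3
          have h6 := Nat.pos_of_dvd_of_pos h3 (by omega)
          exact ⟨⟨h6, by omega⟩, h3⟩
        · rintro ⟨_, h3⟩
          exact ⟨h3, by omega⟩
      rw [h2, ← sum_filter, hh, Complex.ofReal_sum, sum_mul]
    rw [sum_congr rfl h1, sum_comm]
    refine sum_congr rfl fun d _ => ?_
    rw [← sum_filter, mul_sum]
  rw [hswap]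
  have hone : ∀ d ∈ Icc 1 (2 * y), ‖(w d : ℂ) *
      ∑ n ∈ (Ioc y (2 * y)).filter (fun n => d ∣ n), h n‖ ≤
      P.q * y / K ^ 7 * (1 / (d : ℝ)) := by
    intro d hd
    rw [mem_Icc] at hd
    have hd0 : (0 : ℝ) < d := by exact_mod_cast hd.1
    by_cases hwd : w d = 0
    · rw [hwd, Complex.ofReal_zero, zero_mul, norm_zero]
      positivity
    obtain ⟨-, hdy⟩ := hw0 d hwd
    have hdy2 : (d : ℝ) ^ 2 ≤ y := by
      rw [← Real.sqrt_eq_rpow] at hdy
      have h1 := pow_le_pow_left₀ hd0.le hdy 2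
      rwa [Real.sq_sqrt (by linarith)] at h1
    have hdX : (d : ℝ) ≤ X ^ 2 := by
      have h1 : (d : ℝ) ^ 2 ≤ (X ^ 2) ^ 2 := by
        calc (d : ℝ) ^ 2 ≤ y := hdy2
          _ ≤ X ^ 4 := hyx
          _ = (X ^ 2) ^ 2 := by ring
      exact le_of_sq_le_sq h1 (by positivity)
    have hYR : (y : ℝ) / d < ((y / d : ℕ) : ℝ) + 1 := by
      rw [div_lt_iff₀ hd0]
      have h3 := Nat.div_add_mod y d
      have h4 := Nat.mod_lt y (show 0 < d by omega)
      have h5 : y < (y / d + 1) * d := by nlinarith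
      exact_mod_cast h5
    have hYX : X ^ 2 / 4 ≤ (y : ℝ) / d := by
      rw [le_div_iff₀ hd0]
      calc X ^ 2 / 4 * d ≤ X ^ 2 / 4 * X ^ 2 := mul_le_mul_of_nonneg_left hdX (by positivity)
        _ = X ^ 4 / 4 := by ring
        _ ≤ y := hyX
    have hY0q : 2 * (P.q : ℝ) * X ≤ X ^ 2 / 4 := by nlinarith
    have hqX : 2 * (P.q : ℝ) + 2 ≤ P.q * X := by nlinarith
    have hbig : (P.q : ℝ) * X + 2 * P.q + 1 ≤ ((y / d : ℕ) : ℝ) := by nlinarith
    have hY0 : P.q ≤ y / d := by
      have h1 : (P.q : ℝ) ≤ ((y / d : ℕ) : ℝ) := by nlinarith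
      exact_mod_cast h1
    have hY01 : y / d ≤ 2 * y / d := Nat.div_le_div_right (by omega)
    have hY1 : 2 * y / d ≤ 2 * (y / d) + 1 := by
      have h1 : 2 * y / d < 2 * (y / d) + 2 := by
        rw [Nat.div_lt_iff_lt_mul (by omega)]
        have h3 := Nat.div_add_mod y d
        have h4 := Nat.mod_lt y (show 0 < d by omega)
        nlinarith
      omega
    -- multiplicativity
    have hmul : ∀ m ∈ Ioc (y / d) (2 * y / d), h (d * m) = h d * (psn ψ (m % P.q) ^ 2 *
        Complex.exp (Complex.I * ((2 * t : ℝ) * Real.log m))) := by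
      intro m hm
      rw [mem_Ioc] at hm
      have hm0 : m ≠ 0 := by omega
      have hd0' : d ≠ 0 := by omega
      have hlog : Real.log ((d * m : ℕ) : ℝ) = Real.log d + Real.log m := by
        rw [Nat.cast_mul, Real.log_mul (by exact_mod_cast hd0') (by exact_mod_cast hm0)]
      rw [hh]
      show (psn ψ (d * m) *
        Complex.exp (Complex.I * (t * Real.log ((d * m : ℕ) : ℝ)))) ^ 2 = _
      rw [hlog, Ca2_psn_mul, ← Ca2_psn_mod ψ m]
      have h5 : Complex.exp (Complex.I * (t * ((Real.log d + Real.log m : ℝ) : ℂ))) =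
          Complex.exp (Complex.I * (t * Real.log d)) *
            Complex.exp (Complex.I * (t * Real.log m)) := by
        rw [← Complex.exp_add]
        congr 1
        push_cast
        ring
      have h6 : Complex.exp (Complex.I * ((2 * t : ℝ) * Real.log m)) =
          Complex.exp (Complex.I * (t * Real.log m)) ^ 2 := by
        rw [← Complex.exp_nat_mul]
        congr 1
        push_cast
        ring
      rw [h5, h6]
      ring
    have hhd : ‖h d‖ ≤ 1 := by
      rw [hh]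
      show ‖(psn ψ d * Complex.exp (Complex.I * (t * Real.log d))) ^ 2‖ ≤ 1
      have h2 : (t : ℂ) * Real.log d = ((t * Real.log d : ℝ) : ℂ) := by
        push_cast
        ring
      rw [norm_pow, norm_mul, h2, Ca2_norm, mul_one]
      exact pow_le_one₀ (norm_nonneg _) (Ca2_psn_le ψ hψ d)
    rw [Ca2_reidx y d hd.1 h, sum_congr rfl hmul, ← mul_sum, norm_mul, norm_mul]
    have hwn : ‖((w d : ℝ) : ℂ)‖ ≤ 1 := by
      rw [Complex.norm_real, Real.norm_eq_abs]
      exact hw d
    -- the inner sum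
    have hin : ‖∑ m ∈ Ioc (y / d) (2 * y / d), psn ψ (m % P.q) ^ 2 *
        Complex.exp (Complex.I * ((2 * t : ℝ) * Real.log m))‖ ≤ P.q * ((y : ℝ) / d / K ^ 7) := by
      have hsplit : ∑ m ∈ Ioc (y / d) (2 * y / d), psn ψ (m % P.q) ^ 2 *
          Complex.exp (Complex.I * ((2 * t : ℝ) * Real.log m)) = ∑ a ∈ range P.q, psn ψ a ^ 2 *
          ∑ m ∈ (Ioc (y / d) (2 * y / d)).filter (fun m => m % P.q = a),
            Complex.exp (Complex.I * ((2 * t : ℝ) * Real.log m)) := by
        rw [← sum_fiberwise_of_maps_to (s := Ioc (y / d) (2 * y / d)) (t := range P.q) (g := fun n => n % P.q)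
          (fun n _ => mem_range.2 (Nat.mod_lt n (by omega)))]
        refine sum_congr rfl fun a _ => ?_
        rw [mul_sum]
        refine sum_congr rfl fun n hn => ?_
        rw [(mem_filter.1 hn).2]
      rw [hsplit]
      refine (norm_sum_le _ _).trans ?_
      have hcl : ∀ a ∈ range P.q, ‖psn ψ a ^ 2 *
          ∑ m ∈ (Ioc (y / d) (2 * y / d)).filter (fun m => m % P.q = a),
            Complex.exp (Complex.I * ((2 * t : ℝ) * Real.log m))‖ ≤ (y : ℝ) / d / K ^ 7 := by
        intro a ha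
        rw [mem_range] at ha
        have hp1 : ‖psn ψ a ^ 2‖ ≤ 1 := by
          rw [norm_pow]
          exact pow_le_one₀ (norm_nonneg _) (Ca2_psn_le ψ hψ a)
        rw [Ca2_class P.q a (y / d) (2 * y / d) (by omega) ha (by omega) hY01]
        obtain ⟨k0, hk0⟩ : ∃ k0, k0 = (y / d - a) / P.q := ⟨_, rfl⟩
        obtain ⟨k1, hk1⟩ : ∃ k1, k1 = (2 * y / d - a) / P.q := ⟨_, rfl⟩
        rw [← hk0, ← hk1]
        have hk01 : k1 ≤ 2 * k0 + 2 := by
          have h1 : y / d - a < P.q * (k0 + 1) := by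
            rw [hk0]
            exact Nat.lt_mul_div_succ _ (by omega)
          have h2 : P.q * k1 ≤ 2 * y / d - a := by
            rw [hk1]
            exact Nat.mul_div_le _ _
          by_contra hc
          have h3 : P.q * (2 * k0 + 3) ≤ P.q * k1 := Nat.mul_le_mul_left _ (by omega)
          have h4 : P.q * (2 * k0 + 3) = 2 * (P.q * (k0 + 1)) + P.q := by ring
          omega
        have hk0R : X ≤ k0 := by
          have h1 : y / d - a < P.q * (k0 + 1) := by
            rw [hk0]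
            exact Nat.lt_mul_div_succ _ (by omega)
          have h2 : y / d < P.q * (k0 + 1) + P.q := by omega
          have h3 : ((y / d : ℕ) : ℝ) < P.q * (k0 + 1) + P.q := by exact_mod_cast h2
          by_contra hc
          rw [not_le] at hc
          have h4 : (P.q : ℝ) * k0 ≤ P.q * X := mul_le_mul_of_nonneg_left hc.le (by linarith)
          nlinarith
        have hk0y : (k0 : ℝ) ≤ (y : ℝ) / d := by
          have h1 : k0 ≤ y / d := by
            rw [hk0]
            exact (Nat.div_le_self _ _).trans (Nat.sub_le _ _)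
          have h2 : ((y / d : ℕ) : ℝ) ≤ (y : ℝ) / d := Nat.cast_div_le
          have h3 : (k0 : ℝ) ≤ ((y / d : ℕ) : ℝ) := by exact_mod_cast h1
          linarith
        have hlogk : ∀ k ∈ Ioc k0 k1, Complex.exp (Complex.I * ((2 * t : ℝ) * Real.log ((P.q * k + a : ℕ) : ℝ))) =
            Complex.exp (Complex.I * (((2 * t) * Real.log P.q : ℝ) : ℂ)) *
              Complex.exp (Complex.I * ((2 * t : ℝ) * Real.log (k + (a : ℝ) / P.q))) := by
          intro k hk
          rw [mem_Ioc] at hk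
          have hkR : (0 : ℝ) < k := by
            have : 0 < k := by omega
            exact_mod_cast this
          have hq0 : (0 : ℝ) < P.q := by linarith
          have h1 : ((P.q * k + a : ℕ) : ℝ) = P.q * (k + (a : ℝ) / P.q) := by
            push_cast
            field_simp
          have h2 : Real.log ((P.q * k + a : ℕ) : ℝ) = Real.log P.q + Real.log (k + (a : ℝ) / P.q) := by
            rw [h1, Real.log_mul hq0.ne' (by positivity)]
          rw [h2, ← Complex.exp_add]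
          congr 1
          push_cast
          ring
        rw [sum_congr rfl hlogk, ← mul_sum, norm_mul, norm_mul, Ca2_norm, one_mul]
        have hv := hxv x hxv2 (2 * t) (by
            rw [abs_mul, abs_of_pos (by norm_num : (0 : ℝ) < 2), ← hKd]
            have : 0 ≤ |t| := abs_nonneg t
            have h9 : K ^ (7 + 3) ≤ |t| := ht
            linarith) (by
            rw [abs_mul, abs_of_pos (by norm_num : (0 : ℝ) < 2)]
            linarith) k0 k1 (by rw [← hX]; exact hk0R) hk01 ((a : ℝ) / P.q) (by positivity) (by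
            rw [div_le_one (by linarith)]
            exact_mod_cast ha.le)
        rw [← hKd] at hv
        calc ‖psn ψ a ^ 2‖ * ‖∑ k ∈ Ioc k0 k1, Complex.exp (Complex.I * ((2 * t : ℝ) * Real.log (k + (a : ℝ) / P.q)))‖
            ≤ 1 * (k0 / K ^ 7) := mul_le_mul hp1 hv (norm_nonneg _) zero_le_one
          _ = k0 / K ^ 7 := one_mul _
          _ ≤ (y : ℝ) / d / K ^ 7 := div_le_div_of_nonneg_right hk0y (by positivity)
      refine (sum_le_sum hcl).trans (le_of_eq ?_)
      rw [sum_const, card_range, nsmul_eq_mul]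
    calc ‖((w d : ℝ) : ℂ)‖ * (‖h d‖ * ‖∑ m ∈ Ioc (y / d) (2 * y / d), psn ψ (m % P.q) ^ 2 *
          Complex.exp (Complex.I * ((2 * t : ℝ) * Real.log m))‖)
        ≤ 1 * (1 * (P.q * ((y : ℝ) / d / K ^ 7))) :=
          mul_le_mul hwn (mul_le_mul hhd hin (norm_nonneg _) zero_le_one)
            (by positivity) zero_le_one
      _ = P.q * y / K ^ 7 * (1 / (d : ℝ)) := by
          field_simp
  refine (norm_sum_le _ _).trans ((sum_le_sum hone).trans ?_)
  rw [← mul_sum]
  have hharm : ∑ d ∈ Icc 1 (2 * y), 1 / (d : ℝ) ≤ 3 * K := by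
    have h1 := harmonic_le_one_add_log (2 * y)
    rw [harmonic_eq_sum_Icc] at h1
    push_cast at h1
    have h2 : ∑ d ∈ Icc 1 (2 * y), 1 / (d : ℝ) = ∑ d ∈ Icc 1 (2 * y), (d : ℝ)⁻¹ :=
      sum_congr rfl fun d _ => one_div _
    push_cast at hlogy
    rw [h2]
    linarith
  have hy0 : (0 : ℝ) ≤ y := by linarith
  calc P.q * (y : ℝ) / K ^ 7 * ∑ d ∈ Icc 1 (2 * y), 1 / (d : ℝ) ≤ P.q * y / K ^ 7 * (3 * K) :=
        mul_le_mul_of_nonneg_left hharm (by positivity)
    _ = (3 * P.q) * y / K ^ 6 := by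
        field_simp
    _ ≤ K * y / K ^ 6 := by
        apply div_le_div_of_nonneg_right _ (by positivity)
        exact mul_le_mul_of_nonneg_right hKq hy0
    _ ≤ y / K ^ 2 := by
        rw [div_le_div_iff₀ (by positivity) (by positivity)]
        have h1 : K * y * K ^ 2 = y * K ^ 3 := by ring
        rw [h1]
        apply mul_le_mul_of_nonneg_left _ hy0
        exact pow_le_pow_right₀ (by linarith) (by norm_num)

end Pool.Agent.Lib.TT
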