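import Pool.Agent.Lib.MP_092512_nt.TT.Def

/-!
# TT / Pv (75 minutes): Parseval on `Z/J × (Z/q)^*`

`f = ± 1`. For `c = ± 1`: the mean of `(f(g₀ g) - c f(g))^2` is `∑_χ |f̂(χ)|^2 |χ(g₀) - c|^2`, `∑ |f̂|^2 = 1`; so some `χ` does at least as well as the average. Mathlib: `AddChar` on the finite group `ZMod J × Additive (ZMod q)ˣ` (orthogonality, `AddChar.wInner...`), or by hand with `ZMod.dft` in the first variable and `DirichletCharacter`/`MulChar` in the second. `χ(1, 1) = e^{iθ}`.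
-/

set_option autoImplicit false

open Finset

namespace Pool.Agent.Lib.TT

open Pool.Agent.Lib.TCF (pht TUP rho)
open Pool.Agent.Lib.RG (Rough PN)
open Pool.Agent.Lib.MP_45349e_nt.LS (lam)


private theorem Pv_parseval {α : Type*} [AddCommGroup α] [Fintype α] [DecidableEq α] (H : α → ℂ) :
    ∑ χ : AddChar α ℂ, ‖∑ g, χ (-g) * H g‖ ^ 2 = Fintype.card α * ∑ g, ‖H g‖ ^ 2 := by
  apply Complex.ofReal_injective
  push_cast
  have h1 : ∀ χ : AddChar α ℂ, ((‖∑ g, χ (-g) * H g‖ : ℝ) : ℂ) ^ 2 =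
      ∑ g, ∑ g', (H g * (starRingEnd ℂ) (H g')) * χ (g' - g) := by
    intro χ
    rw [← Complex.mul_conj', map_sum, Finset.sum_mul_sum]
    refine Finset.sum_congr rfl fun g _ => Finset.sum_congr rfl fun g' _ => ?_
    rw [map_mul, ← AddChar.map_neg_eq_conj, neg_neg, sub_eq_add_neg, AddChar.map_add_eq_mul]
    ring
  rw [Finset.sum_congr rfl fun χ _ => h1 χ, Finset.sum_comm, Finset.mul_sum]
  refine Finset.sum_congr rfl fun g _ => ?_
  rw [Finset.sum_comm]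
  have h2 : ∀ g' : α, ∑ χ : AddChar α ℂ, (H g * (starRingEnd ℂ) (H g')) * χ (g' - g) =
      if g' = g then (Fintype.card α : ℂ) * ((‖H g‖ : ℝ) : ℂ) ^ 2 else 0 := by
    intro g'
    rw [← Finset.mul_sum, AddChar.sum_apply_eq_ite]
    by_cases h : g' = g
    · rw [if_pos h, if_pos (sub_eq_zero.2 h), h, Complex.mul_conj']
      ring
    · rw [if_neg h, if_neg (fun h3 => h (sub_eq_zero.1 h3)), mul_zero]
  rw [Finset.sum_congr rfl fun g' _ => h2 g', Finset.sum_ite_eq' Finset.univ g, if_pos (Finset.mem_univ g)]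

private theorem Pv_shift {α : Type*} [AddCommGroup α] [Fintype α] (F : α → ℂ) (χ : AddChar α ℂ)
    (g₀ : α) (c : ℂ) :
    ∑ g, χ (-g) * (F (g + g₀) - c * F g) = (χ g₀ - c) * ∑ g, χ (-g) * F g := by
  have h1 : ∑ g, χ (-g) * F (g + g₀) = χ g₀ * ∑ g, χ (-g) * F g := by
    rw [Finset.mul_sum]
    refine Fintype.sum_equiv (Equiv.addRight g₀) _ _ fun g => ?_
    rw [Equiv.coe_addRight, neg_add, AddChar.map_add_eq_mul, ← mul_assoc, mul_left_comm,
      ← AddChar.map_add_eq_mul, add_neg_cancel, AddChar.map_zero_eq_one, mul_one]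
  rw [sub_mul, ← h1, Finset.mul_sum, ← Finset.sum_sub_distrib]
  refine Finset.sum_congr rfl fun g _ => ?_
  ring

private theorem Pv_exists {α : Type*} [AddCommGroup α] [Fintype α] [DecidableEq α] (F : α → ℂ)
    (hF : ∀ g, ‖F g‖ = 1) {ι : Type} (T : Finset ι) (w : ι → ℝ) (c : ι → ℂ) (a : ι → α) :
    ∃ χ : AddChar α ℂ, ∑ i ∈ T, w i * ‖χ (a i) - c i‖ ^ 2 ≤
      ∑ i ∈ T, w i * ((∑ g, ‖F (g + a i) - c i * F g‖ ^ 2) / Fintype.card α) := by
  by_contra hcon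
  push Not at hcon
  have hN : (0 : ℝ) < Fintype.card α := by
    have := Fintype.card_pos (α := α)
    exact_mod_cast this
  set P : AddChar α ℂ → ℝ := fun χ => ‖∑ g, χ (-g) * F g‖ ^ 2 with hP
  have hP0 : ∀ χ, 0 ≤ P χ := fun χ => by positivity
  have hPs : ∑ χ, P χ = (Fintype.card α : ℝ) ^ 2 := by
    rw [hP, Pv_parseval F]
    rw [Finset.sum_congr rfl fun g _ => by rw [hF g, one_pow]]
    rw [Finset.sum_const, Finset.card_univ, nsmul_eq_mul, mul_one, pow_two]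
  have hPi : ∀ i, ∑ χ, P χ * ‖χ (a i) - c i‖ ^ 2 =
      Fintype.card α * ∑ g, ‖F (g + a i) - c i * F g‖ ^ 2 := by
    intro i
    rw [← Pv_parseval (fun g => F (g + a i) - c i * F g)]
    refine Finset.sum_congr rfl fun χ _ => ?_
    rw [Pv_shift, norm_mul, mul_pow, mul_comm]
  set Rr := ∑ i ∈ T, w i * ((∑ g, ‖F (g + a i) - c i * F g‖ ^ 2) / Fintype.card α) with hR
  have h1 : ∑ χ, P χ * (∑ i ∈ T, w i * ‖χ (a i) - c i‖ ^ 2) = (Fintype.card α : ℝ) ^ 2 * Rr := by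
    have h2 : ∀ χ : AddChar α ℂ, P χ * (∑ i ∈ T, w i * ‖χ (a i) - c i‖ ^ 2) =
        ∑ i ∈ T, w i * (P χ * ‖χ (a i) - c i‖ ^ 2) := by
      intro χ
      rw [Finset.mul_sum]
      exact Finset.sum_congr rfl fun i _ => by ring
    rw [Finset.sum_congr rfl fun χ _ => h2 χ, Finset.sum_comm, hR, Finset.mul_sum]
    refine Finset.sum_congr rfl fun i _ => ?_
    rw [← Finset.mul_sum, hPi i]
    field_simp
  have h3 : ∑ χ, P χ * Rr < ∑ χ, P χ * (∑ i ∈ T, w i * ‖χ (a i) - c i‖ ^ 2) := by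
    refine Finset.sum_lt_sum (fun χ _ => mul_le_mul_of_nonneg_left (hcon χ).le (hP0 χ)) ?_
    by_contra h4
    push Not at h4
    have h5 : ∀ χ, P χ = 0 := by
      intro χ
      by_contra h6
      have h7 := h4 χ (Finset.mem_univ χ)
      have h8 : 0 < P χ := lt_of_le_of_ne (hP0 χ) (Ne.symm h6)
      have h9 := mul_lt_mul_of_pos_left (hcon χ) h8
      linarith
    rw [Finset.sum_eq_zero fun χ _ => h5 χ] at hPs
    have h10 : (0 : ℝ) < (Fintype.card α : ℝ) ^ 2 := by positivity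
    linarith
  rw [h1, ← Finset.sum_mul, hPs] at h3
  exact lt_irrefl _ h3

theorem pars (J q : ℕ) [NeZero J] [NeZero q] (f : ZMod J → (ZMod q)ˣ → ℝ) (hf : ∀ j a, f j a = 1 ∨ f j a = -1)
    {ι : Type} (T : Finset ι) (w c : ι → ℝ) (hw : ∀ i ∈ T, 0 ≤ w i) (hc : ∀ i ∈ T, c i = 1 ∨ c i = -1) (s : ι → ℕ) (a : ι → (ZMod q)ˣ) :
    ∃ (θ : ℝ) (ψ : (ZMod q)ˣ →* ℂ), |θ| ≤ Real.pi ∧ (∀ b, ‖ψ b‖ = 1) ∧
      ∑ i ∈ T, w i * ‖Complex.exp (Complex.I * (θ * s i)) * ψ (a i) - c i‖ ^ 2 ≤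
        ∑ i ∈ T, w i * ((∑ j : ZMod J, ∑ b : (ZMod q)ˣ, (f (j + s i) (a i * b) - c i * f j b) ^ 2) / (J * Fintype.card (ZMod q)ˣ)) := by
  classical
  obtain ⟨χ, hχ⟩ := Pv_exists (α := ZMod J × Additive (ZMod q)ˣ)
    (fun g => ((f g.1 (Additive.toMul g.2) : ℝ) : ℂ)) (by
      intro g
      rw [Complex.norm_real]
      rcases hf g.1 (Additive.toMul g.2) with h | h
      · rw [h]; simp
      · rw [h]; simp) T w (fun i => ((c i : ℝ) : ℂ)) (fun i => ((s i : ZMod J), Additive.ofMul (a i)))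
  have hnorm : ∀ g, ‖χ g‖ = 1 := fun g => AddChar.norm_apply χ g
  refine ⟨Complex.arg (χ (1, 0)),
    { toFun := fun b => χ (0, Additive.ofMul b)
      map_one' := by
        rw [ofMul_one]
        exact AddChar.map_zero_eq_one χ
      map_mul' := fun x y => by
        rw [ofMul_mul, ← AddChar.map_add_eq_mul, Prod.mk_add_mk, add_zero] }, Complex.abs_arg_le_pi _,
    fun b => hnorm _, ?_⟩
  have hexp : ∀ n : ℕ, Complex.exp (Complex.I * ((Complex.arg (χ (1, 0)) : ℝ) * (n : ℂ))) =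
      χ ((n : ZMod J), 0) := by
    intro n
    have h1 : Complex.exp (Complex.I * (Complex.arg (χ (1, 0)) : ℝ)) = χ (1, 0) := by
      have h2 := Complex.norm_mul_exp_arg_mul_I (χ (1, 0))
      rw [hnorm, Complex.ofReal_one, one_mul] at h2
      rw [mul_comm]; exact h2
    have h3 : ((n : ZMod J), (0 : Additive (ZMod q)ˣ)) = n • ((1 : ZMod J), (0 : Additive (ZMod q)ˣ)) := by
      ext
      · simp
      · simp
    rw [h3, AddChar.map_nsmul_eq_pow, ← h1, ← Complex.exp_nat_mul, h1]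
    congr 1
    ring
  have hL : ∀ i ∈ T, w i * ‖Complex.exp (Complex.I * ((Complex.arg (χ (1, 0)) : ℝ) * (s i : ℂ))) *
      χ (0, Additive.ofMul (a i)) - c i‖ ^ 2 = w i * ‖χ ((s i : ZMod J), Additive.ofMul (a i)) - c i‖ ^ 2 := by
    intro i _
    rw [hexp, ← AddChar.map_add_eq_mul, Prod.mk_add_mk, add_zero, zero_add]
  have hR : ∀ i ∈ T, w i * ((∑ g : ZMod J × Additive (ZMod q)ˣ,
      ‖((f (g + ((s i : ZMod J), Additive.ofMul (a i))).1
        (Additive.toMul (g + ((s i : ZMod J), Additive.ofMul (a i))).2) : ℝ) : ℂ) -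
        ((c i : ℝ) : ℂ) * ((f g.1 (Additive.toMul g.2) : ℝ) : ℂ)‖ ^ 2) /
        Fintype.card (ZMod J × Additive (ZMod q)ˣ)) =
      w i * ((∑ j : ZMod J, ∑ b : (ZMod q)ˣ, (f (j + s i) (a i * b) - c i * f j b) ^ 2) /
        (J * Fintype.card (ZMod q)ˣ)) := by
    intro i _
    rw [Fintype.card_prod, ZMod.card, Fintype.sum_prod_type]
    have e1 : Fintype.card (Additive (ZMod q)ˣ) = Fintype.card (ZMod q)ˣ :=
      Fintype.card_congr Additive.toMul
    rw [e1, Nat.cast_mul]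
    congr 2
    refine Finset.sum_congr rfl fun j _ => ?_
    refine Fintype.sum_equiv Additive.toMul _ _ fun b => ?_
    rw [← Complex.ofReal_mul, ← Complex.ofReal_sub, Complex.norm_real, Real.norm_eq_abs, sq_abs,
      Prod.fst_add, Prod.snd_add, toMul_add, toMul_ofMul, mul_comm (Additive.toMul b)]
  rw [Finset.sum_congr rfl hR] at hχ
  refine le_trans (le_of_eq ?_) hχ
  exact Finset.sum_congr rfl hL

end Pool.Agent.Lib.TT
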