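import Pool.Agent.Lib.MP_092512_nt.TT.N3
import Pool.Agent.Lib.MP_092512_nt.TT.Pv

/-!
# TT / P1 (75 minutes): (5.1)-(5.3): one character

Text section 5. `pars` with `T = Sr ∪ {one more index}`: weights `1 / |Sr|` and `x ^ (δ/4)` for the shift `(1, 1)`. `n ^ (it) = exp (i t log n)`, `t = θ Q`, `|θ s_n - t log n| ≤ |θ|`. From `|e^{iθ} - 1| ≤ x ^ (-δ/8)` and `|θ| ≤ π`: `|θ| ≤ 2 x ^ (-δ/8)`.
-/

set_option autoImplicit false

open Finset

namespace Pool.Agent.Lib.TT

open Pool.Agent.Lib.TCF (pht TUP rho)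
open Pool.Agent.Lib.RG (Rough PN)
open Pool.Agent.Lib.MP_45349e_nt.LS (lam)


private theorem P1_sq {u v c : ℝ} (hu : u = 1 ∨ u = -1) (hv : v = 1 ∨ v = -1)
    (hc : c = 1 ∨ c = -1) : (u - c * v) ^ 2 ≤ 4 := by
  rcases hu with rfl | rfl <;> rcases hv with rfl | rfl <;> rcases hc with rfl | rfl <;> norm_num

open Classical in
private theorem P1_cnt (J q : ℕ) [NeZero J] [NeZero q] (F : ℕ → (ZMod q)ˣ → ℝ)
    (hF : ∀ j a, F j a = 1 ∨ F j a = -1) (c : ℝ) (hc : c = 1 ∨ c = -1) (s : ℕ) (a : (ZMod q)ˣ) :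
    ∑ j : ZMod J, ∑ b : (ZMod q)ˣ, (F (j + (s : ZMod J)).val (a * b) - c * F j.val b) ^ 2 ≤
      4 * (∑ b : (ZMod q)ˣ, (((range J).filter fun k => k + s + 3 < J ∧
        F (k + s) (a * b) ≠ c * F k b).card : ℝ) + (s + 3) * Fintype.card (ZMod q)ˣ) := by
  rw [Finset.sum_comm]
  have key : ∀ b : (ZMod q)ˣ,
      ∑ j : ZMod J, (F (j + (s : ZMod J)).val (a * b) - c * F j.val b) ^ 2 ≤
      4 * (((range J).filter fun k => k + s + 3 < J ∧
        F (k + s) (a * b) ≠ c * F k b).card : ℝ) + 4 * (s + 3) := by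
    intro b
    have h1 : ∑ j : ZMod J, (F (j + (s : ZMod J)).val (a * b) - c * F j.val b) ^ 2 =
        ∑ k ∈ range J, (F (((k : ZMod J) + (s : ZMod J)).val) (a * b) - c * F k b) ^ 2 := by
      refine Finset.sum_nbij' (fun j => j.val) (fun k => (k : ZMod J)) ?_ ?_ ?_ ?_ ?_
      · intro j _
        exact Finset.mem_range.2 (ZMod.val_lt j)
      · intro k _
        exact Finset.mem_univ _
      · intro j _
        exact ZMod.natCast_zmod_val j
      · intro k hk
        exact ZMod.val_cast_of_lt (Finset.mem_range.1 hk)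
      · intro j _
        rw [ZMod.natCast_zmod_val]
    have h2 : ∀ k ∈ range J,
        (F (((k : ZMod J) + (s : ZMod J)).val) (a * b) - c * F k b) ^ 2 ≤
        (if k + s + 3 < J ∧ F (k + s) (a * b) ≠ c * F k b then (4 : ℝ) else 0) +
          (if J ≤ k + s + 3 then (4 : ℝ) else 0) := by
      intro k _
      by_cases h3 : J ≤ k + s + 3
      · rw [if_pos h3, if_neg (fun h => absurd h.1 (not_lt.2 h3)), zero_add]
        exact P1_sq (hF _ _) (hF _ _) hc
      · rw [if_neg h3, add_zero]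
        have h4 : k + s + 3 < J := not_le.1 h3
        rw [← Nat.cast_add, ZMod.val_cast_of_lt (by omega)]
        by_cases h5 : F (k + s) (a * b) = c * F k b
        · rw [if_neg (fun h => h.2 h5), h5, sub_self]
          norm_num
        · rw [if_pos ⟨h4, h5⟩]
          exact P1_sq (hF _ _) (hF _ _) hc
    have h3 : (((range J).filter fun k => J ≤ k + s + 3).card : ℝ) ≤ s + 3 := by
      have h4 : ((range J).filter fun k => J ≤ k + s + 3) ⊆ Finset.Ico (J - (s + 3)) J := by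
        intro k hk
        rw [Finset.mem_filter, Finset.mem_range] at hk
        rw [Finset.mem_Ico]
        omega
      have h5 := Finset.card_le_card h4
      rw [Nat.card_Ico] at h5
      have h6 : ((range J).filter fun k => J ≤ k + s + 3).card ≤ s + 3 := by omega
      exact_mod_cast h6
    rw [h1]
    refine (Finset.sum_le_sum h2).trans ?_
    rw [Finset.sum_add_distrib, ← Finset.sum_filter, ← Finset.sum_filter, Finset.sum_const,
      Finset.sum_const, nsmul_eq_mul, nsmul_eq_mul]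
    linarith
  refine (Finset.sum_le_sum fun b _ => key b).trans ?_
  rw [Finset.sum_add_distrib, ← Finset.mul_sum, Finset.sum_const, Finset.card_univ, nsmul_eq_mul]
  linarith

private theorem P1_dl (P : Par) (hP : P.Ok) : 0 < dl P ∧ dl P ≤ 1 / 16 := by
  have h1 := hP.d0
  have h2 := hP.d1
  unfold dl
  constructor <;> linarith

private theorem P1_num (P : Par) (hP : P.Ok) : ∃ x0 : ℕ, ∀ x : ℕ, x0 ≤ x → (1 : ℝ) ≤ x ∧
    (x : ℝ) ^ (-(dl P / 4)) ≤ 1 / 100000 ∧ 4 / (Real.log x) ^ 5 ≤ 1 / 2000 ∧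
    (∀ n : ℕ, 1 ≤ n → n ≤ 2 * yy P x → QQ P x * Real.log n ≤ JJ P x / 190) ∧ 1 ≤ QQ P x := by
  obtain ⟨hd, hd'⟩ := P1_dl P hP
  have h0 : Filter.Tendsto (fun x : ℕ => Real.log x) Filter.atTop Filter.atTop :=
    Real.tendsto_log_atTop.comp tendsto_natCast_atTop_atTop
  obtain ⟨x1, hx1⟩ := Filter.eventually_atTop.1 (h0.eventually_ge_atTop (400000 / dl P + 10))
  refine ⟨max x1 1, fun x hx => ?_⟩
  have hx' : (1 : ℝ) ≤ x := by
    have : 1 ≤ x := (le_max_right _ _).trans hx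
    exact_mod_cast this
  have hx0 : (0 : ℝ) < x := by linarith
  have hL := hx1 x ((le_max_left _ _).trans hx)
  set L := Real.log x with hLd
  have h400 : 0 < 400000 / dl P := by positivity
  have hL10 : 10 ≤ L := by linarith
  have hdL : 400000 ≤ dl P * L := by
    have h1 : 400000 / dl P ≤ L := by linarith
    rw [div_le_iff₀ hd] at h1
    linarith
  have hQ1 : 1 ≤ QQ P x := by
    unfold QQ
    exact Real.one_le_rpow hx' (by linarith)
  refine ⟨hx', ?_, ?_, ?_, hQ1⟩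
  · rw [Real.rpow_def_of_pos hx0, ← hLd]
    have h1 : L * -(dl P / 4) = -(dl P * L / 4) := by ring
    rw [h1, Real.exp_neg, one_div]
    have h2 := Real.add_one_le_exp (dl P * L / 4)
    have h3 : (100000 : ℝ) ≤ Real.exp (dl P * L / 4) := by linarith
    exact inv_anti₀ (by norm_num) h3
  · have h1 : (10 : ℝ) ^ 5 ≤ L ^ 5 := pow_le_pow_left₀ (by norm_num) hL10 5
    rw [div_le_div_iff₀ (by positivity) (by norm_num)]
    linarith
  · intro n hn hn2
    have hn0 : (0 : ℝ) < n := by exact_mod_cast hn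
    have h1 : (n : ℝ) ≤ 2 * (x : ℝ) ^ be P := by
      have h2 : (n : ℝ) ≤ 2 * (yy P x : ℝ) := by exact_mod_cast hn2
      have h3 : (yy P x : ℝ) ≤ (x : ℝ) ^ be P := Nat.floor_le (Real.rpow_nonneg hx0.le _)
      linarith
    have h2 : Real.log n ≤ Real.log 2 + be P * L := by
      have h3 := Real.log_le_log hn0 h1
      rwa [Real.log_mul (by norm_num) (Real.rpow_pos_of_pos hx0 _).ne', Real.log_rpow hx0] at h3
    have h3 : Real.log 2 ≤ 1 := by
      have := Real.log_two_lt_d9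
      linarith
    have h4 : QQ P x * (dl P * L) - 1 ≤ JJ P x := by
      have h5 := Nat.lt_floor_add_one (QQ P x * (dl P * Real.log x))
      unfold JJ
      linarith
    have h5 : be P * L = dl P * L / 200 := by
      unfold be
      ring
    have hQ0 : 0 ≤ QQ P x := by linarith
    have h6 : QQ P x * Real.log n ≤ QQ P x * (1 + dl P * L / 200) :=
      mul_le_mul_of_nonneg_left (by linarith) hQ0
    have h7 : 1 * (dl P * L / 20 - 190) ≤ QQ P x * (dl P * L / 20 - 190) :=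
      mul_le_mul_of_nonneg_right hQ1 (by linarith)
    rw [le_div_iff₀ (by norm_num)]
    nlinarith

private theorem P1_mono (P : Par) (x Lam : ℕ) : Monotone (vv P x Lam) := by
  intro i j hij
  unfold vv
  apply Nat.floor_mono
  apply div_le_div_of_nonneg_right _ (Nat.cast_nonneg _)
  unfold ee
  have hU : 0 ≤ U0 P x := by
    unfold U0
    have := Real.rpow_nonneg (Nat.cast_nonneg (α := ℝ) x) (1 - dl P)
    positivity
  apply mul_le_mul_of_nonneg_left _ hU
  apply Real.exp_le_exp.2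
  apply div_le_div_of_nonneg_right _ (Real.rpow_nonneg (Nat.cast_nonneg _) _)
  exact_mod_cast hij

private theorem P1_lam (n : ℕ) : lam n = 1 ∨ lam n = -1 := by
  unfold lam
  exact neg_one_pow_eq_or ℝ _

/-- passing from `e^{iθ s}` to `n^{it}` -/
private theorem P1_exp (θ Q : ℝ) (s : ℕ) (r : ℝ) (h : |Q * r - s| ≤ 1) (z w : ℂ) (hz : ‖z‖ = 1) :
    ‖z * Complex.exp (Complex.I * (((θ * Q : ℝ) : ℂ) * (r : ℂ))) - w‖ ^ 2 ≤
      8 / 7 * ‖Complex.exp (Complex.I * (θ * s)) * z - w‖ ^ 2 + 8 * θ ^ 2 := by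
  have h1 : ‖z * Complex.exp (Complex.I * (((θ * Q : ℝ) : ℂ) * (r : ℂ))) -
      Complex.exp (Complex.I * (θ * s)) * z‖ ≤ |θ| := by
    rw [mul_comm (Complex.exp (Complex.I * (θ * s))) z, ← mul_sub, norm_mul, hz, one_mul]
    have e1 : Complex.exp (Complex.I * (((θ * Q : ℝ) : ℂ) * (r : ℂ))) =
        Complex.exp (Complex.I * (θ * s)) *
          Complex.exp (Complex.I * ((θ * (Q * r - s) : ℝ) : ℂ)) := by
      rw [← Complex.exp_add]
      congr 1
      push_cast
      ring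
    have e2 : Complex.exp (Complex.I * (((θ * Q : ℝ) : ℂ) * (r : ℂ))) -
        Complex.exp (Complex.I * (θ * s)) = Complex.exp (Complex.I * (θ * s)) *
          (Complex.exp (Complex.I * ((θ * (Q * r - s) : ℝ) : ℂ)) - 1) := by
      rw [e1]
      ring
    rw [e2, norm_mul]
    have e3 : ‖Complex.exp (Complex.I * (θ * s))‖ = 1 := by
      have : (Complex.I * ((θ : ℂ) * s)) = ((θ * s : ℝ) : ℂ) * Complex.I := by
        push_cast
        ring
      rw [this, Complex.norm_exp_ofReal_mul_I]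
    rw [e3, one_mul]
    refine (Real.norm_exp_I_mul_ofReal_sub_one_le).trans ?_
    rw [Real.norm_eq_abs, abs_mul]
    calc |θ| * |Q * r - s| ≤ |θ| * 1 := mul_le_mul_of_nonneg_left h (abs_nonneg _)
      _ = |θ| := mul_one _
  have h2 : ‖z * Complex.exp (Complex.I * (((θ * Q : ℝ) : ℂ) * (r : ℂ))) - w‖ ≤
      ‖Complex.exp (Complex.I * (θ * s)) * z - w‖ + |θ| := by
    have e : z * Complex.exp (Complex.I * (((θ * Q : ℝ) : ℂ) * (r : ℂ))) - w =
        (Complex.exp (Complex.I * (θ * s)) * z - w) +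
        (z * Complex.exp (Complex.I * (((θ * Q : ℝ) : ℂ) * (r : ℂ))) -
          Complex.exp (Complex.I * (θ * s)) * z) := by ring
    rw [e]
    exact (norm_add_le _ _).trans (by linarith)
  have h3 : 0 ≤ ‖z * Complex.exp (Complex.I * (((θ * Q : ℝ) : ℂ) * (r : ℂ))) - w‖ := norm_nonneg _
  have h4 : 0 ≤ ‖Complex.exp (Complex.I * (θ * s)) * z - w‖ := norm_nonneg _
  have h5 := pow_le_pow_left₀ h3 h2 2
  have h6 : |θ| ^ 2 = θ ^ 2 := sq_abs θ
  have h7 := abs_nonneg θ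
  nlinarith [sq_nonneg (‖Complex.exp (Complex.I * (θ * s)) * z - w‖ - 7 * |θ|)]

open Classical in
/-- one character `ψ(n) n^{it}` imitates `λ` on `Sr` -/
theorem onech (P : Par) (hP : P.Ok) (β' : ℝ) (h0 : 0 < β') (h1 : β' ≤ be P / 30) : ∃ x0 : ℕ, ∀ D : Dat, x0 ≤ D.x → Ctx P D →
    ∀ (gg : ℕ → (ZMod P.q)ˣ → ℝ) (Lam : ℕ), LBk P D gg Lam → ∀ un : ℕ → (ZMod P.q)ˣ, (∀ n ∈ Sr P β' D.x, (un n : ZMod P.q) = n) →
    ∃ (t : ℝ) (ψ : (ZMod P.q)ˣ →* ℂ), |t| ≤ D.x ∧ (∀ b, ‖ψ b‖ = 1) ∧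
      ∑ n ∈ Sr P β' D.x, ‖ψ (un n) * Complex.exp (Complex.I * (t * Real.log n)) - lam n‖ ^ 2 ≤ (Sr P β' D.x).card / 30 := by
  obtain ⟨hd, hd'⟩ := P1_dl P hP
  obtain ⟨xa, hxa⟩ := P1_num P hP
  obtain ⟨xb, hxb⟩ := dil P hP β' h0 h1
  obtain ⟨xc, hxc⟩ := clean_card P hP
  obtain ⟨xd, hxd⟩ := ee_le P hP
  refine ⟨max (max xa xb) (max xc xd), ?_⟩
  intro D hx hC gg Lam hLB un hun
  obtain ⟨hx1, hE, hK, hlog, hQ1⟩ := hxa D.x (by omega)
  have hdil := hxb D (by omega) hC gg Lam hLB un hun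
  have hcl := hxc D.x (by omega) Lam hLB.lo
  obtain ⟨_, _, hJ1, hJlo, _⟩ := hxd D.x (by omega)
  clear hxa hxb hxc hxd
  have hq0 : P.q ≠ 0 := by
    have := hP.q2
    omega
  haveI : NeZero P.q := ⟨hq0⟩
  haveI : NeZero (JJ P D.x) := ⟨by omega⟩
  set S := Sr P β' D.x with hS
  set J := JJ P D.x with hJ
  have hJpos : (0 : ℝ) < J := by exact_mod_cast hJ1
  rcases Nat.eq_zero_or_pos S.card with hS0 | hS0
  · refine ⟨0, 1, by rw [abs_zero]; linarith, fun b => by rw [MonoidHom.one_apply, norm_one], ?_⟩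
    rw [Finset.card_eq_zero.1 hS0]
    simp
  have hSpos : (0 : ℝ) < S.card := by exact_mod_cast hS0
  have hx0 : (0 : ℝ) < D.x := by linarith
  set E := (D.x : ℝ) ^ (-(dl P / 4)) with hEd
  set V := (D.x : ℝ) ^ (dl P / 4) with hVd
  have hE0 : 0 < E := Real.rpow_pos_of_pos hx0 _
  have hV0 : 0 < V := Real.rpow_pos_of_pos hx0 _
  have hEV : E * V = 1 := by
    rw [hEd, hVd, ← Real.rpow_add hx0, neg_add_cancel, Real.rpow_zero]
  have hV1 : 1 ≤ V := Real.one_le_rpow hx1 (by linarith)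
  have hVJ : V / J ≤ E := by
    rw [div_le_iff₀ hJpos]
    refine le_trans ?_ (mul_le_mul_of_nonneg_left hJlo hE0.le)
    rw [hEd, ← Real.rpow_add hx0]
    exact Real.rpow_le_rpow_of_exponent_le hx1 (by linarith)
  have hφ : (0 : ℝ) < Fintype.card (ZMod P.q)ˣ := by
    have := Fintype.card_pos (α := (ZMod P.q)ˣ)
    exact_mod_cast this
  have hF : ∀ (j : ℕ) (a : (ZMod P.q)ˣ), ff P D.x gg Lam j a = 1 ∨ ff P D.x gg Lam j a = -1 :=
    fun j a => hLB.pm _ _
  obtain ⟨θ, ψ, hθ, hψ, hmain⟩ := pars J P.q (fun j a => ff P D.x gg Lam j.val a)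
    (fun j a => hF _ _) (Finset.insertNone S)
    (fun i => i.elim V (fun _ => 1 / (S.card : ℝ)))
    (fun i => i.elim 1 (fun n => lam n))
    (by
      intro i _
      rcases i with _ | n
      · exact hV0.le
      · exact one_div_nonneg.2 hSpos.le)
    (by
      intro i _
      rcases i with _ | n
      · exact Or.inl rfl
      · exact P1_lam n)
    (fun i => i.elim 1 (fun n => sn P D.x n)) (fun i => i.elim 1 (fun n => un n))
  rw [Finset.sum_insertNone, Finset.sum_insertNone] at hmain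
  simp only [Option.elim_none, Option.elim_some] at hmain
  -- the bound for the right side
  have hR0 : V * ((∑ j : ZMod J, ∑ b : (ZMod P.q)ˣ,
      (ff P D.x gg Lam (j + ((1 : ℕ) : ZMod J)).val (1 * b) - 1 * ff P D.x gg Lam j.val b) ^ 2) /
      (J * Fintype.card (ZMod P.q)ˣ)) ≤ 20 * E := by
    have h2 := P1_cnt J P.q (ff P D.x gg Lam) hF 1 (Or.inl rfl) 1 1
    have h3 : ∀ b : (ZMod P.q)ˣ, (((range J).filter fun k => k + 1 + 3 < J ∧
        ff P D.x gg Lam (k + 1) (1 * b) ≠ 1 * ff P D.x gg Lam k b).card : ℝ) ≤ E * E * J := by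
      intro b
      have h4 : ((range J).filter fun k => k + 1 + 3 < J ∧
          ff P D.x gg Lam (k + 1) (1 * b) ≠ 1 * ff P D.x gg Lam k b) ⊆
          ((range J).filter fun j => ¬ Clean P D.x Lam j) := by
        intro k hk
        rw [Finset.mem_filter] at hk ⊢
        refine ⟨hk.1, fun hcl => hk.2.2 ?_⟩
        rw [one_mul, one_mul]
        unfold ff
        have h5 := P1_mono P D.x Lam (Nat.le_succ k)
        have h6 := P1_mono P D.x Lam (show k + 1 ≤ k + 3 by omega)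
        have h7 : vv P D.x Lam k = vv P D.x Lam (k + 3) := hcl
        have h8 : vv P D.x Lam (k + 1) = vv P D.x Lam k := by
          have : vv P D.x Lam k ≤ vv P D.x Lam (k + 1) := h5
          omega
        rw [h8]
      have h5 : (((range J).filter fun k => k + 1 + 3 < J ∧
          ff P D.x gg Lam (k + 1) (1 * b) ≠ 1 * ff P D.x gg Lam k b).card : ℝ) ≤
          (((range J).filter fun j => ¬ Clean P D.x Lam j).card : ℝ) := by
        exact_mod_cast Finset.card_le_card h4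
      refine h5.trans (hcl.trans ?_)
      rw [hEd, ← Real.rpow_add hx0]
      apply le_of_eq
      congr 2
      ring
    have h4 : ∑ b : (ZMod P.q)ˣ, (((range J).filter fun k => k + 1 + 3 < J ∧
        ff P D.x gg Lam (k + 1) (1 * b) ≠ 1 * ff P D.x gg Lam k b).card : ℝ) ≤
        Fintype.card (ZMod P.q)ˣ * (E * E * J) := by
      refine (Finset.sum_le_sum fun b _ => h3 b).trans ?_
      rw [Finset.sum_const, Finset.card_univ, nsmul_eq_mul]
    rw [← mul_div_assoc, div_le_iff₀ (by positivity)]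
    have h5 : V * (∑ j : ZMod J, ∑ b : (ZMod P.q)ˣ,
        (ff P D.x gg Lam (j + ((1 : ℕ) : ZMod J)).val (1 * b) - 1 * ff P D.x gg Lam j.val b) ^ 2) ≤
        V * (4 * (Fintype.card (ZMod P.q)ˣ * (E * E * J) +
          (((1 : ℕ) : ℝ) + 3) * Fintype.card (ZMod P.q)ˣ)) := by
      refine mul_le_mul_of_nonneg_left (h2.trans ?_) hV0.le
      linarith
    refine h5.trans ?_
    have h6 : V ≤ E * J := by
      rw [div_le_iff₀ hJpos] at hVJ
      exact hVJ
    have e1 : V * (4 * (Fintype.card (ZMod P.q)ˣ * (E * E * J) +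
          (((1 : ℕ) : ℝ) + 3) * Fintype.card (ZMod P.q)ˣ)) =
        Fintype.card (ZMod P.q)ˣ * (4 * (E * V) * (E * J) + 16 * V) := by
      push_cast
      ring
    rw [e1, hEV]
    have e2 : 20 * E * (J * Fintype.card (ZMod P.q)ˣ) =
        Fintype.card (ZMod P.q)ˣ * (20 * (E * J)) := by ring
    rw [e2]
    refine mul_le_mul_of_nonneg_left ?_ hφ.le
    linarith
  have hS1 : ∀ n ∈ S, 1 ≤ n ∧ n ≤ 2 * yy P D.x := by
    intro n hn
    rw [hS, Sr, Finset.mem_filter, Finset.mem_Ioc] at hn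
    omega
  have hRS : ∑ n ∈ S, 1 / (S.card : ℝ) * ((∑ j : ZMod J, ∑ b : (ZMod P.q)ˣ,
      (ff P D.x gg Lam (j + ((sn P D.x n : ℕ) : ZMod J)).val (un n * b) -
        lam n * ff P D.x gg Lam j.val b) ^ 2) /
      (J * Fintype.card (ZMod P.q)ˣ)) ≤ 4 / (Real.log D.x) ^ 5 + 4 / 190 + 12 * E := by
    have h2 : ∀ n ∈ S, (∑ j : ZMod J, ∑ b : (ZMod P.q)ˣ,
        (ff P D.x gg Lam (j + ((sn P D.x n : ℕ) : ZMod J)).val (un n * b) -
        lam n * ff P D.x gg Lam j.val b) ^ 2) ≤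
        4 * (∑ b : (ZMod P.q)ˣ, (((range J).filter fun k => k + sn P D.x n + 3 < J ∧
        ff P D.x gg Lam (k + sn P D.x n) (un n * b) ≠ lam n * ff P D.x gg Lam k b).card : ℝ)) +
        4 * (J / 190 + 3) * Fintype.card (ZMod P.q)ˣ := by
      intro n hn
      have h3 := P1_cnt J P.q (ff P D.x gg Lam) hF (lam n) (P1_lam n) (sn P D.x n) (un n)
      have h4 : ((sn P D.x n : ℕ) : ℝ) ≤ J / 190 := by
        have h5 := hlog n (hS1 n hn).1 (hS1 n hn).2
        refine le_trans (Nat.floor_le ?_) h5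
        exact mul_nonneg (by linarith) (Real.log_natCast_nonneg n)
      have h5 : (((sn P D.x n : ℕ) : ℝ) + 3) * Fintype.card (ZMod P.q)ˣ ≤
          (J / 190 + 3) * Fintype.card (ZMod P.q)ˣ :=
        mul_le_mul_of_nonneg_right (by linarith) hφ.le
      linarith
    have h3 : ∑ n ∈ S, ∑ b : (ZMod P.q)ˣ, (((range J).filter fun k => k + sn P D.x n + 3 < J ∧
        ff P D.x gg Lam (k + sn P D.x n) (un n * b) ≠ lam n * ff P D.x gg Lam k b).card : ℝ) ≤
        Fintype.card (ZMod P.q)ˣ * (S.card * J / (Real.log D.x) ^ 5) := by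
      rw [Finset.sum_comm]
      refine (Finset.sum_le_sum fun b _ => hdil b).trans ?_
      rw [Finset.sum_const, Finset.card_univ, nsmul_eq_mul]
    rw [← Finset.mul_sum, ← Finset.sum_div]
    have h4 : (∑ n ∈ S, ∑ j : ZMod J, ∑ b : (ZMod P.q)ˣ,
        (ff P D.x gg Lam (j + ((sn P D.x n : ℕ) : ZMod J)).val (un n * b) -
        lam n * ff P D.x gg Lam j.val b) ^ 2) ≤
        4 * (Fintype.card (ZMod P.q)ˣ * (S.card * J / (Real.log D.x) ^ 5)) +
        S.card * (4 * (J / 190 + 3) * Fintype.card (ZMod P.q)ˣ) := by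
      refine (Finset.sum_le_sum h2).trans ?_
      rw [Finset.sum_add_distrib, ← Finset.mul_sum, Finset.sum_const, nsmul_eq_mul]
      linarith
    have h5 : 12 / (J : ℝ) ≤ 12 * E := by
      have h6 : 1 / (J : ℝ) ≤ V / J := div_le_div_of_nonneg_right hV1 hJpos.le
      have e : 12 / (J : ℝ) = 12 * (1 / J) := by ring
      rw [e]
      linarith
    have h6 : 1 / (S.card : ℝ) * ((∑ n ∈ S, ∑ j : ZMod J, ∑ b : (ZMod P.q)ˣ,
        (ff P D.x gg Lam (j + ((sn P D.x n : ℕ) : ZMod J)).val (un n * b) -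
        lam n * ff P D.x gg Lam j.val b) ^ 2) / (J * Fintype.card (ZMod P.q)ˣ)) ≤
        1 / (S.card : ℝ) * ((4 * (Fintype.card (ZMod P.q)ˣ * (S.card * J / (Real.log D.x) ^ 5)) +
        S.card * (4 * (J / 190 + 3) * Fintype.card (ZMod P.q)ˣ)) /
          (J * Fintype.card (ZMod P.q)ˣ)) := by
      refine mul_le_mul_of_nonneg_left ?_ (one_div_nonneg.2 hSpos.le)
      exact div_le_div_of_nonneg_right h4 (by positivity)
    refine h6.trans ?_
    have e : 1 / (S.card : ℝ) * ((4 * (Fintype.card (ZMod P.q)ˣ * (S.card * J /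
        (Real.log D.x) ^ 5)) + S.card * (4 * (J / 190 + 3) * Fintype.card (ZMod P.q)ˣ)) /
          (J * Fintype.card (ZMod P.q)ˣ)) = 4 / (Real.log D.x) ^ 5 + 4 / 190 + 12 / J := by
      have hJ0 : (J : ℝ) ≠ 0 := hJpos.ne'
      have hS0' : (S.card : ℝ) ≠ 0 := hSpos.ne'
      have hφ0 : (Fintype.card (ZMod P.q)ˣ : ℝ) ≠ 0 := hφ.ne'
      have e1 : Fintype.card (ZMod P.q)ˣ * ((S.card : ℝ) * J / (Real.log D.x) ^ 5) =
          (Fintype.card (ZMod P.q)ˣ * S.card * J) * (1 / (Real.log D.x) ^ 5) := by ring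
      have e2 : 4 / (Real.log D.x) ^ 5 = 4 * (1 / (Real.log D.x) ^ 5) := by ring
      rw [e1, e2]
      generalize (1 / (Real.log D.x) ^ 5 : ℝ) = y
      field_simp
      ring
    rw [e]
    linarith
  have hRtot : V * ‖Complex.exp (Complex.I * (θ * ((1 : ℕ) : ℂ))) * ψ 1 - ((1 : ℝ) : ℂ)‖ ^ 2 +
      ∑ n ∈ S, 1 / (S.card : ℝ) * ‖Complex.exp (Complex.I * (θ * ((sn P D.x n : ℕ) : ℂ))) *
        ψ (un n) - ((lam n : ℝ) : ℂ)‖ ^ 2 ≤ 1 / 40 := by
    refine hmain.trans ((add_le_add hR0 hRS).trans ?_)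
    linarith
  have hA : 0 ≤ V * ‖Complex.exp (Complex.I * (θ * ((1 : ℕ) : ℂ))) * ψ 1 - ((1 : ℝ) : ℂ)‖ ^ 2 := by
    positivity
  have hB : 0 ≤ ∑ n ∈ S, 1 / (S.card : ℝ) * ‖Complex.exp (Complex.I *
      (θ * ((sn P D.x n : ℕ) : ℂ))) * ψ (un n) - ((lam n : ℝ) : ℂ)‖ ^ 2 :=
    Finset.sum_nonneg fun n _ => by positivity
  -- the angle is small
  have hθ2 : θ ^ 2 ≤ E := by
    have h2 : V * ‖Complex.exp (Complex.I * (θ * ((1 : ℕ) : ℂ))) * ψ 1 -
        ((1 : ℝ) : ℂ)‖ ^ 2 ≤ 1 / 40 := by linarith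
    rw [map_one, mul_one, Nat.cast_one, mul_one, Complex.ofReal_one,
      Complex.norm_exp_I_mul_ofReal_sub_one] at h2
    have h3 : |θ| / Real.pi ≤ |Real.sin (θ / 2)| := by
      have h4 : |θ / 2| ≤ Real.pi / 2 := by
        rw [abs_div, abs_of_pos (by norm_num : (0 : ℝ) < 2)]
        linarith
      have h5 := Real.mul_abs_le_abs_sin h4
      rw [abs_div, abs_of_pos (by norm_num : (0 : ℝ) < 2)] at h5
      have e : 2 / Real.pi * (|θ| / 2) = |θ| / Real.pi := by ring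
      rwa [e] at h5
    have hpi := Real.pi_pos
    have hpi4 := Real.pi_lt_four
    have h4 : |θ| ≤ 4 * |Real.sin (θ / 2)| := by
      rw [div_le_iff₀ hpi] at h3
      nlinarith [abs_nonneg (Real.sin (θ / 2))]
    have h5 : ‖2 * Real.sin (θ / 2)‖ ^ 2 = 4 * |Real.sin (θ / 2)| ^ 2 := by
      rw [Real.norm_eq_abs, abs_mul, abs_of_pos (by norm_num : (0 : ℝ) < 2)]
      ring
    rw [h5] at h2
    have h6 : θ ^ 2 ≤ 16 * |Real.sin (θ / 2)| ^ 2 := by
      rw [← sq_abs θ]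
      have := pow_le_pow_left₀ (abs_nonneg θ) h4 2
      linarith [this, mul_pow (4 : ℝ) |Real.sin (θ / 2)| 2]
    have h7 : E * (V * (4 * |Real.sin (θ / 2)| ^ 2)) ≤ E * (1 / 40) :=
      mul_le_mul_of_nonneg_left h2 hE0.le
    have h8 : E * (V * (4 * |Real.sin (θ / 2)| ^ 2)) = 4 * |Real.sin (θ / 2)| ^ 2 := by
      rw [← mul_assoc, hEV, one_mul]
    rw [h8] at h7
    linarith
  have hθ1 : |θ| ≤ 1 := by
    have h2 : θ ^ 2 ≤ 1 := by linarith
    exact abs_le_one_iff_mul_self_le_one.2 (by nlinarith)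
  refine ⟨θ * QQ P D.x, ψ, ?_, hψ, ?_⟩
  · rw [abs_mul, abs_of_nonneg (by linarith : 0 ≤ QQ P D.x)]
    have h2 : QQ P D.x ≤ D.x := by
      unfold QQ
      calc (D.x : ℝ) ^ (1 - 2 * dl P) ≤ (D.x : ℝ) ^ (1 : ℝ) :=
            Real.rpow_le_rpow_of_exponent_le hx1 (by linarith)
        _ = D.x := Real.rpow_one _
    calc |θ| * QQ P D.x ≤ 1 * QQ P D.x := mul_le_mul_of_nonneg_right hθ1 (by linarith)
      _ ≤ D.x := by linarith
  · have h2 : ∀ n ∈ S, ‖ψ (un n) * Complex.exp (Complex.I * (((θ * QQ P D.x : ℝ) : ℂ) *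
        ((Real.log n : ℝ) : ℂ))) - ((lam n : ℝ) : ℂ)‖ ^ 2 ≤
        8 / 7 * ‖Complex.exp (Complex.I * (θ * ((sn P D.x n : ℕ) : ℂ))) * ψ (un n) -
          ((lam n : ℝ) : ℂ)‖ ^ 2 + 8 * θ ^ 2 := by
      intro n hn
      refine P1_exp θ (QQ P D.x) (sn P D.x n) (Real.log n) ?_ _ _ (hψ _)
      have h3 : 0 ≤ QQ P D.x * Real.log n :=
        mul_nonneg (by linarith) (Real.log_natCast_nonneg n)
      have h4 := Nat.floor_le h3
      have h5 := Nat.lt_floor_add_one (QQ P D.x * Real.log n)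
      unfold sn
      rw [abs_le]
      constructor <;> linarith
    refine (Finset.sum_le_sum h2).trans ?_
    rw [Finset.sum_add_distrib, Finset.sum_const, nsmul_eq_mul, ← Finset.mul_sum]
    have h3 := le_trans (le_add_of_nonneg_left hA) hRtot
    rw [← Finset.mul_sum, one_div, inv_mul_le_iff₀ hSpos] at h3
    have h4 : (S.card : ℝ) * (8 * θ ^ 2) ≤ S.card * (8 / 100000) :=
      mul_le_mul_of_nonneg_left (by linarith) hSpos.le
    linarith

end Pool.Agent.Lib.TT
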