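import Pool.Agent.Lib.MP_092512_nt.TT.Def
import Pool.Agent.Lib.MP_7b7e48_nt.LG.PC

/-!
# TT / Ss (60 minutes): the set `Sr`

Text (4.2). Lower bound by Chebyshev (primes in `(y, 2y]`): `card ≥ y / (2 log y)`. Divisors: the prime factors `> x ^ β'` of `Y ≤ x ^ 2` number at most `2 / β'` (with multiplicity), a divisor in `Sr` is a product of some of them.
-/

set_option autoImplicit false

open Finset

namespace Pool.Agent.Lib.TT

open Pool.Agent.Lib.TCF (pht TUP rho)
open Pool.Agent.Lib.RG (Rough PN)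
open Pool.Agent.Lib.MP_45349e_nt.LS (lam)


private theorem Ss_be (P : Par) (hP : P.Ok) : 0 < be P ∧ be P ≤ 1 / 3200 := by
  have h0 := hP.d0
  have h1 := hP.d1
  unfold be dl
  constructor
  · positivity
  · linarith

/-- the number of rough divisors -/
private theorem Ss_pow (z Y : ℕ) (hY : 1 ≤ Y) :
    (z + 1) ^ (Multiset.card ((Y.primeFactorsList : Multiset ℕ).filter (fun p => z < p))) ≤ Y := by
  have h1 : ((Y.primeFactorsList : Multiset ℕ).filter (fun p => z < p)).prod ∣ (Y.primeFactorsList : Multiset ℕ).prod :=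
    Multiset.prod_dvd_prod_of_le (Multiset.filter_le _ _)
  have h2 : (Y.primeFactorsList : Multiset ℕ).prod = Y := by
    rw [Multiset.prod_coe]
    exact Nat.prod_primeFactorsList (by omega)
  rw [h2] at h1
  refine le_trans ?_ (Nat.le_of_dvd (by omega) h1)
  apply Multiset.pow_card_le_prod
  intro p hp
  rw [Multiset.mem_filter] at hp
  exact hp.2

open Classical in
private theorem Ss_cnt (z Y : ℕ) (hY : 1 ≤ Y) (S : Finset ℕ) (hS : ∀ n ∈ S, Rough z n ∧ n ∣ Y) :
    S.card ≤ 2 ^ (Multiset.card ((Y.primeFactorsList : Multiset ℕ).filter (fun p => z < p))) := by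
  set M : Multiset ℕ := (Y.primeFactorsList : Multiset ℕ).filter (fun p => z < p) with hM
  have h1 : S.card ≤ (Multiset.powerset M).toFinset.card := by
    apply Finset.card_le_card_of_injOn (fun n => (n.primeFactorsList : Multiset ℕ))
    · intro n hn
      obtain ⟨hr, hd⟩ := hS n hn
      rw [Finset.mem_coe, Multiset.mem_toFinset, Multiset.mem_powerset, hM, Multiset.le_filter]
      refine ⟨?_, ?_⟩
      · rw [Multiset.coe_le]
        exact (Nat.primeFactorsList_sublist_of_dvd hd (by omega)).subperm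
      · intro p hp
        rw [Multiset.mem_coe] at hp
        exact hr p (Nat.prime_of_mem_primeFactorsList hp) (Nat.dvd_of_mem_primeFactorsList hp)
    · intro n hn m hm hnm
      have e : (n.primeFactorsList : Multiset ℕ).prod = (m.primeFactorsList : Multiset ℕ).prod := by
        have hnm' : (n.primeFactorsList : Multiset ℕ) = (m.primeFactorsList : Multiset ℕ) := hnm
        rw [hnm']
      have hn0 : n ≠ 0 := by
        rintro rfl
        have := (hS 0 hn).2
        rw [zero_dvd_iff] at this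
        omega
      have hm0 : m ≠ 0 := by
        rintro rfl
        have := (hS 0 hm).2
        rw [zero_dvd_iff] at this
        omega
      rw [Multiset.prod_coe, Multiset.prod_coe, Nat.prod_primeFactorsList hn0, Nat.prod_primeFactorsList hm0] at e
      exact e
  refine h1.trans ((Multiset.toFinset_card_le _).trans ?_)
  rw [Multiset.card_powerset]

open Classical in
theorem sr_card (P : Par) (hP : P.Ok) (β' : ℝ) (h0 : 0 < β') (h1 : β' ≤ be P / 30) : ∃ x0 : ℕ, ∀ x : ℕ, x0 ≤ x →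
    (yy P x : ℝ) / Real.log x ≤ (Sr P β' x).card := by
  obtain ⟨hb0, hb1⟩ := Ss_be P hP
  obtain ⟨L0, hL0⟩ := Pool.Agent.Lib.MP_7b7e48_nt.LG.PCa
  have h2 : ∀ᶠ x : ℝ in Filter.atTop, ((max L0 2 : ℕ) : ℝ) + 1 ≤ x ^ be P :=
    (tendsto_rpow_atTop hb0).eventually_ge_atTop _
  obtain ⟨X, hX⟩ := Filter.eventually_atTop.mp h2
  refine ⟨max 2 ⌈X⌉₊, fun x hx => ?_⟩
  have hx2 : 2 ≤ x := (le_max_left _ _).trans hx
  have hx2' : (2 : ℝ) ≤ x := by exact_mod_cast hx2
  have hxX : X ≤ x := (Nat.le_ceil X).trans (by exact_mod_cast (le_max_right _ _).trans hx)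
  have g := hX x hxX
  set y : ℕ := yy P x with hy
  have hy1 : (y : ℝ) ≤ (x : ℝ) ^ be P := Nat.floor_le (by positivity)
  have hy2 : (x : ℝ) ^ be P < y + 1 := Nat.lt_floor_add_one _
  have hy3 : max L0 2 < y + 1 := by
    have : ((max L0 2 : ℕ) : ℝ) + 1 < y + 1 := lt_of_le_of_lt g hy2
    have h3 : ((max L0 2 : ℕ) : ℝ) < y := by linarith
    have h4 : max L0 2 < y := by exact_mod_cast h3
    omega
  have hyL : L0 ≤ y := by
    have := le_max_left L0 2
    omega
  have hy2' : 2 ≤ y := by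
    have := le_max_right L0 2
    omega
  have hyr : (2 : ℝ) ≤ y := by exact_mod_cast hy2'
  have hlx : 0 < Real.log x := Real.log_pos (by linarith)
  have hly : 0 < Real.log y := Real.log_pos (by linarith)
  have hly2 : 2 * Real.log y ≤ Real.log x := by
    have h3 : Real.log y ≤ be P * Real.log x := by
      rw [← Real.log_rpow (by linarith)]
      exact Real.log_le_log (by linarith) hy1
    nlinarith
  have h3 := (hL0 y hyL).1
  have h4 : Pool.Agent.Lib.MP_7b7e48_nt.LG.Bl y ⊆ Sr P β' x := by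
    intro p hp
    unfold Pool.Agent.Lib.MP_7b7e48_nt.LG.Bl at hp
    rw [Finset.mem_filter] at hp
    unfold Sr
    rw [Finset.mem_filter]
    refine ⟨hp.1, ?_⟩
    intro q hq hqp
    have e : q = p := (Nat.prime_dvd_prime_iff_eq hq hp.2).mp hqp
    rw [e]
    have h5 := (Finset.mem_Ioc.mp hp.1).1
    have h6 : ⌊(x : ℝ) ^ β'⌋₊ ≤ y := by
      apply Nat.floor_le_floor
      apply Real.rpow_le_rpow_of_exponent_le (by linarith)
      linarith
    omega
  have h5 : ((Pool.Agent.Lib.MP_7b7e48_nt.LG.Bl y).card : ℝ) ≤ (Sr P β' x).card := by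
    exact_mod_cast Finset.card_le_card h4
  refine le_trans ?_ (h3.trans h5)
  exact div_le_div_of_nonneg_left (by linarith) (by positivity) hly2

open Classical in
theorem sr_div (P : Par) (hP : P.Ok) (β' : ℝ) (h0 : 0 < β') (h1 : β' ≤ be P / 30) : ∃ (C : ℝ) (x0 : ℕ), 0 < C ∧ ∀ x : ℕ, x0 ≤ x →
    ∀ Y : ℕ, 1 ≤ Y → Y ≤ x ^ 2 → (((Sr P β' x).filter fun n => n ∣ Y).card : ℝ) ≤ C := by
  refine ⟨(2 : ℝ) ^ ⌊2 / β'⌋₊, 2, by positivity, fun x hx Y hY1 hY2 => ?_⟩
  have hx2' : (2 : ℝ) ≤ x := by exact_mod_cast hx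
  set z : ℕ := ⌊(x : ℝ) ^ β'⌋₊ with hz
  have hz1 : (x : ℝ) ^ β' < z + 1 := Nat.lt_floor_add_one _
  have h1 := Ss_pow z Y hY1
  have h2 := Ss_cnt z Y hY1 ((Sr P β' x).filter fun n => n ∣ Y) (by
    intro n hn
    rw [Finset.mem_filter] at hn
    refine ⟨?_, hn.2⟩
    have h3 := hn.1
    unfold Sr at h3
    rw [Finset.mem_filter] at h3
    exact h3.2)
  set k : ℕ := Multiset.card ((Y.primeFactorsList : Multiset ℕ).filter (fun p => z < p)) with hk
  have h3 : ((z : ℝ) + 1) ^ k ≤ (x : ℝ) ^ 2 := by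
    have h4 : ((z : ℝ) + 1) ^ k ≤ Y := by exact_mod_cast h1
    have h5 : (Y : ℝ) ≤ (x : ℝ) ^ 2 := by exact_mod_cast hY2
    exact h4.trans h5
  have h4 : (x : ℝ) ^ (β' * k) ≤ (x : ℝ) ^ (2 : ℝ) := by
    rw [Real.rpow_mul (by linarith), Real.rpow_natCast, Real.rpow_two]
    refine le_trans ?_ h3
    exact pow_le_pow_left₀ (by positivity) hz1.le k
  have h5 : β' * k ≤ 2 := (Real.rpow_le_rpow_left_iff (by linarith)).mp h4
  have h6 : k ≤ ⌊2 / β'⌋₊ := by
    apply Nat.le_floor
    rw [le_div_iff₀ h0]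
    linarith
  have h7 : ((Sr P β' x).filter fun n => n ∣ Y).card ≤ 2 ^ ⌊2 / β'⌋₊ :=
    h2.trans (Nat.pow_le_pow_right (by norm_num) h6)
  exact_mod_cast h7

end Pool.Agent.Lib.TT
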