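import Pool.Agent.Lib.MP_7b7e48_nt.TC.FLM
import Pool.Agent.Lib.MP_092512_nt.TT.Ss

/-!
# TT / Sv (60 minutes): the sieve majorant of `Sr`

Text section 6. `flm 1` with `P` = all primes `≤ x ^ β'`, `b` with `K0 / 2 ^ b ≤ 1 / 400`, `β' = β / (30 b)`. `w d = up (primeFactors d)` for squarefree `d` with all primes `≤ x ^ β'`, `0` otherwise. Upper bound for the sum over `(y, 2y]` by the upper weights, lower bound for `card` by the lower weights.
-/

set_option autoImplicit false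

open Finset

namespace Pool.Agent.Lib.TT

open Pool.Agent.Lib.TCF (pht TUP rho)
open Pool.Agent.Lib.RG (Rough PN)
open Pool.Agent.Lib.MP_45349e_nt.LS (lam)

/-- the primes up to `z` -/
private def SvP (z : ℕ) : Finset ℕ := (range (z + 1)).filter Nat.Prime

private theorem SvP_mem {z p : ℕ} : p ∈ SvP z ↔ p.Prime ∧ p ≤ z := by
  unfold SvP
  rw [mem_filter, mem_range]
  constructor
  · rintro ⟨h1, h2⟩
    exact ⟨h2, by omega⟩
  · rintro ⟨h1, h2⟩
    exact ⟨by omega, h1⟩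

private theorem Sv_sqf (S : Finset ℕ) (hS : ∀ p ∈ S, p.Prime) : Squarefree (∏ p ∈ S, p) := by
  classical
  induction S using Finset.induction_on with
  | empty => simp
  | insert a S ha ih =>
    rw [Finset.prod_insert ha, Nat.squarefree_mul_iff]
    have h1 : a.Prime := hS a (Finset.mem_insert_self _ _)
    have h2 : ∀ p ∈ S, p.Prime := fun p hp => hS p (Finset.mem_insert_of_mem hp)
    refine ⟨?_, h1.prime.squarefree, ih h2⟩
    refine Nat.Coprime.prod_right fun p hp => ?_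
    rw [Nat.coprime_primes h1 (h2 p hp)]
    rintro rfl
    exact ha hp

private theorem Sv_dvd {n : ℕ} {B : Finset ℕ} (hB : ∀ p ∈ B, p.Prime) (h : ∀ p ∈ B, p ∣ n) :
    ∏ p ∈ B, p ∣ n :=
  Finset.prod_primes_dvd n (fun p hp => (hB p hp).prime) h

private theorem Sv_sub {n : ℕ} (hn : 1 ≤ n) {B : Finset ℕ} (hB : ∀ p ∈ B, p.Prime) :
    B ⊆ n.primeFactors ↔ ∏ p ∈ B, p ∣ n := by
  constructor
  · intro h
    exact Sv_dvd hB fun p hp => Nat.dvd_of_mem_primeFactors (h hp)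
  · intro h p hp
    exact Nat.mem_primeFactors.mpr ⟨hB p hp, (Finset.dvd_prod_of_mem (fun q => q) hp).trans h, by omega⟩

open Classical in
/-- the weights as a function on the numbers -/
private noncomputable def SvW (z : ℕ) (f : Finset ℕ → ℝ) (d : ℕ) : ℝ :=
  if Squarefree d ∧ d.primeFactors ⊆ SvP z then f d.primeFactors else 0

private theorem SvW_sum (z : ℕ) (f : Finset ℕ → ℝ) {n : ℕ} (hn : 1 ≤ n) :
    ∑ d ∈ n.divisors, SvW z f d = ∑ B ∈ (n.primeFactors ∩ SvP z).powerset, f B := by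
  classical
  unfold SvW
  rw [← Finset.sum_filter]
  refine Finset.sum_bij' (fun d _ => d.primeFactors) (fun B _ => ∏ p ∈ B, p) ?_ ?_ ?_ ?_ ?_
  · intro d hd
    rw [mem_filter, Nat.mem_divisors] at hd
    rw [mem_powerset]
    exact subset_inter (Nat.primeFactors_mono hd.1.1 hd.1.2) hd.2.2
  · intro B hB
    rw [mem_powerset] at hB
    have h1 : ∀ p ∈ B, p.Prime := fun p hp => (SvP_mem.mp (mem_inter.mp (hB hp)).2).1
    have h2 : ∏ p ∈ B, p ∣ n := (Sv_sub hn h1).mp (hB.trans inter_subset_left)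
    rw [mem_filter, Nat.mem_divisors]
    refine ⟨⟨h2, by omega⟩, Sv_sqf B h1, ?_⟩
    rw [Nat.primeFactors_prod h1]
    exact hB.trans inter_subset_right
  · intro d hd
    rw [mem_filter] at hd
    exact Nat.prod_primeFactors_of_squarefree hd.2.1
  · intro B hB
    rw [mem_powerset] at hB
    exact Nat.primeFactors_prod fun p hp => (SvP_mem.mp (mem_inter.mp (hB hp)).2).1
  · intro d hd
    rfl

private theorem Sv_rough {z n : ℕ} (hn : 1 ≤ n) : Rough z n ↔ n.primeFactors ∩ SvP z = ∅ := by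
  constructor
  · intro h
    refine Finset.eq_empty_of_forall_notMem fun p hp => ?_
    rw [mem_inter, SvP_mem] at hp
    have h1 := h p hp.2.1 (Nat.dvd_of_mem_primeFactors hp.1)
    omega
  · intro h p hp hpn
    by_contra h1
    have h2 : p ∈ n.primeFactors ∩ SvP z :=
      mem_inter.mpr ⟨Nat.mem_primeFactors.mpr ⟨hp, hpn, by omega⟩, SvP_mem.mpr ⟨hp, by omega⟩⟩
    rw [h] at h2
    exact Finset.notMem_empty _ h2

private theorem Sv_count (y m : ℕ) (hm : 1 ≤ m) :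
    |(((Ioc y (2 * y)).filter fun n => m ∣ n).card : ℝ) - (y : ℝ) / m| ≤ 1 := by
  classical
  have h1 : ((Ioc 0 (2 * y)).filter fun n => m ∣ n).card =
      ((Ioc 0 y).filter fun n => m ∣ n).card + ((Ioc y (2 * y)).filter fun n => m ∣ n).card := by
    rw [← Finset.card_union_of_disjoint]
    · congr 1
      ext n
      simp only [mem_filter, mem_Ioc, mem_union]
      constructor
      · rintro ⟨⟨a1, a2⟩, a3⟩
        by_cases h : n ≤ y
        · exact Or.inl ⟨⟨a1, h⟩, a3⟩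
        · exact Or.inr ⟨⟨by omega, a2⟩, a3⟩
      · rintro (⟨⟨a1, a2⟩, a3⟩ | ⟨⟨a1, a2⟩, a3⟩)
        · exact ⟨⟨a1, by omega⟩, a3⟩
        · exact ⟨⟨by omega, a2⟩, a3⟩
    · rw [Finset.disjoint_left]
      intro n hn hn'
      simp only [mem_filter, mem_Ioc] at hn hn'
      omega
  rw [Nat.Ioc_filter_dvd_card_eq_div, Nat.Ioc_filter_dvd_card_eq_div] at h1
  have h2 : (((2 * y / m : ℕ)) : ℝ) = ((y / m : ℕ) : ℝ) +
      ((((Ioc y (2 * y)).filter fun n => m ∣ n).card : ℕ) : ℝ) := by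
    rw [h1]
    push_cast
    ring
  have hm0 : (0 : ℝ) < m := by exact_mod_cast hm
  have f1 : ((2 * y / m : ℕ) : ℝ) ≤ 2 * (y : ℝ) / m := by
    have := @Nat.cast_div_le ℝ _ _ _ (2 * y) m
    push_cast at this
    exact this
  have f2 : ((y / m : ℕ) : ℝ) ≤ (y : ℝ) / m := Nat.cast_div_le
  have f3 : 2 * (y : ℝ) / m < ((2 * y / m : ℕ) : ℝ) + 1 := by
    rw [div_lt_iff₀ hm0]
    have h3 : 2 * y < (2 * y / m + 1) * m := by
      have h4 := Nat.div_add_mod (2 * y) m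
      have h5 := Nat.mod_lt (2 * y) (show 0 < m by omega)
      nlinarith
    exact_mod_cast h3
  have f4 : (y : ℝ) / m < ((y / m : ℕ) : ℝ) + 1 := by
    rw [div_lt_iff₀ hm0]
    have h3 : y < (y / m + 1) * m := by
      have h4 := Nat.div_add_mod y m
      have h5 := Nat.mod_lt y (show 0 < m by omega)
      nlinarith
    exact_mod_cast h3
  have e1 : 2 * (y : ℝ) / m = 2 * ((y : ℝ) / m) := by ring
  rw [e1] at f1 f3
  rw [abs_le]
  constructor <;> linarith

/-- sum of the weights over an interval -/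
private theorem Sv_total (z y : ℕ) (f : Finset ℕ → ℝ) (C Z : ℝ) (hC : 0 ≤ C) (hZ : 0 ≤ Z) (hf : ∀ d, |f d| ≤ C)
    (hs : ∀ d ⊆ SvP z, f d ≠ 0 → ((∏ r ∈ d, r : ℕ) : ℝ) ≤ Z) :
    |∑ n ∈ Ioc y (2 * y), ∑ B ∈ (n.primeFactors ∩ SvP z).powerset, f B -
      (y : ℝ) * ∑ B ∈ (SvP z).powerset, f B * ∏ r ∈ B, (1 / (r : ℝ))| ≤ C * Z := by
  classical
  have hpr : ∀ B ∈ (SvP z).powerset, ∀ p ∈ B, p.Prime := fun B hB p hp =>
    (SvP_mem.mp (mem_powerset.mp hB hp)).1
  have h1 : ∑ n ∈ Ioc y (2 * y), ∑ B ∈ (n.primeFactors ∩ SvP z).powerset, f B =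
      ∑ B ∈ (SvP z).powerset, f B * (((Ioc y (2 * y)).filter fun n => ∏ p ∈ B, p ∣ n).card : ℝ) := by
    have h2 : ∀ n ∈ Ioc y (2 * y), ∑ B ∈ (n.primeFactors ∩ SvP z).powerset, f B =
        ∑ B ∈ (SvP z).powerset, if ∏ p ∈ B, p ∣ n then f B else 0 := by
      intro n hn
      rw [mem_Ioc] at hn
      rw [← Finset.sum_filter]
      refine Finset.sum_congr ?_ fun _ _ => rfl
      ext B
      rw [mem_filter, mem_powerset, mem_powerset]
      constructor
      · intro h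
        have h3 : B ⊆ SvP z := h.trans inter_subset_right
        exact ⟨h3, (Sv_sub (by omega) (hpr B (mem_powerset.mpr h3))).mp (h.trans inter_subset_left)⟩
      · rintro ⟨h3, h4⟩
        exact subset_inter ((Sv_sub (by omega) (hpr B (mem_powerset.mpr h3))).mpr h4) h3
    rw [Finset.sum_congr rfl h2, Finset.sum_comm]
    refine Finset.sum_congr rfl fun B _ => ?_
    rw [← Finset.sum_filter, Finset.sum_const, nsmul_eq_mul, mul_comm]
  rw [h1, Finset.mul_sum, ← Finset.sum_sub_distrib]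
  have h3 : ∀ B ∈ (SvP z).powerset,
      f B * (((Ioc y (2 * y)).filter fun n => ∏ p ∈ B, p ∣ n).card : ℝ) - (y : ℝ) * (f B * ∏ r ∈ B, (1 / (r : ℝ))) =
      f B * ((((Ioc y (2 * y)).filter fun n => ∏ p ∈ B, p ∣ n).card : ℝ) - (y : ℝ) / (∏ p ∈ B, p : ℕ)) := by
    intro B hB
    have e : ∏ r ∈ B, (1 / (r : ℝ)) = 1 / ((∏ p ∈ B, p : ℕ) : ℝ) := by
      rw [Finset.prod_div_distrib, Finset.prod_const_one, Nat.cast_prod]
    rw [e]
    ring
  rw [Finset.sum_congr rfl h3]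
  have h4 : ∑ B ∈ (SvP z).powerset,
      f B * ((((Ioc y (2 * y)).filter fun n => ∏ p ∈ B, p ∣ n).card : ℝ) - (y : ℝ) / (∏ p ∈ B, p : ℕ)) =
      ∑ B ∈ (SvP z).powerset.filter (fun B => f B ≠ 0),
      f B * ((((Ioc y (2 * y)).filter fun n => ∏ p ∈ B, p ∣ n).card : ℝ) - (y : ℝ) / (∏ p ∈ B, p : ℕ)) := by
    symm
    refine Finset.sum_subset (Finset.filter_subset _ _) fun B hB hB' => ?_
    rw [mem_filter, not_and, not_not] at hB'
    rw [hB' hB, zero_mul]
  rw [h4]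
  refine (Finset.abs_sum_le_sum_abs _ _).trans ?_
  have h5 : ∀ B ∈ (SvP z).powerset.filter (fun B => f B ≠ 0),
      |f B * ((((Ioc y (2 * y)).filter fun n => ∏ p ∈ B, p ∣ n).card : ℝ) - (y : ℝ) / (∏ p ∈ B, p : ℕ))| ≤ C := by
    intro B hB
    rw [mem_filter] at hB
    rw [abs_mul]
    have h6 : 1 ≤ ∏ p ∈ B, p := Finset.one_le_prod' fun p hp => (hpr B hB.1 p hp).one_lt.le
    have h7 := Sv_count y (∏ p ∈ B, p) h6
    calc _ ≤ C * 1 := mul_le_mul (hf B) h7 (abs_nonneg _) hC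
      _ = C := mul_one C
  refine (Finset.sum_le_sum h5).trans ?_
  rw [Finset.sum_const, nsmul_eq_mul, mul_comm]
  refine mul_le_mul_of_nonneg_left ?_ hC
  have h8 : ((SvP z).powerset.filter (fun B => f B ≠ 0)).card ≤ (Icc 1 ⌊Z⌋₊).card := by
    refine Finset.card_le_card_of_injOn (fun B => ∏ p ∈ B, p) ?_ ?_
    · intro B hB
      rw [Finset.mem_coe, mem_filter] at hB
      rw [Finset.mem_coe, mem_Icc]
      refine ⟨Finset.one_le_prod' fun p hp => (hpr B hB.1 p hp).one_lt.le, ?_⟩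
      exact Nat.le_floor (hs B (mem_powerset.mp hB.1) hB.2)
    · intro B hB B' hB' h
      rw [Finset.mem_coe, mem_filter] at hB hB'
      have e1 := Nat.primeFactors_prod (hpr B hB.1)
      have e2 := Nat.primeFactors_prod (hpr B' hB'.1)
      have h' : ∏ p ∈ B, p = ∏ p ∈ B', p := h
      rw [← e1, ← e2, h']
  rw [Nat.card_Icc, Nat.add_sub_cancel] at h8
  calc (((SvP z).powerset.filter (fun B => f B ≠ 0)).card : ℝ) ≤ (⌊Z⌋₊ : ℝ) := by exact_mod_cast h8
    _ ≤ Z := Nat.floor_le hZ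

private theorem SvP_succ (z : ℕ) : SvP (z + 1) = if (z + 1).Prime then insert (z + 1) (SvP z) else SvP z := by
  unfold SvP
  rw [Finset.range_add_one, Finset.filter_insert]

private theorem Sv_dens (z : ℕ) (hz : 1 ≤ z) : 1 / (z : ℝ) ≤ ∏ r ∈ SvP z, (1 - 1 / (r : ℝ)) := by
  induction z, hz using Nat.le_induction with
  | base =>
    have h : SvP 1 = ∅ := by
      refine Finset.eq_empty_of_forall_notMem fun p hp => ?_
      rw [SvP_mem] at hp
      have := hp.1.two_le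
      omega
    rw [h]
    simp
  | succ z hz ih =>
    have hz0 : (0 : ℝ) < z := by exact_mod_cast hz
    rw [SvP_succ]
    split_ifs with hp
    · rw [Finset.prod_insert (by rw [SvP_mem]; omega)]
      have h1 : (1 : ℝ) - 1 / ((z + 1 : ℕ) : ℝ) = z / (z + 1) := by
        push_cast
        field_simp
        ring
      rw [h1]
      calc 1 / ((z + 1 : ℕ) : ℝ) = z / (z + 1) * (1 / z) := by
            push_cast
            field_simp
        _ ≤ _ := mul_le_mul_of_nonneg_left ih (by positivity)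
    · refine le_trans ?_ ih
      push_cast
      exact one_div_le_one_div_of_le hz0 (by linarith)

open Classical in
theorem maj (P : Par) (hP : P.Ok) : ∃ β' : ℝ, 0 < β' ∧ β' ≤ be P / 30 ∧ ∃ x0 : ℕ, ∀ x : ℕ, x0 ≤ x → ∃ w : ℕ → ℝ,
    (∀ d, |w d| ≤ 1) ∧ (∀ d, w d ≠ 0 → 1 ≤ d ∧ (d : ℝ) ≤ (yy P x : ℝ) ^ ((1 : ℝ) / 2)) ∧
    (∀ n : ℕ, 1 ≤ n → (if Rough ⌊(x : ℝ) ^ β'⌋₊ n then (1 : ℝ) else 0) ≤ ∑ d ∈ n.divisors, w d) ∧
    ∑ n ∈ Ioc (yy P x) (2 * yy P x), ∑ d ∈ n.divisors, w d ≤ 51 / 50 * (Sr P β' x).card := by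
  obtain ⟨K0, hK0, hfl⟩ := Pool.Agent.Lib.TC.flm 1 (by norm_num)
  have hK0' : 0 < K0 := by linarith
  obtain ⟨b0, hb0⟩ := exists_pow_lt_of_lt_one (show (0 : ℝ) < 1 / (400 * K0) by positivity)
    (show (1 / 2 : ℝ) < 1 by norm_num)
  obtain ⟨b, hb⟩ : ∃ b, b = b0 + 1 := ⟨_, rfl⟩
  have hb1 : 1 ≤ b := by omega
  have hbR : (1 : ℝ) ≤ b := by exact_mod_cast hb1
  have hKb : K0 * (1 / 2) ^ b ≤ 1 / 400 := by
    have h1 : (1 / 2 : ℝ) ^ b ≤ (1 / 2) ^ b0 := pow_le_pow_of_le_one (by norm_num) (by norm_num) (by omega)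
    have h2 : K0 * (1 / 2) ^ b ≤ K0 * (1 / (400 * K0)) :=
      mul_le_mul_of_nonneg_left (h1.trans hb0.le) hK0'.le
    refine h2.trans (le_of_eq ?_)
    field_simp
  have hbe : 0 < be P := by
    have h0 := hP.d0
    unfold be dl
    positivity
  obtain ⟨β', hβ'⟩ : ∃ β' : ℝ, β' = be P / (30 * b) := ⟨_, rfl⟩
  have hβ0 : 0 < β' := by rw [hβ']; positivity
  have hβ1 : β' ≤ be P / 30 := by
    rw [hβ']
    refine div_le_div_of_nonneg_left hbe.le (by norm_num) ?_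
    linarith
  refine ⟨β', hβ0, hβ1, ?_⟩
  have hev : ∀ᶠ x : ℕ in Filter.atTop, (2 : ℝ) ≤ (x : ℝ) ^ β' :=
    ((tendsto_rpow_atTop hβ0).comp tendsto_natCast_atTop_atTop).eventually_ge_atTop 2
  obtain ⟨x1, hx1⟩ := Filter.eventually_atTop.mp hev
  refine ⟨max x1 1, fun x hx => ?_⟩
  have hxa : 2 ≤ (x : ℝ) ^ β' := hx1 x (le_trans (le_max_left _ _) hx)
  have hx1' : (1 : ℝ) ≤ x := by exact_mod_cast le_trans (le_max_right _ _) hx
  have hx0 : (0 : ℝ) < x := by linarith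
  obtain ⟨z, hz⟩ : ∃ z, z = ⌊(x : ℝ) ^ β'⌋₊ := ⟨_, rfl⟩
  obtain ⟨y, hy⟩ : ∃ y, y = yy P x := ⟨_, rfl⟩
  rw [← hz, ← hy]
  have hz2 : 2 ≤ z := by rw [hz]; exact Nat.le_floor (by exact_mod_cast hxa)
  -- everything in terms of `T = x ^ (β / 30)`
  obtain ⟨T, hT⟩ : ∃ T, T = (x : ℝ) ^ (be P / 30) := ⟨_, rfl⟩
  have hTz : (x : ℝ) ^ β' ≤ T := by rw [hT]; exact Real.rpow_le_rpow_of_exponent_le hx1' hβ1
  have hT2 : 2 ≤ T := hxa.trans hTz
  have hT0 : 0 < T := by linarith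
  have hzx : (z : ℝ) ≤ (x : ℝ) ^ β' := by rw [hz]; exact Nat.floor_le (by positivity)
  have hzT : (z : ℝ) ≤ T := hzx.trans hTz
  have hz0 : (0 : ℝ) < z := by
    have : 0 < z := by omega
    exact_mod_cast this
  have hz12 : (z : ℝ) ^ (12 * b) ≤ T ^ 12 := by
    calc (z : ℝ) ^ (12 * b) ≤ ((x : ℝ) ^ β') ^ (12 * b) := pow_le_pow_left₀ hz0.le hzx _
      _ = T ^ 12 := by
        rw [hT, ← Real.rpow_natCast, ← Real.rpow_natCast, ← Real.rpow_mul hx0.le, ← Real.rpow_mul hx0.le, hβ']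
        congr 1
        push_cast
        field_simp
  have hT30 : T ^ 30 = (x : ℝ) ^ be P := by
    rw [hT, ← Real.rpow_natCast, ← Real.rpow_mul hx0.le]
    congr 1
    push_cast
    ring
  have hp2 : ∀ k : ℕ, (2 : ℝ) ^ k ≤ T ^ k := fun k => pow_le_pow_left₀ (by norm_num) hT2 k
  have hylo : T ^ 30 / 2 ≤ y := by
    have h1 : (x : ℝ) ^ be P < (y : ℝ) + 1 := by
      rw [hy]
      exact Nat.lt_floor_add_one _
    rw [← hT30] at h1
    have h2 := hp2 30
    have h3 : (2 : ℝ) ≤ 2 ^ 30 := by norm_num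
    linarith
  have hy0 : (0 : ℝ) < y := lt_of_lt_of_le (by positivity) hylo
  obtain ⟨up, lo, hul, hsup, hB, hdens⟩ := hfl b hb1 z hz2 (SvP z) (fun r hr => SvP_mem.mp hr)
  have hg := hdens (fun r => 1 / (r : ℝ)) (fun r hr => by
    have h1 := (SvP_mem.mp hr).1.two_le
    have h2 : (2 : ℝ) ≤ r := by exact_mod_cast h1
    refine ⟨by positivity, le_refl _, ?_⟩
    rw [div_le_div_iff₀ (by linarith) (by norm_num)]
    linarith)
  obtain ⟨V, hV⟩ : ∃ V, V = ∏ r ∈ SvP z, (1 - 1 / (r : ℝ)) := ⟨_, rfl⟩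
  have hVlo : 1 / T ≤ V := by
    rw [hV]
    exact (one_div_le_one_div_of_le hz0 hzT).trans (Sv_dens z (by omega))
  have hV0 : 0 < V := lt_of_lt_of_le (by positivity) hVlo
  simp only [← hV] at hg
  have hKV : K0 * (1 / 2) ^ b * V ≤ 1 / 400 * V := mul_le_mul_of_nonneg_right hKb hV0.le
  have hNJ : ((Pool.Agent.Lib.GT.NJ z : ℝ) + 1) ≤ T ^ 2 :=
    (Pool.Agent.Lib.GT.NJ_le z hz2).trans (pow_le_pow_left₀ hz0.le hzT 2)
  have hs1 : ∀ d ⊆ SvP z, up d ≠ 0 → ((∏ r ∈ d, r : ℕ) : ℝ) ≤ T ^ 12 := fun d hd h =>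
    (hsup d hd (Or.inl h)).trans hz12
  have hs2 : ∀ d ⊆ SvP z, lo d ≠ 0 → ((∏ r ∈ d, r : ℕ) : ℝ) ≤ T ^ 12 := fun d hd h =>
    (hsup d hd (Or.inr h)).trans hz12
  have htu := Sv_total z y up 1 (T ^ 12) zero_le_one (by positivity) (fun d => (hul d).1) hs1
  have htl := Sv_total z y lo (T ^ 2) (T ^ 12) (by positivity) (by positivity)
    (fun d => (hul d).2.trans hNJ) hs2
  refine ⟨SvW z up, ?_, ?_, ?_, ?_⟩
  · intro d
    unfold SvW
    split_ifs
    · exact (hul _).1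
    · rw [abs_zero]
      exact zero_le_one
  · intro d hd
    unfold SvW at hd
    split_ifs at hd with h
    · have h1 : d ≠ 0 := fun h0 => by
        rw [h0] at h
        exact not_squarefree_zero h.1
      refine ⟨by omega, ?_⟩
      have h2 := hs1 _ h.2 hd
      rw [Nat.prod_primeFactors_of_squarefree h.1] at h2
      refine h2.trans ?_
      rw [← Real.sqrt_eq_rpow]
      refine Real.le_sqrt_of_sq_le ?_
      refine le_trans ?_ hylo
      have h3 : (T ^ 12) ^ 2 * 2 ≤ T ^ 30 := by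
        have h4 : T ^ 30 = (T ^ 12) ^ 2 * T ^ 6 := by ring
        rw [h4]
        refine mul_le_mul_of_nonneg_left ?_ (by positivity)
        have h5 := hp2 6
        have h6 : (2 : ℝ) ≤ 2 ^ 6 := by norm_num
        linarith
      linarith
    · exact absurd rfl hd
  · intro n hn
    rw [SvW_sum z up hn]
    have h1 := (hB (n.primeFactors ∩ SvP z) inter_subset_right).2
    refine le_trans (le_of_eq ?_) h1
    by_cases h : Rough z n
    · rw [if_pos h, if_pos ((Sv_rough hn).mp h)]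
    · rw [if_neg h, if_neg fun h' => h ((Sv_rough hn).mpr h')]
  · have e1 : ∑ n ∈ Ioc y (2 * y), ∑ d ∈ n.divisors, SvW z up d =
        ∑ n ∈ Ioc y (2 * y), ∑ B ∈ (n.primeFactors ∩ SvP z).powerset, up B :=
      Finset.sum_congr rfl fun n hn => SvW_sum z up (by rw [mem_Ioc] at hn; omega)
    have e2 : ∑ n ∈ Ioc y (2 * y), ∑ B ∈ (n.primeFactors ∩ SvP z).powerset, lo B ≤ (Sr P β' x).card := by
      have h1 : ((Sr P β' x).card : ℝ) = ∑ n ∈ Ioc y (2 * y), if Rough z n then (1 : ℝ) else 0 := by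
        unfold Sr
        rw [← hz, ← hy, Finset.card_filter]
        push_cast
        rfl
      rw [h1]
      refine Finset.sum_le_sum fun n hn => ?_
      rw [mem_Ioc] at hn
      have hn1 : 1 ≤ n := by omega
      refine ((hB (n.primeFactors ∩ SvP z) inter_subset_right).1).trans (le_of_eq ?_)
      by_cases h : Rough z n
      · rw [if_pos h, if_pos ((Sv_rough hn1).mp h)]
      · rw [if_neg h, if_neg fun h' => h ((Sv_rough hn1).mpr h')]
    rw [e1]
    have g1 := (abs_le.mp hg.1).2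
    have g2 := (abs_le.mp hg.2).1
    have t1 := (abs_le.mp htu).2
    have t2 := (abs_le.mp htl).1
    have a1 : (y : ℝ) * ∑ B ∈ (SvP z).powerset, up B * ∏ r ∈ B, (1 / (r : ℝ)) ≤ y * (V + 1 / 400 * V) :=
      mul_le_mul_of_nonneg_left (by linarith) hy0.le
    have a2 : (y : ℝ) * (V - 1 / 400 * V) ≤ y * ∑ B ∈ (SvP z).powerset, lo B * ∏ r ∈ B, (1 / (r : ℝ)) :=
      mul_le_mul_of_nonneg_left (by linarith) hy0.le
    have a3 : T ^ 29 / 2 ≤ y * V := by
      calc T ^ 29 / 2 = T ^ 30 / 2 * (1 / T) := by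
            field_simp
        _ ≤ y * V := mul_le_mul hylo hVlo (by positivity) hy0.le
    have a4 : 400 * T ^ 14 ≤ T ^ 29 := by
      have h1 : T ^ 29 = T ^ 15 * T ^ 14 := by ring
      rw [h1]
      refine mul_le_mul_of_nonneg_right ?_ (by positivity)
      have h5 := hp2 15
      have h6 : (400 : ℝ) ≤ 2 ^ 15 := by norm_num
      linarith
    have a5 : T ^ 12 ≤ T ^ 14 := pow_le_pow_right₀ (by linarith) (by norm_num)
    have a6 : T ^ 2 * T ^ 12 = T ^ 14 := by ring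
    rw [a6] at t2
    have a7 : (y : ℝ) * (V + 1 / 400 * V) = 401 / 400 * (y * V) := by ring
    have a8 : (y : ℝ) * (V - 1 / 400 * V) = 399 / 400 * (y * V) := by ring
    rw [a7] at a1
    rw [a8] at a2
    linarith

end Pool.Agent.Lib.TT
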