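import Pool.Agent.Lib.MP_092512_nt.TT.Lb
import Pool.Agent.Lib.MP_092512_nt.TT.P1
import Pool.Agent.Lib.MP_092512_nt.TT.Ca2
import Pool.Agent.Lib.MP_092512_nt.TT.Sv
import Pool.Agent.Lib.MP_092512_nt.TT.Ss
import Pool.Agent.Lib.MP_45349e_nt.LS.LamB

/-!
# TT / Fin (75 minutes): the frame

Text section 6: `lbk`, `maj` (gives `β'`), `onech`, then `ca1` resp. `ca2`.
-/

set_option autoImplicit false

open Finset

namespace Pool.Agent.Lib.TT

open Pool.Agent.Lib.TCF (pht TUP rho)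
open Pool.Agent.Lib.RG (Rough PN)
open Pool.Agent.Lib.MP_45349e_nt.LS (lam)


private theorem Fin_grow (q : ℕ) (β β' : ℝ) (h : 0 < β) (h' : 0 < β') : ∃ x0 : ℕ, ∀ x : ℕ,
    x0 ≤ x → 1 ≤ ⌊(x : ℝ) ^ β⌋₊ ∧ q < ⌊(x : ℝ) ^ β'⌋₊ ∧ 2 ≤ Real.log x := by
  have h1 := (tendsto_rpow_atTop h).eventually_ge_atTop 1
  have h2 := (tendsto_rpow_atTop h').eventually_ge_atTop ((q : ℝ) + 1)
  have h3 := Real.tendsto_log_atTop.eventually_ge_atTop 2
  obtain ⟨a, ha⟩ := Filter.eventually_atTop.1 ((h1.and h2).and h3)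
  refine ⟨⌈a⌉₊, fun x hx => ?_⟩
  have hax : a ≤ (x : ℝ) := (Nat.le_ceil a).trans (by exact_mod_cast hx)
  obtain ⟨⟨g1, g2⟩, g3⟩ := ha x hax
  refine ⟨Nat.le_floor (by exact_mod_cast g1), ?_, g3⟩
  have g4 : q + 1 ≤ ⌊(x : ℝ) ^ β'⌋₊ := Nat.le_floor (by push_cast; exact g2)
  omega

open Classical in
private theorem Fin_core (I : Finset ℕ) (R : ℕ → Prop) (ν : ℕ → ℝ) (z : ℕ → ℂ) (δ c : ℝ)
    (hz : ∀ n ∈ I, ‖z n‖ ≤ 1) (hν : ∀ n ∈ I, (if R n then (1 : ℝ) else 0) ≤ ν n)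
    (hsum : ∑ n ∈ I, ν n ≤ 51 / 50 * (I.filter R).card)
    (hsmall : ‖∑ n ∈ I, (ν n : ℂ) * z n‖ ≤ δ)
    (hbig : c * (I.filter R).card ≤ (∑ n ∈ I.filter R, z n).re) :
    c * (I.filter R).card ≤ (I.filter R).card / 50 + δ := by
  have h1 : ∑ n ∈ I.filter R, z n = ∑ n ∈ I, (ν n : ℂ) * z n -
      ∑ n ∈ I, ((ν n - (if R n then (1 : ℝ) else 0) : ℝ) : ℂ) * z n := by
    rw [← Finset.sum_sub_distrib, Finset.sum_filter]
    refine Finset.sum_congr rfl fun n _ => ?_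
    split_ifs
    · push_cast
      ring
    · push_cast
      ring
  have h2 : ‖∑ n ∈ I, ((ν n - (if R n then (1 : ℝ) else 0) : ℝ) : ℂ) * z n‖ ≤
      (I.filter R).card / 50 := by
    calc ‖∑ n ∈ I, ((ν n - (if R n then (1 : ℝ) else 0) : ℝ) : ℂ) * z n‖
        ≤ ∑ n ∈ I, (ν n - (if R n then (1 : ℝ) else 0)) := by
          refine (norm_sum_le _ _).trans (Finset.sum_le_sum fun n hn => ?_)
          rw [norm_mul, Complex.norm_real, Real.norm_of_nonneg (by linarith [hν n hn])]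
          exact mul_le_of_le_one_right (by linarith [hν n hn]) (hz n hn)
      _ = ∑ n ∈ I, ν n - (I.filter R).card := by
          rw [Finset.sum_sub_distrib, Finset.sum_boole]
      _ ≤ (I.filter R).card / 50 := by linarith
  have h3 : (∑ n ∈ I.filter R, z n).re ≤ ‖∑ n ∈ I.filter R, z n‖ := Complex.re_le_norm _
  have h4 : ‖∑ n ∈ I.filter R, z n‖ ≤ δ + (I.filter R).card / 50 := by
    rw [h1]
    exact (norm_sub_le _ _).trans (add_le_add hsmall h2)
  linarith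

private theorem Fin_re1 (w : ℂ) (σ : ℝ) (hw : ‖w‖ = 1) (hσ : σ ^ 2 = 1) :
    ((σ : ℂ) * w).re = 1 - ‖w - σ‖ ^ 2 / 2 := by
  have h1 : w.re * w.re + w.im * w.im = 1 := by
    rw [← Complex.normSq_apply, ← Complex.sq_norm, hw, one_pow]
  rw [Complex.sq_norm, Complex.normSq_apply, Complex.sub_re, Complex.sub_im, Complex.ofReal_re,
    Complex.ofReal_im, Complex.re_ofReal_mul]
  linear_combination (1 / 2 : ℝ) * h1 + (1 / 2 : ℝ) * hσ

private theorem Fin_re2 (w : ℂ) (σ : ℝ) (hw : ‖w‖ = 1) (hσ : σ ^ 2 = 1) :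
    1 - 2 * ‖w - σ‖ ^ 2 ≤ (w ^ 2).re := by
  have h1 : w.re * w.re + w.im * w.im = 1 := by
    rw [← Complex.normSq_apply, ← Complex.sq_norm, hw, one_pow]
  have h2 : (w ^ 2).re = w.re * w.re - w.im * w.im := by
    rw [sq, Complex.mul_re]
  rw [h2, Complex.sq_norm, Complex.normSq_apply, Complex.sub_re, Complex.sub_im,
    Complex.ofReal_re, Complex.ofReal_im]
  have h3 : (w.re - σ) * (w.re - σ) + (w.im - 0) * (w.im - 0) = 2 - 2 * (σ * w.re) := by
    linear_combination h1 + hσ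
  have h4 : (σ * w.re) ^ 2 = w.re * w.re := by
    linear_combination (w.re * w.re) * hσ
  rw [h3]
  nlinarith [sq_nonneg (σ * w.re - 1)]

open Classical in
private theorem Fin_psn {q : ℕ} (ψ : (ZMod q)ˣ →* ℂ) (hψ : ∀ b, ‖ψ b‖ = 1) (n : ℕ) :
    ‖psn ψ n‖ ≤ 1 := by
  unfold psn
  split_ifs
  · exact (hψ _).le
  · rw [norm_zero]
    exact zero_le_one

private theorem Fin_exp (t : ℝ) (n : ℕ) :
    ‖Complex.exp (Complex.I * (t * Real.log n))‖ = 1 := by
  have h1 : Complex.I * ((t : ℂ) * ((Real.log n : ℝ) : ℂ)) = ((t * Real.log n : ℝ) : ℂ) * Complex.I := by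
    push_cast
    ring
  rw [h1, Complex.norm_exp_ofReal_mul_I]

open Classical in
theorem frame (P : Par) (hP : P.Ok) : ∃ x0 : ℕ, ∀ D : Dat, x0 ≤ D.x → Ctx P D → ∀ Bd : ℕ → ℕ → ℕ → Prop,
    (∀ l : ℕ, Mul P D.x l → Inp P D Bd l) → False := by
  obtain ⟨β', hb0, hb1, x1, hx1⟩ := maj P hP
  obtain ⟨x2, hx2⟩ := onech P hP β' hb0 hb1
  obtain ⟨x3, hx3⟩ := lbk P hP
  obtain ⟨x4, hx4⟩ := ca1 P hP
  obtain ⟨x5, hx5⟩ := ca2 P hP
  obtain ⟨x6, hx6⟩ := sr_card P hP β' hb0 hb1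
  have hbe : 0 < be P := by
    unfold be dl
    have := hP.d0
    positivity
  obtain ⟨x7, hx7⟩ := Fin_grow P.q (be P) β' hbe hb0
  refine ⟨x1 + x2 + x3 + x4 + x5 + x6 + x7, fun D hD hC Bd hI => ?_⟩
  obtain ⟨gg, Lam, hLB⟩ := hx3 D (by omega) hC Bd hI
  obtain ⟨w, hw1, hw2, hw3, hw4⟩ := hx1 D.x (by omega)
  obtain ⟨g1, g2, g3⟩ := hx7 D.x (by omega)
  have hSc := hx6 D.x (by omega)
  set K := Real.log D.x with hK
  set y := yy P D.x with hy
  have hy1 : 1 ≤ y := g1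
  have hcop : ∀ n ∈ Sr P β' D.x, n.Coprime P.q := by
    intro n hn
    unfold Sr at hn
    exact rough_unit g2 (by have := hP.q2; omega) (Finset.mem_filter.1 hn).2
  set un : ℕ → (ZMod P.q)ˣ := fun n => if h : n.Coprime P.q then ZMod.unitOfCoprime n h else 1
    with hun'
  have hun : ∀ n ∈ Sr P β' D.x, (un n : ZMod P.q) = n := by
    intro n hn
    rw [hun']
    simp only [dif_pos (hcop n hn)]
    exact ZMod.coe_unitOfCoprime n (hcop n hn)
  obtain ⟨t, ψ, ht, hψ, hsum⟩ := hx2 D (by omega) hC gg Lam hLB un hun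
  have hpsn : ∀ n ∈ Sr P β' D.x, psn ψ n = ψ (un n) := by
    intro n hn
    rw [hun']
    unfold psn
    simp only [dif_pos (hcop n hn)]
  have hlam : ∀ n, (lam n) ^ 2 = 1 := by
    intro n
    rw [← sq_abs, Pool.Agent.Lib.MP_45349e_nt.LS.abs_lam, one_pow]
  have hlamn : ∀ n, ‖(lam n : ℂ)‖ = 1 := by
    intro n
    rw [Complex.norm_real, Real.norm_eq_abs, Pool.Agent.Lib.MP_45349e_nt.LS.abs_lam]
  have hy0 : (0 : ℝ) < y := by exact_mod_cast hy1
  have hK0 : 0 < K := by linarith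
  have hS0 : (0 : ℝ) < (Sr P β' D.x).card := lt_of_lt_of_le (by positivity) hSc
  have hδ : (y : ℝ) / K ^ 2 ≤ (Sr P β' D.x).card / 2 := by
    have h1 : (y : ℝ) / K ^ 2 = (y / K) / K := by
      rw [sq, div_div]
    rw [h1]
    have h2 : (y : ℝ) / K / K ≤ (Sr P β' D.x).card / K :=
      div_le_div_of_nonneg_right hSc hK0.le
    refine h2.trans ?_
    exact div_le_div_of_nonneg_left hS0.le (by norm_num) g3
  have hν : ∀ n ∈ Ioc y (2 * y), (if Rough ⌊(D.x : ℝ) ^ β'⌋₊ n then (1 : ℝ) else 0) ≤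
      ∑ d ∈ n.divisors, w d := by
    intro n hn
    exact hw3 n (by have := (Finset.mem_Ioc.1 hn).1; omega)
  have hwn : ∀ n ∈ Sr P β' D.x,
      ‖ψ (un n) * Complex.exp (Complex.I * (t * Real.log n))‖ = 1 := by
    intro n _
    rw [norm_mul, hψ, Fin_exp, one_mul]
  have hSr : Sr P β' D.x = (Ioc y (2 * y)).filter (fun n => Rough ⌊(D.x : ℝ) ^ β'⌋₊ n) := rfl
  rcases le_total |t| (K ^ 10) with hcase | hcase
  · have h1 := hx4 D.x (by omega) w hw1 hw2 t ψ hcase hψ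
    have hbig : (59 / 60 : ℝ) * (Sr P β' D.x).card ≤
        (∑ n ∈ Sr P β' D.x, (lam n * psn ψ n * Complex.exp (Complex.I * (t * Real.log n)))).re := by
      rw [Complex.re_sum]
      have h2 : ∀ n ∈ Sr P β' D.x,
          ((lam n : ℂ) * psn ψ n * Complex.exp (Complex.I * (t * Real.log n))).re =
          1 - ‖ψ (un n) * Complex.exp (Complex.I * (t * Real.log n)) - lam n‖ ^ 2 / 2 := by
        intro n hn
        rw [hpsn n hn, mul_assoc]
        exact Fin_re1 _ _ (hwn n hn) (hlam n)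
      rw [Finset.sum_congr rfl h2, Finset.sum_sub_distrib, ← Finset.sum_div, Finset.sum_const,
        nsmul_eq_mul, mul_one]
      linarith
    have h3 := Fin_core (Ioc y (2 * y)) (fun n => Rough ⌊(D.x : ℝ) ^ β'⌋₊ n)
      (fun n => ∑ d ∈ n.divisors, w d)
      (fun n => lam n * psn ψ n * Complex.exp (Complex.I * (t * Real.log n)))
      ((y : ℝ) / K ^ 2) (59 / 60) ?_ hν hw4 ?_ hbig
    · rw [← hSr] at h3
      linarith
    · intro n _
      rw [norm_mul, norm_mul, Fin_exp, hlamn, mul_one, one_mul]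
      exact Fin_psn ψ hψ n
    · refine le_trans (le_of_eq ?_) h1
      refine congrArg norm (Finset.sum_congr rfl fun n _ => ?_)
      ring
  · have h1 := hx5 D.x (by omega) w hw1 hw2 t ψ hcase ht hψ
    have hbig : (14 / 15 : ℝ) * (Sr P β' D.x).card ≤
        (∑ n ∈ Sr P β' D.x, (psn ψ n * Complex.exp (Complex.I * (t * Real.log n))) ^ 2).re := by
      rw [Complex.re_sum]
      have h2 : ∀ n ∈ Sr P β' D.x,
          1 - 2 * ‖ψ (un n) * Complex.exp (Complex.I * (t * Real.log n)) - lam n‖ ^ 2 ≤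
          ((psn ψ n * Complex.exp (Complex.I * (t * Real.log n))) ^ 2).re := by
        intro n hn
        rw [hpsn n hn]
        exact Fin_re2 _ _ (hwn n hn) (hlam n)
      refine le_trans ?_ (Finset.sum_le_sum h2)
      rw [Finset.sum_sub_distrib, ← Finset.mul_sum, Finset.sum_const, nsmul_eq_mul, mul_one]
      linarith
    have h3 := Fin_core (Ioc y (2 * y)) (fun n => Rough ⌊(D.x : ℝ) ^ β'⌋₊ n)
      (fun n => ∑ d ∈ n.divisors, w d)
      (fun n => (psn ψ n * Complex.exp (Complex.I * (t * Real.log n))) ^ 2)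
      ((y : ℝ) / K ^ 2) (14 / 15) ?_ hν hw4 h1 hbig
    · rw [← hSr] at h3
      linarith
    · intro n _
      rw [norm_pow, norm_mul, Fin_exp, mul_one]
      exact pow_le_one₀ (norm_nonneg _) (Fin_psn ψ hψ n)

end Pool.Agent.Lib.TT
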