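import Pool.Agent.Lib.MP_092512_nt.TT.Bs2

/-!
# TT / Bs3: the field `bs` of `Inp` for the relation of the pair lemma

The relation: at most two indices with `α_i ≢ β_i` modulo some prime `p0 ≤ p ≤ y1`, or (`l ≠ 1`) `l ∣ h β_i - (h + g) α_i` or `l ∣ h α_i - (h + g) β_i` for some `i` and some `g ∈ G`.
Events: `(p, I, α)` with `|I| = k - 1`, and `(l, {i}, c)` with the `2 |G|` classes `c` which belong to `α_i`.
-/

set_option autoImplicit false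

open Finset

namespace Pool.Agent.Lib.TT

open Pool.Agent.Lib.TCF (pht TUP rho)
open Pool.Agent.Lib.RG (Rough PN)

/-- the relation for the choices -/
def BdR (n1 n2 : ℕ) {k : ℕ} (p0 y1 l : ℕ) (h : ℤ) (G : Finset ℤ) (α : Fin (k + 1) → ℕ) (f : Fin (k + 1 + (k + 1) + n1 + n2) → ℕ) : Prop :=
  (∃ p : ℕ, p.Prime ∧ p0 ≤ p ∧ p ≤ y1 ∧ (univ.filter fun i => ¬ (α i ≡ f (iA n1 n2 i) * f (iB n1 n2 i) [MOD p])).card ≤ 2) ∨
    (l ≠ 1 ∧ ∃ i, ∃ g ∈ G, (l : ℤ) ∣ h * (f (iA n1 n2 i) * f (iB n1 n2 i) : ℕ) - (h + g) * α i ∨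
      (l : ℤ) ∣ h * α i - (h + g) * (f (iA n1 n2 i) * f (iB n1 n2 i) : ℕ))

private theorem bs3_tele (a M : ℕ) (ha : 2 ≤ a) : ∑ n ∈ Ico (a + 1) M, 1 / ((n : ℝ) - 1) ^ 2 ≤ 1 / ((a : ℝ) - 1) := by
  have key : ∀ M : ℕ, a + 1 ≤ M → ∑ n ∈ Ico (a + 1) M, 1 / ((n : ℝ) - 1) ^ 2 ≤ 1 / ((a : ℝ) - 1) - 1 / ((M : ℝ) - 2) := by
    intro M hM
    induction M, hM using Nat.le_induction with
    | base =>
      rw [Ico_self, sum_empty]
      push_cast
      have : (a : ℝ) + 1 - 2 = a - 1 := by ring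
      rw [this, sub_self]
    | succ M hM ih =>
      rw [sum_Ico_succ_top hM]
      have hM1 : (a : ℝ) + 1 ≤ M := by exact_mod_cast hM
      have ha1 : (2 : ℝ) ≤ a := by exact_mod_cast ha
      have h1 : (0 : ℝ) < (M : ℝ) - 2 := by linarith
      have h2 : (0 : ℝ) < (M : ℝ) - 1 := by linarith
      have h3 : 1 / ((M : ℝ) - 1) ^ 2 ≤ 1 / ((M : ℝ) - 2) - 1 / (((M + 1 : ℕ) : ℝ) - 2) := by
        push_cast
        have h4 : (M : ℝ) + 1 - 2 = M - 1 := by ring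
        rw [h4, div_sub_div _ _ h1.ne' h2.ne', div_le_div_iff₀ (by positivity) (by positivity)]
        nlinarith
      linarith
  have ha1 : (2 : ℝ) ≤ a := by exact_mod_cast ha
  rcases le_or_gt (a + 1) M with h | h
  · have h1 := key M h
    have h2 : (a : ℝ) + 1 ≤ M := by exact_mod_cast h
    have h3 : 0 ≤ 1 / ((M : ℝ) - 2) := by
      apply one_div_nonneg.2
      linarith
    linarith
  · rw [Ico_eq_empty (by omega), sum_empty]
    apply one_div_nonneg.2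
    linarith

/-- the sum of the densities over the small primes -/
private theorem bs3_sum (PP : Finset ℕ) (k p0 y1 : ℕ) (hPP : ∀ p ∈ PP, p0 ≤ p ∧ p ≤ y1) (hk : 5 ≤ k) (hp : 64 * (k + 1) ^ 2 + 64 ≤ p0) :
    ∑ p ∈ PP, (((k + 1).choose (k - 1) : ℕ) : ℝ) * (4 / ((p : ℝ) - 1)) ^ (k - 1) ≤ 1 / 480 := by
  set q : ℝ := ((k : ℝ) + 1) ^ 2 with hq
  have hk1 : (5 : ℝ) ≤ k := by exact_mod_cast hk
  have hq36 : 36 ≤ q := by rw [hq]; nlinarith
  have hch : (((k + 1).choose (k - 1) : ℕ) : ℝ) ≤ q := by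
    have h1 : (k + 1).choose (k - 1) = (k + 1).choose 2 := by
      rw [← Nat.choose_symm (show 2 ≤ k + 1 by omega)]
      congr 1
    rw [h1]
    have h2 : (k + 1).choose 2 ≤ (k + 1) ^ 2 := Nat.choose_le_pow _ _
    rw [hq]
    exact_mod_cast h2
  have hp0 : 64 * q + 64 ≤ (p0 : ℝ) := by rw [hq]; exact_mod_cast hp
  have hterm : ∀ p ∈ PP, (((k + 1).choose (k - 1) : ℕ) : ℝ) * (4 / ((p : ℝ) - 1)) ^ (k - 1) ≤
      q * ((1 / (16 * q)) ^ 2 * 16) * (1 / ((p : ℝ) - 1) ^ 2) := by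
    intro p hpp
    have h2 : (p0 : ℝ) ≤ p := by exact_mod_cast (hPP p hpp).1
    have h3 : 64 * q ≤ (p : ℝ) - 1 := by linarith
    have h4 : 0 < (p : ℝ) - 1 := by linarith
    have h5 : 4 / ((p : ℝ) - 1) ≤ 1 / (16 * q) := by
      rw [div_le_div_iff₀ h4 (by linarith)]
      linarith
    have h50 : 0 ≤ 4 / ((p : ℝ) - 1) := by positivity
    have h6 : 1 / (16 * q) ≤ 1 := by
      rw [div_le_one (by linarith)]; linarith
    have h7 : (4 / ((p : ℝ) - 1)) ^ (k - 1) ≤ (1 / (16 * q)) ^ 2 * (4 / ((p : ℝ) - 1)) ^ 2 := by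
      have h8 : k - 1 = (k - 5) + 2 + 2 := by omega
      rw [h8, pow_add, pow_add]
      have h9 : (4 / ((p : ℝ) - 1)) ^ (k - 5) ≤ 1 := pow_le_one₀ h50 (h5.trans h6)
      have h10 : (4 / ((p : ℝ) - 1)) ^ 2 ≤ (1 / (16 * q)) ^ 2 := pow_le_pow_left₀ h50 h5 2
      calc (4 / ((p : ℝ) - 1)) ^ (k - 5) * (4 / ((p : ℝ) - 1)) ^ 2 * (4 / ((p : ℝ) - 1)) ^ 2 ≤
          1 * (1 / (16 * q)) ^ 2 * (4 / ((p : ℝ) - 1)) ^ 2 := by gcongr
        _ = _ := by ring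
    calc (((k + 1).choose (k - 1) : ℕ) : ℝ) * (4 / ((p : ℝ) - 1)) ^ (k - 1) ≤
        q * ((1 / (16 * q)) ^ 2 * (4 / ((p : ℝ) - 1)) ^ 2) := by gcongr
      _ = _ := by
          have h9 : (4 / ((p : ℝ) - 1)) ^ 2 = 16 * (1 / ((p : ℝ) - 1) ^ 2) := by
            rw [div_pow]
            ring
          rw [h9]
          ring
  refine (sum_le_sum hterm).trans ?_
  rw [← mul_sum]
  have hsub : PP ⊆ Ico (p0 - 1 + 1) (y1 + 1) := by
    intro p hpp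
    rw [mem_Ico]
    have := hPP p hpp
    omega
  have h1 : ∑ p ∈ PP, 1 / ((p : ℝ) - 1) ^ 2 ≤ 1 / (((p0 - 1 : ℕ) : ℝ) - 1) :=
    (sum_le_sum_of_subset_of_nonneg hsub fun _ _ _ => by positivity).trans (bs3_tele (p0 - 1) (y1 + 1) (by omega))
  have h2 : (((p0 - 1 : ℕ) : ℝ) - 1) = (p0 : ℝ) - 2 := by
    rw [Nat.cast_sub (by omega)]
    push_cast
    ring
  rw [h2] at h1
  have h3 : 1 / ((p0 : ℝ) - 2) ≤ 1 := by
    rw [div_le_one (by linarith)]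
    linarith
  have h4 : q * ((1 / (16 * q)) ^ 2 * 16) = 1 / (16 * q) := by
    field_simp
  rw [h4]
  have h5 : 0 ≤ 1 / (16 * q) := by positivity
  calc 1 / (16 * q) * ∑ p ∈ PP, 1 / ((p : ℝ) - 1) ^ 2 ≤ 1 / (16 * q) * 1 := by
        apply mul_le_mul_of_nonneg_left (h1.trans h3) h5
    _ ≤ 1 / 480 := by
        rw [mul_one, div_le_div_iff₀ (by linarith) (by norm_num)]
        linarith

/-- solution of a linear congruence -/
def sol (l : ℕ) (a b : ℤ) : ℕ := ((a : ZMod l) * (b : ZMod l)⁻¹).val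

private theorem sol_ndvd {l : ℕ} (hl : l.Prime) {a b : ℤ} (ha : ¬ (l : ℤ) ∣ a) (hb : ¬ (l : ℤ) ∣ b) : ¬ l ∣ sol l a b := by
  haveI := Fact.mk hl
  intro h
  have h1 : ((sol l a b : ℕ) : ZMod l) = 0 := (ZMod.natCast_eq_zero_iff _ _).2 h
  unfold sol at h1
  rw [ZMod.natCast_zmod_val] at h1
  rcases mul_eq_zero.1 h1 with h2 | h2
  · exact ha ((ZMod.intCast_zmod_eq_zero_iff_dvd _ _).1 h2)
  · exact hb ((ZMod.intCast_zmod_eq_zero_iff_dvd _ _).1 (inv_eq_zero.1 h2))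

private theorem sol_spec {l : ℕ} (hl : l.Prime) {a b : ℤ} {n : ℕ} (hb : ¬ (l : ℤ) ∣ b) (h : (l : ℤ) ∣ b * n - a) : n ≡ sol l a b [MOD l] := by
  haveI := Fact.mk hl
  refine (ZMod.natCast_eq_natCast_iff _ _ _).1 ?_
  unfold sol
  rw [ZMod.natCast_zmod_val]
  have h1 : ((b * n - a : ℤ) : ZMod l) = 0 := (ZMod.intCast_zmod_eq_zero_iff_dvd _ _).2 h
  have h2 : (b : ZMod l) ≠ 0 := fun h0 => hb ((ZMod.intCast_zmod_eq_zero_iff_dvd _ _).1 h0)
  push_cast at h1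
  have h3 : (a : ZMod l) = b * n := (sub_eq_zero.1 h1).symm
  rw [h3]
  field_simp

/-- the events of one tuple -/
private theorem bs3_ev {k n1 n2 : ℕ} {p0 y0 y1 l : ℕ} {h : ℤ} {G : Finset ℤ} {WA WB : Fin (k + 1) → Finset ℕ} {F1 : Fin n1 → Finset ℕ} {F2 : Fin n2 → Finset ℕ}
    (hk : 5 ≤ k) (hp0 : 64 * (k + 1) ^ 2 + 64 ≤ p0) (hy1 : y1 ≤ y0) (hl : l = 1 ∨ (l.Prime ∧ l ≤ y0)) (hlh : l ≠ 1 → ¬ (l : ℤ) ∣ h)
    (hlG : l ≠ 1 → ∀ g ∈ G, ¬ (l : ℤ) ∣ h + g) (hlb : l ≠ 1 → ((k : ℝ) + 1) * (2 * G.card) * (4 / ((l : ℝ) - 1)) ≤ 1 / 480)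
    {Bd : ℕ → Prop} {α : Fin (k + 1) → ℕ} (hα : ∀ i, (α i).Prime ∧ y0 < α i)
    (hB : ∀ f ∈ Fintype.piFinset (famW WA WB F1 F2), Bd (∏ c, f c) → BdR n1 n2 p0 y1 l h G α f) :
    ∃ E : Finset (Evt k), (∀ e ∈ E, (e.1, e.2.1) ∈ ((Icc p0 y1).filter Nat.Prime ×ˢ (univ : Finset (Fin (k + 1))).powersetCard (k - 1)) ∪
        (if l = 1 then ∅ else {l} ×ˢ (univ : Finset (Fin (k + 1))).powersetCard 1) ∧ ∀ i ∈ e.2.1, ¬ e.1 ∣ e.2.2 i) ∧
      ∑ e ∈ E, (4 / ((e.1 : ℝ) - 1)) ^ e.2.1.card ≤ 1 / 240 ∧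
      ∀ f ∈ Fintype.piFinset (famW WA WB F1 F2), Bd (∏ c, f c) → ∃ e ∈ E, e.On n1 n2 f := by
  classical
  obtain ⟨PP, hPP⟩ : ∃ PP : Finset ℕ, PP = (Icc p0 y1).filter Nat.Prime := ⟨_, rfl⟩
  obtain ⟨E1, hE1⟩ : ∃ E1 : Finset (Evt k), E1 = (PP ×ˢ (univ : Finset (Fin (k + 1))).powersetCard (k - 1)).image fun z => (z.1, z.2, α) := ⟨_, rfl⟩
  obtain ⟨E2, hE2⟩ : ∃ E2 : Finset (Evt k), E2 = if l = 1 then ∅ else
    ((univ : Finset (Fin (k + 1))) ×ˢ G ×ˢ (univ : Finset Bool)).image fun z => (l, {z.1}, fun _ =>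
      if z.2.2 then sol l ((h + z.2.1) * α z.1) h else sol l (h * α z.1) (h + z.2.1)) := ⟨_, rfl⟩
  have hpos : ∀ e ∈ E1 ∪ E2, 0 ≤ (4 / ((e.1 : ℝ) - 1)) ^ e.2.1.card := by
    intro e he
    have h1 : (1 : ℝ) ≤ e.1 := by
      rcases mem_union.1 he with h1 | h1
      · rw [hE1, mem_image] at h1
        obtain ⟨z, hz, rfl⟩ := h1
        rw [mem_product, hPP, mem_filter] at hz
        exact_mod_cast hz.1.2.one_lt.le
      · rw [hE2] at h1
        split_ifs at h1 with h2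
        · exact absurd h1 (notMem_empty _)
        · rw [mem_image] at h1
          obtain ⟨z, hz, rfl⟩ := h1
          rcases hl with h3 | h3
          · exact absurd h3 h2
          · exact_mod_cast h3.1.one_lt.le
    have h2 : 0 ≤ (e.1 : ℝ) - 1 := by linarith
    positivity
  have hs1 : ∑ e ∈ E1, (4 / ((e.1 : ℝ) - 1)) ^ e.2.1.card ≤ 1 / 480 := by
    rw [hE1, sum_image, sum_product]
    · refine le_trans (le_of_eq ?_) (bs3_sum PP k p0 y1 ?_ hk hp0)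
      · refine sum_congr rfl fun p _ => ?_
        rw [sum_congr rfl (g := fun _ => (4 / ((p : ℝ) - 1)) ^ (k - 1))]
        · rw [sum_const, card_powersetCard, card_univ, Fintype.card_fin, nsmul_eq_mul]
        · intro I hI
          simp only [(mem_powersetCard.1 hI).2]
      · intro p hp
        rw [hPP, mem_filter, mem_Icc] at hp
        exact hp.1
    · intro z _ w _ hzw
      simp only [Prod.mk.injEq, and_true] at hzw
      exact Prod.ext hzw.1 hzw.2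
  have hs2 : ∑ e ∈ E2, (4 / ((e.1 : ℝ) - 1)) ^ e.2.1.card ≤ 1 / 480 := by
    rw [hE2]
    split_ifs with h1
    · rw [sum_empty]
      norm_num
    · have hlp : l.Prime := by
        rcases hl with h3 | h3
        · exact absurd h3 h1
        · exact h3.1
      have hl1 : (1 : ℝ) < l := by exact_mod_cast hlp.one_lt
      have h40 : 0 ≤ 4 / ((l : ℝ) - 1) := div_nonneg (by norm_num) (by linarith)
      have h2 : ∑ e ∈ ((univ : Finset (Fin (k + 1))) ×ˢ G ×ˢ (univ : Finset Bool)).image (fun z => ((l, {z.1}, fun _ =>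
          if z.2.2 then sol l ((h + z.2.1) * α z.1) h else sol l (h * α z.1) (h + z.2.1)) : Evt k)),
          (4 / ((e.1 : ℝ) - 1)) ^ e.2.1.card ≤ ∑ z ∈ (univ : Finset (Fin (k + 1))) ×ˢ G ×ˢ (univ : Finset Bool), (4 / ((l : ℝ) - 1)) := by
        refine (sum_image_le_of_nonneg ?_).trans ?_
        · intro z hz
          rw [mem_image] at hz
          obtain ⟨w, _, rfl⟩ := hz
          exact pow_nonneg h40 _
        · refine sum_le_sum fun z _ => ?_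
          simp
      refine h2.trans (le_trans (le_of_eq ?_) (hlb h1))
      rw [sum_const, nsmul_eq_mul, card_product, card_product, card_univ, Fintype.card_fin, card_univ, Fintype.card_bool]
      push_cast
      ring
  refine ⟨E1 ∪ E2, fun e he => ?_, ?_, fun f hf hbd => ?_⟩
  · rcases mem_union.1 he with h1 | h1
    · rw [hE1, mem_image] at h1
      obtain ⟨z, hz, rfl⟩ := h1
      refine ⟨mem_union_left _ ?_, fun i _ hd => ?_⟩
      · rw [← hPP]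
        exact hz
      · rw [mem_product, hPP, mem_filter, mem_Icc] at hz
        have h3 := (Nat.prime_dvd_prime_iff_eq hz.1.2 (hα i).1).1 hd
        have h4 := (hα i).2
        have h5 := hz.1.1.2
        omega
    · rw [hE2] at h1
      split_ifs at h1 with h2
      · exact absurd h1 (notMem_empty _)
      · rw [mem_image] at h1
        obtain ⟨z, hz, rfl⟩ := h1
        have hlp : l.Prime ∧ l ≤ y0 := by
          rcases hl with h3 | h3
          · exact absurd h3 h2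
          · exact h3
        rw [mem_product, mem_product] at hz
        refine ⟨mem_union_right _ ?_, fun i _ => ?_⟩
        · rw [if_neg h2, mem_product, mem_powersetCard]
          exact ⟨mem_singleton_self _, subset_univ _, card_singleton _⟩
        · have hpi := Nat.prime_iff_prime_int.1 hlp.1
          have h3 : ¬ (l : ℤ) ∣ α z.1 := by
            intro hd
            have h4 : l ∣ α z.1 := by exact_mod_cast hd
            have h5 := (Nat.prime_dvd_prime_iff_eq hlp.1 (hα z.1).1).1 h4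
            have h6 := (hα z.1).2
            omega
          have h4 := hlh h2
          have h5 := hlG h2 z.2.1 hz.2.1
          simp only
          split_ifs
          · exact sol_ndvd hlp.1 (fun hd => (hpi.dvd_or_dvd hd).elim h5 h3) h4
          · exact sol_ndvd hlp.1 (fun hd => (hpi.dvd_or_dvd hd).elim h4 h3) h5
  · have h1 := sum_union_inter (s₁ := E1) (s₂ := E2) (f := fun e => (4 / ((e.1 : ℝ) - 1)) ^ e.2.1.card)
    have h2 : 0 ≤ ∑ e ∈ E1 ∩ E2, (4 / ((e.1 : ℝ) - 1)) ^ e.2.1.card :=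
      sum_nonneg fun e he => hpos e (mem_union_left _ (mem_inter.1 he).1)
    linarith
  · rcases hB f hf hbd with ⟨p, hp, hp1, hp2, hc⟩ | ⟨h2, i, g, hg, hd⟩
    · have h5 : k - 1 ≤ ((univ : Finset (Fin (k + 1))).filter fun i => α i ≡ f (iA n1 n2 i) * f (iB n1 n2 i) [MOD p]).card := by
        have h6 := card_filter_add_card_filter_not (s := (univ : Finset (Fin (k + 1)))) (fun i => α i ≡ f (iA n1 n2 i) * f (iB n1 n2 i) [MOD p])
        rw [card_univ, Fintype.card_fin] at h6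
        omega
      obtain ⟨I, hI, hIc⟩ := exists_subset_card_eq h5
      refine ⟨(p, I, α), mem_union_left _ ?_, fun i hi => ?_⟩
      · rw [hE1, mem_image]
        refine ⟨(p, I), ?_, rfl⟩
        rw [mem_product, hPP, mem_filter, mem_Icc, mem_powersetCard]
        exact ⟨⟨⟨hp1, hp2⟩, hp⟩, subset_univ _, hIc⟩
      · exact ((mem_filter.1 (hI hi)).2).symm
    · have hlp : l.Prime ∧ l ≤ y0 := by
        rcases hl with h3 | h3
        · exact absurd h3 h2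
        · exact h3
      have h4 := hlh h2
      have h5 := hlG h2 g hg
      rcases hd with hd | hd
      · refine ⟨(l, {i}, fun _ => sol l ((h + g) * α i) h), mem_union_right _ ?_, fun j hj => ?_⟩
        · rw [hE2, if_neg h2, mem_image]
          exact ⟨(i, g, true), mem_product.2 ⟨mem_univ _, mem_product.2 ⟨hg, mem_univ _⟩⟩, by simp⟩
        · rw [mem_singleton.1 hj]
          exact sol_spec hlp.1 h4 hd
      · refine ⟨(l, {i}, fun _ => sol l (h * α i) (h + g)), mem_union_right _ ?_, fun j hj => ?_⟩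
        · rw [hE2, if_neg h2, mem_image]
          exact ⟨(i, g, false), mem_product.2 ⟨mem_univ _, mem_product.2 ⟨hg, mem_univ _⟩⟩, by simp⟩
        · rw [mem_singleton.1 hj]
          exact sol_spec hlp.1 h5 (dvd_sub_comm.1 hd)

/-- the number of the sub-families, weighted -/
private theorem bs3_num {k p0 y1 l C1 : ℕ} {K : ℝ} (hk : 5 ≤ k) (hK : (2 : ℝ) ^ (9 * k) + 4096 * (k + 1) ≤ K) (hy1 : (y1 : ℝ) ≤ 2 * K) (hl : l ≠ 1 → (l : ℝ) ≤ 4 * K ^ C1) :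
    ∑ z ∈ ((Icc p0 y1).filter Nat.Prime ×ˢ (univ : Finset (Fin (k + 1))).powersetCard (k - 1)) ∪
        (if l = 1 then ∅ else {l} ×ˢ (univ : Finset (Fin (k + 1))).powersetCard 1), ((4 * (z.1 : ℝ) ^ 2) ^ z.2.card) ^ 2 ≤ K ^ (4 * k + 4 * C1 + 1) := by
  classical
  have hK1 : 1 ≤ K := by
    have h1 : (0 : ℝ) ≤ (2 : ℝ) ^ (9 * k) := by positivity
    have h2 : (0 : ℝ) ≤ (k : ℝ) := Nat.cast_nonneg _
    linarith
  have hK0 : 0 < K := by linarith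
  obtain ⟨Q1, hQ1⟩ : ∃ Q1, Q1 = (Icc p0 y1).filter Nat.Prime ×ˢ (univ : Finset (Fin (k + 1))).powersetCard (k - 1) := ⟨_, rfl⟩
  obtain ⟨Q2, hQ2⟩ : ∃ Q2 : Finset (ℕ × Finset (Fin (k + 1))), Q2 = if l = 1 then ∅ else {l} ×ˢ (univ : Finset (Fin (k + 1))).powersetCard 1 := ⟨_, rfl⟩
  rw [← hQ1, ← hQ2]
  have h0 : ∑ z ∈ Q1 ∪ Q2, ((4 * (z.1 : ℝ) ^ 2) ^ z.2.card) ^ 2 ≤ ∑ z ∈ Q1, ((4 * (z.1 : ℝ) ^ 2) ^ z.2.card) ^ 2 + ∑ z ∈ Q2, ((4 * (z.1 : ℝ) ^ 2) ^ z.2.card) ^ 2 := by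
    have h1 := sum_union_inter (s₁ := Q1) (s₂ := Q2) (f := fun z : ℕ × Finset (Fin (k + 1)) => ((4 * (z.1 : ℝ) ^ 2) ^ z.2.card) ^ 2)
    have h2 : 0 ≤ ∑ z ∈ Q1 ∩ Q2, ((4 * (z.1 : ℝ) ^ 2) ^ z.2.card) ^ 2 := sum_nonneg fun _ _ => by positivity
    linarith
  have h1 : ∑ z ∈ Q1, ((4 * (z.1 : ℝ) ^ 2) ^ z.2.card) ^ 2 ≤ (2 : ℝ) ^ (9 * k) * K ^ (4 * k + 4 * C1) := by
    have h2 : ∀ z ∈ Q1, ((4 * (z.1 : ℝ) ^ 2) ^ z.2.card) ^ 2 ≤ (16 * K ^ 2) ^ (2 * (k - 1)) := by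
      intro z hz
      rw [hQ1, mem_product, mem_filter, mem_Icc, mem_powersetCard] at hz
      rw [hz.2.2, ← pow_mul, mul_comm (k - 1) 2]
      refine pow_le_pow_left₀ (by positivity) ?_ _
      have h3 : (z.1 : ℝ) ≤ 2 * K := le_trans (by exact_mod_cast hz.1.1.2) hy1
      have h4 : (z.1 : ℝ) ^ 2 ≤ (2 * K) ^ 2 := pow_le_pow_left₀ (Nat.cast_nonneg _) h3 2
      calc 4 * (z.1 : ℝ) ^ 2 ≤ 4 * (2 * K) ^ 2 := by linarith
        _ = 16 * K ^ 2 := by ring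
    refine (sum_le_card_nsmul _ _ _ h2).trans ?_
    rw [nsmul_eq_mul]
    have h3 : (Q1.card : ℝ) ≤ 2 * K * 2 ^ (k + 1) := by
      rw [hQ1, card_product, card_powersetCard, card_univ, Fintype.card_fin]
      push_cast
      refine mul_le_mul ?_ ?_ (by positivity) (by positivity)
      · refine le_trans ?_ hy1
        have h4 : ((Icc p0 y1).filter Nat.Prime) ⊆ Icc 1 y1 := by
          intro p hp
          rw [mem_filter, mem_Icc] at hp
          exact mem_Icc.2 ⟨hp.2.one_lt.le, hp.1.2⟩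
        have h5 := card_le_card h4
        rw [Nat.card_Icc, Nat.add_sub_cancel] at h5
        exact_mod_cast h5
      · exact_mod_cast Nat.choose_le_two_pow _ _
    calc (Q1.card : ℝ) * (16 * K ^ 2) ^ (2 * (k - 1)) ≤ (2 * K * 2 ^ (k + 1)) * (16 * K ^ 2) ^ (2 * (k - 1)) :=
          mul_le_mul_of_nonneg_right h3 (by positivity)
      _ = 2 ^ (k + 2 + 8 * (k - 1)) * K ^ (1 + 4 * (k - 1)) := by
          rw [show (16 : ℝ) * K ^ 2 = (4 * K) ^ 2 by ring, ← pow_mul, mul_pow, show (4 : ℝ) = 2 ^ 2 by norm_num, ← pow_mul, pow_add 2 (k + 2), pow_succ 2 (k + 1),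
            show 2 * (2 * (2 * (k - 1))) = 8 * (k - 1) by ring, show 2 * (2 * (k - 1)) = 4 * (k - 1) by ring, pow_add K 1, pow_one]
          ring
      _ ≤ 2 ^ (9 * k) * K ^ (4 * k + 4 * C1) := by
          refine mul_le_mul (pow_le_pow_right₀ (by norm_num) (by omega)) (pow_le_pow_right₀ hK1 (by omega)) (by positivity) (by positivity)
  have h2 : ∑ z ∈ Q2, ((4 * (z.1 : ℝ) ^ 2) ^ z.2.card) ^ 2 ≤ 4096 * (k + 1) * K ^ (4 * k + 4 * C1) := by
    rw [hQ2]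
    split_ifs with h3
    · rw [sum_empty]
      positivity
    · have hl4 := hl h3
      have h4 : ∀ z ∈ ({l} : Finset ℕ) ×ˢ (univ : Finset (Fin (k + 1))).powersetCard 1, ((4 * (z.1 : ℝ) ^ 2) ^ z.2.card) ^ 2 ≤ 4096 * K ^ (4 * C1) := by
        intro z hz
        rw [mem_product, mem_singleton, mem_powersetCard] at hz
        rw [hz.2.2, hz.1, pow_one]
        have h5 : (l : ℝ) ^ 4 ≤ (4 * K ^ C1) ^ 4 := pow_le_pow_left₀ (Nat.cast_nonneg _) hl4 4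
        calc (4 * (l : ℝ) ^ 2) ^ 2 = 16 * (l : ℝ) ^ 4 := by ring
          _ ≤ 16 * (4 * K ^ C1) ^ 4 := by linarith
          _ = 4096 * K ^ (4 * C1) := by
              rw [mul_pow, ← pow_mul, mul_comm C1 4]
              ring
      refine (sum_le_card_nsmul _ _ _ h4).trans ?_
      rw [nsmul_eq_mul, card_product, card_singleton, card_powersetCard, card_univ, Fintype.card_fin, Nat.choose_one_right, one_mul]
      push_cast
      calc ((k : ℝ) + 1) * (4096 * K ^ (4 * C1)) = 4096 * (k + 1) * K ^ (4 * C1) := by ring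
        _ ≤ 4096 * (k + 1) * K ^ (4 * k + 4 * C1) := mul_le_mul_of_nonneg_left (pow_le_pow_right₀ hK1 (by omega)) (by positivity)
  calc ∑ z ∈ Q1 ∪ Q2, ((4 * (z.1 : ℝ) ^ 2) ^ z.2.card) ^ 2 ≤ (2 : ℝ) ^ (9 * k) * K ^ (4 * k + 4 * C1) + 4096 * (k + 1) * K ^ (4 * k + 4 * C1) :=
        h0.trans (add_le_add h1 h2)
    _ = ((2 : ℝ) ^ (9 * k) + 4096 * (k + 1)) * K ^ (4 * k + 4 * C1) := by ring
    _ ≤ K * K ^ (4 * k + 4 * C1) := mul_le_mul_of_nonneg_right hK (by positivity)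
    _ = K ^ (4 * k + 4 * C1 + 1) := by rw [pow_succ]; ring

open Classical in
theorem bs_tt (P : Par) (hP : P.Ok) (k p0 : ℕ) (hk : 5 ≤ k) (hp0 : 64 * (k + 1) ^ 2 + 64 ≤ p0) (h : ℤ) (G : Finset ℤ) (hh : h ≠ 0) (hG : ∀ g ∈ G, h + g ≠ 0) :
    ∃ x0 : ℕ, ∀ (x y0 y1 nX n1 n2 : ℕ) (BX : Fin nX → Finset ℕ) (WA WB : Fin (k + 1) → Finset ℕ) (F1 : Fin n1 → Finset ℕ) (F2 : Fin n2 → Finset ℕ),
    x0 ≤ x → Ctx P (datW x y0 BX WA WB F1 F2) → (y1 : ℝ) ≤ 2 * Real.log x →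
    (∀ p : ℕ, p.Prime → p0 ≤ p → p ≤ y1 → WinP WA WB p) →
    (Real.log x) ^ (4 * k + 4 * P.C1 + 240) ≤ H1 P x * rho (famW WA WB F1 F2) →
    ∀ (Bd : ℕ → ℕ → ℕ → Prop) (l : ℕ), Mul P x l → (l ≠ 1 → WinP WA WB l) →
    (∀ t ∈ TUP BX, ∃ α : Fin (k + 1) → ℕ, (∀ i, (α i).Prime ∧ y0 < α i) ∧
      ∀ f ∈ Fintype.piFinset (famW WA WB F1 F2), Bd l t (∏ c, f c) → BdR n1 n2 p0 y1 l h G α f) →
    ∀ u : ℕ, (x : ℝ) ^ (1 - P.d0) ≤ u → u ≤ x →
    (((Ioc u (2 * u)).filter fun n => ∃ a : ℕ, a.Coprime P.q ∧ ∃ t ∈ TUP BX,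
      mb P x y0 (famW WA WB F1 F2) / 80 < bb P (datW x y0 BX WA WB F1 F2) Bd l t n a).card : ℝ) ≤ u / (Real.log x) ^ 200 := by
  obtain ⟨x1, habs⟩ := bs_abs P hP
  obtain ⟨K1, hK1⟩ : ∃ K1 : ℝ, K1 = (2 : ℝ) ^ (9 * k) + 4096 * (k + 1) + (h.natAbs : ℝ) + ∑ g ∈ G, ((h + g).natAbs : ℝ) + 3840 * (k + 1) * G.card + 8 := ⟨_, rfl⟩
  obtain ⟨x2, hx2⟩ := Filter.eventually_atTop.1
    ((Real.tendsto_log_atTop.comp tendsto_natCast_atTop_atTop).eventually_ge_atTop K1 : ∀ᶠ x : ℕ in Filter.atTop, K1 ≤ (Real.log ∘ Nat.cast) x)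
  refine ⟨x1 + x2, fun x y0 y1 nX n1 n2 BX WA WB F1 F2 hx hctx hy1 hw hH Bd l hl hwl hB u hu1 hu2 => ?_⟩
  have hKx : K1 ≤ Real.log x := hx2 x (by omega)
  have g1 : (0 : ℝ) < (2 : ℝ) ^ (9 * k) := by positivity
  have g2 : (0 : ℝ) ≤ 4096 * ((k : ℝ) + 1) := by positivity
  have g3 : (0 : ℝ) ≤ (h.natAbs : ℝ) := Nat.cast_nonneg _
  have g4 : (0 : ℝ) ≤ ∑ g ∈ G, ((h + g).natAbs : ℝ) := sum_nonneg fun _ _ => Nat.cast_nonneg _
  have g5 : (0 : ℝ) ≤ 3840 * ((k : ℝ) + 1) * G.card := by positivity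
  obtain ⟨K, hK⟩ : ∃ K : ℝ, K = Real.log x := ⟨_, rfl⟩
  rw [← hK] at hKx hy1 hH ⊢
  have hK8 : 8 ≤ K := by linarith
  have hK0 : 0 < K := by linarith
  have hK1' : 1 ≤ K := by linarith
  have hcp := hP.cp
  have hc1 := hP.c1
  -- `y0`
  have hy0 : y0 = ⌊K ^ P.Cp⌋₊ := by
    rw [hK]
    exact hctx.y0
  have hbig : 4 * K ^ P.C1 ≤ y0 ∧ 2 * K ≤ y0 := by
    have h1 : K ^ (P.C1 + 2) ≤ K ^ P.Cp := pow_le_pow_right₀ hK1' (by omega)
    have h2 : K ^ P.Cp - 1 ≤ y0 := by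
      rw [hy0]
      exact (Nat.sub_one_lt_floor _).le
    have h3 : K ≤ K ^ P.C1 := by
      calc K = K ^ 1 := (pow_one _).symm
        _ ≤ K ^ P.C1 := pow_le_pow_right₀ hK1' (by omega)
    have h4 : 4 * K ^ P.C1 + 1 ≤ K ^ (P.C1 + 2) := by
      rw [pow_add]
      have h5 : (64 : ℝ) ≤ K ^ 2 := by nlinarith
      nlinarith
    constructor
    · linarith
    · linarith
  have hl' : l = 1 ∨ (l.Prime ∧ l ≤ y0) := by
    rcases hl with h1 | ⟨h1, h2, h3, h4⟩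
    · exact Or.inl h1
    · refine Or.inr ⟨h1, ?_⟩
      rw [← hK] at h3
      exact_mod_cast h3.trans hbig.1
  have hlK : l ≠ 1 → K ^ P.C1 < l ∧ (l : ℝ) ≤ 4 * K ^ P.C1 := by
    intro h0
    rcases hl with h1 | ⟨h1, h2, h3, h4⟩
    · exact absurd h1 h0
    · rw [← hK] at h2 h3
      exact ⟨h2, h3⟩
  have hK2 : K ^ 2 ≤ K ^ P.C1 := pow_le_pow_right₀ hK1' hc1
  have hlK2 : l ≠ 1 → K ^ 2 < l := fun h0 => lt_of_le_of_lt hK2 (hlK h0).1
  have hKK : K ≤ K ^ 2 := by nlinarith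
  have hnd : ∀ z : ℤ, z ≠ 0 → (z.natAbs : ℝ) ≤ K → l ≠ 1 → ¬ (l : ℤ) ∣ z := by
    intro z hz hzK h0 hd
    have h1 := Int.natAbs_dvd_natAbs.2 hd
    rw [Int.natAbs_natCast] at h1
    have h2 := Nat.le_of_dvd (Int.natAbs_pos.2 hz) h1
    have h3 : (l : ℝ) ≤ z.natAbs := by exact_mod_cast h2
    have h4 := hlK2 h0
    linarith
  have hlG1 : ∀ g ∈ G, ((h + g).natAbs : ℝ) ≤ K := by
    intro g hg
    have h1 : ((h + g).natAbs : ℝ) ≤ ∑ g ∈ G, ((h + g).natAbs : ℝ) :=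
      single_le_sum (f := fun g => ((h + g).natAbs : ℝ)) (fun _ _ => Nat.cast_nonneg _) hg
    linarith
  have hlb : l ≠ 1 → ((k : ℝ) + 1) * (2 * G.card) * (4 / ((l : ℝ) - 1)) ≤ 1 / 480 := by
    intro h0
    have h1 := hlK2 h0
    have h2 : 3840 * ((k : ℝ) + 1) * G.card ≤ (l : ℝ) - 1 := by
      nlinarith
    have h3 : (0 : ℝ) < (l : ℝ) - 1 := by nlinarith
    rw [← mul_div_assoc, div_le_div_iff₀ h3 (by norm_num)]
    linarith
  refine (habs x y0 nX k n1 n2 BX WA WB F1 F2 (by omega) hctx Bd l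
    (((Icc p0 y1).filter Nat.Prime ×ˢ (univ : Finset (Fin (k + 1))).powersetCard (k - 1)) ∪
        (if l = 1 then ∅ else {l} ×ˢ (univ : Finset (Fin (k + 1))).powersetCard 1)) (fun z hz => ?_) ?_ (fun t ht => ?_) u hu1 hu2).trans (le_of_eq (by rw [hK]))
  · rcases mem_union.1 hz with h1 | h1
    · rw [mem_product, mem_filter, mem_Icc] at h1
      refine ⟨h1.1.2, ?_, hw _ h1.1.2 h1.1.1.1 h1.1.1.2⟩
      have h2 : ((y1 : ℕ) : ℝ) ≤ y0 := hy1.trans hbig.2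
      exact h1.1.1.2.trans (by exact_mod_cast h2)
    · split_ifs at h1 with h2
      · exact absurd h1 (notMem_empty _)
      · rw [mem_product, mem_singleton] at h1
        rw [h1.1]
        rcases hl' with h3 | h3
        · exact absurd h3 h2
        · exact ⟨h3.1, h3.2, hwl h2⟩
  · rw [← hK]
    refine le_trans ?_ hH
    have h1 := bs3_num (p0 := p0) (C1 := P.C1) hk (show (2 : ℝ) ^ (9 * k) + 4096 * (k + 1) ≤ K by linarith) hy1 (fun h0 => (hlK h0).2)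
    calc K ^ 230 * _ ≤ K ^ 230 * K ^ (4 * k + 4 * P.C1 + 1) := mul_le_mul_of_nonneg_left h1 (by positivity)
      _ = K ^ (230 + (4 * k + 4 * P.C1 + 1)) := (pow_add _ _ _).symm
      _ ≤ _ := pow_le_pow_right₀ hK1' (by omega)
  · obtain ⟨α, hα, hf⟩ := hB t ht
    have h2 : ((y1 : ℕ) : ℝ) ≤ y0 := hy1.trans hbig.2
    exact bs3_ev hk hp0 (by exact_mod_cast h2) hl' (hnd h hh (by linarith)) (fun h0 g hg => hnd _ (hG g hg) (hlG1 g hg) h0) hlb hα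
      (Bd := fun t' => Bd l t t') hf

end Pool.Agent.Lib.TT
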