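import Pool.Agent.Lib.MP_7b7e48_nt.TCF.CDef

/-!
# The frame of theorem TT4 (fixed shifts): definitions

Text: `/team-store/TT_FRAME.md`. `D.x` is the scale, `K = log D.x`, `P.q` a fixed modulus, `P.s = true` iff the difference `h` is positive.
All structure primes are `> D.y0 = ⌊K ^ P.Cp⌋`; rough = all prime factors `> D.y0`.
-/

set_option autoImplicit false

open Finset

namespace Pool.Agent.Lib.TT

open Pool.Agent.Lib.TCF (pht TUP rho)
open Pool.Agent.Lib.RG (Rough PN)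
open Pool.Agent.Lib.MP_45349e_nt.LS (lam)

/-- the parameters -/
structure Par where
  q : ℕ
  R : ℕ
  s : Bool
  C1 : ℕ
  Cf : ℕ
  Cp : ℕ
  d0 : ℝ

/-- the conditions on the parameters -/
structure Par.Ok (P : Par) : Prop where
  q2 : 2 ≤ P.q
  ev : 2 ∣ P.q
  rq : ∀ p : ℕ, p.Prime → p ∣ P.q → p ∣ P.R
  c1 : 2 ≤ P.C1
  c1f : P.C1 ≤ P.Cf + 229
  cf : 1 ≤ P.Cf
  cp : P.Cf + P.C1 + 250 ≤ P.Cp
  d0 : 0 < P.d0
  d1 : P.d0 ≤ 1 / 2

/-- the data -/
structure Dat where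
  x : ℕ
  y0 : ℕ
  nX : ℕ
  nY : ℕ
  BX : Fin nX → Finset ℕ
  BY : Fin nY → Finset ℕ

/-- a family of sets of primes -/
structure Fam (P : Par) (x y0 : ℕ) {n : ℕ} (B : Fin n → Finset ℕ) : Prop where
  pr : ∀ c, ∀ p ∈ B c, p.Prime ∧ y0 < p
  disj : ∀ c c', c ≠ c' → Disjoint (B c) (B c')
  lo : ∀ c, 1 / (Real.log x) ^ 3 ≤ ∑ p ∈ B c, 1 / (p : ℝ)
  up : ∀ c, ∑ p ∈ B c, 1 / (p : ℝ) ≤ 1
  tot : ∏ c, (1 + ∑ p ∈ B c, 1 / (p : ℝ)) ≤ (Real.log x) ^ 2
  nle : (n : ℝ) ≤ Real.log x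
  tup : ∀ m ∈ TUP B, (m : ℝ) ≤ (x : ℝ) ^ (P.d0 / 100)
  rh : 1 ≤ (Real.log x) ^ P.Cf * rho B

/-- the conditions on the data -/
structure Ctx (P : Par) (D : Dat) : Prop where
  y0 : D.y0 = ⌊(Real.log D.x) ^ P.Cp⌋₊
  fx : Fam P D.x D.y0 D.BX
  fy : Fam P D.x D.y0 D.BY

open Classical in
/-- the weight: number of tuples dividing `a` if `a` is rough, else `0` -/
noncomputable def ph (y0 : ℕ) {n : ℕ} (B : Fin n → Finset ℕ) (a : ℕ) : ℝ := if Rough y0 a then pht B a else 0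

/-- number of the elements of one class in a window -/
noncomputable def H1 (P : Par) (x : ℕ) : ℕ := ⌈(Real.log x) ^ (P.Cf + 230)⌉₊

/-- length of the windows -/
noncomputable def HH (P : Par) (x : ℕ) : ℕ := P.q * H1 P x

/-- density of the rough numbers among those coprime to `q` -/
noncomputable def th (P : Par) (y0 : ℕ) : ℝ := ∏ p ∈ PN P.q y0, (1 - 1 / (p : ℝ))

/-- mean value of the weight over one window and one class -/
noncomputable def mb (P : Par) (x y0 : ℕ) {n : ℕ} (B : Fin n → Finset ℕ) : ℝ := th P y0 * rho B * H1 P x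

/-- the number `X ∓ d` (`0` if it is negative) -/
def sh (s : Bool) (X d : ℕ) : ℕ := if s then X - d else X + d

/-- the multipliers -/
def Mul (P : Par) (x l : ℕ) : Prop :=
  l = 1 ∨ (l.Prime ∧ (Real.log x) ^ P.C1 < l ∧ (l : ℝ) ≤ 4 * (Real.log x) ^ P.C1 ∧ ¬ l ∣ P.q)

section
variable (P : Par) (D : Dat) (Bd : ℕ → ℕ → ℕ → Prop)

open Classical in
/-- number of the pairs of tuples `t ∣ X`, `t' ∣ Y` which are not bad (`X`, `Y` rough) -/
noncomputable def cnt (l X Y : ℕ) : ℝ :=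
  if Rough D.y0 X ∧ Rough D.y0 Y then
    ∑ t ∈ (TUP D.BX).filter (fun t => t ∣ X), (((TUP D.BY).filter fun t' => t' ∣ Y ∧ ¬ Bd l t t').card : ℝ) else 0

open Classical in
/-- weight of the tuples `t'` of the `Y` of a window and a class which are bad for `t` -/
noncomputable def bb (l t n a : ℕ) : ℝ :=
  ∑ Y ∈ (Ico n (n + HH P D.x)).filter (fun Y => Y ≡ a [MOD P.q] ∧ Rough D.y0 Y),
    (((TUP D.BY).filter fun t' => t' ∣ Y ∧ Bd l t t').card : ℝ)

open Classical in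
/-- the input for one multiplier -/
structure Inp (l : ℕ) : Prop where
  ap : ∀ u d : ℕ, (D.x : ℝ) ^ (1 - P.d0) ≤ u → u ≤ D.x → 1 ≤ d → (d : ℝ) ≤ (Real.log D.x) ^ (P.Cf + P.C1 + 240) →
    d ≡ P.R [MOD P.q] →
    ∑ X ∈ (Icc 1 (2 * u)).filter (fun X => u < l * X ∧ l * X ≤ 2 * u),
      (if lam (l * X) ≠ lam (sh P.s (l * X) d) then cnt D Bd l X (sh P.s (l * X) d) else 0) ≤
      rho D.BX * rho D.BY * u / (l * (Real.log D.x) ^ 200)
  bs : ∀ u : ℕ, (D.x : ℝ) ^ (1 - P.d0) ≤ u → u ≤ D.x →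
    (((Ioc u (2 * u)).filter fun n => ∃ a : ℕ, a.Coprime P.q ∧ ∃ t ∈ TUP D.BX,
      mb P D.x D.y0 D.BY / 80 < bb P D Bd l t n a).card : ℝ) ≤ u / (Real.log D.x) ^ 200

end

/-! ## Windows and majorities -/

section
variable (P : Par) (D : Dat)

open Classical in
/-- weight of the numbers of a window and a class -/
noncomputable def AW {r : ℕ} (B : Fin r → Finset ℕ) (n : ℕ) (a : (ZMod P.q)ˣ) : ℝ :=
  ∑ X ∈ (Ico n (n + HH P D.x)).filter (fun X : ℕ => (X : ZMod P.q) = a), ph D.y0 B X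

open Classical in
/-- the majority sign of the `X`-numbers -/
noncomputable def FF (n : ℕ) (a : (ZMod P.q)ˣ) : ℝ :=
  if 0 ≤ ∑ X ∈ (Ico n (n + HH P D.x)).filter (fun X : ℕ => (X : ZMod P.q) = a), ph D.y0 D.BX X * lam X then 1 else -1

open Classical in
/-- weight of the `X`-numbers with the wrong sign -/
noncomputable def wr (n : ℕ) (a : (ZMod P.q)ˣ) : ℝ :=
  ∑ X ∈ (Ico n (n + HH P D.x)).filter (fun X : ℕ => (X : ZMod P.q) = a), if lam X ≠ FF P D n a then ph D.y0 D.BX X else 0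

/-- the place of the `Y`-window -/
noncomputable def yw (l w : ℕ) : ℕ := if P.s then w - 3 * HH P D.x else w + (l + 2) * HH P D.x

/-- the class of the `Y`-numbers, as an element of `ZMod q` -/
def yc (b : (ZMod P.q)ˣ) : ZMod P.q := if P.s then (b : ZMod P.q) - P.R else (b : ZMod P.q) + P.R

open Classical in
/-- weight of the pairs `(l X', Y)` with different signs -/
noncomputable def NN (Bd : ℕ → ℕ → ℕ → Prop) (l j w : ℕ) (b : (ZMod P.q)ˣ) : ℝ :=
  ∑ X ∈ (Ico (w / j) (w / j + HH P D.x)).filter (fun X : ℕ => ((j * X : ℕ) : ZMod P.q) = b),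
    ∑ Y ∈ (Ico (yw P D l w) (yw P D l w + HH P D.x)).filter (fun Y : ℕ => (Y : ZMod P.q) = yc P b),
      if lam (j * X) ≠ lam Y then cnt D Bd j X Y else 0

end

/-! ## Long blocks -/

/-- the exponent `δ` -/
noncomputable def dl (P : Par) : ℝ := P.d0 / 8

open Classical in
/-- `λ` is given by `gg` on blocks of length `Lam` -/
structure LBk (P : Par) (D : Dat) (gg : ℕ → (ZMod P.q)ˣ → ℝ) (Lam : ℕ) : Prop where
  pm : ∀ v a, gg v a = 1 ∨ gg v a = -1
  lo : (D.x : ℝ) ^ (3 * dl P) ≤ Lam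
  up : (Lam : ℝ) ≤ (D.x : ℝ) ^ (3 * dl P) * (4 * (Real.log D.x) ^ P.C1)
  lb : ∀ (u : ℕ) (a : (ZMod P.q)ˣ), (D.x : ℝ) ^ (1 - 2 * dl P) ≤ u → 2 * u ≤ D.x →
    ∑ Y ∈ (Ioc u (2 * u)).filter (fun Y : ℕ => (Y : ZMod P.q) = a),
      (if lam Y ≠ gg (Y / Lam) a then ph D.y0 D.BX Y else 0) ≤ rho D.BX * u / (Real.log D.x) ^ 20

/-! ## Cells -/

section
variable (P : Par) (x : ℕ)

noncomputable def U0 : ℝ := (x : ℝ) ^ (1 - dl P) / 4

noncomputable def QQ : ℝ := (x : ℝ) ^ (1 - 2 * dl P)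

noncomputable def JJ : ℕ := ⌊QQ P x * (dl P * Real.log x)⌋₊

/-- end points of the cells -/
noncomputable def ee (j : ℕ) : ℝ := U0 P x * Real.exp (j / QQ P x)

noncomputable def vv (Lam j : ℕ) : ℕ := ⌊ee P x j / Lam⌋₊

/-- the function on the cells -/
noncomputable def ff (gg : ℕ → (ZMod P.q)ˣ → ℝ) (Lam j : ℕ) (a : (ZMod P.q)ˣ) : ℝ := gg (vv P x Lam j) a

/-- a cell which is contained in one block, with its neighbours -/
def Clean (Lam j : ℕ) : Prop := vv P x Lam j = vv P x Lam (j + 3)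

open Classical in
/-- the elements of a cell -/
noncomputable def cell (j : ℕ) : Finset ℕ := (Icc 1 x).filter fun m => ee P x j ≤ m ∧ (m : ℝ) < ee P x (j + 1)

end

/-- the exponent `β` -/
noncomputable def be (P : Par) : ℝ := dl P / 200

noncomputable def yy (P : Par) (x : ℕ) : ℕ := ⌊(x : ℝ) ^ be P⌋₊

open Classical in
/-- the numbers `n ∈ (y, 2y]` without prime factor `≤ x ^ β'` -/
noncomputable def Sr (P : Par) (β' : ℝ) (x : ℕ) : Finset ℕ :=
  (Ioc (yy P x) (2 * yy P x)).filter fun n => Rough ⌊(x : ℝ) ^ β'⌋₊ n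

/-- the shift of the cells which belongs to `n` -/
noncomputable def sn (P : Par) (x n : ℕ) : ℕ := ⌊QQ P x * Real.log n⌋₊

end Pool.Agent.Lib.TT
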