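import Pool.Agent.Lib.MP_7b7e48_nt.T3B.E2
import Pool.Agent.Lib.MP_7b7e48_nt.BR.Fam
import Pool.Agent.Lib.MP_092512_nt.TT.Def

/-!
# TT / Bs0: bad pairs in windows, definitions and the bad tuples of one number

The family of `Y` is `famW WA WB F1 F2` (all `b'_i`, all `b''_i`, two more families). An event `(p, I, c)` is the condition `b'_i b''_i ≡ c i [MOD p]` for `i ∈ I`.
`subW`: the sub-family with `b'_i ≡ s i`, `b''_i ≡ r i` modulo `p` for `i ∈ I`.
-/

set_option autoImplicit false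

open Finset

namespace Pool.Agent.Lib.TT

open Pool.Agent.Lib.TCF (pht TUP rho)
open Pool.Agent.Lib.RG (Rough PN)
open Pool.Agent.Lib.T3B (redW clsS rr redW_sub append_sub rr_spec)
open Pool.Agent.Lib.TCB (pht_card)

variable {nX k n1 n2 : ℕ}

/-- the family of `Y` with composite windows -/
def famW (WA WB : Fin (k + 1) → Finset ℕ) (F1 : Fin n1 → Finset ℕ) (F2 : Fin n2 → Finset ℕ) : Fin (k + 1 + (k + 1) + n1 + n2) → Finset ℕ :=
  Fin.append (Fin.append (Fin.append WA WB) F1) F2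

/-- the data with composite windows of `Y` -/
def datW (x y0 : ℕ) (BX : Fin nX → Finset ℕ) (WA WB : Fin (k + 1) → Finset ℕ) (F1 : Fin n1 → Finset ℕ) (F2 : Fin n2 → Finset ℕ) : Dat where
  x := x
  y0 := y0
  nX := nX
  nY := k + 1 + (k + 1) + n1 + n2
  BX := BX
  BY := famW WA WB F1 F2

/-- the sub-family -/
def subW (WA WB : Fin (k + 1) → Finset ℕ) (F1 : Fin n1 → Finset ℕ) (F2 : Fin n2 → Finset ℕ) (p : ℕ) (I : Finset (Fin (k + 1)))
    (s r : Fin (k + 1) → ℕ) : Fin (k + 1 + (k + 1) + n1 + n2) → Finset ℕ :=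
  famW (redW WA p I s) (redW WB p I r) F1 F2

/-- the place of `b'_i` -/
def iA (n1 n2 : ℕ) (i : Fin (k + 1)) : Fin (k + 1 + (k + 1) + n1 + n2) := Fin.castAdd n2 (Fin.castAdd n1 (Fin.castAdd (k + 1) i))

/-- the place of `b''_i` -/
def iB (n1 n2 : ℕ) (i : Fin (k + 1)) : Fin (k + 1 + (k + 1) + n1 + n2) := Fin.castAdd n2 (Fin.castAdd n1 (Fin.natAdd (k + 1) i))

/-- events: a prime, a set of indices, classes of the products `b'_i b''_i` -/
abbrev Evt (k : ℕ) := ℕ × Finset (Fin (k + 1)) × (Fin (k + 1) → ℕ)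

/-- the event takes place for the choice `f` -/
def Evt.On (n1 n2 : ℕ) (e : Evt k) (f : Fin (k + 1 + (k + 1) + n1 + n2) → ℕ) : Prop :=
  ∀ i ∈ e.2.1, f (iA n1 n2 i) * f (iB n1 n2 i) ≡ e.2.2 i [MOD e.1]

/-- both windows are equidistributed modulo `p` -/
structure WinP (WA WB : Fin (k + 1) → Finset ℕ) (p : ℕ) : Prop where
  loA : ∀ i, ∀ r : ℕ, ¬ p ∣ r → (∑ β ∈ WA i, 1 / (β : ℝ)) / (4 * ((p : ℝ) - 1)) ≤ ∑ β ∈ (WA i).filter (fun β => β ≡ r [MOD p]), 1 / (β : ℝ)
  loB : ∀ i, ∀ r : ℕ, ¬ p ∣ r → (∑ β ∈ WB i, 1 / (β : ℝ)) / (4 * ((p : ℝ) - 1)) ≤ ∑ β ∈ (WB i).filter (fun β => β ≡ r [MOD p]), 1 / (β : ℝ)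
  upB : ∀ i, ∀ r : ℕ, ¬ p ∣ r → ∑ β ∈ (WB i).filter (fun β => β ≡ r [MOD p]), 1 / (β : ℝ) ≤ 4 / ((p : ℝ) - 1) * ∑ β ∈ WB i, 1 / (β : ℝ)

variable {WA WB : Fin (k + 1) → Finset ℕ} {F1 : Fin n1 → Finset ℕ} {F2 : Fin n2 → Finset ℕ}

theorem famW_A (i : Fin (k + 1)) : famW WA WB F1 F2 (iA n1 n2 i) = WA i := by
  unfold famW iA
  rw [Fin.append_left, Fin.append_left, Fin.append_left]

theorem famW_B (i : Fin (k + 1)) : famW WA WB F1 F2 (iB n1 n2 i) = WB i := by
  unfold famW iB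
  rw [Fin.append_left, Fin.append_left, Fin.append_right]

theorem subW_sub (p : ℕ) (I : Finset (Fin (k + 1))) (s r : Fin (k + 1) → ℕ) (c : Fin (k + 1 + (k + 1) + n1 + n2)) :
    subW WA WB F1 F2 p I s r c ⊆ famW WA WB F1 F2 c :=
  append_sub (append_sub (append_sub (redW_sub WA p I s) (redW_sub WB p I r)) fun _ => Subset.refl _) (fun _ => Subset.refl _) c

/-- a choice for the full family which satisfies the congruences is a choice for the sub-family -/
theorem mem_subW {f : Fin (k + 1 + (k + 1) + n1 + n2) → ℕ} (hf : f ∈ Fintype.piFinset (famW WA WB F1 F2)) {p : ℕ} {I : Finset (Fin (k + 1))}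
    {s r : Fin (k + 1) → ℕ} (hs : ∀ i ∈ I, f (iA n1 n2 i) ≡ s i [MOD p]) (hr : ∀ i ∈ I, f (iB n1 n2 i) ≡ r i [MOD p]) :
    f ∈ Fintype.piFinset (subW WA WB F1 F2 p I s r) := by
  rw [Fintype.mem_piFinset] at hf ⊢
  intro c
  have h := hf c
  unfold subW
  unfold famW at h ⊢
  refine Fin.addCases (motive := fun c => f c ∈ Fin.append (Fin.append (Fin.append WA WB) F1) F2 c →
    f c ∈ Fin.append (Fin.append (Fin.append (redW WA p I s) (redW WB p I r)) F1) F2 c) (fun c => ?_) (fun c => ?_) c h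
  · rw [Fin.append_left, Fin.append_left]
    refine Fin.addCases (motive := fun c => f (Fin.castAdd n2 c) ∈ Fin.append (Fin.append WA WB) F1 c →
      f (Fin.castAdd n2 c) ∈ Fin.append (Fin.append (redW WA p I s) (redW WB p I r)) F1 c) (fun c => ?_) (fun c => ?_) c
    · rw [Fin.append_left, Fin.append_left]
      refine Fin.addCases (motive := fun c => f (Fin.castAdd n2 (Fin.castAdd n1 c)) ∈ Fin.append WA WB c →
        f (Fin.castAdd n2 (Fin.castAdd n1 c)) ∈ Fin.append (redW WA p I s) (redW WB p I r) c) (fun c => ?_) (fun c => ?_) c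
      · rw [Fin.append_left, Fin.append_left]
        intro h1
        unfold redW
        split_ifs with hi
        · exact mem_filter.2 ⟨h1, hs c hi⟩
        · exact h1
      · rw [Fin.append_right, Fin.append_right]
        intro h1
        unfold redW
        split_ifs with hi
        · exact mem_filter.2 ⟨h1, hr c hi⟩
        · exact h1
    · rw [Fin.append_right, Fin.append_right]
      exact fun h1 => h1
  · rw [Fin.append_right, Fin.append_right]
    exact fun h1 => h1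

/-- the bad tuples of one number, by events and sub-families -/
theorem bad_card {y0 : ℕ} (hpr : ∀ c, ∀ p ∈ famW WA WB F1 F2 c, p.Prime ∧ y0 < p)
    (hdj : ∀ c c', c ≠ c' → Disjoint (famW WA WB F1 F2 c) (famW WA WB F1 F2 c')) {Bd : ℕ → Prop} (E : Finset (Evt k))
    (hE : ∀ e ∈ E, e.1.Prime ∧ e.1 ≤ y0) (hB : ∀ f ∈ Fintype.piFinset (famW WA WB F1 F2), Bd (∏ c, f c) → ∃ e ∈ E, e.On n1 n2 f)
    (a : ℕ) [DecidablePred fun t' => t' ∣ a ∧ Bd t'] :
    (((TUP (famW WA WB F1 F2)).filter fun t' => t' ∣ a ∧ Bd t').card : ℝ) ≤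
      ∑ e ∈ E, ∑ s ∈ clsS e.1 e.2.1, pht (subW WA WB F1 F2 e.1 e.2.1 s fun i => rr e.1 (e.2.2 i) (s i)) a := by
  classical
  have h1 : (TUP (famW WA WB F1 F2)).filter (fun t' => t' ∣ a ∧ Bd t') ⊆ E.biUnion fun e => (clsS e.1 e.2.1).biUnion fun s =>
      ((Fintype.piFinset (subW WA WB F1 F2 e.1 e.2.1 s fun i => rr e.1 (e.2.2 i) (s i))).filter fun f => ∏ c, f c ∣ a).image fun f => ∏ c, f c := by
    intro t' ht
    rw [mem_filter] at ht
    obtain ⟨h2, h3, h4⟩ := ht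
    unfold TUP at h2
    rw [mem_image] at h2
    obtain ⟨f, hf, rfl⟩ := h2
    obtain ⟨e, he, hon⟩ := hB f hf h4
    obtain ⟨hpp, hpy⟩ := hE e he
    have hpA : ∀ i, ¬ e.1 ∣ f (iA n1 n2 i) := by
      intro i h
      have h5 := Fintype.mem_piFinset.1 hf (iA n1 n2 i)
      have h6 := hpr _ _ h5
      have h7 : e.1 = f (iA n1 n2 i) := (Nat.prime_dvd_prime_iff_eq hpp h6.1).1 h
      have h8 := h6.2
      omega
    refine mem_biUnion.2 ⟨e, he, mem_biUnion.2 ⟨fun i => if i ∈ e.2.1 then f (iA n1 n2 i) % e.1 else 0, ?_, mem_image.2 ⟨f, mem_filter.2 ⟨?_, h3⟩, rfl⟩⟩⟩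
    · unfold clsS
      rw [Fintype.mem_piFinset]
      intro i
      split_ifs with hi
      · rw [mem_filter, mem_range]
        refine ⟨Nat.mod_lt _ hpp.pos, fun h => hpA i ?_⟩
        exact (Nat.dvd_mod_iff dvd_rfl).1 h
      · simp
    · refine mem_subW hf (fun i hi => ?_) fun i hi => ?_
      · simp only [if_pos hi]
        exact (Nat.mod_modEq _ _).symm
      · simp only [if_pos hi]
        exact rr_spec hpp (hpA i) (hon i hi)
  have h2 : ((TUP (famW WA WB F1 F2)).filter fun t' => t' ∣ a ∧ Bd t').card ≤ ∑ e ∈ E, ∑ s ∈ clsS e.1 e.2.1,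
      ((Fintype.piFinset (subW WA WB F1 F2 e.1 e.2.1 s fun i => rr e.1 (e.2.2 i) (s i))).filter fun f => ∏ c, f c ∣ a).card :=
    (card_le_card h1).trans (card_biUnion_le.trans (sum_le_sum fun e _ => card_biUnion_le.trans (sum_le_sum fun s _ => card_image_le)))
  calc (((TUP (famW WA WB F1 F2)).filter fun t' => t' ∣ a ∧ Bd t').card : ℝ) ≤ ((∑ e ∈ E, ∑ s ∈ clsS e.1 e.2.1,
      ((Fintype.piFinset (subW WA WB F1 F2 e.1 e.2.1 s fun i => rr e.1 (e.2.2 i) (s i))).filter fun f => ∏ c, f c ∣ a).card : ℕ) : ℝ) := by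
        exact_mod_cast h2
    _ = _ := by
        push_cast
        refine sum_congr rfl fun e _ => sum_congr rfl fun s _ => ?_
        rw [pht_card (fun c q hq => (hpr c q (subW_sub _ _ _ _ c hq)).1)
          (fun c c' hc => disjoint_of_subset_left (subW_sub _ _ _ _ c) (disjoint_of_subset_right (subW_sub _ _ _ _ c') (hdj c c' hc)))]

end Pool.Agent.Lib.TT
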