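import Pool.Agent.Lib.MP_092512_nt.TT.Cl

/-!
# TT / Clu: counting, the upper twin of `cl`, for families without a lower bound of the masses

From `Cv6.cl_gen`.
-/

set_option autoImplicit false

open Finset

namespace Pool.Agent.Lib.TT

open Pool.Agent.Lib.TCF (pht TUP rho)
open Pool.Agent.Lib.RG (Rough PN)
open Pool.Agent.Lib.MP_45349e_nt.LS (lam)

/-- a family of sets of primes, no lower bounds -/
structure FamL (P : Par) (x y0 : ℕ) {n : ℕ} (B : Fin n → Finset ℕ) : Prop where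
  pr : ∀ c, ∀ p ∈ B c, p.Prime ∧ y0 < p
  disj : ∀ c c', c ≠ c' → Disjoint (B c) (B c')
  up : ∀ c, ∑ p ∈ B c, 1 / (p : ℝ) ≤ 1
  tot : ∏ c, (1 + ∑ p ∈ B c, 1 / (p : ℝ)) ≤ (Real.log x) ^ 2
  nle : (n : ℝ) ≤ Real.log x
  tup : ∀ m ∈ TUP B, (m : ℝ) ≤ (x : ℝ) ^ (P.d0 / 100)

open Classical in
theorem clu (P : Par) (hP : P.Ok) : ∃ x0 : ℕ, ∀ D : Dat, x0 ≤ D.x → Ctx P D → ∀ (r : ℕ) (B : Fin r → Finset ℕ), FamL P D.x D.y0 B →
    (Real.log D.x) ^ 30 ≤ H1 P D.x * rho B →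
    ∀ (u : ℕ) (a : (ZMod P.q)ˣ), (D.x : ℝ) ^ (1 - P.d0) / 2 ≤ u → u ≤ 4 * D.x →
    (((Ioc u (2 * u)).filter fun n => 3 * mb P D.x D.y0 B < AW P D B n a).card : ℝ) ≤ (Real.log D.x) ^ 20 / (H1 P D.x * rho B) * u := by
  haveI : NeZero P.q := ⟨by
    have := hP.q2
    omega⟩
  obtain ⟨x1, hx1⟩ := grow P hP 2
  obtain ⟨x2, hx2⟩ := ev_pow (P.Cf + 231) (1 / 100) (by norm_num)
  obtain ⟨x3, hx3⟩ := cl_gen P.q P.Cp
  refine ⟨max x1 (max x2 x3), ?_⟩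
  intro D hx hD r B hB hHr u a hu _
  obtain ⟨g1, g2, -, gq, gy, gy1, -, gH, g3, g4, -, -, -, gth, -⟩ := hx1 D ((le_max_left _ _).trans hx) hD
  have hxp := hx2 D.x ((le_max_left _ _).trans ((le_max_right _ _).trans hx))
  set K := Real.log D.x with hK
  have hK1 : 1 ≤ K := by linarith
  have hK0 : 0 < K := by linarith
  have hx1r : (1 : ℝ) ≤ D.x := by exact_mod_cast (by omega : 1 ≤ D.x)
  have hx0 : (0 : ℝ) < D.x := by linarith
  have hrn := rho_nonneg B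
  have hHp : (0 : ℝ) < H1 P D.x := by
    have : (1 : ℝ) ≤ H1 P D.x := by exact_mod_cast gH
    linarith
  have s1 : ∀ m ∈ TUP B, (m : ℝ) ≤ (D.x : ℝ) ^ (1 / 200 : ℝ) := fun m hm => (hB.tup m hm).trans (Real.rpow_le_rpow_of_exponent_le hx1r (by
    have := hP.d1
    linarith))
  have s3 : (H1 P D.x : ℝ) ≤ (D.x : ℝ) ^ (1 / 100 : ℝ) := by
    refine g4.trans (le_trans ?_ hxp)
    calc 2 * K ^ (P.Cf + 230) ≤ K * K ^ (P.Cf + 230) := by gcongr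
      _ = K ^ (P.Cf + 231) := by ring
  have h30 : (1 : ℝ) ≤ K ^ 30 := one_le_pow₀ hK1
  have s2 : (D.x : ℝ) ^ (-(1 / 100) : ℝ) ≤ rho B := by
    rw [Real.rpow_neg hx0.le]
    have h4 : 1 ≤ (D.x : ℝ) ^ (1 / 100 : ℝ) * rho B := (h30.trans hHr).trans (mul_le_mul_of_nonneg_right s3 hrn)
    rw [inv_le_iff_one_le_mul₀ (by positivity)]
    linarith
  have h := (hx3 D.x D.y0 ((le_max_right _ _).trans ((le_max_right _ _).trans hx)) gy gq.le gy1 r B ⟨hB.pr, hB.disj⟩ hB.tot s1 s2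
    (H1 P D.x) u a gH s3 (u_half hP (by omega) hu)).2
  have hu0 : (0 : ℝ) ≤ u := Nat.cast_nonneg u
  have hHr0 : 0 < H1 P D.x * rho B := lt_of_lt_of_le (by linarith) hHr
  have hth : 0 ≤ th P D.y0 := by
    have : 0 < 1 / K := by positivity
    linarith
  have hmb : 0 ≤ mb P D.x D.y0 B := by
    unfold mb
    positivity
  rw [div_mul_eq_mul_div, le_div_iff₀ hHr0]
  refine (le_trans (mul_le_mul_of_nonneg_right ?_ hHr0.le) h).trans (mul_le_mul_of_nonneg_right (pow_le_pow_right₀ hK1 (by norm_num)) hu0)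
  have hsub : ((Ioc u (2 * u)).filter fun n => 3 * mb P D.x D.y0 B < AW P D B n a) ⊆
      (Ioc u (2 * u)).filter fun n => 3 / 2 * ((∏ p ∈ PN P.q D.y0, (1 - 1 / (p : ℝ))) * rho B * H1 P D.x) <
        ∑ X ∈ (Ico n (n + P.q * H1 P D.x)).filter (fun X : ℕ => (X : ZMod P.q) = a), ph D.y0 B X := by
    intro n hn
    rw [mem_filter] at hn ⊢
    refine ⟨hn.1, ?_⟩
    have h1 := hn.2
    unfold AW HH at h1
    have h2 : 3 / 2 * ((∏ p ∈ PN P.q D.y0, (1 - 1 / (p : ℝ))) * rho B * H1 P D.x) ≤ 3 * mb P D.x D.y0 B := by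
      have h3 : (∏ p ∈ PN P.q D.y0, (1 - 1 / (p : ℝ))) * rho B * H1 P D.x = mb P D.x D.y0 B := rfl
      rw [h3]
      linarith
    exact lt_of_le_of_lt h2 h1
  exact_mod_cast card_le_card hsub

end Pool.Agent.Lib.TT
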