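import Pool.Agent.Lib.MP_092512_nt.TT.Bs0
import Pool.Agent.Lib.MP_092512_nt.TT.Clu

/-!
# TT / Bs1: the masses of the sub-families

As in `T3B.E2`: lower bound for the mass of one sub-family, the sum over the classes `s` of the `b'_i` (the classes of the `b''_i` are fixed by `s`), `FamL` for sub-families.
-/

set_option autoImplicit false

open Finset

namespace Pool.Agent.Lib.TT

open Pool.Agent.Lib.TCF (pht TUP rho)
open Pool.Agent.Lib.RG (Rough PN)
open Pool.Agent.Lib.T3B (redW clsS rr redW_sub append_sub rho_append rho_nonneg redW_lo redW_up redW_sum)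

variable {k n1 n2 : ℕ} {WA WB : Fin (k + 1) → Finset ℕ} {F1 : Fin n1 → Finset ℕ} {F2 : Fin n2 → Finset ℕ}

theorem rho_famW : rho (famW WA WB F1 F2) = rho WA * rho WB * rho F1 * rho F2 := by
  unfold famW
  rw [rho_append, rho_append, rho_append]

theorem rho_subW_eq (p : ℕ) (I : Finset (Fin (k + 1))) (s r : Fin (k + 1) → ℕ) :
    rho (subW WA WB F1 F2 p I s r) = rho (redW WA p I s) * rho (redW WB p I r) * rho F1 * rho F2 := by
  unfold subW
  rw [rho_famW]

theorem one_le_sub {p : ℕ} (hp : p.Prime) : (1 : ℝ) ≤ (p : ℝ) - 1 := by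
  have : (2 : ℝ) ≤ p := by exact_mod_cast hp.two_le
  linarith

theorem rho_subW {p : ℕ} (hp : p.Prime) (hw : WinP WA WB p) (I : Finset (Fin (k + 1))) (s r : Fin (k + 1) → ℕ)
    (hs : ∀ i ∈ I, ¬ p ∣ s i) (hr : ∀ i ∈ I, ¬ p ∣ r i) :
    rho (famW WA WB F1 F2) * ((1 / (4 * ((p : ℝ) - 1))) ^ I.card) ^ 2 ≤ rho (subW WA WB F1 F2 p I s r) := by
  have hp1 := one_le_sub hp
  have h1 := redW_lo (W := WA) (I := I) (r := s) hp1 fun i hi => hw.loA i (s i) (hs i hi)
  have h2 := redW_lo (W := WB) (I := I) (r := r) hp1 fun i hi => hw.loB i (r i) (hr i hi)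
  rw [rho_famW, rho_subW_eq]
  have hF := rho_nonneg F1
  have hO := rho_nonneg F2
  have hA := rho_nonneg WA
  have hB := rho_nonneg WB
  have hpos : (0 : ℝ) < (p : ℝ) - 1 := by linarith
  calc rho WA * rho WB * rho F1 * rho F2 * ((1 / (4 * ((p : ℝ) - 1))) ^ I.card) ^ 2 =
      (rho WA * (1 / (4 * ((p : ℝ) - 1))) ^ I.card) * (rho WB * (1 / (4 * ((p : ℝ) - 1))) ^ I.card) * rho F1 * rho F2 := by ring
    _ ≤ rho (redW WA p I s) * rho (redW WB p I r) * rho F1 * rho F2 := by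
        have h3 : 0 ≤ rho WA * (1 / (4 * ((p : ℝ) - 1))) ^ I.card := by positivity
        have h4 : 0 ≤ rho WB * (1 / (4 * ((p : ℝ) - 1))) ^ I.card := by positivity
        gcongr
        exact rho_nonneg _

theorem rho_sumW {p : ℕ} (hp : p.Prime) (hw : WinP WA WB p) (I : Finset (Fin (k + 1)))
    (r : (Fin (k + 1) → ℕ) → Fin (k + 1) → ℕ) (hr : ∀ s ∈ clsS p I, ∀ i ∈ I, ¬ p ∣ r s i) :
    ∑ s ∈ clsS p I, rho (subW WA WB F1 F2 p I s (r s)) ≤ (4 / ((p : ℝ) - 1)) ^ I.card * rho (famW WA WB F1 F2) := by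
  have hF := rho_nonneg F1
  have hO := rho_nonneg F2
  have hB := rho_nonneg WB
  have hpos : (0 : ℝ) < (p : ℝ) - 1 := by linarith [one_le_sub hp]
  have h1 : ∀ s ∈ clsS p I, rho (subW WA WB F1 F2 p I s (r s)) ≤
      rho (redW WA p I s) * ((4 / ((p : ℝ) - 1)) ^ I.card * rho WB * rho F1 * rho F2) := by
    intro s hs
    have h2 := redW_up (W := WB) (I := I) (r := r s) (one_le_sub hp) fun i hi => hw.upB i (r s i) (hr s hs i hi)
    rw [rho_subW_eq]
    have h3 := rho_nonneg (redW WA p I s)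
    calc rho (redW WA p I s) * rho (redW WB p I (r s)) * rho F1 * rho F2 ≤
        rho (redW WA p I s) * ((4 / ((p : ℝ) - 1)) ^ I.card * rho WB) * rho F1 * rho F2 := by gcongr
      _ = _ := by ring
  calc ∑ s ∈ clsS p I, rho (subW WA WB F1 F2 p I s (r s)) ≤
      ∑ s ∈ clsS p I, rho (redW WA p I s) * ((4 / ((p : ℝ) - 1)) ^ I.card * rho WB * rho F1 * rho F2) := sum_le_sum h1
    _ = (∑ s ∈ clsS p I, rho (redW WA p I s)) * ((4 / ((p : ℝ) - 1)) ^ I.card * rho WB * rho F1 * rho F2) := by rw [sum_mul]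
    _ ≤ rho WA * ((4 / ((p : ℝ) - 1)) ^ I.card * rho WB * rho F1 * rho F2) :=
        mul_le_mul_of_nonneg_right (redW_sum WA p I) (by positivity)
    _ = _ := by
        rw [rho_famW]
        ring

theorem Fam.toL {P : Par} {x y0 n : ℕ} {B : Fin n → Finset ℕ} (h : Fam P x y0 B) : FamL P x y0 B :=
  ⟨h.pr, h.disj, h.up, h.tot, h.nle, h.tup⟩

theorem FamL.sub {P : Par} {x y0 n : ℕ} {B B' : Fin n → Finset ℕ} (h : FamL P x y0 B) (hs : ∀ c, B' c ⊆ B c) : FamL P x y0 B' := by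
  have hle : ∀ c, ∑ q ∈ B' c, 1 / (q : ℝ) ≤ ∑ q ∈ B c, 1 / (q : ℝ) := fun c =>
    sum_le_sum_of_subset_of_nonneg (hs c) fun _ _ _ => by positivity
  refine ⟨fun c q hq => h.pr c q (hs c hq), fun c c' hc => disjoint_of_subset_left (hs c) (disjoint_of_subset_right (hs c') (h.disj c c' hc)),
    fun c => (hle c).trans (h.up c), le_trans (prod_le_prod (fun c _ => ?_) fun c _ => ?_) h.tot, h.nle, ?_⟩
  · have : 0 ≤ ∑ q ∈ B' c, 1 / (q : ℝ) := sum_nonneg fun _ _ => by positivity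
    linarith
  · have := hle c
    linarith
  · intro m hm
    refine h.tup m ?_
    unfold TUP at hm ⊢
    rw [mem_image] at hm ⊢
    obtain ⟨f, hf, rfl⟩ := hm
    refine ⟨f, ?_, rfl⟩
    rw [Fintype.mem_piFinset] at hf ⊢
    exact fun c => hs c (hf c)

end Pool.Agent.Lib.TT
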