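import Pool.Agent.Lib.MP_092512_nt.TT.Bs1

/-!
# TT / Bs2: the field `bs` of `Inp` for an abstract relation

For every tuple `t` of `X` the relation `Bd l t` is contained in the union of few events `(p, I, c)`, `b'_i b''_i ≡ c i [MOD p]` for `i ∈ I`. If `3 mb < AW` for none of the sub-families
then the weight of the bad tuples is at most `mb / 80`; the exceptional windows are counted with `clu`.
-/

set_option autoImplicit false

open Finset

namespace Pool.Agent.Lib.TT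

open Pool.Agent.Lib.TCF (pht TUP rho)
open Pool.Agent.Lib.RG (Rough PN)
open Pool.Agent.Lib.T3B (redW clsS rr rho_nonneg rr_not_dvd rr_lt)

variable {nX k n1 n2 : ℕ} {WA WB : Fin (k + 1) → Finset ℕ} {F1 : Fin n1 → Finset ℕ} {F2 : Fin n2 → Finset ℕ}

private theorem bs2_card {p : ℕ} (hp : 1 ≤ p) (I : Finset (Fin (k + 1))) : (clsS p I).card ≤ p ^ I.card := by
  unfold clsS
  rw [Fintype.card_piFinset]
  have h1 : ∀ i : Fin (k + 1), (if i ∈ I then (range p).filter (fun s => ¬ p ∣ s) else {0}).card ≤ if i ∈ I then p else 1 := by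
    intro i
    split_ifs
    · exact (card_filter_le _ _).trans (card_range p).le
    · exact (card_singleton 0).le
  refine (prod_le_prod' fun i _ => h1 i).trans (le_of_eq ?_)
  rw [prod_ite, prod_const, prod_const_one, mul_one]
  congr 2
  ext i
  simp

private theorem bs2_subW (p : ℕ) (I : Finset (Fin (k + 1))) (s r : Fin (k + 1) → ℕ) :
    subW WA WB F1 F2 p I s r = subW WA WB F1 F2 p I s fun i => if i ∈ I then r i else 0 := by
  have h1 : redW WB p I r = redW WB p I fun i => if i ∈ I then r i else 0 := by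
    funext i
    unfold redW
    by_cases hi : i ∈ I
    · simp only [if_pos hi]
    · simp only [if_neg hi]
  unfold subW
  rw [h1]

private theorem th_nonneg (P : Par) (y0 : ℕ) : 0 ≤ th P y0 := by
  unfold th
  refine prod_nonneg fun p hp => ?_
  have h1 : 1 / (p : ℝ) ≤ 1 := by
    rcases Nat.eq_zero_or_pos p with h | h
    · rw [h]
      norm_num
    · rw [div_le_one (by exact_mod_cast h)]
      exact_mod_cast h
  linarith

private theorem bs2_union {ι : Type*} (A : Finset ℕ) (T : Finset ι) (E : ι → ℕ → Prop) (Q : ℕ → Prop) [DecidablePred Q] [∀ i, DecidablePred (E i)]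
    (c : ι → ℝ) (hQ : ∀ n ∈ A, Q n → ∃ i ∈ T, E i n) (hb : ∀ i ∈ T, ((A.filter (E i)).card : ℝ) ≤ c i) :
    ((A.filter Q).card : ℝ) ≤ ∑ i ∈ T, c i := by
  classical
  have h1 : A.filter Q ⊆ T.biUnion fun i => A.filter (E i) := by
    intro n hn
    rw [mem_filter] at hn
    obtain ⟨i, hi, h⟩ := hQ n hn.1 hn.2
    exact mem_biUnion.2 ⟨i, hi, mem_filter.2 ⟨hn.1, h⟩⟩
  have h2 : ((A.filter Q).card : ℝ) ≤ ∑ i ∈ T, ((A.filter (E i)).card : ℝ) := by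
    exact_mod_cast (card_le_card h1).trans card_biUnion_le
  exact h2.trans (sum_le_sum hb)

open Classical in
/-- some sub-family is exceptional -/
private theorem bs2_exists {P : Par} (hq : 0 < P.q) {x y0 : ℕ} {BX : Fin nX → Finset ℕ} (hpr : ∀ c, ∀ p ∈ famW WA WB F1 F2 c, p.Prime ∧ y0 < p)
    (hdj : ∀ c c', c ≠ c' → Disjoint (famW WA WB F1 F2 c) (famW WA WB F1 F2 c')) {Bd : ℕ → ℕ → ℕ → Prop} {l t n a : ℕ} (ha : a.Coprime P.q)
    (E : Finset (Evt k)) (hE : ∀ e ∈ E, e.1.Prime ∧ e.1 ≤ y0 ∧ WinP WA WB e.1 ∧ ∀ i ∈ e.2.1, ¬ e.1 ∣ e.2.2 i)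
    (hsum : ∑ e ∈ E, (4 / ((e.1 : ℝ) - 1)) ^ e.2.1.card ≤ 1 / 240)
    (hB : ∀ f ∈ Fintype.piFinset (famW WA WB F1 F2), Bd l t (∏ c, f c) → ∃ e ∈ E, e.On n1 n2 f)
    (hb : mb P x y0 (famW WA WB F1 F2) / 80 < bb P (datW x y0 BX WA WB F1 F2) Bd l t n a) :
    ∃ e ∈ E, ∃ s ∈ clsS e.1 e.2.1, ∃ r ∈ clsS e.1 e.2.1,
      3 * mb P x y0 (subW WA WB F1 F2 e.1 e.2.1 s r) <
        AW P (datW x y0 BX WA WB F1 F2) (subW WA WB F1 F2 e.1 e.2.1 s r) n (ZMod.unitOfCoprime a ha) := by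
  haveI : NeZero P.q := ⟨hq.ne'⟩
  by_contra hcon
  push Not at hcon
  have hth := th_nonneg P y0
  have hH : (0 : ℝ) ≤ H1 P x := Nat.cast_nonneg _
  have hrho := rho_nonneg (famW WA WB F1 F2)
  -- the classes
  have hcl : ∀ e ∈ E, ∀ s ∈ clsS e.1 e.2.1, ∀ i ∈ e.2.1, ¬ e.1 ∣ s i := by
    intro e _ s hs i hi
    unfold clsS at hs
    rw [Fintype.mem_piFinset] at hs
    have h := hs i
    rw [if_pos hi, mem_filter, mem_range] at h
    exact h.2
  have hrr : ∀ e ∈ E, ∀ s ∈ clsS e.1 e.2.1, ∀ i ∈ e.2.1, ¬ e.1 ∣ rr e.1 (e.2.2 i) (s i) := fun e he s hs i hi =>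
    rr_not_dvd (hE e he).1 ((hE e he).2.2.2 i hi) (hcl e he s hs i hi)
  have hAW : ∀ e ∈ E, ∀ s ∈ clsS e.1 e.2.1,
      AW P (datW x y0 BX WA WB F1 F2) (subW WA WB F1 F2 e.1 e.2.1 s fun i => rr e.1 (e.2.2 i) (s i)) n (ZMod.unitOfCoprime a ha) ≤
        3 * mb P x y0 (subW WA WB F1 F2 e.1 e.2.1 s fun i => rr e.1 (e.2.2 i) (s i)) := by
    intro e he s hs
    rw [bs2_subW]
    refine hcon e he s hs _ ?_
    unfold clsS
    rw [Fintype.mem_piFinset]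
    intro i
    split_ifs with hi
    · rw [mem_filter, mem_range]
      exact ⟨rr_lt (hE e he).1 _ _, hrr e he s hs i hi⟩
    · exact mem_singleton_self 0
  -- the weight of the bad tuples
  have hbb : bb P (datW x y0 BX WA WB F1 F2) Bd l t n a ≤ ∑ e ∈ E, ∑ s ∈ clsS e.1 e.2.1,
      AW P (datW x y0 BX WA WB F1 F2) (subW WA WB F1 F2 e.1 e.2.1 s fun i => rr e.1 (e.2.2 i) (s i)) n (ZMod.unitOfCoprime a ha) := by
    have h1 : ∀ (e : Evt k) (s : Fin (k + 1) → ℕ), AW P (datW x y0 BX WA WB F1 F2) (subW WA WB F1 F2 e.1 e.2.1 s fun i => rr e.1 (e.2.2 i) (s i)) n (ZMod.unitOfCoprime a ha) =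
        ∑ Y ∈ (Ico n (n + HH P x)).filter (fun Y => Y ≡ a [MOD P.q] ∧ Rough y0 Y),
          pht (subW WA WB F1 F2 e.1 e.2.1 s fun i => rr e.1 (e.2.2 i) (s i)) Y := by
      intro e s
      unfold AW ph
      rw [← sum_filter, filter_filter]
      refine sum_congr ?_ fun _ _ => rfl
      refine filter_congr fun Y _ => ?_
      rw [ZMod.coe_unitOfCoprime, ZMod.natCast_eq_natCast_iff]
      rfl
    simp_rw [h1]
    unfold bb
    have h2 : ∑ e ∈ E, ∑ s ∈ clsS e.1 e.2.1, ∑ Y ∈ (Ico n (n + HH P x)).filter (fun Y => Y ≡ a [MOD P.q] ∧ Rough y0 Y),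
        pht (subW WA WB F1 F2 e.1 e.2.1 s fun i => rr e.1 (e.2.2 i) (s i)) Y =
        ∑ Y ∈ (Ico n (n + HH P x)).filter (fun Y => Y ≡ a [MOD P.q] ∧ Rough y0 Y), ∑ e ∈ E, ∑ s ∈ clsS e.1 e.2.1,
          pht (subW WA WB F1 F2 e.1 e.2.1 s fun i => rr e.1 (e.2.2 i) (s i)) Y := by
      rw [sum_comm' (s := (Ico n (n + HH P x)).filter (fun Y => Y ≡ a [MOD P.q] ∧ Rough y0 Y)) (t := fun _ => E) (t' := E)
        (s' := fun _ => (Ico n (n + HH P x)).filter (fun Y => Y ≡ a [MOD P.q] ∧ Rough y0 Y)) (by intro a b; tauto)]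
      refine sum_congr rfl fun e _ => ?_
      rw [sum_comm]
    rw [h2]
    refine sum_le_sum fun Y _ => ?_
    exact bad_card hpr hdj E (fun e he => ⟨(hE e he).1, (hE e he).2.1⟩) hB Y
  have h1 : bb P (datW x y0 BX WA WB F1 F2) Bd l t n a ≤ mb P x y0 (famW WA WB F1 F2) / 80 := by
    refine hbb.trans ((sum_le_sum fun e he => sum_le_sum fun s hs => hAW e he s hs).trans ?_)
    have h2 : ∀ e ∈ E, ∑ s ∈ clsS e.1 e.2.1, 3 * mb P x y0 (subW WA WB F1 F2 e.1 e.2.1 s fun i => rr e.1 (e.2.2 i) (s i)) ≤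
        (4 / ((e.1 : ℝ) - 1)) ^ e.2.1.card * (3 * mb P x y0 (famW WA WB F1 F2)) := by
      intro e he
      have h3 := rho_sumW (F1 := F1) (F2 := F2) (hE e he).1 (hE e he).2.2.1 e.2.1 (fun s i => rr e.1 (e.2.2 i) (s i)) fun s hs i hi => hrr e he s hs i hi
      unfold mb
      calc ∑ s ∈ clsS e.1 e.2.1, 3 * (th P y0 * rho (subW WA WB F1 F2 e.1 e.2.1 s fun i => rr e.1 (e.2.2 i) (s i)) * H1 P x) =
          (3 * (th P y0 * H1 P x)) * ∑ s ∈ clsS e.1 e.2.1, rho (subW WA WB F1 F2 e.1 e.2.1 s fun i => rr e.1 (e.2.2 i) (s i)) := by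
            rw [mul_sum]
            exact sum_congr rfl fun s _ => by ring
        _ ≤ (3 * (th P y0 * H1 P x)) * ((4 / ((e.1 : ℝ) - 1)) ^ e.2.1.card * rho (famW WA WB F1 F2)) :=
            mul_le_mul_of_nonneg_left h3 (by positivity)
        _ = _ := by ring
    refine (sum_le_sum h2).trans ?_
    rw [← sum_mul]
    have h3 : 0 ≤ 3 * mb P x y0 (famW WA WB F1 F2) := by
      unfold mb
      positivity
    refine (mul_le_mul_of_nonneg_right hsum h3).trans (le_of_eq (by ring))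
  exact absurd hb (not_lt.2 h1)

open Classical in
theorem bs_abs (P : Par) (hP : P.Ok) : ∃ x0 : ℕ, ∀ (x y0 nX k n1 n2 : ℕ) (BX : Fin nX → Finset ℕ) (WA WB : Fin (k + 1) → Finset ℕ)
    (F1 : Fin n1 → Finset ℕ) (F2 : Fin n2 → Finset ℕ), x0 ≤ x → Ctx P (datW x y0 BX WA WB F1 F2) →
    ∀ (Bd : ℕ → ℕ → ℕ → Prop) (l : ℕ) (QQ : Finset (ℕ × Finset (Fin (k + 1)))),
    (∀ z ∈ QQ, z.1.Prime ∧ z.1 ≤ y0 ∧ WinP WA WB z.1) →
    (Real.log x) ^ 230 * ∑ z ∈ QQ, ((4 * (z.1 : ℝ) ^ 2) ^ z.2.card) ^ 2 ≤ H1 P x * rho (famW WA WB F1 F2) →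
    (∀ t ∈ TUP BX, ∃ E : Finset (Evt k), (∀ e ∈ E, (e.1, e.2.1) ∈ QQ ∧ ∀ i ∈ e.2.1, ¬ e.1 ∣ e.2.2 i) ∧
      ∑ e ∈ E, (4 / ((e.1 : ℝ) - 1)) ^ e.2.1.card ≤ 1 / 240 ∧
      ∀ f ∈ Fintype.piFinset (famW WA WB F1 F2), Bd l t (∏ c, f c) → ∃ e ∈ E, e.On n1 n2 f) →
    ∀ u : ℕ, (x : ℝ) ^ (1 - P.d0) ≤ u → u ≤ x →
    (((Ioc u (2 * u)).filter fun n => ∃ a : ℕ, a.Coprime P.q ∧ ∃ t ∈ TUP BX,
      mb P x y0 (famW WA WB F1 F2) / 80 < bb P (datW x y0 BX WA WB F1 F2) Bd l t n a).card : ℝ) ≤ u / (Real.log x) ^ 200 := by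
  obtain ⟨x1, hclu⟩ := clu P hP
  obtain ⟨x2, hx2⟩ := Filter.eventually_atTop.1
    ((Real.tendsto_log_atTop.comp tendsto_natCast_atTop_atTop).eventually_ge_atTop (P.q : ℝ) : ∀ᶠ x : ℕ in Filter.atTop, (P.q : ℝ) ≤ (Real.log ∘ Nat.cast) x)
  refine ⟨x1 + x2, fun x y0 nX k n1 n2 BX WA WB F1 F2 hx hctx Bd l QQ hQQ hH hE u hu1 hu2 => ?_⟩
  have hq2 := hP.q2
  have hq : 0 < P.q := by omega
  haveI : NeZero P.q := ⟨hq.ne'⟩
  have hKq : (P.q : ℝ) ≤ Real.log x := hx2 x (by omega)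
  have hq2r : (2 : ℝ) ≤ P.q := by exact_mod_cast hq2
  have hK1 : 1 ≤ Real.log x := by linarith
  have hK0 : 0 < Real.log x := by linarith
  have hfam : FamL P x y0 (famW WA WB F1 F2) := hctx.fy.toL
  have hrho : 0 ≤ rho (famW WA WB F1 F2) := rho_nonneg _
  have hHn : (0 : ℝ) ≤ H1 P x := Nat.cast_nonneg _
  have hu0 : (0 : ℝ) ≤ u := Nat.cast_nonneg _
  obtain ⟨M, hM⟩ : ∃ M : ℝ, M = H1 P x * rho (famW WA WB F1 F2) := ⟨_, rfl⟩
  have hM0 : 0 ≤ M := by rw [hM]; positivity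
  rw [← hM] at hH
  -- the exceptional windows of one sub-family
  have key : ∀ z ∈ QQ, ∀ s ∈ clsS z.1 z.2, ∀ r ∈ clsS z.1 z.2, ∀ a : (ZMod P.q)ˣ,
      (((Ioc u (2 * u)).filter fun n => 3 * mb P x y0 (subW WA WB F1 F2 z.1 z.2 s r) <
        AW P (datW x y0 BX WA WB F1 F2) (subW WA WB F1 F2 z.1 z.2 s r) n a).card : ℝ) ≤
      (Real.log x) ^ 20 * ((4 * (z.1 : ℝ)) ^ z.2.card) ^ 2 / M * u := by
    intro z hz s hs r hr a
    obtain ⟨hp, hpy, hw⟩ := hQQ z hz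
    have hnd : ∀ s ∈ clsS z.1 z.2, ∀ i ∈ z.2, ¬ z.1 ∣ s i := by
      intro s hs i hi
      unfold clsS at hs
      rw [Fintype.mem_piFinset] at hs
      have h := hs i
      rw [if_pos hi, mem_filter, mem_range] at h
      exact h.2
    have h1 := rho_subW (F1 := F1) (F2 := F2) hp hw z.2 s r (hnd s hs) (hnd r hr)
    have hp1 := one_le_sub hp
    have hpp : (0 : ℝ) < z.1 := by linarith
    have hG0 : 0 < ((4 * (z.1 : ℝ)) ^ z.2.card) ^ 2 := by positivity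
    -- `M ≤ H1 rho_sub (4 p)^(2 |I|)`
    have h2 : M ≤ H1 P x * rho (subW WA WB F1 F2 z.1 z.2 s r) * ((4 * (z.1 : ℝ)) ^ z.2.card) ^ 2 := by
      have h3 : 1 / (4 * (z.1 : ℝ)) ≤ 1 / (4 * ((z.1 : ℝ) - 1)) := one_div_le_one_div_of_le (by linarith) (by linarith)
      have h4 : rho (famW WA WB F1 F2) * ((1 / (4 * (z.1 : ℝ))) ^ z.2.card) ^ 2 ≤ rho (subW WA WB F1 F2 z.1 z.2 s r) :=
        le_trans (mul_le_mul_of_nonneg_left (pow_le_pow_left₀ (by positivity) (pow_le_pow_left₀ (by positivity) h3 _) _) hrho) h1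
      rw [one_div, inv_pow, inv_pow, ← div_eq_mul_inv, div_le_iff₀ hG0] at h4
      calc M = H1 P x * rho (famW WA WB F1 F2) := hM
        _ ≤ H1 P x * (rho (subW WA WB F1 F2 z.1 z.2 s r) * ((4 * (z.1 : ℝ)) ^ z.2.card) ^ 2) := mul_le_mul_of_nonneg_left h4 hHn
        _ = _ := by ring
    -- `K^230 (4 p^2)^(2|I|) ≤ M`
    have h3 : (Real.log x) ^ 230 * ((4 * (z.1 : ℝ) ^ 2) ^ z.2.card) ^ 2 ≤ M := by
      refine le_trans (mul_le_mul_of_nonneg_left ?_ (by positivity)) hH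
      exact single_le_sum (f := fun z : ℕ × Finset (Fin (k + 1)) => ((4 * (z.1 : ℝ) ^ 2) ^ z.2.card) ^ 2) (fun z _ => by positivity) hz
    have h4 : ((4 * (z.1 : ℝ)) ^ z.2.card) ^ 2 ≤ ((4 * (z.1 : ℝ) ^ 2) ^ z.2.card) ^ 2 := by
      refine pow_le_pow_left₀ (by positivity) (pow_le_pow_left₀ (by positivity) ?_ _) _
      nlinarith
    have h5 : (Real.log x) ^ 230 ≤ H1 P x * rho (subW WA WB F1 F2 z.1 z.2 s r) := by
      have h6 : (Real.log x) ^ 230 * ((4 * (z.1 : ℝ)) ^ z.2.card) ^ 2 ≤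
          H1 P x * rho (subW WA WB F1 F2 z.1 z.2 s r) * ((4 * (z.1 : ℝ)) ^ z.2.card) ^ 2 :=
        (mul_le_mul_of_nonneg_left h4 (by positivity)).trans (h3.trans h2)
      exact le_of_mul_le_mul_right h6 hG0
    have h6 : 0 < H1 P x * rho (subW WA WB F1 F2 z.1 z.2 s r) := lt_of_lt_of_le (by positivity) h5
    have hMp : 0 < M := lt_of_lt_of_le (by positivity) h3
    have h7 := hclu (datW x y0 BX WA WB F1 F2) (show x1 ≤ x by omega) hctx _ (subW WA WB F1 F2 z.1 z.2 s r) (hfam.sub (subW_sub _ _ _ _))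
      ((pow_le_pow_right₀ hK1 (by norm_num)).trans h5) u a (by
        change (x : ℝ) ^ (1 - P.d0) / 2 ≤ u
        have : 0 ≤ (x : ℝ) ^ (1 - P.d0) := by positivity
        linarith) (by
        change u ≤ 4 * x
        omega)
    refine h7.trans (mul_le_mul_of_nonneg_right ?_ hu0)
    change (Real.log x) ^ 20 / (H1 P x * rho (subW WA WB F1 F2 z.1 z.2 s r)) ≤ _
    rw [div_le_div_iff₀ h6 hMp]
    calc (Real.log x) ^ 20 * M ≤ (Real.log x) ^ 20 * (H1 P x * rho (subW WA WB F1 F2 z.1 z.2 s r) * ((4 * (z.1 : ℝ)) ^ z.2.card) ^ 2) :=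
          mul_le_mul_of_nonneg_left h2 (by positivity)
      _ = _ := by ring
  -- all exceptional windows
  obtain ⟨TT, hTT⟩ : ∃ TT : Finset ((ZMod P.q)ˣ × (_ : ℕ × Finset (Fin (k + 1))) × (Fin (k + 1) → ℕ) × (Fin (k + 1) → ℕ)),
      TT = univ ×ˢ (QQ.sigma fun z => clsS z.1 z.2 ×ˢ clsS z.1 z.2) := ⟨_, rfl⟩
  have hu3 := bs2_union (Ioc u (2 * u)) TT (fun w n => 3 * mb P x y0 (subW WA WB F1 F2 w.2.1.1 w.2.1.2 w.2.2.1 w.2.2.2) <
        AW P (datW x y0 BX WA WB F1 F2) (subW WA WB F1 F2 w.2.1.1 w.2.1.2 w.2.2.1 w.2.2.2) n w.1)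
      (fun n => ∃ a : ℕ, a.Coprime P.q ∧ ∃ t ∈ TUP BX,
        mb P x y0 (famW WA WB F1 F2) / 80 < bb P (datW x y0 BX WA WB F1 F2) Bd l t n a)
      (fun w => (Real.log x) ^ 20 * ((4 * (w.2.1.1 : ℝ)) ^ w.2.1.2.card) ^ 2 / M * u) (fun n _ hn => ?_) (fun w hw => ?_)
  rotate_left
  · obtain ⟨a, ha, t, ht, hb⟩ := hn
    obtain ⟨E, hE1, hE2, hE3⟩ := hE t ht
    obtain ⟨e, he, s, hs, r, hr, h1⟩ := bs2_exists hq hfam.pr hfam.disj ha E
      (fun e he => ⟨(hQQ _ (hE1 e he).1).1, (hQQ _ (hE1 e he).1).2.1, (hQQ _ (hE1 e he).1).2.2, (hE1 e he).2⟩) hE2 hE3 hb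
    refine ⟨(ZMod.unitOfCoprime a ha, ⟨(e.1, e.2.1), (s, r)⟩), ?_, h1⟩
    rw [hTT, mem_product, mem_sigma, mem_product]
    exact ⟨mem_univ _, (hE1 e he).1, hs, hr⟩
  · rw [hTT, mem_product, mem_sigma, mem_product] at hw
    exact key _ hw.2.1 _ hw.2.2.1 _ hw.2.2.2 _
  refine hu3.trans ?_
  rcases QQ.eq_empty_or_nonempty with he | hne
  · have h0 : TT = ∅ := by
      rw [hTT, he]
      simp
    rw [h0, sum_empty]
    positivity
  have hMp : 0 < M := by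
    obtain ⟨z, hz⟩ := hne
    have hp := (hQQ z hz).1.pos
    have hpp : (0 : ℝ) < z.1 := by exact_mod_cast hp
    refine lt_of_lt_of_le ?_ hH
    refine mul_pos (by positivity) (sum_pos' (fun z _ => by positivity) ⟨z, hz, by positivity⟩)
  have hsum : ∑ w ∈ TT, (Real.log x) ^ 20 * ((4 * (w.2.1.1 : ℝ)) ^ w.2.1.2.card) ^ 2 / M * u ≤
      P.q * ((Real.log x) ^ 20 / M * u * ∑ z ∈ QQ, ((4 * (z.1 : ℝ) ^ 2) ^ z.2.card) ^ 2) := by
    rw [hTT, sum_product]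
    simp only
    rw [sum_const, nsmul_eq_mul, card_univ]
    have hcard : ((Fintype.card (ZMod P.q)ˣ : ℕ) : ℝ) ≤ P.q := by
      rw [ZMod.card_units_eq_totient]
      exact_mod_cast Nat.totient_le _
    refine mul_le_mul hcard ?_ ?_ (by positivity)
    · rw [sum_sigma, mul_sum]
      refine sum_le_sum fun z hz => ?_
      simp only
      rw [sum_const, nsmul_eq_mul, card_product]
      have hp := (hQQ z hz).1.pos
      have hpp : (0 : ℝ) < z.1 := by exact_mod_cast hp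
      have h1 : (((clsS z.1 z.2).card * (clsS z.1 z.2).card : ℕ) : ℝ) ≤ ((z.1 : ℝ) ^ z.2.card) ^ 2 := by
        have h2 := bs2_card hp z.2
        have h3 : ((clsS z.1 z.2).card : ℝ) ≤ (z.1 : ℝ) ^ z.2.card := by exact_mod_cast h2
        push_cast
        rw [pow_two]
        exact mul_le_mul h3 h3 (Nat.cast_nonneg _) (by positivity)
      calc (((clsS z.1 z.2).card * (clsS z.1 z.2).card : ℕ) : ℝ) * ((Real.log x) ^ 20 * ((4 * (z.1 : ℝ)) ^ z.2.card) ^ 2 / M * u) ≤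
          ((z.1 : ℝ) ^ z.2.card) ^ 2 * ((Real.log x) ^ 20 * ((4 * (z.1 : ℝ)) ^ z.2.card) ^ 2 / M * u) :=
            mul_le_mul_of_nonneg_right h1 (by positivity)
        _ = (Real.log x) ^ 20 / M * u * (((z.1 : ℝ) ^ z.2.card) ^ 2 * ((4 * (z.1 : ℝ)) ^ z.2.card) ^ 2) := by ring
        _ = _ := by
            congr 1
            rw [← mul_pow, ← mul_pow]
            congr 2
            ring
    · exact sum_nonneg fun w _ => by positivity
  refine hsum.trans ?_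
  have h1 : ∑ z ∈ QQ, ((4 * (z.1 : ℝ) ^ 2) ^ z.2.card) ^ 2 ≤ M / (Real.log x) ^ 230 := by
    rw [le_div_iff₀ (by positivity), mul_comm]
    exact hH
  calc P.q * ((Real.log x) ^ 20 / M * u * ∑ z ∈ QQ, ((4 * (z.1 : ℝ) ^ 2) ^ z.2.card) ^ 2) ≤
      Real.log x * ((Real.log x) ^ 20 / M * u * (M / (Real.log x) ^ 230)) := by
        refine mul_le_mul hKq (mul_le_mul_of_nonneg_left h1 (by positivity)) ?_ hK0.le
        exact mul_nonneg (by positivity) (sum_nonneg fun z _ => by positivity)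
    _ = u / (Real.log x) ^ 209 := by
        field_simp
    _ ≤ u / (Real.log x) ^ 200 := div_le_div_of_nonneg_left hu0 (by positivity) (pow_le_pow_right₀ hK1 (by norm_num))

end Pool.Agent.Lib.TT
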