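import Pool.Agent.Lib.MP_092512_nt.TT.Sv
import Pool.Agent.Lib.MP_7b7e48_nt.TE.SWL

/-!
# TT / Ca1 (90 minutes): (6.1): `|t| ≤ K ^ 10`

Text (6.1). `∑ ν(n) λ(n) ψ(n) n^{it} = ∑_d w d λ(d) ψ(d) d^{it} ∑_{n'} ..`; PNT for `λ` in the classes mod `q`: `PP.swa_dom` (see `TE/SWL`, `SWL_core`) with `N` a power of `2`, `√x ≤ N ≤ x` (`q` is even, so all `n` prime to `q` are prime to `N`), modulus `f = q`, saving `K ^ 20`; partial summation in `n^{it}`, `|t| ≤ K ^ 10`. `psn` below is `ψ(n)` for `n` prime to `q`, else `0`.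
-/

set_option autoImplicit false

open Finset

namespace Pool.Agent.Lib.TT

open Pool.Agent.Lib.TCF (pht TUP rho)
open Pool.Agent.Lib.RG (Rough PN)
open Pool.Agent.Lib.MP_45349e_nt.LS (lam)


open Classical in
/-- `ψ(n)`, `0` if `n` is not prime to `q` -/
noncomputable def psn {q : ℕ} (ψ : (ZMod q)ˣ →* ℂ) (n : ℕ) : ℂ := if h : n.Coprime q then ψ (ZMod.unitOfCoprime n h) else 0

private theorem Ca1_abel (F g : ℕ → ℂ) (B : ℝ) (a b : ℕ) (hab : a ≤ b)
    (hB : ∀ c, a ≤ c → c ≤ b → ‖∑ m ∈ Ioc a c, F m‖ ≤ B) (hg : ‖g b‖ ≤ 1) :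
    ‖∑ m ∈ Ioc a b, F m * g m‖ ≤ B * (1 + ∑ m ∈ Ico a b, ‖g (m + 1) - g m‖) := by
  have key : ∑ m ∈ Ioc a b, F m * g m = (∑ m ∈ Ioc a b, F m) * g b -
      ∑ m ∈ Ico a b, (∑ k ∈ Ioc a m, F k) * (g (m + 1) - g m) := by
    clear hB hg
    induction b, hab using Nat.le_induction with
    | base => simp
    | succ b hab ih =>
      rw [Finset.sum_Ioc_succ_top hab, ih, Finset.sum_Ico_succ_top hab,
        Finset.sum_Ioc_succ_top hab]
      ring
  have hB0 : 0 ≤ B := (norm_nonneg _).trans (hB a le_rfl hab)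
  rw [key]
  calc ‖(∑ m ∈ Ioc a b, F m) * g b -
        ∑ m ∈ Ico a b, (∑ k ∈ Ioc a m, F k) * (g (m + 1) - g m)‖
      ≤ ‖(∑ m ∈ Ioc a b, F m) * g b‖ +
        ‖∑ m ∈ Ico a b, (∑ k ∈ Ioc a m, F k) * (g (m + 1) - g m)‖ := norm_sub_le _ _
    _ ≤ B * 1 + ∑ m ∈ Ico a b, B * ‖g (m + 1) - g m‖ := by
        refine add_le_add ?_ ((norm_sum_le _ _).trans (sum_le_sum fun m hm => ?_))
        · rw [norm_mul]
          exact mul_le_mul (hB b hab le_rfl) hg (norm_nonneg _) hB0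
        · rw [norm_mul]
          rw [mem_Ico] at hm
          exact mul_le_mul_of_nonneg_right (hB m hm.1 hm.2.le) (norm_nonneg _)
    _ = _ := by rw [← mul_sum]; ring

section psn

variable {q : ℕ} (ψ : (ZMod q)ˣ →* ℂ)

open Classical in
private theorem Ca1_psn_mul (m n : ℕ) : psn ψ (m * n) = psn ψ m * psn ψ n := by
  unfold psn
  by_cases hm : m.Coprime q
  · by_cases hn : n.Coprime q
    · have hmn : (m * n).Coprime q := Nat.Coprime.mul_left hm hn
      rw [dif_pos hm, dif_pos hn, dif_pos hmn, ← map_mul]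
      congr 1
      apply Units.ext
      rw [Units.val_mul, ZMod.coe_unitOfCoprime, ZMod.coe_unitOfCoprime, ZMod.coe_unitOfCoprime,
        Nat.cast_mul]
    · have hmn : ¬ (m * n).Coprime q := fun h => hn (Nat.Coprime.coprime_mul_left h)
      rw [dif_neg hn, dif_neg hmn, mul_zero]
  · have hmn : ¬ (m * n).Coprime q := fun h => hm (Nat.Coprime.coprime_mul_right h)
    rw [dif_neg hm, dif_neg hmn, zero_mul]

private theorem Ca1_cop_mod (n : ℕ) : (n % q).Coprime q ↔ n.Coprime q := by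
  unfold Nat.Coprime
  rw [(Nat.mod_modEq n q).gcd_eq]

open Classical in
private theorem Ca1_psn_mod (n : ℕ) : psn ψ n = psn ψ (n % q) := by
  unfold psn
  by_cases hn : n.Coprime q
  · have hm : (n % q).Coprime q := (Ca1_cop_mod n).2 hn
    rw [dif_pos hn, dif_pos hm]
    congr 1
    apply Units.ext
    rw [ZMod.coe_unitOfCoprime, ZMod.coe_unitOfCoprime, ZMod.natCast_mod]
  · have hm : ¬ (n % q).Coprime q := fun h => hn ((Ca1_cop_mod n).1 h)
    rw [dif_neg hn, dif_neg hm]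

open Classical in
private theorem Ca1_psn_le (hψ : ∀ b, ‖ψ b‖ = 1) (n : ℕ) : ‖psn ψ n‖ ≤ 1 := by
  unfold psn
  split_ifs with h
  · exact (hψ _).le
  · rw [norm_zero]
    exact zero_le_one

open Classical in
private theorem Ca1_psn_zero (n : ℕ) (h : ¬ n.Coprime q) : psn ψ n = 0 := by
  unfold psn
  rw [dif_neg h]

end psn

private theorem Ca1_dom (q k a Y : ℕ) (hq : 2 ∣ q) (hq2 : 2 ≤ q) (hk : 1 ≤ k) (ha : a < q)
    (hc : a.Coprime q) :
    (Ioc 0 Y).filter (fun n => n % q = a) = Pool.Agent.Lib.OW.Dom (2 ^ k) q a (Y + 1) := by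
  classical
  ext n
  unfold Pool.Agent.Lib.OW.Dom
  rw [mem_filter, mem_filter, mem_Ioc, mem_range]
  have h1 : n ≡ a [MOD q] ↔ n % q = a := by
    unfold Nat.ModEq
    rw [Nat.mod_eq_of_lt ha]
  rw [h1]
  constructor
  · rintro ⟨⟨h2, h3⟩, h4⟩
    refine ⟨by omega, h4, ?_⟩
    have h5 : n.Coprime q := by
      rw [← Ca1_cop_mod, h4]
      exact hc
    exact (Nat.Coprime.coprime_dvd_right hq h5).pow_right k
  · rintro ⟨h2, h4, h5⟩
    refine ⟨⟨?_, by omega⟩, h4⟩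
    rcases Nat.eq_zero_or_pos n with h6 | h6
    · rw [h6, Nat.coprime_zero_left] at h5
      have h7 : 2 ^ 1 ≤ 2 ^ k := Nat.pow_le_pow_right (by norm_num) hk
      omega
    · exact h6

private theorem Ca1_sum (q : ℕ) (hq : 2 ∣ q) (hq2 : 2 ≤ q) (A : ℕ) : ∃ N0 : ℕ, ∀ k : ℕ, 1 ≤ k →
    N0 ≤ 2 ^ k → ∀ (ψ : (ZMod q)ˣ →* ℂ), (∀ b, ‖ψ b‖ = 1) → ∀ Y : ℕ,
    Real.exp ((Real.log ((2 ^ k : ℕ) : ℝ)) ^ ((1 : ℝ) / 2)) ≤ (Y : ℝ) + 1 →
    ‖∑ m ∈ Ioc 0 Y, (lam m : ℂ) * psn ψ m‖ ≤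
      q * (((Y : ℝ) + 1) / (Real.log ((2 ^ k : ℕ) : ℝ)) ^ A) := by
  obtain ⟨N0, hN0⟩ := Pool.Agent.Lib.PP.swa_dom (1 / 2) (by norm_num) (by norm_num) A
  refine ⟨N0, fun k hk hkN ψ hψ Y hY => ?_⟩
  have h0 := hN0 (2 ^ k) hkN q (by omega)
  have hlog : 0 ≤ Real.log ((2 ^ k : ℕ) : ℝ) := Real.log_natCast_nonneg _
  have hsplit : ∑ m ∈ Ioc 0 Y, (lam m : ℂ) * psn ψ m = ∑ a ∈ range q, psn ψ a *
      ((∑ m ∈ (Ioc 0 Y).filter (fun n => n % q = a), lam m : ℝ) : ℂ) := by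
    rw [← sum_fiberwise_of_maps_to (s := Ioc 0 Y) (t := range q) (g := fun n => n % q)
      (fun n _ => mem_range.2 (Nat.mod_lt n (by omega)))]
    refine sum_congr rfl fun a _ => ?_
    rw [Complex.ofReal_sum, mul_sum]
    refine sum_congr rfl fun n hn => ?_
    rw [Ca1_psn_mod ψ n, (mem_filter.1 hn).2, mul_comm]
  rw [hsplit]
  calc ‖∑ a ∈ range q, psn ψ a *
        ((∑ m ∈ (Ioc 0 Y).filter (fun n => n % q = a), lam m : ℝ) : ℂ)‖
      ≤ ∑ a ∈ range q, ((Y : ℝ) + 1) / (Real.log ((2 ^ k : ℕ) : ℝ)) ^ A := by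
        refine (norm_sum_le _ _).trans (sum_le_sum fun a ha => ?_)
        rw [mem_range] at ha
        have hnn : 0 ≤ ((Y : ℝ) + 1) / (Real.log ((2 ^ k : ℕ) : ℝ)) ^ A := by positivity
        by_cases hc : a.Coprime q
        · rw [norm_mul, Complex.norm_real, Real.norm_eq_abs, Ca1_dom q k a Y hq hq2 hk ha hc]
          have h1 := h0 a (Y + 1) hc (by push_cast at hY ⊢; exact hY)
          push_cast at h1 ⊢
          calc ‖psn ψ a‖ * |∑ m ∈ Pool.Agent.Lib.OW.Dom (2 ^ k) q a (Y + 1), lam m|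
              ≤ 1 * (((Y : ℝ) + 1) / Real.log (2 ^ k) ^ A) :=
                mul_le_mul (Ca1_psn_le ψ hψ a) h1 (abs_nonneg _) zero_le_one
            _ = _ := one_mul _
        · rw [Ca1_psn_zero ψ a hc, zero_mul, norm_zero]
          exact hnn
    _ = _ := by rw [sum_const, card_range, nsmul_eq_mul]

/-- the inner sum -/
private theorem Ca1_inner (q : ℕ) (hq : 2 ∣ q) (hq2 : 2 ≤ q) (A : ℕ) : ∃ N0 : ℕ, ∀ k : ℕ, 1 ≤ k →
    N0 ≤ 2 ^ k → ∀ (ψ : (ZMod q)ˣ →* ℂ), (∀ b, ‖ψ b‖ = 1) → ∀ (t : ℝ) (Y0 Y1 : ℕ), 1 ≤ Y0 →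
    Y0 ≤ Y1 → Y1 ≤ 2 * Y0 + 1 →
    Real.exp ((Real.log ((2 ^ k : ℕ) : ℝ)) ^ ((1 : ℝ) / 2)) ≤ (Y0 : ℝ) + 1 →
    ‖∑ m ∈ Ioc Y0 Y1, (lam m : ℂ) * psn ψ m * Complex.exp (Complex.I * (t * Real.log m))‖ ≤
      2 * (q * (((Y1 : ℝ) + 1) / (Real.log ((2 ^ k : ℕ) : ℝ)) ^ A)) * (1 + 2 * |t|) := by
  obtain ⟨N0, hN0⟩ := Ca1_sum q hq hq2 A
  refine ⟨N0, fun k hk hkN ψ hψ t Y0 Y1 h1 h01 h10 hexp => ?_⟩
  have hlog : 0 ≤ Real.log ((2 ^ k : ℕ) : ℝ) := Real.log_natCast_nonneg _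
  have hG : ∀ c, Y0 ≤ c → c ≤ Y1 → ‖∑ m ∈ Ioc 0 c, (lam m : ℂ) * psn ψ m‖ ≤
      q * (((Y1 : ℝ) + 1) / (Real.log ((2 ^ k : ℕ) : ℝ)) ^ A) := by
    intro c hc hc1
    have hc' : (Y0 : ℝ) ≤ c := by exact_mod_cast hc
    have hc1' : (c : ℝ) ≤ Y1 := by exact_mod_cast hc1
    refine (hN0 k hk hkN ψ hψ c (by linarith)).trans ?_
    refine mul_le_mul_of_nonneg_left ?_ (Nat.cast_nonneg q)
    exact div_le_div_of_nonneg_right (by linarith) (by positivity)
  have hnorm : ∀ m : ℕ, ‖Complex.exp (Complex.I * (t * Real.log m))‖ = 1 := by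
    intro m
    have h2 : Complex.I * (t * Real.log m) = Complex.I * ((t * Real.log m : ℝ) : ℂ) := by
      push_cast
      ring
    rw [h2, mul_comm, Complex.norm_exp_ofReal_mul_I]
  have hab := Ca1_abel (fun m => (lam m : ℂ) * psn ψ m)
    (fun m => Complex.exp (Complex.I * (t * Real.log m)))
    (2 * (q * (((Y1 : ℝ) + 1) / (Real.log ((2 ^ k : ℕ) : ℝ)) ^ A))) Y0 Y1 h01
    (fun c hc hc1 => by
      have h2 := sum_Ioc_consecutive (fun m => (lam m : ℂ) * psn ψ m) (Nat.zero_le Y0) hc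
      have h3 : ∑ m ∈ Ioc Y0 c, (lam m : ℂ) * psn ψ m =
          (∑ m ∈ Ioc 0 c, (lam m : ℂ) * psn ψ m) - ∑ m ∈ Ioc 0 Y0, (lam m : ℂ) * psn ψ m := by
        rw [← h2]
        ring
      rw [h3]
      refine (norm_sub_le _ _).trans ?_
      have h4 := hG c hc hc1
      have h5 := hG Y0 le_rfl h01
      linarith)
    (hnorm Y1).le
  refine hab.trans ?_
  have hnn : 0 ≤ 2 * (q * (((Y1 : ℝ) + 1) / (Real.log ((2 ^ k : ℕ) : ℝ)) ^ A)) := by positivity
  refine mul_le_mul_of_nonneg_left ?_ hnn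
  have hY0 : (1 : ℝ) ≤ Y0 := by exact_mod_cast h1
  have hdiff : ∀ m ∈ Ico Y0 Y1, ‖Complex.exp (Complex.I * (t * Real.log ((m + 1 : ℕ) : ℝ))) -
      Complex.exp (Complex.I * (t * Real.log m))‖ ≤ |t| / Y0 := by
    intro m hm
    rw [mem_Ico] at hm
    have hm1 : (Y0 : ℝ) ≤ m := by exact_mod_cast hm.1
    have hm0 : (0 : ℝ) < m := by linarith
    have h2 : Complex.exp (Complex.I * (t * Real.log ((m + 1 : ℕ) : ℝ))) -
        Complex.exp (Complex.I * (t * Real.log m)) =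
        Complex.exp (Complex.I * (t * Real.log m)) *
          (Complex.exp (Complex.I * ((t * (Real.log ((m + 1 : ℕ) : ℝ) - Real.log m) : ℝ) : ℂ))
            - 1) := by
      rw [mul_sub, mul_one, ← Complex.exp_add]
      congr 2
      push_cast
      ring
    rw [h2, norm_mul, hnorm, one_mul]
    refine (Real.norm_exp_I_mul_ofReal_sub_one_le (x := t * (Real.log ((m + 1 : ℕ) : ℝ) -
      Real.log m))).trans ?_
    rw [Real.norm_eq_abs, abs_mul, div_eq_mul_inv]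
    refine mul_le_mul_of_nonneg_left ?_ (abs_nonneg t)
    have h3 : Real.log ((m + 1 : ℕ) : ℝ) - Real.log m = Real.log (1 + 1 / m) := by
      rw [← Real.log_div (by push_cast; linarith) hm0.ne']
      congr 1
      push_cast
      field_simp
    have h4 : 0 ≤ Real.log (1 + 1 / m) := Real.log_nonneg (by
      have : 0 ≤ 1 / (m : ℝ) := by positivity
      linarith)
    rw [h3, abs_of_nonneg h4]
    have h5 := Real.log_le_sub_one_of_pos (x := 1 + 1 / (m : ℝ)) (by positivity)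
    have h6 : 1 / (m : ℝ) ≤ (Y0 : ℝ)⁻¹ := by
      rw [one_div]
      exact inv_anti₀ (by linarith) hm1
    linarith
  have hs := sum_le_sum hdiff
  rw [sum_const, Nat.card_Ico, nsmul_eq_mul, Nat.cast_sub h01] at hs
  have h7 : ((Y1 : ℝ) - Y0) * (|t| / Y0) ≤ 2 * |t| := by
    have h8 : (Y1 : ℝ) ≤ 2 * Y0 + 1 := by exact_mod_cast h10
    have h9 : 0 ≤ |t| / Y0 := by positivity
    calc ((Y1 : ℝ) - Y0) * (|t| / Y0) ≤ (2 * Y0) * (|t| / Y0) :=
          mul_le_mul_of_nonneg_right (by linarith) h9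
      _ = 2 * |t| := by field_simp
  linarith

private theorem Ca1_reidx (y d : ℕ) (hd : 1 ≤ d) (h : ℕ → ℂ) :
    ∑ n ∈ (Ioc y (2 * y)).filter (fun n => d ∣ n), h n =
      ∑ m ∈ Ioc (y / d) (2 * y / d), h (d * m) := by
  symm
  refine sum_nbij' (fun m => d * m) (fun n => n / d) ?_ ?_ ?_ ?_ ?_
  · intro m hm
    rw [mem_Ioc] at hm
    rw [mem_filter, mem_Ioc]
    refine ⟨⟨?_, ?_⟩, dvd_mul_right d m⟩
    · have h1 := (Nat.div_lt_iff_lt_mul hd).1 hm.1
      rwa [mul_comm] at h1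
    · have h1 := (Nat.le_div_iff_mul_le hd).1 hm.2
      rwa [mul_comm] at h1
  · intro n hn
    rw [mem_filter, mem_Ioc] at hn
    obtain ⟨⟨h1, h2⟩, m, rfl⟩ := hn
    rw [Nat.mul_div_cancel_left m hd, mem_Ioc]
    refine ⟨(Nat.div_lt_iff_lt_mul hd).2 (by rwa [mul_comm]),
      (Nat.le_div_iff_mul_le hd).2 (by rwa [mul_comm])⟩
  · intro m _
    exact Nat.mul_div_cancel_left m hd
  · intro n hn
    rw [mem_filter] at hn
    exact Nat.mul_div_cancel' hn.2
  · intro m _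
    rfl

open Classical in
theorem ca1 (P : Par) (hP : P.Ok) : ∃ x0 : ℕ, ∀ x : ℕ, x0 ≤ x → ∀ w : ℕ → ℝ,
    (∀ d, |w d| ≤ 1) → (∀ d, w d ≠ 0 → 1 ≤ d ∧ (d : ℝ) ≤ (yy P x : ℝ) ^ ((1 : ℝ) / 2)) →
    ∀ (t : ℝ) (ψ : (ZMod P.q)ˣ →* ℂ), |t| ≤ (Real.log x) ^ 10 → (∀ b, ‖ψ b‖ = 1) →
    ‖∑ n ∈ Ioc (yy P x) (2 * yy P x), ((∑ d ∈ n.divisors, w d : ℝ) : ℂ) * lam n * psn ψ n *
      Complex.exp (Complex.I * (t * Real.log n))‖ ≤ yy P x / (Real.log x) ^ 2 := by
  obtain ⟨N0, hN0⟩ := Ca1_inner P.q hP.ev hP.q2 14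
  have hbe : 0 < be P := by
    unfold be dl
    have := hP.d0
    positivity
  have hbe1 : be P ≤ 1 := by
    unfold be dl
    have := hP.d1
    linarith
  obtain ⟨x1, hx1⟩ := (((Real.tendsto_log_atTop.comp tendsto_natCast_atTop_atTop).eventually
    (Filter.eventually_ge_atTop
      (max (max (4 : ℝ) ((4 / be P) ^ 2)) (54 * P.q * 2 ^ 14))))).exists_forall_of_atTop
  refine ⟨max x1 (2 * N0 + 4), fun x hx w hw hw0 t ψ ht hψ => ?_⟩
  have hxN : 2 * N0 + 4 ≤ x := (le_max_right _ _).trans hx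
  have hKm := hx1 x ((le_max_left _ _).trans hx)
  obtain ⟨K, hKd⟩ : ∃ K : ℝ, K = Real.log x := ⟨_, rfl⟩
  simp only [Function.comp_apply, ← hKd] at hKm
  have hK4 : (4 : ℝ) ≤ K := (le_max_left _ _).trans ((le_max_left _ _).trans hKm)
  have hKb : (4 / be P) ^ 2 ≤ K := (le_max_right _ _).trans ((le_max_left _ _).trans hKm)
  have hKq : 54 * P.q * 2 ^ 14 ≤ K := (le_max_right _ _).trans hKm
  have hK0 : 0 < K := by linarith
  have hxR : (0 : ℝ) < x := by
    have : 0 < x := by omega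
    exact_mod_cast this
  rw [← hKd] at ht ⊢
  -- the power of two
  obtain ⟨k, hk⟩ : ∃ k, k = Nat.log 2 x := ⟨_, rfl⟩
  have hk1 : 2 ^ k ≤ x := by rw [hk]; exact Nat.pow_log_le_self 2 (by omega)
  have hk2 : x < 2 ^ (k + 1) := by rw [hk]; exact Nat.lt_pow_succ_log_self (by norm_num) x
  have hk3 : x < 2 * 2 ^ k := by rw [pow_succ'] at hk2; exact hk2
  have hkN : N0 ≤ 2 ^ k := by omega
  have hk0 : 1 ≤ k := by
    rcases Nat.eq_zero_or_pos k with h | h
    · rw [h] at hk3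
      omega
    · exact h
  obtain ⟨T, hT⟩ : ∃ T : ℝ, T = Real.log ((2 ^ k : ℕ) : ℝ) := ⟨_, rfl⟩
  have hTK : T ≤ K := by
    rw [hT, hKd]
    exact Real.log_le_log (by positivity) (by exact_mod_cast hk1)
  have hKT : K / 2 ≤ T := by
    have h1 : K ≤ Real.log 2 + T := by
      rw [hT, hKd, ← Real.log_mul (by norm_num) (by positivity)]
      refine Real.log_le_log hxR ?_
      exact_mod_cast hk3.le
    have h2 := Real.log_two_lt_d9
    linarith
  have hT0 : 0 < T := by linarith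
  -- the size of `y`
  obtain ⟨y, hy⟩ : ∃ y, y = yy P x := ⟨_, rfl⟩
  rw [← hy] at hw0 ⊢
  have hyx : (y : ℝ) ≤ Real.exp (be P * K) := by
    rw [hy, yy, hKd, mul_comm, ← Real.rpow_def_of_pos hxR]
    exact Nat.floor_le (by positivity)
  have hyl : Real.exp (be P * K) - 1 < y := by
    have h1 := Nat.lt_floor_add_one ((x : ℝ) ^ be P)
    rw [Real.rpow_def_of_pos hxR, ← hKd, mul_comm] at h1
    rw [hy, yy, Real.rpow_def_of_pos hxR, ← hKd, mul_comm K]
    linarith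
  have hsqK : 4 / be P ≤ Real.sqrt K := by
    refine Real.le_sqrt_of_sq_le hKb
  have hsK : Real.sqrt K * Real.sqrt K = K := Real.mul_self_sqrt hK0.le
  have hsK2 : 2 ≤ Real.sqrt K := Real.le_sqrt_of_sq_le (by linarith)
  have hbK : 4 * Real.sqrt K ≤ be P * K := by
    rw [div_le_iff₀ hbe] at hsqK
    nlinarith
  have hy2 : Real.exp (2 * Real.sqrt K) + 1 ≤ y := by
    have h1 : Real.exp (4 * Real.sqrt K) ≤ Real.exp (be P * K) := Real.exp_le_exp.2 hbK
    have h2 : Real.exp (4 * Real.sqrt K) =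
        Real.exp (2 * Real.sqrt K) * Real.exp (2 * Real.sqrt K) := by
      rw [← Real.exp_add]; congr 1; ring
    have h3 : (5 : ℝ) ≤ Real.exp (2 * Real.sqrt K) := by
      have := Real.add_one_le_exp (2 * Real.sqrt K)
      linarith
    nlinarith
  have hexp1 : Real.exp (T ^ ((1 : ℝ) / 2)) ≤ Real.exp (Real.sqrt K) := by
    rw [← Real.sqrt_eq_rpow, Real.exp_le_exp]
    exact Real.sqrt_le_sqrt hTK
  have hexp2 : Real.exp (Real.sqrt K) ≤ (y : ℝ) ^ ((1 : ℝ) / 2) := by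
    rw [← Real.sqrt_eq_rpow]
    refine Real.le_sqrt_of_sq_le ?_
    have h2 : Real.exp (Real.sqrt K) ^ 2 = Real.exp (2 * Real.sqrt K) := by
      rw [← Real.exp_nat_mul]; norm_num
    rw [h2]
    linarith
  have hy1R : (1 : ℝ) ≤ y := by
    have := Real.exp_pos (2 * Real.sqrt K)
    linarith
  have hy1 : 1 ≤ y := by exact_mod_cast hy1R
  have hlogy : Real.log ((2 * y : ℕ) : ℝ) ≤ 2 * K := by
    push_cast
    rw [Real.log_mul (by norm_num) (by linarith)]
    have h1 : Real.log y ≤ be P * K := by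
      rw [Real.log_le_iff_le_exp (by linarith)]
      exact hyx
    have h2 := Real.log_two_lt_d9
    nlinarith
  -- exchange of the sums
  obtain ⟨h, hh⟩ : ∃ h : ℕ → ℂ, h = fun n => (lam n : ℂ) * psn ψ n *
      Complex.exp (Complex.I * (t * Real.log n)) := ⟨_, rfl⟩
  have hswap : ∑ n ∈ Ioc y (2 * y), ((∑ d ∈ n.divisors, w d : ℝ) : ℂ) * lam n * psn ψ n *
      Complex.exp (Complex.I * (t * Real.log n)) =
      ∑ d ∈ Icc 1 (2 * y), (w d : ℂ) * ∑ n ∈ (Ioc y (2 * y)).filter (fun n => d ∣ n), h n := by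
    have h1 : ∀ n ∈ Ioc y (2 * y), ((∑ d ∈ n.divisors, w d : ℝ) : ℂ) * lam n * psn ψ n *
        Complex.exp (Complex.I * (t * Real.log n)) =
        ∑ d ∈ Icc 1 (2 * y), if d ∣ n then (w d : ℂ) * h n else 0 := by
      intro n hn
      rw [mem_Ioc] at hn
      have h2 : n.divisors = (Icc 1 (2 * y)).filter (fun d => d ∣ n) := by
        ext d
        rw [Nat.mem_divisors, mem_filter, mem_Icc]
        constructor
        · rintro ⟨h3, h4⟩
          have h5 := Nat.le_of_dvd (by omega) h3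
          have h6 := Nat.pos_of_dvd_of_pos h3 (by omega)
          exact ⟨⟨h6, by omega⟩, h3⟩
        · rintro ⟨_, h3⟩
          exact ⟨h3, by omega⟩
      rw [h2, ← sum_filter, hh, Complex.ofReal_sum, sum_mul, sum_mul, sum_mul]
      refine sum_congr rfl fun d _ => ?_
      ring
    rw [sum_congr rfl h1, sum_comm]
    refine sum_congr rfl fun d _ => ?_
    rw [← sum_filter, mul_sum]
  rw [hswap]
  have hone : ∀ d ∈ Icc 1 (2 * y), ‖(w d : ℂ) *
      ∑ n ∈ (Ioc y (2 * y)).filter (fun n => d ∣ n), h n‖ ≤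
      18 * P.q * 2 ^ 14 * y / K ^ 4 * (1 / (d : ℝ)) := by
    intro d hd
    rw [mem_Icc] at hd
    have hd0 : (0 : ℝ) < d := by exact_mod_cast hd.1
    by_cases hwd : w d = 0
    · rw [hwd, Complex.ofReal_zero, zero_mul, norm_zero]
      positivity
    obtain ⟨-, hdy⟩ := hw0 d hwd
    have hdy2 : (d : ℝ) ^ 2 ≤ y := by
      rw [← Real.sqrt_eq_rpow] at hdy
      have h1 := pow_le_pow_left₀ hd0.le hdy 2
      rwa [Real.sq_sqrt (by linarith)] at h1
    have hdy3 : d ≤ y := by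
      have h1 : (1 : ℝ) ≤ d := by exact_mod_cast hd.1
      have h2 : (d : ℝ) ≤ y := by nlinarith
      exact_mod_cast h2
    have hY0 : 1 ≤ y / d := (Nat.one_le_div_iff (by omega)).2 hdy3
    have hmul : ∀ m ∈ Ioc (y / d) (2 * y / d), h (d * m) = h d * ((lam m : ℂ) * psn ψ m *
        Complex.exp (Complex.I * (t * Real.log m))) := by
      intro m hm
      rw [mem_Ioc] at hm
      have hm0 : m ≠ 0 := by omega
      have hd0' : d ≠ 0 := by omega
      have hlog : Real.log ((d * m : ℕ) : ℝ) = Real.log d + Real.log m := by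
        rw [Nat.cast_mul, Real.log_mul (by exact_mod_cast hd0') (by exact_mod_cast hm0)]
      rw [hh]
      show ((lam (d * m) : ℝ) : ℂ) * psn ψ (d * m) *
        Complex.exp (Complex.I * (t * Real.log ((d * m : ℕ) : ℝ))) = _
      rw [hlog, Pool.Agent.Lib.MP_45349e_nt.LS.lam_mul d m hd0' hm0, Ca1_psn_mul]
      have h5 : Complex.exp (Complex.I * (t * ((Real.log d + Real.log m : ℝ) : ℂ))) =
          Complex.exp (Complex.I * (t * Real.log d)) *
            Complex.exp (Complex.I * (t * Real.log m)) := by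
        rw [← Complex.exp_add]
        congr 1
        push_cast
        ring
      rw [h5]
      push_cast
      ring
    have hhd : ‖h d‖ ≤ 1 := by
      rw [hh]
      show ‖((lam d : ℝ) : ℂ) * psn ψ d * Complex.exp (Complex.I * (t * Real.log d))‖ ≤ 1
      have h2 : Complex.I * (t * Real.log d) = ((t * Real.log d : ℝ) : ℂ) * Complex.I := by
        push_cast
        ring
      have h3 : ‖((lam d : ℝ) : ℂ)‖ = 1 := by
        rw [Complex.norm_real, Real.norm_eq_abs]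
        unfold Pool.Agent.Lib.MP_45349e_nt.LS.lam
        rw [abs_pow, abs_neg, abs_one, one_pow]
      rw [norm_mul, norm_mul, h2, Complex.norm_exp_ofReal_mul_I, h3, one_mul, mul_one]
      exact Ca1_psn_le ψ hψ d
    have hY1 : 2 * y / d ≤ 2 * (y / d) + 1 := by
      have h1 : 2 * y / d < 2 * (y / d) + 2 := by
        rw [Nat.div_lt_iff_lt_mul (by omega)]
        have h2 := Nat.lt_succ_iff.1 (Nat.lt_succ_self y)
        have h3 := Nat.div_add_mod y d
        have h4 := Nat.mod_lt y (show 0 < d by omega)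
        nlinarith
      omega
    have hY01 : y / d ≤ 2 * y / d := Nat.div_le_div_right (by omega)
    have hYR : (y : ℝ) / d < ((y / d : ℕ) : ℝ) + 1 := by
      rw [div_lt_iff₀ hd0]
      have h3 := Nat.div_add_mod y d
      have h4 := Nat.mod_lt y (show 0 < d by omega)
      have h5 : y < (y / d + 1) * d := by nlinarith
      exact_mod_cast h5
    have hin := hN0 k hk0 hkN ψ hψ t (y / d) (2 * y / d) hY0 hY01 hY1 (by
      rw [← hT]
      refine (hexp1.trans hexp2).trans ?_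
      refine le_trans ?_ hYR.le
      rw [le_div_iff₀ hd0]
      have h1 : (y : ℝ) ^ ((1 : ℝ) / 2) * (y : ℝ) ^ ((1 : ℝ) / 2) = y := by
        rw [← Real.sqrt_eq_rpow]
        exact Real.mul_self_sqrt (by linarith)
      have h2 : 0 ≤ (y : ℝ) ^ ((1 : ℝ) / 2) := by positivity
      calc (y : ℝ) ^ ((1 : ℝ) / 2) * d ≤ (y : ℝ) ^ ((1 : ℝ) / 2) * (y : ℝ) ^ ((1 : ℝ) / 2) :=
            mul_le_mul_of_nonneg_left hdy h2
        _ = y := h1)
    rw [← hT] at hin
    rw [Ca1_reidx y d hd.1 h, sum_congr rfl hmul, ← mul_sum, norm_mul, norm_mul]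
    have hwn : ‖((w d : ℝ) : ℂ)‖ ≤ 1 := by
      rw [Complex.norm_real, Real.norm_eq_abs]
      exact hw d
    have hY1R : (((2 * y / d : ℕ) : ℝ) + 1) ≤ 3 * y / d := by
      have h1 : (((2 * y / d : ℕ)) : ℝ) ≤ ((2 * y : ℕ) : ℝ) / d := Nat.cast_div_le
      have h2 : (1 : ℝ) ≤ y / d := by
        rw [le_div_iff₀ hd0, one_mul]
        exact_mod_cast hdy3
      push_cast at h1
      have h3 : 3 * (y : ℝ) / d = 2 * y / d + y / d := by ring
      rw [h3]
      linarith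
    have hT14 : (K / 2) ^ 14 ≤ T ^ 14 := pow_le_pow_left₀ (by positivity) hKT 14
    have ht2 : 1 + 2 * |t| ≤ 3 * K ^ 10 := by
      have h1 : (1 : ℝ) ≤ K ^ 10 := one_le_pow₀ (by linarith)
      linarith
    have hfrac : (((2 * y / d : ℕ) : ℝ) + 1) / T ^ 14 ≤ (3 * y / d) / (K / 2) ^ 14 :=
      div_le_div₀ (by positivity) hY1R (by positivity) hT14
    calc ‖((w d : ℝ) : ℂ)‖ * (‖h d‖ * ‖∑ m ∈ Ioc (y / d) (2 * y / d), (lam m : ℂ) * psn ψ m *
          Complex.exp (Complex.I * (t * Real.log m))‖)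
        ≤ 1 * (1 * (2 * (P.q * ((((2 * y / d : ℕ) : ℝ) + 1) / T ^ 14)) * (1 + 2 * |t|))) :=
          mul_le_mul hwn (mul_le_mul hhd hin (norm_nonneg _) zero_le_one)
            (by positivity) zero_le_one
      _ ≤ 1 * (1 * (2 * (P.q * ((3 * y / d) / (K / 2) ^ 14)) * (3 * K ^ 10))) := by
          refine mul_le_mul_of_nonneg_left (mul_le_mul_of_nonneg_left ?_ zero_le_one) zero_le_one
          refine mul_le_mul ?_ ht2 (by positivity) (by positivity)
          refine mul_le_mul_of_nonneg_left ?_ (by norm_num)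
          exact mul_le_mul_of_nonneg_left hfrac (Nat.cast_nonneg _)
      _ = 18 * P.q * 2 ^ 14 * y / K ^ 4 * (1 / (d : ℝ)) := by
          field_simp
          ring
  refine (norm_sum_le _ _).trans ((sum_le_sum hone).trans ?_)
  rw [← mul_sum]
  have hharm : ∑ d ∈ Icc 1 (2 * y), 1 / (d : ℝ) ≤ 3 * K := by
    have h1 := harmonic_le_one_add_log (2 * y)
    have h2 : ((harmonic (2 * y) : ℚ) : ℝ) = ∑ d ∈ Icc 1 (2 * y), 1 / (d : ℝ) := by
      rw [harmonic_eq_sum_Icc]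
      push_cast
      refine sum_congr rfl fun d _ => ?_
      rw [one_div]
    rw [h2] at h1
    linarith
  calc 18 * P.q * 2 ^ 14 * y / K ^ 4 * ∑ d ∈ Icc 1 (2 * y), 1 / (d : ℝ)
      ≤ 18 * P.q * 2 ^ 14 * y / K ^ 4 * (3 * K) :=
        mul_le_mul_of_nonneg_left hharm (by positivity)
    _ = (54 * P.q * 2 ^ 14) * (y / K ^ 3) := by
        field_simp
        ring
    _ ≤ K * (y / K ^ 3) := mul_le_mul_of_nonneg_right hKq (by positivity)
    _ = y / K ^ 2 := by field_simp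

end Pool.Agent.Lib.TT
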