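import Pool.Agent.Lib.MP_092512_nt.TT.Cl

/-!
# TT / Ce (75 minutes): (4.1): every cell has the right mass

Text (4.1). Lower sieve weights `TCF.CA0` (`η = 1/4`) for the primes `≤ y0` not dividing `q`; the number of the `m` of an interval and a class with `d mrk f ∣ m` by `Cv1.cnt_one`. (helper20)
-/

set_option autoImplicit false

open Finset

namespace Pool.Agent.Lib.TT

open Pool.Agent.Lib.TCF (pht TUP rho tp mrk sum_mrk lower_weights_eta)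
open Pool.Agent.Lib.RG (Rough PN)
open Pool.Agent.Lib.MP_45349e_nt.LS (lam)

open Classical in
/-- the weight of an interval and a class -/
theorem ce_low : ∃ K0 : ℕ, ∀ (q y0 r : ℕ) (B : Fin r → Finset ℕ), 1 ≤ q → 2 ≤ y0 → q ≤ y0 → FB y0 B →
    ∀ (X : ℝ), 0 ≤ X → (∀ m ∈ TUP B, (m : ℝ) ≤ X) → ∀ (A A' a : ℕ), A ≤ A' → a.Coprime q →
    ((A' : ℝ) - A) / q * (3 / 4 * ((∏ p ∈ PN q y0, (1 - 1 / (p : ℝ))) * rho B)) - (y0 : ℝ) ^ K0 * X ≤
      ∑ m ∈ (Ioc A A').filter (fun m => m ≡ a [MOD q]), ph y0 B m := by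
  obtain ⟨K0, _, hw⟩ := lower_weights_eta (1 / 4) (by norm_num)
  refine ⟨K0, ?_⟩
  intro q y0 r B hq hy0 hqy hF X hX0 hX A A' a hAA ha
  have hP : ∀ p ∈ PN q y0, p.Prime ∧ p ≤ y0 := fun p hp => ⟨(mem_PN.mp hp).1, (mem_PN.mp hp).2.1⟩
  obtain ⟨D, w, h1, h2, h3, h4, h5⟩ := hw y0 hy0 (PN q y0) hP
  have hD : ∀ d ∈ D, 1 ≤ d ∧ Squarefree d ∧ ∀ p : ℕ, p.Prime → p ∣ d → p ∈ PN q y0 :=
    fun d hd => ⟨(h1 d hd).1, (h1 d hd).2.2.1, (h1 d hd).2.2.2⟩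
  have hcop : ∀ i ∈ D ×ˢ tp B, 0 < i.1 * mrk i.2 ∧ (i.1 * mrk i.2).Coprime q := by
    rintro ⟨d, f⟩ hi
    rw [mem_product] at hi
    refine ⟨Nat.mul_pos (hD d hi.1).1 (fb_sq hF hi.2).1, ?_⟩
    refine Nat.Coprime.mul_left ?_ ?_
    · by_contra hc
      obtain ⟨p, hp, h1, h2⟩ := Nat.Prime.not_coprime_iff_dvd.mp hc
      exact (mem_PN.mp ((hD d hi.1).2.2 p hp h1)).2.2 h2
    · refine Nat.Coprime.symm (fb_cop hF hi.2 fun p hp hpd => ?_)
      exact (Nat.le_of_dvd (by omega) hpd).trans hqy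
  have hAr : (0 : ℝ) ≤ ((A' : ℝ) - A) / q := by
    have : (A : ℝ) ≤ A' := by exact_mod_cast hAA
    apply div_nonneg (by linarith)
    positivity
  have g1 : ∑ m ∈ (Ioc A A').filter (fun m => m ≡ a [MOD q]), (∑ d ∈ D with d ∣ m, w d) * pht B m ≤
      ∑ m ∈ (Ioc A A').filter (fun m => m ≡ a [MOD q]), ph y0 B m := by
    refine sum_le_sum fun m hm => ?_
    refine (mul_le_mul_of_nonneg_right (h4 _) (pht_nonneg B _)).trans ?_
    unfold ph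
    have hmc : m.Coprime q := by
      have := cv_cop (k := 0) (mem_filter.mp hm).2 ha
      simpa using this
    have := cv_rough (y0 := y0) hmc
    by_cases hr : Rough y0 m
    · rw [if_pos (this.mpr hr), if_pos hr, one_mul]
    · rw [if_neg fun h => hr (this.mp h), if_neg hr, zero_mul]
  refine le_trans ?_ g1
  have e1 : ∑ m ∈ (Ioc A A').filter (fun m => m ≡ a [MOD q]), (∑ d ∈ D with d ∣ m, w d) * pht B m =
      ∑ i ∈ D ×ˢ tp B, w i.1 * (((Ioc A A').filter fun n => n ≡ a [MOD q] ∧ i.1 * mrk i.2 ∣ n + q * 0).card : ℝ) := by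
    rw [sum_congr rfl fun m _ => (cv_split hF (PN q y0) D hP hD w m).symm, sum_comm]
    refine sum_congr rfl fun i _ => ?_
    rw [← filter_filter, card_filter]
    push_cast
    rw [mul_sum]
    refine sum_congr rfl fun m _ => ?_
    rw [mul_zero, add_zero]
    split_ifs <;> simp
  rw [e1]
  have g2 : ∀ i ∈ D ×ˢ tp B, w i.1 * (((A' : ℝ) - A) / q * (1 / ((i.1 * mrk i.2 : ℕ) : ℝ))) - |w i.1| ≤
      w i.1 * (((Ioc A A').filter fun n => n ≡ a [MOD q] ∧ i.1 * mrk i.2 ∣ n + q * 0).card : ℝ) := by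
    intro i hi
    have h6 := cnt_one (k := 0) (a := a) hq (hcop i hi).1 (hcop i hi).2 hAA
    have h7 : |w i.1 * ((((Ioc A A').filter fun n => n ≡ a [MOD q] ∧ i.1 * mrk i.2 ∣ n + q * 0).card : ℝ) -
        ((A' : ℝ) - A) / q * (1 / ((i.1 * mrk i.2 : ℕ) : ℝ)))| ≤ |w i.1| := by
      rw [abs_mul]
      exact mul_le_of_le_one_right (abs_nonneg _) h6
    have h8 := (abs_le.mp h7).1
    linarith
  refine le_trans ?_ (sum_le_sum g2)
  rw [sum_sub_distrib]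
  have e2 : ∑ i ∈ D ×ˢ tp B, w i.1 * (((A' : ℝ) - A) / q * (1 / ((i.1 * mrk i.2 : ℕ) : ℝ))) =
      ((A' : ℝ) - A) / q * ((∑ d ∈ D, w d / d) * rho B) := by
    rw [← sum_mrk, sum_mul_sum, sum_product, mul_sum]
    refine sum_congr rfl fun d _ => ?_
    rw [mul_sum]
    refine sum_congr rfl fun f _ => ?_
    push_cast
    ring
  have e3 : ∑ i ∈ D ×ˢ tp B, |w i.1| = (∑ d ∈ D, |w d|) * (tp B).card := by
    rw [sum_product, sum_mul]
    refine sum_congr rfl fun d _ => ?_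
    show ∑ _f ∈ tp B, |w d| = |w d| * ((tp B).card : ℝ)
    rw [sum_const, nsmul_eq_mul, mul_comm]
  rw [e2, e3]
  have g3 : (∑ d ∈ D, |w d|) * ((tp B).card : ℝ) ≤ (y0 : ℝ) ^ K0 * X :=
    mul_le_mul h3 (fb_card hF hX0 hX) (Nat.cast_nonneg _) (by positivity)
  have g4 : ((A' : ℝ) - A) / q * (3 / 4 * ((∏ p ∈ PN q y0, (1 - 1 / (p : ℝ))) * rho B)) ≤
      ((A' : ℝ) - A) / q * ((∑ d ∈ D, w d / d) * rho B) := by
    refine mul_le_mul_of_nonneg_left ?_ hAr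
    have := mul_le_mul_of_nonneg_right h5 (rho_nonneg B)
    linarith
  linarith

open Classical in
theorem cmass (P : Par) (hP : P.Ok) : ∃ x0 : ℕ, ∀ D : Dat, x0 ≤ D.x → Ctx P D → ∀ (j : ℕ) (a : (ZMod P.q)ˣ), j < JJ P D.x →
    rho D.BX * ee P D.x j / (QQ P D.x * (Real.log D.x) ^ 2) ≤
      ∑ m ∈ (cell P D.x j).filter (fun m : ℕ => (m : ZMod P.q) = a), ph D.y0 D.BX m := by
  haveI : NeZero P.q := ⟨by
    have := hP.q2
    omega⟩
  have hd0 := hP.d0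
  have hd1 := hP.d1
  obtain ⟨K0, hce⟩ := ce_low
  obtain ⟨x1, hx1⟩ := grow P hP (max (16 * P.q) 2)
  obtain ⟨x2, hx2⟩ := ev_pow (P.Cf + P.Cp * K0 + 2) (P.d0 * (11 / 100)) (by positivity)
  refine ⟨max x1 x2, ?_⟩
  intro D hx hD j a hj
  obtain ⟨g1, g2, gqK, gq, gy, gy1, -, gH, -, -, -, -, -, gth, -⟩ := hx1 D ((le_max_left _ _).trans hx) hD
  have h2 := hx2 D.x ((le_max_right _ _).trans hx)
  have hB := hD.fx
  have hrh := hB.rh
  have gq16 : 16 * (P.q : ℝ) ≤ Real.log D.x := (le_max_left _ _).trans g2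
  have gK2 : (2 : ℝ) ≤ Real.log D.x := (le_max_right _ _).trans g2
  set K := Real.log D.x with hK
  have hK1 : 1 ≤ K := by linarith
  have hq1 : (2 : ℝ) ≤ P.q := by exact_mod_cast hP.q2
  have hx1r : (1 : ℝ) ≤ D.x := by exact_mod_cast (by omega : 1 ≤ D.x)
  have hx0 : (0 : ℝ) < D.x := by linarith
  have hQ0 : 0 < QQ P D.x := Real.rpow_pos_of_pos hx0 _
  have hU0 : 0 < U0 P D.x := by
    unfold U0
    positivity
  have hdl : dl P = P.d0 / 8 := rfl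
  have hej : ∀ i : ℕ, 0 < ee P D.x i := fun i => mul_pos hU0 (Real.exp_pos _)
  -- length of the cell
  have hlen : ee P D.x j / QQ P D.x ≤ ee P D.x (j + 1) - ee P D.x j := by
    have e1 : ee P D.x (j + 1) = ee P D.x j * Real.exp (1 / QQ P D.x) := by
      unfold ee
      rw [mul_assoc, ← Real.exp_add]
      congr 2
      push_cast
      ring
    have h3 := Real.add_one_le_exp (1 / QQ P D.x)
    rw [e1]
    have h4 : ee P D.x j * (1 / QQ P D.x + 1) ≤ ee P D.x j * Real.exp (1 / QQ P D.x) :=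
      mul_le_mul_of_nonneg_left h3 (hej j).le
    have e2 : ee P D.x j * (1 / QQ P D.x + 1) = ee P D.x j / QQ P D.x + ee P D.x j := by ring
    linarith
  have hbig : (D.x : ℝ) ^ dl P / 4 ≤ ee P D.x j / QQ P D.x := by
    have h3 : U0 P D.x ≤ ee P D.x j := by
      unfold ee
      have : 1 ≤ Real.exp (j / QQ P D.x) := Real.one_le_exp (by positivity)
      exact le_mul_of_one_le_right hU0.le this
    have h4 : (D.x : ℝ) ^ dl P / 4 = U0 P D.x / QQ P D.x := by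
      unfold U0 QQ
      rw [div_div, mul_comm 4, ← div_div, ← Real.rpow_sub hx0]
      congr 2
      ring
    rw [h4]
    exact div_le_div_of_nonneg_right h3 hQ0.le
  have htop : ee P D.x (j + 1) ≤ D.x / 4 := by
    unfold ee
    have h3 : ((j + 1 : ℕ) : ℝ) ≤ QQ P D.x * (dl P * K) := by
      have h4 : j + 1 ≤ JJ P D.x := hj
      refine (Nat.cast_le.mpr h4).trans (Nat.floor_le ?_)
      have : 0 ≤ dl P := by
        rw [hdl]
        linarith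
      positivity
    have h5 : ((j + 1 : ℕ) : ℝ) / QQ P D.x ≤ dl P * K := by
      rw [div_le_iff₀ hQ0]
      linarith
    have h6 : Real.exp (((j + 1 : ℕ) : ℝ) / QQ P D.x) ≤ (D.x : ℝ) ^ dl P := by
      rw [Real.rpow_def_of_pos hx0]
      refine Real.exp_le_exp.mpr ?_
      rw [← hK]
      linarith
    calc U0 P D.x * Real.exp (((j + 1 : ℕ) : ℝ) / QQ P D.x) ≤ U0 P D.x * (D.x : ℝ) ^ dl P :=
          mul_le_mul_of_nonneg_left h6 hU0.le
      _ = D.x / 4 := by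
          unfold U0
          rw [div_mul_eq_mul_div, ← Real.rpow_add hx0, sub_add_cancel, Real.rpow_one]
  -- the cell as an interval
  set E := ee P D.x j with hE
  set E' := ee P D.x (j + 1) with hE'
  have hE0 : 0 < E := hej j
  have hEE : E < E' := by
    have : 0 < E / QQ P D.x := by positivity
    linarith
  have hc1 : 1 ≤ ⌈E⌉₊ := Nat.one_le_ceil_iff.mpr hE0
  have hc2 : ⌈E⌉₊ ≤ ⌈E'⌉₊ := Nat.ceil_le_ceil hEE.le
  have hcell : ∀ m : ℕ, m ∈ cell P D.x j ↔ m ∈ Ioc (⌈E⌉₊ - 1) (⌈E'⌉₊ - 1) := by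
    intro m
    unfold cell
    rw [mem_filter, mem_Icc, mem_Ioc]
    constructor
    · rintro ⟨⟨h3, h4⟩, h5, h6⟩
      have h7 : ⌈E⌉₊ ≤ m := Nat.ceil_le.mpr h5
      have h8 : m < ⌈E'⌉₊ := Nat.lt_ceil.mpr h6
      omega
    · rintro ⟨h3, h4⟩
      have h7 : ⌈E⌉₊ ≤ m := by omega
      have h8 : m < ⌈E'⌉₊ := by omega
      have h9 := Nat.ceil_le.mp h7
      have h10 := Nat.lt_ceil.mp h8
      refine ⟨⟨by omega, ?_⟩, h9, h10⟩
      have h11 : (m : ℝ) ≤ D.x := by linarith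
      exact_mod_cast h11
  have hsum : ∑ m ∈ (cell P D.x j).filter (fun m : ℕ => (m : ZMod P.q) = a), ph D.y0 D.BX m =
      ∑ m ∈ (Ioc (⌈E⌉₊ - 1) (⌈E'⌉₊ - 1)).filter (fun m => m ≡ (a : ZMod P.q).val [MOD P.q]), ph D.y0 D.BX m := by
    refine sum_congr ?_ fun _ _ => rfl
    ext m
    rw [mem_filter, mem_filter, hcell m, ← ZMod.natCast_eq_natCast_iff, ZMod.natCast_zmod_val]
  rw [hsum]
  refine le_trans ?_ (hce P.q D.y0 D.nX D.BX (by have := hP.q2; omega) gy gq.le hB.fb _ (by positivity) hB.tup (⌈E⌉₊ - 1) (⌈E'⌉₊ - 1)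
    (a : ZMod P.q).val (by omega) (ZMod.val_coe_unit_coprime a))
  -- numbers
  have hL : E / QQ P D.x - 1 ≤ ((⌈E'⌉₊ - 1 : ℕ) : ℝ) - ((⌈E⌉₊ - 1 : ℕ) : ℝ) := by
    rw [Nat.cast_sub (hc1.trans hc2), Nat.cast_sub hc1]
    have h3 := Nat.le_ceil E'
    have h4 := (Nat.ceil_lt_add_one hE0.le).le
    push_cast
    linarith
  have hρ0 := rho_nonneg D.BX
  have hy2 : (2 : ℝ) ≤ D.y0 := by exact_mod_cast gy
  set L := E / QQ P D.x with hLdef
  have hKpow : K ^ (P.Cf + P.Cp * K0 + 2) = K ^ P.Cf * K ^ (P.Cp * K0) * K ^ 2 := by ring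
  have hsplit : (D.x : ℝ) ^ dl P = (D.x : ℝ) ^ (P.d0 * (11 / 100)) * (D.x : ℝ) ^ (P.d0 / 100) * (D.x : ℝ) ^ (P.d0 * (1 / 200)) := by
    rw [← Real.rpow_add hx0, ← Real.rpow_add hx0]
    congr 1
    rw [hdl]
    ring
  have hone : (1 : ℝ) ≤ (D.x : ℝ) ^ (P.d0 * (1 / 200)) := Real.one_le_rpow hx1r (by positivity)
  have hone' : (1 : ℝ) ≤ (D.x : ℝ) ^ (P.d0 / 100) := Real.one_le_rpow hx1r (by positivity)
  have hY : (D.y0 : ℝ) ^ K0 ≤ K ^ (P.Cp * K0) := by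
    rw [pow_mul]
    exact pow_le_pow_left₀ (by linarith) gy1 K0
  have hKp : (1 : ℝ) ≤ K ^ (P.Cp * K0) := one_le_pow₀ hK1
  have hXL : K ^ P.Cf * K ^ (P.Cp * K0) * K ^ 2 * (D.x : ℝ) ^ (P.d0 / 100) ≤ 4 * L := by
    have h3 : K ^ P.Cf * K ^ (P.Cp * K0) * K ^ 2 * (D.x : ℝ) ^ (P.d0 / 100) ≤ (D.x : ℝ) ^ dl P := by
      rw [hsplit, ← hKpow]
      calc K ^ (P.Cf + P.Cp * K0 + 2) * (D.x : ℝ) ^ (P.d0 / 100) ≤
          (D.x : ℝ) ^ (P.d0 * (11 / 100)) * (D.x : ℝ) ^ (P.d0 / 100) := by gcongr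
        _ ≤ (D.x : ℝ) ^ (P.d0 * (11 / 100)) * (D.x : ℝ) ^ (P.d0 / 100) * (D.x : ℝ) ^ (P.d0 * (1 / 200)) :=
          le_mul_of_one_le_right (by positivity) hone
    linarith
  have hL0 : 0 < L := by positivity
  have herr : (D.y0 : ℝ) ^ K0 * (D.x : ℝ) ^ (P.d0 / 100) ≤ rho D.BX * L * 4 / K ^ 2 := by
    rw [le_div_iff₀ (by positivity)]
    calc (D.y0 : ℝ) ^ K0 * (D.x : ℝ) ^ (P.d0 / 100) * K ^ 2 ≤
          (D.y0 : ℝ) ^ K0 * (D.x : ℝ) ^ (P.d0 / 100) * K ^ 2 * (K ^ P.Cf * rho D.BX) :=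
            le_mul_of_one_le_right (by positivity) hrh
      _ ≤ K ^ (P.Cp * K0) * (D.x : ℝ) ^ (P.d0 / 100) * K ^ 2 * (K ^ P.Cf * rho D.BX) := by gcongr
      _ = rho D.BX * (K ^ P.Cf * K ^ (P.Cp * K0) * K ^ 2 * (D.x : ℝ) ^ (P.d0 / 100)) := by ring
      _ ≤ rho D.BX * (4 * L) := mul_le_mul_of_nonneg_left hXL hρ0
      _ = rho D.BX * L * 4 := by ring
  have hLbig : 1 ≤ L / 2 := by
    have h3 : (1 : ℝ) ≤ K ^ P.Cf := one_le_pow₀ hK1
    have h5 : (256 : ℝ) * 4 ≤ K ^ 2 := by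
      have : (32 : ℝ) ≤ K := by linarith
      nlinarith
    have h4 : K ^ 2 ≤ K ^ P.Cf * K ^ (P.Cp * K0) * K ^ 2 * (D.x : ℝ) ^ (P.d0 / 100) := by
      calc K ^ 2 = 1 * 1 * K ^ 2 * 1 := by ring
        _ ≤ K ^ P.Cf * K ^ (P.Cp * K0) * K ^ 2 * (D.x : ℝ) ^ (P.d0 / 100) := by gcongr
    linarith
  have hqr : (0 : ℝ) < P.q := by linarith
  have hth : (∏ p ∈ PN P.q D.y0, (1 - 1 / (p : ℝ))) = th P D.y0 := rfl
  rw [hth]
  have hmain : L / 2 / P.q * (3 / 4 * (1 / K * rho D.BX)) ≤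
      (((⌈E'⌉₊ - 1 : ℕ) : ℝ) - ((⌈E⌉₊ - 1 : ℕ) : ℝ)) / P.q * (3 / 4 * (th P D.y0 * rho D.BX)) := by
    have h3 : L / 2 ≤ ((⌈E'⌉₊ - 1 : ℕ) : ℝ) - ((⌈E⌉₊ - 1 : ℕ) : ℝ) := by linarith
    gcongr
    · exact div_nonneg (by linarith) hqr.le
  have hfin : rho D.BX * E / (QQ P D.x * K ^ 2) ≤
      L / 2 / P.q * (3 / 4 * (1 / K * rho D.BX)) - rho D.BX * L * 4 / K ^ 2 := by
    have e1 : rho D.BX * E / (QQ P D.x * K ^ 2) = rho D.BX * L / K ^ 2 := by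
      rw [hLdef]
      field_simp
    rw [e1]
    have h3 : 5 * (rho D.BX * L / K ^ 2) ≤ L / 2 / P.q * (3 / 4 * (1 / K * rho D.BX)) := by
      have e2 : L / 2 / P.q * (3 / 4 * (1 / K * rho D.BX)) = rho D.BX * L / K ^ 2 * (3 / 8 * (K / P.q)) := by
        field_simp
        ring
      rw [e2, mul_comm (5 : ℝ)]
      refine mul_le_mul_of_nonneg_left ?_ (by positivity)
      have h4 : 16 ≤ K / P.q := by
        rw [le_div_iff₀ hqr]
        exact gq16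
      linarith
    have e3 : rho D.BX * L * 4 / K ^ 2 = 4 * (rho D.BX * L / K ^ 2) := by ring
    rw [e3]
    linarith
  linarith

end Pool.Agent.Lib.TT
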