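import Pool.Agent.Lib.MP_092512_nt.TT.Mj

/-!
# TT / Ch (60 minutes): (3.1), (3.2): the chain

Text (3.1), (3.2). Induction on `r` (hypothesis for the induction: `8 l x^(1-d0) ≤ (u / l ^ r : ℕ)`, bound `2 r u / K ^ 100`; `r ≤ K` as `l ^ r ≤ x`): `w / l ^ (r+1) = w / l / l ^ r`; a value `w / l` has at most `l` preimages; the two boundary values `u / l`, `2 u / l` cost `2 l`.
-/

set_option autoImplicit false

open Finset

namespace Pool.Agent.Lib.TT

open Pool.Agent.Lib.TCF (pht TUP rho)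
open Pool.Agent.Lib.RG (Rough PN)
open Pool.Agent.Lib.MP_45349e_nt.LS (lam)


private theorem Ch_fib (l v : ℕ) (hl : 0 < l) (s : Finset ℕ) :
    (s.filter fun w => w / l = v).card ≤ l := by
  have h1 : (s.filter fun w => w / l = v) ⊆ Finset.Ico (v * l) (v * l + l) := by
    intro w hw
    rw [Finset.mem_filter] at hw
    rw [Finset.mem_Ico]
    have h2 := Nat.div_add_mod w l
    have h3 := Nat.mod_lt w hl
    rw [hw.2, mul_comm] at h2
    omega
  refine (Finset.card_le_card h1).trans ?_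
  rw [Nat.card_Ico]
  omega

open Classical in
private theorem Ch_aux (P : Par) (D : Dat) (l : ℕ) (hl : 0 < l) (hcop : Nat.Coprime l P.q)
    (E T : ℝ) (hE : 0 ≤ E)
    (hstep : ∀ (u : ℕ) (b b' : (ZMod P.q)ˣ), (b : ZMod P.q) = l * b' → T ≤ u → 2 * u ≤ D.x →
      (((Ioc u (2 * u)).filter fun w => FF P D w b ≠ - FF P D (w / l) b').card : ℝ) ≤ u * E)
    (hT : 2 * (l : ℝ) ≤ T * E) :
    ∀ (r u : ℕ) (b b' : (ZMod P.q)ˣ), (b : ZMod P.q) = (l : ZMod P.q) ^ r * b' →
      T ≤ ((u / l ^ r : ℕ) : ℝ) → 2 * u ≤ D.x →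
      (((Ioc u (2 * u)).filter fun w => FF P D w b ≠ (-1) ^ r * FF P D (w / l ^ r) b').card : ℝ) ≤
        2 * r * u * E := by
  intro r
  induction r with
  | zero =>
    intro u b b' hb _ _
    have hbb : b = b' := by
      apply Units.ext
      rw [hb, pow_zero, one_mul]
    have h0 : ((Ioc u (2 * u)).filter fun w => FF P D w b ≠ (-1) ^ 0 * FF P D (w / l ^ 0) b') = ∅ := by
      rw [Finset.filter_eq_empty_iff]
      intro w _
      rw [hbb, pow_zero, pow_zero, Nat.div_one, one_mul]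
      exact fun h => h rfl
    rw [h0]
    simp
  | succ r ih =>
    intro u b b' hb hu hx
    set lu : (ZMod P.q)ˣ := ZMod.unitOfCoprime l hcop with hlu
    have hluc : (lu : ZMod P.q) = (l : ZMod P.q) := ZMod.coe_unitOfCoprime l hcop
    set b'' : (ZMod P.q)ˣ := lu ^ r * b' with hb''
    have h2 : (b'' : ZMod P.q) = (l : ZMod P.q) ^ r * b' := by
      rw [hb'', Units.val_mul, Units.val_pow_eq_pow_val, hluc]
    have h1 : (b : ZMod P.q) = l * b'' := by
      rw [h2, hb, pow_succ]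
      ring
    have hTu : T ≤ (u : ℝ) := by
      refine hu.trans ?_
      exact_mod_cast Nat.div_le_self u (l ^ (r + 1))
    have hA := hstep u b b'' h1 hTu hx
    have hle : u / l ≤ u := Nat.div_le_self u l
    have hB := ih (u / l) b'' b' h2 (by
      rw [Nat.div_div_eq_div_mul, ← pow_succ']
      exact hu) (by omega)
    set A := (Ioc u (2 * u)).filter fun w => FF P D w b ≠ - FF P D (w / l) b'' with hAdef
    set B := (Ioc (u / l) (2 * (u / l))).filter
      fun v => FF P D v b'' ≠ (-1) ^ r * FF P D (v / l ^ r) b' with hBdef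
    set C := insert (u / l) (insert (2 * (u / l) + 1) B) with hC
    have hCc : C.card ≤ B.card + 2 := by
      refine (Finset.card_insert_le _ _).trans ?_
      have := Finset.card_insert_le (2 * (u / l) + 1) B
      omega
    have hsub : ((Ioc u (2 * u)).filter
        fun w => FF P D w b ≠ (-1) ^ (r + 1) * FF P D (w / l ^ (r + 1)) b') ⊆
        A ∪ (Ioc u (2 * u)).filter fun w => w / l ∈ C := by
      intro w hw
      rw [Finset.mem_filter, Finset.mem_Ioc] at hw
      obtain ⟨⟨hw1, hw2⟩, hw3⟩ := hw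
      rw [Finset.mem_union]
      by_cases hA' : FF P D w b = - FF P D (w / l) b''
      · right
        rw [Finset.mem_filter, Finset.mem_Ioc]
        refine ⟨⟨hw1, hw2⟩, ?_⟩
        have h3 : u / l ≤ w / l := Nat.div_le_div_right (by omega)
        have h4 : w / l < 2 * (u / l) + 2 := by
          rw [Nat.div_lt_iff_lt_mul hl]
          have h5 := Nat.div_add_mod u l
          have h6 := Nat.mod_lt u hl
          have h7 : (2 * (u / l) + 2) * l = 2 * (l * (u / l)) + 2 * l := by ring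
          rw [h7]
          omega
        rw [hC, Finset.mem_insert, Finset.mem_insert]
        by_cases h8 : w / l = u / l
        · exact Or.inl h8
        by_cases h9 : w / l = 2 * (u / l) + 1
        · exact Or.inr (Or.inl h9)
        refine Or.inr (Or.inr ?_)
        rw [hBdef, Finset.mem_filter, Finset.mem_Ioc]
        refine ⟨⟨by omega, by omega⟩, fun h10 => hw3 ?_⟩
        rw [hA', h10, Nat.div_div_eq_div_mul, ← pow_succ', pow_succ (-1 : ℝ)]
        ring
      · left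
        rw [hAdef, Finset.mem_filter, Finset.mem_Ioc]
        exact ⟨⟨hw1, hw2⟩, hA'⟩
    have hcard1 := (Finset.card_le_card hsub).trans (Finset.card_union_le _ _)
    have hcard2 : ((Ioc u (2 * u)).filter fun w => w / l ∈ C).card ≤ l * C.card := by
      refine Finset.card_le_mul_card_image_of_maps_to (f := fun w => w / l) ?_ l ?_
      · intro w hw
        exact (Finset.mem_filter.1 hw).2
      · intro v _
        exact Ch_fib l v hl _
    have hcard3 : (((Ioc u (2 * u)).filter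
        fun w => FF P D w b ≠ (-1) ^ (r + 1) * FF P D (w / l ^ (r + 1)) b').card : ℝ) ≤
        A.card + l * (B.card + 2) := by
      have h3 : ((Ioc u (2 * u)).filter
          fun w => FF P D w b ≠ (-1) ^ (r + 1) * FF P D (w / l ^ (r + 1)) b').card ≤
          A.card + l * (B.card + 2) :=
        hcard1.trans (Nat.add_le_add_left (hcard2.trans (Nat.mul_le_mul_left l hCc)) _)
      exact_mod_cast h3
    have hlu' : (l : ℝ) * ((u / l : ℕ) : ℝ) ≤ u := by
      exact_mod_cast Nat.mul_div_le u l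
    have hl0 : (0 : ℝ) ≤ l := Nat.cast_nonneg l
    have hr0 : (0 : ℝ) ≤ r := Nat.cast_nonneg r
    have h5 : (l : ℝ) * (2 * r * ((u / l : ℕ) : ℝ) * E) ≤ 2 * r * u * E := by
      have h6 : (2 * r * E) * ((l : ℝ) * ((u / l : ℕ) : ℝ)) ≤ (2 * r * E) * u :=
        mul_le_mul_of_nonneg_left hlu' (by positivity)
      linarith
    have h6 : (l : ℝ) * B.card ≤ l * (2 * r * ((u / l : ℕ) : ℝ) * E) :=
      mul_le_mul_of_nonneg_left hB hl0
    have h7 : T * E ≤ u * E := mul_le_mul_of_nonneg_right hTu hE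
    push_cast
    linarith

private theorem Ch_grow : ∃ x0 : ℕ, ∀ x : ℕ, x0 ≤ x → 3 ≤ x ∧ 2 ≤ Real.log x ∧
    (Real.log x) ^ 100 ≤ (x : ℝ) ^ (1 / 2 : ℝ) := by
  have h1 := (isLittleO_log_rpow_rpow_atTop (100 : ℝ) (show (0 : ℝ) < 1 / 2 by norm_num)).bound
    one_pos
  have h2 := Real.tendsto_log_atTop.eventually_ge_atTop 2
  have h3 := (h1.and h2).and (Filter.eventually_ge_atTop (3 : ℝ))
  obtain ⟨a, ha⟩ := Filter.eventually_atTop.1 h3
  refine ⟨⌈a⌉₊, fun x hx => ?_⟩
  have hax : a ≤ (x : ℝ) := (Nat.le_ceil a).trans (by exact_mod_cast hx)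
  obtain ⟨⟨g1, g2⟩, g3⟩ := ha x hax
  refine ⟨by exact_mod_cast g3, g2, ?_⟩
  rw [one_mul, Real.norm_of_nonneg (by positivity), Real.norm_of_nonneg (by positivity)] at g1
  have g4 : (Real.log x) ^ (100 : ℝ) = (Real.log x) ^ 100 := by
    exact_mod_cast Real.rpow_natCast (Real.log x) 100
  rw [← g4]
  exact g1

open Classical in
theorem chain (P : Par) (hP : P.Ok) : ∃ x0 : ℕ, ∀ D : Dat, x0 ≤ D.x → Ctx P D → ∀ (Bd : ℕ → ℕ → ℕ → Prop) (l : ℕ), Mul P D.x l → l ≠ 1 →
    Inp P D Bd 1 → Inp P D Bd l → ∀ (r u : ℕ) (b b' : (ZMod P.q)ˣ), (b : ZMod P.q) = (l : ZMod P.q) ^ r * b' →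
    9 * (l : ℝ) ^ (r + 1) * (D.x : ℝ) ^ (1 - P.d0) ≤ u → 2 * u ≤ D.x →
    (((Ioc u (2 * u)).filter fun w => FF P D w b ≠ (-1) ^ r * FF P D (w / l ^ r) b').card : ℝ) ≤ u / (Real.log D.x) ^ 90 := by
  obtain ⟨x1, hx1⟩ := good P hP
  obtain ⟨x2, hx2⟩ := mj P hP
  obtain ⟨x3, hx3⟩ := Ch_grow
  refine ⟨max x1 (max x2 x3), fun D hD hC Bd l hl hl1 hI1 hIl r u b b' hb hu hux => ?_⟩
  obtain ⟨g0, g1, g2⟩ := hx3 D.x ((le_max_right _ _).trans ((le_max_right _ _).trans hD))
  set K := Real.log D.x with hK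
  have hlp : l.Prime ∧ ¬ l ∣ P.q := by
    rcases hl with h | h
    · exact absurd h hl1
    · exact ⟨h.1, h.2.2.2⟩
  have hcop : Nat.Coprime l P.q := (Nat.Prime.coprime_iff_not_dvd hlp.1).2 hlp.2
  have hl2 : 2 ≤ l := hlp.1.two_le
  have hl0 : 0 < l := hlp.1.pos
  have hK0 : 0 < K := by linarith
  have hx1' : (1 : ℝ) ≤ D.x := by exact_mod_cast (show 1 ≤ D.x by omega)
  have hX : (D.x : ℝ) ^ (1 / 2 : ℝ) ≤ (D.x : ℝ) ^ (1 - P.d0) :=
    Real.rpow_le_rpow_of_exponent_le hx1' (by have := hP.d1; linarith)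
  have hX1 : K ^ 100 ≤ (D.x : ℝ) ^ (1 - P.d0) := g2.trans hX
  have hX0 : (1 : ℝ) ≤ (D.x : ℝ) ^ (1 - P.d0) := by
    refine le_trans ?_ hX1
    exact one_le_pow₀ (by linarith)
  set Y := (D.x : ℝ) ^ (1 - P.d0) with hY
  have hlR : (2 : ℝ) ≤ l := by exact_mod_cast hl2
  have hstep : ∀ (u : ℕ) (b b' : (ZMod P.q)ˣ), (b : ZMod P.q) = l * b' → 8 * l * Y ≤ u →
      2 * u ≤ D.x →
      (((Ioc u (2 * u)).filter fun w => FF P D w b ≠ - FF P D (w / l) b').card : ℝ) ≤
        u * (1 / K ^ 100) := by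
    intro u b b' hb hu hux
    have h1 := hx1 D ((le_max_left _ _).trans hD) hC Bd l hl hl1 hI1 hIl u b b' hb hu hux
    have h2 : ((Ioc u (2 * u)).filter fun w => FF P D w b ≠ - FF P D (w / l) b').card ≤
        ((Ioc u (2 * u)).filter fun w => ¬ GOOD P D Bd l w b b').card := by
      refine Finset.card_le_card fun w hw => ?_
      rw [Finset.mem_filter] at hw ⊢
      refine ⟨hw.1, fun hg => hw.2 ?_⟩
      exact (hx2 D ((le_max_left _ _).trans ((le_max_right _ _).trans hD)) hC Bd l hl hl1 w b b'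
        hb hg).1
    have h3 : (((Ioc u (2 * u)).filter fun w => FF P D w b ≠ - FF P D (w / l) b').card : ℝ) ≤
        ((Ioc u (2 * u)).filter fun w => ¬ GOOD P D Bd l w b b').card := by
      exact_mod_cast h2
    refine h3.trans (h1.trans (le_of_eq ?_))
    rw [mul_one_div]
  have hT : 2 * (l : ℝ) ≤ 8 * l * Y * (1 / K ^ 100) := by
    rw [mul_one_div, le_div_iff₀ (by positivity)]
    nlinarith
  have hlr : (0 : ℝ) < (l : ℝ) ^ r := by positivity
  have hTu : 8 * (l : ℝ) * Y ≤ ((u / l ^ r : ℕ) : ℝ) := by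
    have h1 : (u : ℝ) < (((u / l ^ r : ℕ) : ℝ) + 1) * (l : ℝ) ^ r := by
      have h2 : u < (u / l ^ r + 1) * l ^ r := by
        have h3 := Nat.div_add_mod u (l ^ r)
        have h4 := Nat.mod_lt u (pow_pos hl0 r)
        have h5 : (u / l ^ r + 1) * l ^ r = l ^ r * (u / l ^ r) + l ^ r := by ring
        rw [h5]
        omega
      exact_mod_cast h2
    have h2 : 9 * (l : ℝ) * Y * (l : ℝ) ^ r < (((u / l ^ r : ℕ) : ℝ) + 1) * (l : ℝ) ^ r := by
      refine lt_of_le_of_lt ?_ h1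
      refine le_trans (le_of_eq ?_) hu
      rw [pow_succ]
      ring
    have h3 := lt_of_mul_lt_mul_right h2 hlr.le
    have h4 : 1 ≤ (l : ℝ) * Y := by nlinarith
    linarith
  have hmain := Ch_aux P D l hl0 hcop (1 / K ^ 100) (8 * l * Y) (by positivity) hstep hT r u b b'
    hb hTu hux
  refine hmain.trans ?_
  -- `r ≤ 2 K`
  have hr : (r : ℝ) ≤ 2 * K := by
    have h1 : (2 : ℝ) ^ r ≤ D.x := by
      have h2 : (2 : ℝ) ^ r ≤ (l : ℝ) ^ r := pow_le_pow_left₀ (by norm_num) hlR r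
      have h3 : (l : ℝ) ^ r ≤ 9 * (l : ℝ) ^ (r + 1) * Y := by
        rw [pow_succ]
        have h4 : 1 ≤ (l : ℝ) * Y := by nlinarith
        nlinarith
      have h5 : (u : ℝ) ≤ D.x := by exact_mod_cast (show u ≤ D.x by omega)
      linarith
    have h2 := Real.log_le_log (by positivity) h1
    rw [Real.log_pow] at h2
    have h3 := Real.log_two_gt_d9
    have h4 : (0 : ℝ) ≤ r := Nat.cast_nonneg r
    nlinarith
  have hu0 : (0 : ℝ) ≤ u := Nat.cast_nonneg u
  rw [mul_one_div, div_le_div_iff₀ (by positivity) (by positivity)]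
  have h1 : 4 * K ≤ K ^ 10 := by
    have h2 : (2 : ℝ) ^ 9 ≤ K ^ 9 := pow_le_pow_left₀ (by norm_num) g1 9
    have h3 : K ^ 10 = K ^ 9 * K := by ring
    rw [h3]
    nlinarith
  have h2 : 2 * (r : ℝ) ≤ K ^ 10 := by linarith
  have h3 : K ^ 100 = K ^ 10 * K ^ 90 := by ring
  rw [h3]
  have h4 : 2 * (r : ℝ) * (u * K ^ 90) ≤ K ^ 10 * (u * K ^ 90) :=
    mul_le_mul_of_nonneg_right h2 (by positivity)
  linarith

end Pool.Agent.Lib.TT
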