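import Pool.Agent.Lib.MP_092512_nt.TT.Cv5

/-!
# TT / Cv6: the counting theorem in both directions

`cl_gen`: for every family of disjoint sets of primes `> y0` with `∏ (1 + V_c) ≤ K^2`, every length `q H` of the windows and every class: the number of the `n ∈ (u, 2u]` whose window has a weight `< mb / 2`
or `> (3/2) mb` is at most `K^6 u / (H ρ)`. No lower bound for the single `V_c` is used.
-/

set_option autoImplicit false

open Finset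

namespace Pool.Agent.Lib.TT

open Pool.Agent.Lib.TCF (pht TUP rho tp mrk)
open Pool.Agent.Lib.RG (Rough PN prod_lower)

/-- the numerical part -/
theorem cl_num (q Cp K0 : ℕ) (C : ℝ) (hC : 1 ≤ C) (hq : 1 ≤ q) : ∃ x0 : ℕ, ∀ x y0 : ℕ, x0 ≤ x → 2 ≤ y0 →
    (y0 : ℝ) ≤ (Real.log x) ^ Cp → ∀ (ρ Pd N : ℝ) (H u : ℕ), 0 ≤ N → 0 ≤ Pd → Pd ≤ (Real.log x) ^ 2 →
    (x : ℝ) ^ (-(1 / 100) : ℝ) ≤ ρ → 1 ≤ H → (H : ℝ) ≤ (x : ℝ) ^ (1 / 100 : ℝ) → (x : ℝ) ^ (1 / 2 : ℝ) / 2 ≤ u →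
    N * (H * ((∏ p ∈ PN q y0, (1 - 1 / (p : ℝ))) * ρ) / 4) ^ 2 ≤
      (((2 * u + q : ℕ) : ℝ) - u) / q * (H * (C * (1 + Real.log y0) ^ 5 * (ρ * Pd))) +
      4 * (H * ((y0 : ℝ) ^ K0 * (x : ℝ) ^ (1 / 200 : ℝ))) ^ 2 →
    q * N * (H * ρ) ≤ (Real.log x) ^ 6 * u := by
  obtain ⟨c, hc, hlow⟩ := prod_lower
  obtain ⟨K1, hK1, hL1⟩ := ev_log (1 / c) Cp 1 (Nat.cast_nonneg _)
  obtain ⟨K2, hK2, hL2⟩ := ev_log (64 * C) Cp 5 (Nat.cast_nonneg _)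
  obtain ⟨x1, hx1⟩ := ev_nat (max (max K1 K2) (256 * q))
  obtain ⟨x2, hx2⟩ := ev_pow (Cp * K0) (1 / 100) (by norm_num)
  obtain ⟨x3, hx3⟩ := ev_pow 1 (1 / 4) (by norm_num)
  refine ⟨max (max x1 x2) (max x3 2), ?_⟩
  intro x y0 hx hy0 hy ρ Pd N H u hN hPi0 hPi hρ hH hHx hu hmain
  have hxx1 : x1 ≤ x := (le_max_left _ _).trans ((le_max_left _ _).trans hx)
  have hxx2 : x2 ≤ x := (le_max_right _ _).trans ((le_max_left _ _).trans hx)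
  have hxx3 : x3 ≤ x := (le_max_left _ _).trans ((le_max_right _ _).trans hx)
  have hx2' : 2 ≤ x := (le_max_right _ _).trans ((le_max_right _ _).trans hx)
  have hKK := hx1 x hxx1
  have hy00 := hx2 x hxx2
  have hx4 := hx3 x hxx3
  set K := Real.log x with hK
  have hKa : K1 ≤ K := (le_max_left _ _).trans ((le_max_left _ _).trans hKK)
  have hKb : K2 ≤ K := (le_max_right _ _).trans ((le_max_left _ _).trans hKK)
  have hKc : 256 * (q : ℝ) ≤ K := (le_max_right _ _).trans hKK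
  have hq1 : (1 : ℝ) ≤ q := by exact_mod_cast hq
  have hK1' : 1 ≤ K := by linarith
  have hxr : (1 : ℝ) ≤ x := by exact_mod_cast (by omega : 1 ≤ x)
  have hx0 : (0 : ℝ) < x := by linarith
  have hy2 : (2 : ℝ) ≤ y0 := by exact_mod_cast hy0
  have hly : Real.log y0 ≤ Cp * Real.log K := by
    rw [← Real.log_pow]
    exact Real.log_le_log (by linarith) hy
  have hly0 : 0 < Real.log y0 := Real.log_pos (by linarith)
  have hl1 := hL1 K hKa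
  have hl2 := hL2 K hKb
  set θ := ∏ p ∈ PN q y0, (1 - 1 / (p : ℝ)) with hθ
  have hθlow : c / Real.log y0 ≤ θ := hlow y0 hy0 (PN q y0) fun p hp => ⟨(mem_PN.mp hp).1, (mem_PN.mp hp).2.1⟩
  have hθK : 1 ≤ θ * K := by
    have h1 : 1 ≤ c / Real.log y0 * K := by
      rw [div_mul_eq_mul_div, le_div_iff₀ hly0, one_mul]
      rw [pow_one, one_div, inv_mul_le_iff₀ hc] at hl1
      linarith
    exact h1.trans (mul_le_mul_of_nonneg_right hθlow (by linarith))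
  have hθ0 : 0 < θ := by
    by_contra hcon
    push Not at hcon
    nlinarith
  have hρ0 : 0 < ρ := (Real.rpow_pos_of_pos hx0 _).trans_le hρ
  have hHr : (1 : ℝ) ≤ H := by exact_mod_cast hH
  have hCL : 64 * (C * (1 + Real.log y0) ^ 5) ≤ K := by
    refine le_trans ?_ hl2
    rw [mul_assoc]
    have : (1 + Real.log y0) ^ 5 ≤ (1 + (Cp : ℝ) * Real.log K) ^ 5 := pow_le_pow_left₀ (by linarith) (by linarith) 5
    nlinarith
  have hu4 : (q : ℝ) ≤ u := by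
    have h1 : K ≤ (x : ℝ) ^ (1 / 4 : ℝ) := by simpa using hx4
    have h2 : (x : ℝ) ^ (1 / 2 : ℝ) = (x : ℝ) ^ (1 / 4 : ℝ) * (x : ℝ) ^ (1 / 4 : ℝ) := by
      rw [← Real.rpow_add hx0]
      norm_num
    have h3 : (1 : ℝ) ≤ (x : ℝ) ^ (1 / 4 : ℝ) := Real.one_le_rpow hxr (by norm_num)
    have h4 : (x : ℝ) ^ (1 / 4 : ℝ) ≤ (x : ℝ) ^ (1 / 4 : ℝ) * (x : ℝ) ^ (1 / 4 : ℝ) :=
      le_mul_of_one_le_left (by linarith) h3
    linarith
  have hu0 : (0 : ℝ) ≤ u := Nat.cast_nonneg u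
  -- the error term
  set Y := (y0 : ℝ) ^ K0 with hY
  have hY0 : 0 ≤ Y := by positivity
  have hY1 : Y ≤ (x : ℝ) ^ (1 / 100 : ℝ) := by
    refine le_trans ?_ hy00
    rw [hY, pow_mul]
    exact pow_le_pow_left₀ (by linarith) hy K0
  have herr : H * (Y * (x : ℝ) ^ (1 / 200 : ℝ)) ^ 2 ≤ (x : ℝ) ^ (1 / 2 : ℝ) * ρ := by
    have h1 : (Y * (x : ℝ) ^ (1 / 200 : ℝ)) ^ 2 ≤ ((x : ℝ) ^ (1 / 100 : ℝ) * (x : ℝ) ^ (1 / 200 : ℝ)) ^ 2 := by
      gcongr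
    have h2 : ((x : ℝ) ^ (1 / 100 : ℝ) * (x : ℝ) ^ (1 / 200 : ℝ)) ^ 2 = (x : ℝ) ^ (3 / 100 : ℝ) := by
      rw [← Real.rpow_add hx0, ← Real.rpow_natCast, ← Real.rpow_mul hx0.le]
      norm_num
    calc H * (Y * (x : ℝ) ^ (1 / 200 : ℝ)) ^ 2 ≤ (x : ℝ) ^ (1 / 100 : ℝ) * (x : ℝ) ^ (3 / 100 : ℝ) := by
          rw [← h2]
          exact mul_le_mul hHx h1 (by positivity) (by positivity)
      _ = (x : ℝ) ^ (4 / 100 : ℝ) := by
          rw [← Real.rpow_add hx0]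
          norm_num
      _ ≤ (x : ℝ) ^ (49 / 100 : ℝ) := Real.rpow_le_rpow_of_exponent_le hxr (by norm_num)
      _ = (x : ℝ) ^ (1 / 2 : ℝ) * (x : ℝ) ^ (-(1 / 100) : ℝ) := by
          rw [← Real.rpow_add hx0]
          norm_num
      _ ≤ (x : ℝ) ^ (1 / 2 : ℝ) * ρ := by gcongr
  -- assembly
  have hpos : 0 < H * ρ * θ ^ 2 / 16 := by positivity
  refine le_of_mul_le_mul_right ?_ hpos
  have e1 : q * N * (H * ρ) * (H * ρ * θ ^ 2 / 16) = q * (N * (H * (θ * ρ) / 4) ^ 2) := by ring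
  rw [e1]
  have e2 : (((2 * u + q : ℕ) : ℝ) - u) / q = ((u : ℝ) + q) / q := by
    push_cast
    ring
  rw [e2] at hmain
  have h1 : q * (N * (H * (θ * ρ) / 4) ^ 2) ≤ (u + q) * (H * (C * (1 + Real.log y0) ^ 5 * (ρ * Pd))) +
      4 * q * (H * (Y * (x : ℝ) ^ (1 / 200 : ℝ))) ^ 2 := by
    have := mul_le_mul_of_nonneg_left hmain (by linarith : (0 : ℝ) ≤ q)
    refine this.trans (le_of_eq ?_)
    field_simp
  refine h1.trans ?_
  have hθ2 : 1 ≤ θ ^ 2 * K ^ 2 := by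
    rw [← mul_pow]
    exact one_le_pow₀ hθK
  have h2 : K ^ 4 * u * (H * ρ) / 16 ≤ K ^ 6 * u * (H * ρ * θ ^ 2 / 16) := by
    have h3 : 0 ≤ K ^ 4 * u * (H * ρ) / 16 := by positivity
    calc K ^ 4 * u * (H * ρ) / 16 ≤ K ^ 4 * u * (H * ρ) / 16 * (θ ^ 2 * K ^ 2) := le_mul_of_one_le_right h3 hθ2
      _ = K ^ 6 * u * (H * ρ * θ ^ 2 / 16) := by ring
  refine le_trans ?_ h2
  have h3 : (u + q) * (H * (C * (1 + Real.log y0) ^ 5 * (ρ * Pd))) ≤ K ^ 4 * u * (H * ρ) / 32 := by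
    have h4 : C * (1 + Real.log y0) ^ 5 ≤ K / 64 := by linarith
    calc (u + q) * (H * (C * (1 + Real.log y0) ^ 5 * (ρ * Pd))) ≤ (u + u) * (H * (K / 64 * (ρ * K ^ 2))) := by
          gcongr
      _ = K ^ 3 * u * (H * ρ) / 32 := by ring
      _ ≤ K ^ 4 * u * (H * ρ) / 32 := by
          have : K ^ 3 ≤ K ^ 4 := pow_le_pow_right₀ hK1' (by norm_num)
          gcongr
  have h5 : 4 * q * (H * (Y * (x : ℝ) ^ (1 / 200 : ℝ))) ^ 2 ≤ K ^ 4 * u * (H * ρ) / 32 := by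
    have h6 : 128 * (q : ℝ) ≤ K ^ 4 / 2 := by
      have : K ≤ K ^ 4 := by
        calc K = K ^ 1 := (pow_one K).symm
          _ ≤ K ^ 4 := pow_le_pow_right₀ hK1' (by norm_num)
      linarith
    calc 4 * q * (H * (Y * (x : ℝ) ^ (1 / 200 : ℝ))) ^ 2 =
          (128 * q) * (H * (H * (Y * (x : ℝ) ^ (1 / 200 : ℝ)) ^ 2)) / 32 := by ring
      _ ≤ (K ^ 4 / 2) * (H * ((x : ℝ) ^ (1 / 2 : ℝ) * ρ)) / 32 := by gcongr
      _ = K ^ 4 * ((x : ℝ) ^ (1 / 2 : ℝ) / 2) * (H * ρ) / 32 := by ring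
      _ ≤ K ^ 4 * u * (H * ρ) / 32 := by gcongr
  linarith

open Classical in
/-- **counting** -/
theorem cl_gen (q Cp : ℕ) [NeZero q] : ∃ x0 : ℕ, ∀ x y0 : ℕ, x0 ≤ x → 2 ≤ y0 → q ≤ y0 →
    (y0 : ℝ) ≤ (Real.log x) ^ Cp → ∀ (r : ℕ) (B : Fin r → Finset ℕ), FB y0 B →
    ∏ c, (1 + ∑ p ∈ B c, 1 / (p : ℝ)) ≤ (Real.log x) ^ 2 →
    (∀ m ∈ TUP B, (m : ℝ) ≤ (x : ℝ) ^ (1 / 200 : ℝ)) → (x : ℝ) ^ (-(1 / 100) : ℝ) ≤ rho B →
    ∀ (H u : ℕ) (a : (ZMod q)ˣ), 1 ≤ H → (H : ℝ) ≤ (x : ℝ) ^ (1 / 100 : ℝ) → (x : ℝ) ^ (1 / 2 : ℝ) / 2 ≤ u →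
    (((Ioc u (2 * u)).filter fun n => ∑ X ∈ (Ico n (n + q * H)).filter (fun X : ℕ => (X : ZMod q) = a), ph y0 B X <
      (∏ p ∈ PN q y0, (1 - 1 / (p : ℝ))) * rho B * H / 2).card : ℝ) * (H * rho B) ≤ (Real.log x) ^ 6 * u ∧
    (((Ioc u (2 * u)).filter fun n => 3 / 2 * ((∏ p ∈ PN q y0, (1 - 1 / (p : ℝ))) * rho B * H) <
      ∑ X ∈ (Ico n (n + q * H)).filter (fun X : ℕ => (X : ZMod q) = a), ph y0 B X).card : ℝ) * (H * rho B) ≤
      (Real.log x) ^ 6 * u := by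
  have hq : 1 ≤ q := Nat.pos_of_ne_zero (NeZero.ne q)
  obtain ⟨K0, C, hC, hlow⟩ := cv_low
  obtain ⟨K0', C', hC', hup⟩ := cv_up
  obtain ⟨x1, hx1⟩ := cl_num q Cp K0 C hC hq
  obtain ⟨x2, hx2⟩ := cl_num q Cp K0' C' hC' hq
  refine ⟨max x1 x2, ?_⟩
  intro x y0 hx hy0 hqy hy r B hF htot htup hrho H u a hH hHx hu
  have hX0 : (0 : ℝ) ≤ (x : ℝ) ^ (1 / 200 : ℝ) := by positivity
  have hPi0 : (0 : ℝ) ≤ ∏ c, (1 + ∑ p ∈ B c, 1 / (p : ℝ)) := prod_nonneg fun c _ => by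
    have : (0 : ℝ) ≤ ∑ p ∈ B c, 1 / (p : ℝ) := sum_nonneg fun p _ => by positivity
    linarith
  have ha : (a : ZMod q).val.Coprime q := ZMod.val_coe_unit_coprime a
  have hr0 : 0 ≤ (H : ℝ) * rho B := mul_nonneg (Nat.cast_nonneg _) (rho_nonneg B)
  constructor
  · have h1 := hlow q y0 r B hq hy0 hqy hF _ hX0 htup u (2 * u + q) (a : ZMod q).val H (by omega) ha
    have h2 := hx1 x y0 ((le_max_left _ _).trans hx) hy0 hy (rho B) _ _ H u (Nat.cast_nonneg _) hPi0 htot hrho hH hHx hu h1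
    refine le_trans (mul_le_mul_of_nonneg_right ?_ hr0) h2
    have h3 := win_count (q := q) (a : ZMod q) u (2 * u)
      (fun n => ∑ k ∈ range H, ph y0 B (n + q * k) < (∏ p ∈ PN q y0, (1 - 1 / (p : ℝ))) * rho B * H / 2)
    have e1 : ((Ioc u (2 * u)).filter fun n => ∑ X ∈ (Ico n (n + q * H)).filter (fun X : ℕ => (X : ZMod q) = a), ph y0 B X <
        (∏ p ∈ PN q y0, (1 - 1 / (p : ℝ))) * rho B * H / 2) =
        (Ioc u (2 * u)).filter fun n => ∑ k ∈ range H, ph y0 B (nx (a : ZMod q) n + q * k) <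
          (∏ p ∈ PN q y0, (1 - 1 / (p : ℝ))) * rho B * H / 2 := by
      refine filter_congr fun n _ => ?_
      rw [win_sum]
    have e2 : ((Ioc u (2 * u + q)).filter fun n => n ≡ (a : ZMod q).val [MOD q] ∧ ∑ k ∈ range H, ph y0 B (n + q * k) <
        (∏ p ∈ PN q y0, (1 - 1 / (p : ℝ))) * rho B * H / 2) =
        (Ioc u (2 * u + q)).filter fun n => n ≡ (a : ZMod q).val [MOD q] ∧ ∑ k ∈ range H, ph y0 B (n + q * k) <
        H * ((∏ p ∈ PN q y0, (1 - 1 / (p : ℝ))) * rho B) / 2 := by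
      refine filter_congr fun n _ => ?_
      rw [mul_comm (H : ℝ)]
    rw [e1]
    rw [e2] at h3
    exact_mod_cast h3
  · have h1 := hup q y0 r B hq hy0 hqy hF _ hX0 htup u (2 * u + q) (a : ZMod q).val H (by omega) ha
    have h2 := hx2 x y0 ((le_max_right _ _).trans hx) hy0 hy (rho B) _ _ H u (Nat.cast_nonneg _) hPi0 htot hrho hH hHx hu h1
    refine le_trans (mul_le_mul_of_nonneg_right ?_ hr0) h2
    have h3 := win_count (q := q) (a : ZMod q) u (2 * u)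
      (fun n => 3 / 2 * ((∏ p ∈ PN q y0, (1 - 1 / (p : ℝ))) * rho B * H) < ∑ k ∈ range H, ph y0 B (n + q * k))
    have e1 : ((Ioc u (2 * u)).filter fun n => 3 / 2 * ((∏ p ∈ PN q y0, (1 - 1 / (p : ℝ))) * rho B * H) <
        ∑ X ∈ (Ico n (n + q * H)).filter (fun X : ℕ => (X : ZMod q) = a), ph y0 B X) =
        (Ioc u (2 * u)).filter fun n => 3 / 2 * ((∏ p ∈ PN q y0, (1 - 1 / (p : ℝ))) * rho B * H) <
          ∑ k ∈ range H, ph y0 B (nx (a : ZMod q) n + q * k) := by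
      refine filter_congr fun n _ => ?_
      rw [win_sum]
    have e2 : ((Ioc u (2 * u + q)).filter fun n => n ≡ (a : ZMod q).val [MOD q] ∧
        3 / 2 * ((∏ p ∈ PN q y0, (1 - 1 / (p : ℝ))) * rho B * H) < ∑ k ∈ range H, ph y0 B (n + q * k)) =
        (Ioc u (2 * u + q)).filter fun n => n ≡ (a : ZMod q).val [MOD q] ∧
        3 / 2 * (H * ((∏ p ∈ PN q y0, (1 - 1 / (p : ℝ))) * rho B)) < ∑ k ∈ range H, ph y0 B (n + q * k) := by
      refine filter_congr fun n _ => ?_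
      rw [mul_comm (H : ℝ)]
    rw [e1]
    rw [e2] at h3
    exact_mod_cast h3

end Pool.Agent.Lib.TT
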