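import Pool.Agent.Lib.MP_092512_nt.TT.Cm
import Pool.Agent.Lib.MP_092512_nt.TT.Cv6

/-!
# TT / Cl (300 minutes): counting, (1.1): `A_T(n,a) ≥ mb/2` for most `n` (helper20)

Text (1.1). Forms `n + k q`, `0 ≤ k < H1`, lower sieve for the primes `≤ y0` which do not divide `q`, second moment: `Cv1` - `Cv6`.
-/

set_option autoImplicit false

open Finset

namespace Pool.Agent.Lib.TT

open Pool.Agent.Lib.TCF (pht TUP rho)
open Pool.Agent.Lib.RG (Rough PN)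
open Pool.Agent.Lib.MP_45349e_nt.LS (lam)

/-- sizes of a family, relative to `x` -/
theorem fam_sizes (P : Par) (hP : P.Ok) : ∃ x0 : ℕ, ∀ D : Dat, x0 ≤ D.x → Ctx P D → ∀ (r : ℕ) (B : Fin r → Finset ℕ),
    Fam P D.x D.y0 B → (∀ m ∈ TUP B, (m : ℝ) ≤ (D.x : ℝ) ^ (1 / 200 : ℝ)) ∧ (D.x : ℝ) ^ (-(1 / 100) : ℝ) ≤ rho B ∧
      (H1 P D.x : ℝ) ≤ (D.x : ℝ) ^ (1 / 100 : ℝ) ∧ (Real.log D.x) ^ 230 ≤ H1 P D.x * rho B := by
  obtain ⟨x1, hx1⟩ := grow P hP 2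
  obtain ⟨x2, hx2⟩ := ev_pow (P.Cf + 231) (1 / 100) (by norm_num)
  refine ⟨max x1 x2, ?_⟩
  intro D hx hD r B hB
  obtain ⟨g1, g2, -, -, -, -, -, -, g3, g4, -⟩ := hx1 D ((le_max_left _ _).trans hx) hD
  have h2 := hx2 D.x ((le_max_right _ _).trans hx)
  set K := Real.log D.x with hK
  have hK1 : 1 ≤ K := by linarith
  have hx1r : (1 : ℝ) ≤ D.x := by exact_mod_cast (by omega : 1 ≤ D.x)
  have hx0 : (0 : ℝ) < D.x := by linarith
  have hrh := hB.rh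
  have hKpos : (0 : ℝ) < K ^ P.Cf := by positivity
  refine ⟨fun m hm => (hB.tup m hm).trans (Real.rpow_le_rpow_of_exponent_le hx1r ?_), ?_, ?_, ?_⟩
  · have := hP.d1
    linarith
  · have h3 : K ^ P.Cf ≤ (D.x : ℝ) ^ (1 / 100 : ℝ) :=
      (pow_le_pow_right₀ hK1 (by omega : P.Cf ≤ P.Cf + 231)).trans h2
    rw [Real.rpow_neg hx0.le]
    have h4 : 1 ≤ (D.x : ℝ) ^ (1 / 100 : ℝ) * rho B :=
      hrh.trans (mul_le_mul_of_nonneg_right h3 (rho_nonneg B))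
    rw [inv_le_iff_one_le_mul₀ (by positivity)]
    linarith
  · refine g4.trans (le_trans ?_ h2)
    calc 2 * K ^ (P.Cf + 230) ≤ K * K ^ (P.Cf + 230) := by gcongr
      _ = K ^ (P.Cf + 231) := by ring
  · calc K ^ 230 ≤ K ^ 230 * (K ^ P.Cf * rho B) := le_mul_of_one_le_right (by positivity) hrh
      _ = K ^ (P.Cf + 230) * rho B := by ring
      _ ≤ H1 P D.x * rho B := mul_le_mul_of_nonneg_right g3 (rho_nonneg B)

theorem u_half {P : Par} (hP : P.Ok) {x u : ℕ} (hx : 1 ≤ x) (hu : (x : ℝ) ^ (1 - P.d0) / 2 ≤ u) :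
    (x : ℝ) ^ (1 / 2 : ℝ) / 2 ≤ u := by
  refine le_trans ?_ hu
  have hx1r : (1 : ℝ) ≤ x := by exact_mod_cast hx
  have := hP.d1
  have h1 := Real.rpow_le_rpow_of_exponent_le hx1r (by linarith : (1 / 2 : ℝ) ≤ 1 - P.d0)
  linarith

open Classical in
theorem cl (P : Par) (hP : P.Ok) : ∃ x0 : ℕ, ∀ D : Dat, x0 ≤ D.x → Ctx P D → ∀ (r : ℕ) (B : Fin r → Finset ℕ), Fam P D.x D.y0 B →
    ∀ (u : ℕ) (a : (ZMod P.q)ˣ), (D.x : ℝ) ^ (1 - P.d0) / 2 ≤ u → u ≤ 4 * D.x →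
    (((Ioc u (2 * u)).filter fun n => AW P D B n a < mb P D.x D.y0 B / 2).card : ℝ) ≤ u / (Real.log D.x) ^ 200 := by
  haveI : NeZero P.q := ⟨by
    have := hP.q2
    omega⟩
  obtain ⟨x1, hx1⟩ := grow P hP 2
  obtain ⟨x2, hx2⟩ := fam_sizes P hP
  obtain ⟨x3, hx3⟩ := cl_gen P.q P.Cp
  refine ⟨max x1 (max x2 x3), ?_⟩
  intro D hx hD r B hB u a hu _
  obtain ⟨g1, g2, -, gq, gy, gy1, -, gH, -, -, -⟩ := hx1 D ((le_max_left _ _).trans hx) hD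
  obtain ⟨s1, s2, s3, s4⟩ := hx2 D ((le_max_left _ _).trans ((le_max_right _ _).trans hx)) hD r B hB
  have h := (hx3 D.x D.y0 ((le_max_right _ _).trans ((le_max_right _ _).trans hx)) gy gq.le gy1 r B hB.fb hB.tot s1 s2
    (H1 P D.x) u a gH s3 (u_half hP (by omega) hu)).1
  set K := Real.log D.x with hK
  have hK1 : 1 ≤ K := by linarith
  have hpos : (0 : ℝ) < K ^ 230 := by positivity
  have hu0 : (0 : ℝ) ≤ u := Nat.cast_nonneg u
  set N := (((Ioc u (2 * u)).filter fun n => AW P D B n a < mb P D.x D.y0 B / 2).card : ℝ) with hN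
  have hN0 : 0 ≤ N := Nat.cast_nonneg _
  have h1 : N * (H1 P D.x * rho B) ≤ K ^ 6 * u := h
  have h2 : N * K ^ 230 ≤ K ^ 6 * u := (mul_le_mul_of_nonneg_left s4 hN0).trans h1
  rw [le_div_iff₀ (by positivity)]
  have h3 : N * K ^ 200 * K ^ 30 ≤ u * K ^ 30 := by
    calc N * K ^ 200 * K ^ 30 = N * K ^ 230 := by ring
      _ ≤ K ^ 6 * u := h2
      _ ≤ K ^ 30 * u := mul_le_mul_of_nonneg_right (pow_le_pow_right₀ hK1 (by norm_num)) hu0
      _ = u * K ^ 30 := by ring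
  exact le_of_mul_le_mul_right h3 (by positivity)

end Pool.Agent.Lib.TT
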