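import Pool.Agent.Lib.MP_092512_nt.TT.Cv5

/-!
# TT / Cm (60 minutes): elementary facts

`Rough y0 a` and `y0 ≥ 1` imply `a ≠ 0`; `lam = ±1`; `pht ≥ 0`, `ph ≥ 0`; `pht B a = #{t ∈ TUP B : t ∣ a}` for `a ≥ 1` (disjoint sets of primes: `TCF` has it); `ph y0 B (l a) = ph y0 B a`-type monotonicity: `a ∣ b`, `b` rough gives `ph a ≤ ph b`; size of `HH`, `th ≥ 1 / K`, growth facts.
-/

set_option autoImplicit false

open Finset

namespace Pool.Agent.Lib.TT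

open Pool.Agent.Lib.TCF (pht TUP rho)
open Pool.Agent.Lib.RG (Rough PN prod_lower)
open Pool.Agent.Lib.MP_45349e_nt.LS (lam)


/-- growth facts used everywhere -/
theorem grow (P : Par) (hP : P.Ok) (C : ℝ) : ∃ x0 : ℕ, ∀ D : Dat, x0 ≤ D.x → Ctx P D →
    3 ≤ D.x ∧ C ≤ Real.log D.x ∧ (P.q : ℝ) ≤ Real.log D.x ∧ P.q < D.y0 ∧ 2 ≤ D.y0 ∧ (D.y0 : ℝ) ≤ (Real.log D.x) ^ P.Cp ∧
    (Real.log D.x) ^ P.Cp ≤ D.y0 + 1 ∧ 1 ≤ H1 P D.x ∧ (Real.log D.x) ^ (P.Cf + 230) ≤ H1 P D.x ∧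
    (H1 P D.x : ℝ) ≤ 2 * (Real.log D.x) ^ (P.Cf + 230) ∧ (HH P D.x : ℝ) ≤ (Real.log D.x) ^ (P.Cf + 232) ∧ HH P D.x < D.y0 ∧
    8 * (Real.log D.x) ^ P.C1 ≤ HH P D.x ∧ 1 / Real.log D.x ≤ th P D.y0 ∧ th P D.y0 ≤ 1 := by
  obtain ⟨c, hc, hlow⟩ := prod_lower
  obtain ⟨K1, hK1, hL1⟩ := ev_log (1 / c) P.Cp 1 (Nat.cast_nonneg _)
  obtain ⟨x1, hx1⟩ := ev_nat (max (max K1 C) (max P.q 4))
  refine ⟨max x1 3, ?_⟩
  intro D hx hD
  have hKK := hx1 D.x ((le_max_left _ _).trans hx)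
  have hx3 : 3 ≤ D.x := (le_max_right _ _).trans hx
  set K := Real.log D.x with hK
  have hKa : K1 ≤ K := (le_max_left _ _).trans ((le_max_left _ _).trans hKK)
  have hKb : C ≤ K := (le_max_right _ _).trans ((le_max_left _ _).trans hKK)
  have hKc : (P.q : ℝ) ≤ K := (le_max_left _ _).trans ((le_max_right _ _).trans hKK)
  have hKd : (4 : ℝ) ≤ K := (le_max_right _ _).trans ((le_max_right _ _).trans hKK)
  have hK1' : (1 : ℝ) ≤ K := by linarith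
  have hCp := hP.cp
  have hy := hD.y0
  rw [← hK] at hy
  have hpos : (0 : ℝ) ≤ K ^ P.Cp := by positivity
  have hy1 : (D.y0 : ℝ) ≤ K ^ P.Cp := by
    rw [hy]
    exact Nat.floor_le hpos
  have hy2 : K ^ P.Cp ≤ D.y0 + 1 := by
    rw [hy]
    exact (Nat.lt_floor_add_one _).le
  have hH1 : K ^ (P.Cf + 230) ≤ H1 P D.x := Nat.le_ceil _
  have hp1 : (1 : ℝ) ≤ K ^ (P.Cf + 230) := one_le_pow₀ hK1'
  have hH2 : (H1 P D.x : ℝ) ≤ 2 * K ^ (P.Cf + 230) := by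
    have := (Nat.ceil_lt_add_one (by positivity : (0 : ℝ) ≤ K ^ (P.Cf + 230))).le
    have h2 : (H1 P D.x : ℝ) ≤ K ^ (P.Cf + 230) + 1 := this
    linarith
  have hH3 : 1 ≤ H1 P D.x := by
    have : (1 : ℝ) ≤ H1 P D.x := hp1.trans hH1
    exact_mod_cast this
  have hHH : (HH P D.x : ℝ) ≤ K ^ (P.Cf + 232) := by
    unfold HH
    push_cast
    calc (P.q : ℝ) * H1 P D.x ≤ K * (2 * K ^ (P.Cf + 230)) := by gcongr
      _ ≤ K * (K * K ^ (P.Cf + 230)) := by gcongr; linarith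
      _ = K ^ (P.Cf + 232) := by ring
  have hbig : K ^ (P.Cf + 233) ≤ K ^ P.Cp := pow_le_pow_right₀ hK1' (by omega)
  have h233 : K ^ (P.Cf + 232) + 2 ≤ K ^ (P.Cf + 233) := by
    have h1 : (1 : ℝ) ≤ K ^ (P.Cf + 232) := one_le_pow₀ hK1'
    have h2 : K ^ (P.Cf + 233) = K ^ (P.Cf + 232) * K := pow_succ K (P.Cf + 232)
    rw [h2]
    nlinarith
  have hHy : HH P D.x < D.y0 := by
    have : (HH P D.x : ℝ) < D.y0 := by linarith
    exact_mod_cast this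
  have hKpow : K ≤ K ^ (P.Cf + 232) := by
    calc K = K ^ 1 := (pow_one K).symm
      _ ≤ _ := pow_le_pow_right₀ hK1' (by omega)
  have hqy : P.q < D.y0 := by
    have : (P.q : ℝ) < D.y0 := by linarith
    exact_mod_cast this
  have hy02 : 2 ≤ D.y0 := by
    have : (2 : ℝ) ≤ D.y0 := by linarith
    exact_mod_cast this
  have hyr : (2 : ℝ) ≤ D.y0 := by exact_mod_cast hy02
  have hPN : ∀ p ∈ PN P.q D.y0, p.Prime ∧ p ≤ D.y0 := by
    intro p hp
    unfold PN at hp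
    rw [mem_filter, mem_range] at hp
    exact ⟨hp.2.1, by omega⟩
  have h8 : 8 * K ^ P.C1 ≤ (HH P D.x : ℝ) := by
    have hq2 : (2 : ℝ) ≤ P.q := by exact_mod_cast hP.q2
    have hc1 := hP.c1f
    have h1 : 4 * K ^ P.C1 ≤ K ^ (P.Cf + 230) := by
      calc 4 * K ^ P.C1 ≤ K * K ^ P.C1 := by gcongr
        _ = K ^ (P.C1 + 1) := by ring
        _ ≤ K ^ (P.Cf + 230) := pow_le_pow_right₀ hK1' (by omega)
    unfold HH
    push_cast
    calc 8 * K ^ P.C1 ≤ 2 * K ^ (P.Cf + 230) := by linarith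
      _ ≤ P.q * H1 P D.x := by gcongr
  refine ⟨hx3, hKb, hKc, hqy, hy02, hy1, hy2, hH3, hH1, hH2, hHH, hHy, h8, ?_, ?_⟩
  · have hly : Real.log D.y0 ≤ P.Cp * Real.log K := by
      rw [← Real.log_pow]
      exact Real.log_le_log (by linarith) hy1
    have hly0 : 0 < Real.log D.y0 := Real.log_pos (by linarith)
    have hl1 := hL1 K hKa
    refine le_trans ?_ (hlow D.y0 hy02 _ hPN)
    rw [pow_one, one_div, inv_mul_le_iff₀ hc] at hl1
    rw [div_le_div_iff₀ (by linarith) hly0]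
    linarith
  · unfold th
    refine prod_le_one (fun p hp => ?_) fun p hp => ?_
    · have h6 : (1 : ℝ) ≤ p := by exact_mod_cast (hPN p hp).1.one_le
      rw [sub_nonneg, div_le_one (by linarith)]
      exact h6
    · have h6 : (0 : ℝ) ≤ 1 / (p : ℝ) := by positivity
      linarith

theorem ph_nonneg (y0 : ℕ) {n : ℕ} (B : Fin n → Finset ℕ) (a : ℕ) : 0 ≤ ph y0 B a := by
  unfold ph
  split_ifs
  · exact prod_nonneg fun _ _ => Nat.cast_nonneg _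
  · exact le_rfl

/-- the weight counts tuples -/
theorem pht_card {P : Par} {x y0 n : ℕ} {B : Fin n → Finset ℕ} (h : Fam P x y0 B) {a : ℕ} (ha : a ≠ 0) :
    pht B a = (((TUP B).filter fun t => t ∣ a).card : ℝ) := by
  rw [fb_pht h.fb, ← fb_sum h.fb (fun t => if t ∣ a then (1 : ℝ) else 0), card_filter]
  push_cast
  rfl

/-- monotonicity under multiplication by a rough number -/
theorem ph_mul_le (y0 : ℕ) (h0 : 2 ≤ y0) {n : ℕ} (B : Fin n → Finset ℕ) {a m : ℕ} (ha : Rough y0 a) (hm : Rough y0 m) :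
    ph y0 B m ≤ ph y0 B (a * m) := by
  have hr : Rough y0 (a * m) := by
    intro p hp hpd
    rcases hp.dvd_mul.mp hpd with h | h
    · exact ha p hp h
    · exact hm p hp h
  unfold ph
  rw [if_pos hm, if_pos hr]
  unfold pht
  refine prod_le_prod (fun _ _ => Nat.cast_nonneg _) fun c _ => ?_
  refine Nat.cast_le.mpr (card_le_card fun p hp => ?_)
  rw [mem_filter] at hp ⊢
  exact ⟨hp.1, hp.2.mul_left a⟩

/-- a rough number is a unit modulo `q` -/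
theorem rough_unit {q y0 a : ℕ} (hq : q < y0) (hq1 : 1 ≤ q) (ha : Rough y0 a) : a.Coprime q := by
  by_contra hc
  obtain ⟨p, hp, h1, h2⟩ := Nat.Prime.not_coprime_iff_dvd.mp hc
  have h3 := ha p hp h1
  have h4 := Nat.le_of_dvd (by omega) h2
  omega

end Pool.Agent.Lib.TT
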