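import Pool.Agent.Lib.MP_092512_nt.TT.Def

/-!
# TT / Cn (60 minutes): clean cells and sizes

Text section 4. `e_J ≤ x / 4`; a multiple of `Lam` in `(U0, x]` spoils at most `3` values of `j`; `n m` for `m` in the cell `j` and `s_n ≤ Q log n < s_n + 1` lies between `e_(j+s_n)` and `e_(j+s_n+2)`.
-/

set_option autoImplicit false

open Finset

namespace Pool.Agent.Lib.TT

open Pool.Agent.Lib.TCF (pht TUP rho)
open Pool.Agent.Lib.RG (Rough PN)
open Pool.Agent.Lib.MP_45349e_nt.LS (lam)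


private theorem cn_dl (P : Par) (hP : P.Ok) : 0 < dl P ∧ dl P ≤ 1 / 16 := by
  unfold dl
  have h1 := hP.d0
  have h2 := hP.d1
  constructor <;> linarith

private theorem cn_big (P : Par) (hP : P.Ok) : ∃ x0 : ℕ, ∀ x : ℕ, x0 ≤ x →
    0 < (x : ℝ) ∧ 4 ≤ dl P * Real.log x := by
  obtain ⟨h1, h2⟩ := cn_dl P hP
  refine ⟨⌈Real.exp (4 / dl P)⌉₊, fun x hx => ?_⟩
  have h3 : Real.exp (4 / dl P) ≤ x := (Nat.le_ceil _).trans (by exact_mod_cast hx)
  have h4 : 0 < (x : ℝ) := (Real.exp_pos _).trans_le h3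
  refine ⟨h4, ?_⟩
  have h5 : 4 / dl P ≤ Real.log x := by
    rw [Real.le_log_iff_exp_le h4]
    exact h3
  rw [div_le_iff₀ h1] at h5
  linarith

private theorem cn_QQ (P : Par) (hP : P.Ok) {x : ℕ} (h0 : 0 < (x : ℝ))
    (h4 : 4 ≤ dl P * Real.log x) : 0 < QQ P x ∧ 2 ≤ QQ P x := by
  obtain ⟨h1, h2⟩ := cn_dl P hP
  have hl : 64 ≤ Real.log x := by nlinarith
  unfold QQ
  refine ⟨Real.rpow_pos_of_pos h0 _, ?_⟩
  rw [Real.rpow_def_of_pos h0]
  have h5 : 1 ≤ Real.log x * (1 - 2 * dl P) := by nlinarith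
  have h6 := Real.add_one_le_exp (Real.log x * (1 - 2 * dl P))
  linarith

private theorem cn_JJ_le (P : Par) (hP : P.Ok) {x : ℕ} (h0 : 0 < (x : ℝ))
    (h4 : 4 ≤ dl P * Real.log x) : (JJ P x : ℝ) ≤ QQ P x * (dl P * Real.log x) := by
  have h5 := (cn_QQ P hP h0 h4).1
  unfold JJ
  exact Nat.floor_le (by positivity)

private theorem cn_JJ_ge (P : Par) (hP : P.Ok) {x : ℕ} (h0 : 0 < (x : ℝ))
    (h4 : 4 ≤ dl P * Real.log x) : (x : ℝ) ^ (1 - 2 * dl P) ≤ JJ P x := by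
  obtain ⟨h5, h6⟩ := cn_QQ P hP h0 h4
  have h7 : QQ P x * (dl P * Real.log x) < JJ P x + 1 := by
    unfold JJ
    exact Nat.lt_floor_add_one _
  have h8 : QQ P x * 4 ≤ QQ P x * (dl P * Real.log x) := mul_le_mul_of_nonneg_left h4 h5.le
  change QQ P x ≤ JJ P x
  linarith

private theorem cn_ee_pos (P : Par) {x : ℕ} (h0 : 0 < (x : ℝ)) (j : ℕ) : 0 < ee P x j := by
  unfold ee U0
  have h1 : 0 < (x : ℝ) ^ (1 - dl P) := Real.rpow_pos_of_pos h0 _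
  positivity

private theorem cn_ee_add (P : Par) {x : ℕ} (i j : ℕ) :
    ee P x (i + j) = ee P x i * Real.exp (j / QQ P x) := by
  unfold ee
  rw [mul_assoc, ← Real.exp_add]
  congr 2
  push_cast
  ring

private theorem cn_ee_mono (P : Par) (hP : P.Ok) {x : ℕ} (h0 : 0 < (x : ℝ))
    (h4 : 4 ≤ dl P * Real.log x) {i j : ℕ} (h : i ≤ j) : ee P x i ≤ ee P x j := by
  obtain ⟨k, rfl⟩ := Nat.exists_eq_add_of_le h
  rw [cn_ee_add]
  have h1 := cn_ee_pos P h0 i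
  have h2 := (cn_QQ P hP h0 h4).1
  have h3 : 1 ≤ Real.exp (k / QQ P x) := Real.one_le_exp (by positivity)
  nlinarith

private theorem cn_ee_JJ (P : Par) (hP : P.Ok) {x : ℕ} (h0 : 0 < (x : ℝ))
    (h4 : 4 ≤ dl P * Real.log x) : ee P x (JJ P x) ≤ x / 4 := by
  obtain ⟨h5, h6⟩ := cn_QQ P hP h0 h4
  have h7 := cn_JJ_le P hP h0 h4
  have h8 : (JJ P x : ℝ) / QQ P x ≤ dl P * Real.log x := by
    rw [div_le_iff₀ h5]
    linarith
  unfold ee U0
  have h9 : Real.exp ((JJ P x : ℝ) / QQ P x) ≤ (x : ℝ) ^ dl P := by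
    rw [Real.rpow_def_of_pos h0, mul_comm (Real.log x)]
    exact Real.exp_le_exp.2 h8
  have h10 : (x : ℝ) ^ (1 - dl P) * (x : ℝ) ^ dl P = x := by
    rw [← Real.rpow_add h0]
    ring_nf
    exact Real.rpow_one _
  have h11 : 0 ≤ (x : ℝ) ^ (1 - dl P) := Real.rpow_nonneg h0.le _
  calc (x : ℝ) ^ (1 - dl P) / 4 * Real.exp ((JJ P x : ℝ) / QQ P x)
      ≤ (x : ℝ) ^ (1 - dl P) / 4 * (x : ℝ) ^ dl P := by gcongr
    _ = (x : ℝ) ^ (1 - dl P) * (x : ℝ) ^ dl P / 4 := by ring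
    _ = x / 4 := by rw [h10]

private theorem cn_vv_mono (P : Par) (hP : P.Ok) {x : ℕ} (h0 : 0 < (x : ℝ))
    (h4 : 4 ≤ dl P * Real.log x) (Lam : ℕ) {i j : ℕ} (h : i ≤ j) : vv P x Lam i ≤ vv P x Lam j := by
  unfold vv
  apply Nat.floor_le_floor
  have h1 := cn_ee_mono P hP h0 h4 h
  gcongr

private theorem cn_tel (f : ℕ → ℕ) (hf : ∀ i j, i ≤ j → f i ≤ f j) (J : ℕ) :
    ((range J).filter fun j => ¬ f j = f (j + 3)).card + (f 0 + f 1 + f 2) ≤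
      f J + f (J + 1) + f (J + 2) := by
  induction J with
  | zero => simp
  | succ J ih =>
    rw [range_add_one, filter_insert]
    have h3 : f J ≤ f (J + 3) := hf _ _ (by omega)
    have e1 : J + 1 + 1 = J + 2 := rfl
    have e2 : J + 1 + 2 = J + 3 := rfl
    rw [e1, e2]
    by_cases h : f J = f (J + 3)
    · rw [if_neg (not_not.2 h)]
      omega
    · rw [if_pos h]
      have h5 : ((insert J (filter (fun j => ¬ f j = f (j + 3)) (range J)))).card ≤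
          (filter (fun j => ¬ f j = f (j + 3)) (range J)).card + 1 := card_insert_le _ _
      omega

open Classical in
theorem clean_card (P : Par) (hP : P.Ok) : ∃ x0 : ℕ, ∀ x : ℕ, x0 ≤ x → ∀ Lam : ℕ, (x : ℝ) ^ (3 * dl P) ≤ Lam →
    (((range (JJ P x)).filter fun j => ¬ Clean P x Lam j).card : ℝ) ≤ (x : ℝ) ^ (-(dl P / 2)) * JJ P x := by
  obtain ⟨x0, hx0⟩ := cn_big P hP
  obtain ⟨hd1, hd2⟩ := cn_dl P hP
  refine ⟨x0, fun x hx Lam hLam => ?_⟩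
  obtain ⟨h0, h4⟩ := hx0 x hx
  obtain ⟨hQ0, hQ2⟩ := cn_QQ P hP h0 h4
  have hL0 : 0 < (Lam : ℝ) := (Real.rpow_pos_of_pos h0 _).trans_le hLam
  have h1 := cn_tel (vv P x Lam) (fun i j h => cn_vv_mono P hP h0 h4 Lam h) (JJ P x)
  have h2 : vv P x Lam (JJ P x) ≤ vv P x Lam (JJ P x + 2) := cn_vv_mono P hP h0 h4 Lam (by omega)
  have h3 : vv P x Lam (JJ P x + 1) ≤ vv P x Lam (JJ P x + 2) :=
    cn_vv_mono P hP h0 h4 Lam (by omega)
  have hcard : ((range (JJ P x)).filter fun j => ¬ Clean P x Lam j).card ≤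
      3 * vv P x Lam (JJ P x + 2) := by
    have e : ((range (JJ P x)).filter fun j => ¬ Clean P x Lam j) =
        ((range (JJ P x)).filter fun j => ¬ vv P x Lam j = vv P x Lam (j + 3)) := by
      apply filter_congr
      intro j _
      rfl
    rw [e]
    omega
  have hv : (vv P x Lam (JJ P x + 2) : ℝ) ≤ x / Lam := by
    have h5 : (vv P x Lam (JJ P x + 2) : ℝ) ≤ ee P x (JJ P x + 2) / Lam := by
      unfold vv
      exact Nat.floor_le (div_nonneg (cn_ee_pos P h0 _).le hL0.le)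
    refine h5.trans ?_
    have h6 : ee P x (JJ P x + 2) ≤ x := by
      rw [cn_ee_add]
      have h7 := cn_ee_JJ P hP h0 h4
      have h8 : Real.exp (((2 : ℕ) : ℝ) / QQ P x) ≤ 4 := by
        have h9 : ((2 : ℕ) : ℝ) / QQ P x ≤ 1 := by
          rw [div_le_one hQ0]
          push_cast
          exact hQ2
        have h10 := Real.exp_le_exp.2 h9
        have h11 := Real.exp_one_lt_d9
        linarith
      have h12 := cn_ee_pos P h0 (JJ P x)
      calc ee P x (JJ P x) * Real.exp (((2 : ℕ) : ℝ) / QQ P x) ≤ (x / 4) * 4 := by gcongr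
        _ = x := by ring
    gcongr
  have hJ := cn_JJ_ge P hP h0 h4
  have hc : (((range (JJ P x)).filter fun j => ¬ Clean P x Lam j).card : ℝ) ≤ 3 * (x / Lam) := by
    calc (((range (JJ P x)).filter fun j => ¬ Clean P x Lam j).card : ℝ)
        ≤ ((3 * vv P x Lam (JJ P x + 2) : ℕ) : ℝ) := by exact_mod_cast hcard
      _ = 3 * (vv P x Lam (JJ P x + 2) : ℝ) := by push_cast; ring
      _ ≤ 3 * (x / Lam) := by gcongr
  refine hc.trans ?_
  have hx3 : (3 : ℝ) ≤ (x : ℝ) ^ (dl P / 2) := by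
    rw [Real.rpow_def_of_pos h0]
    have h6 := Real.add_one_le_exp (Real.log x * (dl P / 2))
    nlinarith
  have hxl : (x : ℝ) / Lam ≤ (x : ℝ) ^ (1 - 3 * dl P) := by
    rw [div_le_iff₀ hL0]
    have h13 : (x : ℝ) ^ (1 - 3 * dl P) * (x : ℝ) ^ (3 * dl P) = x := by
      rw [← Real.rpow_add h0]
      ring_nf
      exact Real.rpow_one _
    have h14 : 0 ≤ (x : ℝ) ^ (1 - 3 * dl P) := Real.rpow_nonneg h0.le _
    nlinarith
  have h15 : (x : ℝ) ^ (dl P / 2) * (x : ℝ) ^ (1 - 3 * dl P) =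
      (x : ℝ) ^ (-(dl P / 2)) * (x : ℝ) ^ (1 - 2 * dl P) := by
    rw [← Real.rpow_add h0, ← Real.rpow_add h0]
    congr 1
    ring
  have h16 : 0 ≤ (x : ℝ) ^ (1 - 3 * dl P) := Real.rpow_nonneg h0.le _
  have h17 : 0 ≤ (x : ℝ) ^ (-(dl P / 2)) := Real.rpow_nonneg h0.le _
  calc 3 * ((x : ℝ) / Lam) ≤ 3 * (x : ℝ) ^ (1 - 3 * dl P) := by gcongr
    _ ≤ (x : ℝ) ^ (dl P / 2) * (x : ℝ) ^ (1 - 3 * dl P) := by gcongr
    _ = (x : ℝ) ^ (-(dl P / 2)) * (x : ℝ) ^ (1 - 2 * dl P) := h15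
    _ ≤ (x : ℝ) ^ (-(dl P / 2)) * JJ P x := by gcongr

theorem ee_le (P : Par) (hP : P.Ok) : ∃ x0 : ℕ, ∀ x : ℕ, x0 ≤ x → ee P x (JJ P x) ≤ x / 4 ∧ (x : ℝ) ^ (1 - dl P) / 4 ≤ ee P x 0 ∧
    1 ≤ JJ P x ∧ (x : ℝ) ^ (1 - 2 * dl P) ≤ JJ P x ∧ (JJ P x : ℝ) ≤ x := by
  obtain ⟨x0, hx0⟩ := cn_big P hP
  obtain ⟨hd1, hd2⟩ := cn_dl P hP
  refine ⟨x0, fun x hx => ?_⟩
  obtain ⟨h0, h4⟩ := hx0 x hx
  obtain ⟨hQ0, hQ2⟩ := cn_QQ P hP h0 h4
  have hJ := cn_JJ_ge P hP h0 h4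
  refine ⟨cn_ee_JJ P hP h0 h4, ?_, ?_, hJ, ?_⟩
  · unfold ee U0
    simp
  · have h1 : (2 : ℝ) ≤ JJ P x := by
      change QQ P x ≤ JJ P x at hJ
      linarith
    have h2 : (1 : ℝ) ≤ JJ P x := by linarith
    exact_mod_cast h2
  · refine (cn_JJ_le P hP h0 h4).trans ?_
    have h1 : dl P * Real.log x ≤ (x : ℝ) ^ (2 * dl P) := by
      rw [Real.rpow_def_of_pos h0]
      have h2 := Real.add_one_le_exp (Real.log x * (2 * dl P))
      nlinarith
    have h2 : QQ P x * (x : ℝ) ^ (2 * dl P) = x := by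
      unfold QQ
      rw [← Real.rpow_add h0]
      ring_nf
      exact Real.rpow_one _
    calc QQ P x * (dl P * Real.log x) ≤ QQ P x * (x : ℝ) ^ (2 * dl P) := by gcongr
      _ = x := h2

theorem ee_mul (P : Par) (hP : P.Ok) : ∃ x0 : ℕ, ∀ x : ℕ, x0 ≤ x → ∀ n m j : ℕ, 1 ≤ n → ee P x j ≤ m → (m : ℝ) < ee P x (j + 1) →
    ee P x (j + sn P x n) ≤ (n * m : ℕ) ∧ ((n * m : ℕ) : ℝ) < ee P x (j + sn P x n + 2) := by
  obtain ⟨x0, hx0⟩ := cn_big P hP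
  refine ⟨x0, fun x hx n m j hn hm1 hm2 => ?_⟩
  obtain ⟨h0, h4⟩ := hx0 x hx
  obtain ⟨hQ0, hQ2⟩ := cn_QQ P hP h0 h4
  have hn0 : 0 < (n : ℝ) := by exact_mod_cast hn
  have hn1 : (1 : ℝ) ≤ n := by exact_mod_cast hn
  have hlog : 0 ≤ Real.log n := Real.log_nonneg hn1
  have hs1 : (sn P x n : ℝ) ≤ QQ P x * Real.log n := by
    unfold sn
    exact Nat.floor_le (by positivity)
  have hs2 : QQ P x * Real.log n < sn P x n + 1 := by
    unfold sn
    exact Nat.lt_floor_add_one _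
  constructor
  · rw [cn_ee_add]
    have h1 : Real.exp ((sn P x n : ℝ) / QQ P x) ≤ n := by
      rw [← Real.le_log_iff_exp_le hn0, div_le_iff₀ hQ0]
      linarith
    have h2 := cn_ee_pos P h0 j
    push_cast
    calc ee P x j * Real.exp ((sn P x n : ℝ) / QQ P x) ≤ m * n := by gcongr
      _ = n * m := by ring
  · have e1 : j + sn P x n + 2 = (j + 1) + (sn P x n + 1) := by ring
    rw [e1, cn_ee_add]
    have h1 : (n : ℝ) < Real.exp (((sn P x n + 1 : ℕ) : ℝ) / QQ P x) := by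
      rw [← Real.log_lt_iff_lt_exp hn0, lt_div_iff₀ hQ0]
      push_cast
      linarith
    have h2 := cn_ee_pos P h0 (j + 1)
    push_cast at h1 ⊢
    have h3 : (n : ℝ) * m < n * ee P x (j + 1) := mul_lt_mul_of_pos_left hm2 hn0
    have h4 : (n : ℝ) * ee P x (j + 1) < Real.exp (((sn P x n : ℝ) + 1) / QQ P x) * ee P x (j + 1) :=
      mul_lt_mul_of_pos_right h1 h2
    linarith

/-- in a clean cell the block is constant -/
theorem vv_of_clean (P : Par) (hP : P.Ok) : ∃ x0 : ℕ, ∀ x : ℕ, x0 ≤ x → ∀ Lam m j : ℕ, 1 ≤ Lam → Clean P x Lam j →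
    ee P x j ≤ m → (m : ℝ) < ee P x (j + 3) → m / Lam = vv P x Lam j := by
  refine ⟨0, fun x _ Lam m j hL hc h1 h2 => ?_⟩
  have hL0 : 0 < (Lam : ℝ) := by exact_mod_cast hL
  have e1 : m / Lam = ⌊(m : ℝ) / Lam⌋₊ := (Nat.floor_div_eq_div m Lam).symm
  unfold Clean at hc
  have h3 : vv P x Lam j ≤ m / Lam := by
    rw [e1]
    unfold vv
    apply Nat.floor_le_floor
    gcongr
  have h4 : m / Lam ≤ vv P x Lam (j + 3) := by
    rw [e1]
    unfold vv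
    apply Nat.floor_le_floor
    gcongr
  omega

end Pool.Agent.Lib.TT
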