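import Mathlib

/-!
# TT / Cv1: the variance of a sum over moduli, for the linear forms `n + q k`, `n` in a class modulo `q`

`n` runs over the numbers of `(A, B]` with `n ≡ a` modulo `q`, the moduli `s i` are coprime to `q`. The number of `n` with `s ∣ n + q k`, `t ∣ n + q k'` is
`[gcd(s,t) ∣ k - k'] (B - A) gcd(s,t) / (q s t) + θ`, `|θ| ≤ 1`. So the variance of `∑_{k < H} ∑_i w i [s i ∣ n + q k]` around its mean `H ∑ w i / s i` is at most
`((B - A)/q) H ∑_{i,j} |w i w j| gcd(s i, s j)/(s i s j) + 4 (H ∑ |w i|)²`.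
-/

set_option autoImplicit false

open Finset

namespace Pool.Agent.Lib.TT

/-- the number of elements of a class in an interval -/
theorem cnt_Ioc (A B D v : ℕ) (hD : 0 < D) (hAB : A ≤ B) :
    |(((Ioc A B).filter fun n => n ≡ v [MOD D]).card : ℝ) - ((B : ℝ) - A) / D| ≤ 1 := by
  have h := Nat.Ioc_filter_modEq_card A B hD v
  have hD' : (0 : ℝ) < D := by exact_mod_cast hD
  set x : ℚ := ((B : ℚ) - v) / D with hx
  set y : ℚ := ((A : ℚ) - v) / D with hy
  have hle : y ≤ x := by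
    rw [hx, hy]
    have : (A : ℚ) ≤ B := by exact_mod_cast hAB
    have hDq : (0 : ℚ) < D := by exact_mod_cast hD
    gcongr
  have h1 : ⌊y⌋ ≤ ⌊x⌋ := Int.floor_le_floor hle
  have h2 : ((((Ioc A B).filter fun n => n ≡ v [MOD D]).card : ℤ) : ℝ) = ((⌊x⌋ : ℤ) : ℝ) - ((⌊y⌋ : ℤ) : ℝ) := by
    rw [h, max_eq_left (by linarith)]
    push_cast
    rfl
  have h3 : (((Ioc A B).filter fun n => n ≡ v [MOD D]).card : ℝ) = ((⌊x⌋ : ℤ) : ℝ) - ((⌊y⌋ : ℤ) : ℝ) := by
    rw [← h2]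
    push_cast
    rfl
  rw [h3]
  have a1 : ((⌊x⌋ : ℤ) : ℚ) ≤ x := Int.floor_le x
  have a2 : x < ((⌊x⌋ : ℤ) : ℚ) + 1 := Int.lt_floor_add_one x
  have a3 : ((⌊y⌋ : ℤ) : ℚ) ≤ y := Int.floor_le y
  have a4 : y < ((⌊y⌋ : ℤ) : ℚ) + 1 := Int.lt_floor_add_one y
  have b1 : ((⌊x⌋ : ℤ) : ℝ) ≤ (x : ℝ) := by exact_mod_cast a1
  have b2 : (x : ℝ) < ((⌊x⌋ : ℤ) : ℝ) + 1 := by exact_mod_cast a2
  have b3 : ((⌊y⌋ : ℤ) : ℝ) ≤ (y : ℝ) := by exact_mod_cast a3
  have b4 : (y : ℝ) < ((⌊y⌋ : ℤ) : ℝ) + 1 := by exact_mod_cast a4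
  have e : ((B : ℝ) - A) / D = (x : ℝ) - (y : ℝ) := by
    rw [hx, hy]
    push_cast
    field_simp
    ring
  rw [e, abs_le]
  constructor <;> linarith

/-- the number of elements of a class below `H` -/
theorem cnt_range (H D v : ℕ) (hD : 0 < D) :
    |(((range H).filter fun n => n ≡ v [MOD D]).card : ℝ) - (H : ℝ) / D| ≤ 1 := by
  have h := Nat.count_modEq_card_eq_ceil H hD v
  rw [Nat.count_eq_card_filter_range] at h
  have hD' : (0 : ℝ) < D := by exact_mod_cast hD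
  set x : ℚ := ((H : ℚ) - (v % D : ℕ)) / D with hx
  have h0 : (0 : ℚ) ≤ ((v % D : ℕ) : ℚ) / D := by positivity
  have h1 : ((v % D : ℕ) : ℚ) / D < 1 := by
    rw [div_lt_one (by exact_mod_cast hD)]
    exact_mod_cast Nat.mod_lt v hD
  have h2 : ((((range H).filter fun n => n ≡ v [MOD D]).card : ℤ) : ℚ) = ((⌈x⌉ : ℤ) : ℚ) := by
    exact_mod_cast h
  have h3 : (((range H).filter fun n => n ≡ v [MOD D]).card : ℚ) = ((⌈x⌉ : ℤ) : ℚ) := by
    rw [← h2]
    push_cast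
    rfl
  have a1 : x ≤ ((⌈x⌉ : ℤ) : ℚ) := Int.le_ceil x
  have a2 : ((⌈x⌉ : ℤ) : ℚ) < x + 1 := Int.ceil_lt_add_one x
  have e : x = (H : ℚ) / D - ((v % D : ℕ) : ℚ) / D := by
    rw [hx]
    ring
  have c1 : |(((range H).filter fun n => n ≡ v [MOD D]).card : ℚ) - (H : ℚ) / D| ≤ 1 := by
    rw [h3, abs_le]
    constructor <;> linarith
  have c2 : ((|(((range H).filter fun n => n ≡ v [MOD D]).card : ℚ) - (H : ℚ) / D| : ℚ) : ℝ) ≤ ((1 : ℚ) : ℝ) :=
    Rat.cast_le.mpr c1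
  push_cast at c2
  exact c2

variable {q : ℕ}

/-- existence of a number with two divisibilities -/
theorem pair_exists {s t k k' a : ℕ} (hs : 0 < s) (ht : 0 < t) (hsq : s.Coprime q)
    (htq : t.Coprime q) (h : k ≡ k' [MOD Nat.gcd s t]) :
    ∃ n0 : ℕ, n0 ≡ a [MOD q] ∧ s ∣ n0 + q * k ∧ t ∣ n0 + q * k' := by
  have e1 : q * k * (s - 1) + q * k = q * k * s := by
    obtain ⟨s', rfl⟩ : ∃ s', s = s' + 1 := ⟨s - 1, by omega⟩
    simp only [Nat.add_sub_cancel]
    ring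
  have e2 : q * k' * (t - 1) + q * k' = q * k' * t := by
    obtain ⟨t', rfl⟩ : ∃ t', t = t' + 1 := ⟨t - 1, by omega⟩
    simp only [Nat.add_sub_cancel]
    ring
  have h1 : q * k * (s - 1) ≡ q * k' * (t - 1) [MOD Nat.gcd s t] := by
    have h2 : q * k * (s - 1) + q * k ≡ q * k' * (t - 1) + q * k [MOD Nat.gcd s t] := by
      have h3 : q * k' * (t - 1) + q * k ≡ q * k' * (t - 1) + q * k' [MOD Nat.gcd s t] :=
        Nat.ModEq.add_left _ (Nat.ModEq.mul_left _ h)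
      refine Nat.ModEq.trans ?_ h3.symm
      rw [e1, e2]
      have h4 : q * k * s ≡ 0 [MOD Nat.gcd s t] :=
        (Nat.modEq_zero_iff_dvd).mpr ((Nat.gcd_dvd_left s t).trans (Dvd.intro_left _ rfl))
      have h5 : q * k' * t ≡ 0 [MOD Nat.gcd s t] :=
        (Nat.modEq_zero_iff_dvd).mpr ((Nat.gcd_dvd_right s t).trans (Dvd.intro_left _ rfl))
      exact h4.trans h5.symm
    exact Nat.ModEq.add_right_cancel' _ h2
  obtain ⟨n1, hn1, hn2⟩ := Nat.chineseRemainder' h1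
  have hco : (Nat.lcm s t).Coprime q := Nat.Coprime.coprime_dvd_left (Nat.lcm_dvd_mul s t) (hsq.mul_left htq)
  obtain ⟨n0, hm1, hm2⟩ := Nat.chineseRemainder hco n1 a
  refine ⟨n0, hm2, ?_, ?_⟩
  · have h6 : n0 ≡ q * k * (s - 1) [MOD s] :=
      (hm1.of_dvd (Nat.dvd_lcm_left s t)).trans hn1
    have h7 := h6.add_right (q * k)
    rw [e1] at h7
    exact (Nat.modEq_zero_iff_dvd).mp (h7.trans ((Nat.modEq_zero_iff_dvd).mpr (Dvd.intro_left _ rfl)))
  · have h6 : n0 ≡ q * k' * (t - 1) [MOD t] :=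
      (hm1.of_dvd (Nat.dvd_lcm_right s t)).trans hn2
    have h7 := h6.add_right (q * k')
    rw [e2] at h7
    exact (Nat.modEq_zero_iff_dvd).mp (h7.trans ((Nat.modEq_zero_iff_dvd).mpr (Dvd.intro_left _ rfl)))

/-- the number of `n` with two divisibilities -/
theorem cnt_pair {s t k k' a A B : ℕ} (hq : 0 < q) (hs : 0 < s) (ht : 0 < t) (hsq : s.Coprime q)
    (htq : t.Coprime q) (hAB : A ≤ B) :
    |(((Ioc A B).filter fun n => n ≡ a [MOD q] ∧ s ∣ n + q * k ∧ t ∣ n + q * k').card : ℝ) -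
      (if k ≡ k' [MOD Nat.gcd s t] then ((B : ℝ) - A) / q * ((Nat.gcd s t : ℝ) / (s * t)) else 0)| ≤ 1 := by
  have hco : (Nat.lcm s t).Coprime q := Nat.Coprime.coprime_dvd_left (Nat.lcm_dvd_mul s t) (hsq.mul_left htq)
  split_ifs with h
  · obtain ⟨n0, h1, h2, h3⟩ := pair_exists (a := a) hs ht hsq htq h
    have e : ((Ioc A B).filter fun n => n ≡ a [MOD q] ∧ s ∣ n + q * k ∧ t ∣ n + q * k') =
        (Ioc A B).filter fun n => n ≡ n0 [MOD (Nat.lcm s t * q)] := by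
      apply filter_congr
      intro n _
      rw [← Nat.modEq_and_modEq_iff_modEq_mul hco]
      constructor
      · rintro ⟨g1, g2, g3⟩
        have s1 : n + q * k ≡ n0 + q * k [MOD s] :=
          ((Nat.modEq_zero_iff_dvd).mpr g2).trans ((Nat.modEq_zero_iff_dvd).mpr h2).symm
        have s2 : n + q * k' ≡ n0 + q * k' [MOD t] :=
          ((Nat.modEq_zero_iff_dvd).mpr g3).trans ((Nat.modEq_zero_iff_dvd).mpr h3).symm
        have s3 := Nat.ModEq.add_right_cancel' _ s1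
        have s4 := Nat.ModEq.add_right_cancel' _ s2
        refine ⟨?_, g1.trans h1.symm⟩
        rw [Nat.modEq_iff_dvd] at s3 s4 ⊢
        have : ((Nat.lcm s t : ℕ) : ℤ) ∣ (n0 : ℤ) - n := by
          rw [← Int.natCast_dvd_natCast] at *
          have h8 := Int.natCast_dvd.mp s3
          have h9 := Int.natCast_dvd.mp s4
          exact Int.natCast_dvd.mpr (Nat.lcm_dvd h8 h9)
        exact this
      · rintro ⟨g1, g2⟩
        refine ⟨g2.trans h1, ?_, ?_⟩
        · have s1 := (g1.of_dvd (Nat.dvd_lcm_left s t)).add_right (q * k)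
          exact (Nat.modEq_zero_iff_dvd).mp (s1.trans ((Nat.modEq_zero_iff_dvd).mpr h2))
        · have s1 := (g1.of_dvd (Nat.dvd_lcm_right s t)).add_right (q * k')
          exact (Nat.modEq_zero_iff_dvd).mp (s1.trans ((Nat.modEq_zero_iff_dvd).mpr h3))
    rw [e]
    have h5 := cnt_Ioc A B (Nat.lcm s t * q) n0 (by
      have := Nat.lcm_pos hs ht
      positivity) hAB
    have h6 : ((B : ℝ) - A) / q * ((Nat.gcd s t : ℝ) / (s * t)) = ((B : ℝ) - A) / ((Nat.lcm s t * q : ℕ) : ℝ) := by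
      have h7 : (Nat.gcd s t : ℝ) * (Nat.lcm s t : ℝ) = (s : ℝ) * t := by exact_mod_cast Nat.gcd_mul_lcm s t
      have hl : (0 : ℝ) < Nat.lcm s t := by exact_mod_cast Nat.lcm_pos hs ht
      have hg : (0 : ℝ) < Nat.gcd s t := by exact_mod_cast Nat.gcd_pos_of_pos_left t hs
      have hqr : (0 : ℝ) < q := by exact_mod_cast hq
      rw [← h7]
      push_cast
      field_simp
    rw [h6]
    exact h5
  · have e : ((Ioc A B).filter fun n => n ≡ a [MOD q] ∧ s ∣ n + q * k ∧ t ∣ n + q * k') = ∅ := by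
      rw [filter_eq_empty_iff]
      rintro n - ⟨_, g2, g3⟩
      apply h
      have s1 : n + q * k ≡ 0 [MOD Nat.gcd s t] := (Nat.modEq_zero_iff_dvd).mpr ((Nat.gcd_dvd_left s t).trans g2)
      have s2 : n + q * k' ≡ 0 [MOD Nat.gcd s t] := (Nat.modEq_zero_iff_dvd).mpr ((Nat.gcd_dvd_right s t).trans g3)
      have s3 := Nat.ModEq.add_left_cancel' _ (s1.trans s2.symm)
      have hgq : (Nat.gcd s t).Coprime q := Nat.Coprime.coprime_dvd_left (Nat.gcd_dvd_left s t) hsq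
      exact Nat.ModEq.cancel_left_of_coprime hgq s3
    rw [e]
    simp

/-- the number of `n` with one divisibility -/
theorem cnt_one {s k a A B : ℕ} (hq : 0 < q) (hs : 0 < s) (hsq : s.Coprime q) (hAB : A ≤ B) :
    |(((Ioc A B).filter fun n => n ≡ a [MOD q] ∧ s ∣ n + q * k).card : ℝ) - ((B : ℝ) - A) / q * (1 / (s : ℝ))| ≤ 1 := by
  have h := cnt_pair (q := q) (s := s) (t := 1) (k := k) (k' := k) (a := a) hq hs one_pos hsq (Nat.coprime_one_left q) hAB
  rw [if_pos (Nat.ModEq.refl k)] at h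
  simpa using h

/-- the number of pairs of a class below `H` -/
theorem cnt_kk (H g : ℕ) (hg : 0 < g) :
    |∑ k ∈ range H, ∑ k' ∈ range H, (if k ≡ k' [MOD g] then (1 : ℝ) else 0) - (H : ℝ) ^ 2 / g| ≤ H := by
  have e : ∑ k ∈ range H, ∑ k' ∈ range H, (if k ≡ k' [MOD g] then (1 : ℝ) else 0) - (H : ℝ) ^ 2 / g =
      ∑ k ∈ range H, ((((range H).filter fun n => n ≡ k [MOD g]).card : ℝ) - (H : ℝ) / g) := by
    rw [sum_sub_distrib, sum_const, card_range, nsmul_eq_mul]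
    have h1 : (H : ℝ) * ((H : ℝ) / g) = (H : ℝ) ^ 2 / g := by ring
    rw [h1]
    congr 1
    refine sum_congr rfl fun k _ => ?_
    rw [card_filter]
    push_cast
    refine sum_congr rfl fun k' _ => ?_
    by_cases hk : k ≡ k' [MOD g]
    · rw [if_pos hk, if_pos hk.symm]
    · rw [if_neg hk, if_neg fun h => hk h.symm]
  rw [e]
  refine (abs_sum_le_sum_abs _ _).trans ?_
  refine (sum_le_sum fun k _ => cnt_range H g k hg).trans ?_
  simp

/-- **the variance** -/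
theorem var_abs {ι : Type*} (S : Finset ι) (s : ι → ℕ) (w : ι → ℝ) (hq : 0 < q)
    (hs : ∀ i ∈ S, 0 < s i ∧ (s i).Coprime q) {A B : ℕ} (hAB : A ≤ B) (a H : ℕ) :
    ∑ n ∈ (Ioc A B).filter (fun n => n ≡ a [MOD q]),
      (∑ k ∈ range H, ∑ i ∈ S, (if s i ∣ n + q * k then w i else 0) - H * ∑ i ∈ S, w i / s i) ^ 2 ≤
    ((B : ℝ) - A) / q * (H * ∑ i ∈ S, ∑ j ∈ S, |w i| * |w j| * ((Nat.gcd (s i) (s j) : ℝ) / (s i * s j))) +
      4 * (H * ∑ i ∈ S, |w i|) ^ 2 := by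
  classical
  set N := (Ioc A B).filter (fun n => n ≡ a [MOD q]) with hN
  set V := ∑ i ∈ S, w i / s i with hV
  set W := ∑ i ∈ S, |w i| with hW
  set X := ((B : ℝ) - A) / q with hX
  have hW0 : 0 ≤ W := sum_nonneg fun i _ => abs_nonneg _
  have hVW : |V| ≤ W := by
    refine (abs_sum_le_sum_abs _ _).trans (sum_le_sum fun i hi => ?_)
    rw [abs_div, Nat.abs_cast]
    have h1 : (1 : ℝ) ≤ s i := by exact_mod_cast (hs i hi).1
    exact div_le_self (abs_nonneg _) h1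
  have hX0 : 0 ≤ X := by
    have : (A : ℝ) ≤ B := by exact_mod_cast hAB
    rw [hX]
    apply div_nonneg (by linarith)
    positivity
  -- expansion of the square
  have hexp : ∀ n : ℕ, (∑ k ∈ range H, ∑ i ∈ S, (if s i ∣ n + q * k then w i else 0) - H * V) ^ 2 =
      ∑ i ∈ S, ∑ j ∈ S, w i * w j * ∑ k ∈ range H, ∑ k' ∈ range H,
        (if s i ∣ n + q * k ∧ s j ∣ n + q * k' then (1 : ℝ) else 0) -
      2 * (H * V) * ∑ i ∈ S, w i * ∑ k ∈ range H, (if s i ∣ n + q * k then (1 : ℝ) else 0) + (H * V) ^ 2 := by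
    intro n
    have e1 : ∑ k ∈ range H, ∑ i ∈ S, (if s i ∣ n + q * k then w i else 0) =
        ∑ i ∈ S, w i * ∑ k ∈ range H, (if s i ∣ n + q * k then (1 : ℝ) else 0) := by
      rw [sum_comm]
      refine sum_congr rfl fun i _ => ?_
      rw [mul_sum]
      refine sum_congr rfl fun k _ => ?_
      split_ifs <;> simp
    rw [e1]
    have e2 : (∑ i ∈ S, w i * ∑ k ∈ range H, (if s i ∣ n + q * k then (1 : ℝ) else 0)) ^ 2 =
        ∑ i ∈ S, ∑ j ∈ S, w i * w j * ∑ k ∈ range H, ∑ k' ∈ range H,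
        (if s i ∣ n + q * k ∧ s j ∣ n + q * k' then (1 : ℝ) else 0) := by
      rw [sq, sum_mul_sum]
      refine sum_congr rfl fun i _ => sum_congr rfl fun j _ => ?_
      have e3 : (∑ k ∈ range H, (if s i ∣ n + q * k then (1 : ℝ) else 0)) *
          ∑ k ∈ range H, (if s j ∣ n + q * k then (1 : ℝ) else 0) =
          ∑ k ∈ range H, ∑ k' ∈ range H, (if s i ∣ n + q * k ∧ s j ∣ n + q * k' then (1 : ℝ) else 0) := by
        rw [sum_mul_sum]
        refine sum_congr rfl fun k _ => sum_congr rfl fun k' _ => ?_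
        by_cases h1 : s i ∣ n + q * k <;> by_cases h2 : s j ∣ n + q * k' <;> simp [h1, h2]
      rw [← e3]
      ring
    rw [sub_sq, e2]
    ring
  -- the three sums over `n`
  have hcard : |(N.card : ℝ) - X| ≤ 1 := cnt_Ioc A B q a hq hAB
  have h1 : ∀ i ∈ S, |∑ n ∈ N, ∑ k ∈ range H, (if s i ∣ n + q * k then (1 : ℝ) else 0) - H * (X * (1 / (s i : ℝ)))| ≤ H := by
    intro i hi
    have e : ∑ n ∈ N, ∑ k ∈ range H, (if s i ∣ n + q * k then (1 : ℝ) else 0) - H * (X * (1 / (s i : ℝ))) =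
        ∑ k ∈ range H, ((((Ioc A B).filter fun n => n ≡ a [MOD q] ∧ s i ∣ n + q * k).card : ℝ) -
          X * (1 / (s i : ℝ))) := by
      rw [sum_sub_distrib, sum_const, card_range, nsmul_eq_mul, sum_comm]
      congr 1
      refine sum_congr rfl fun k _ => ?_
      rw [← filter_filter, ← hN, card_filter]
      push_cast
      rfl
    rw [e]
    refine (abs_sum_le_sum_abs _ _).trans ?_
    refine (sum_le_sum fun k _ => cnt_one hq (hs i hi).1 (hs i hi).2 hAB).trans ?_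
    simp
  have h2 : ∀ i ∈ S, ∀ j ∈ S, |∑ n ∈ N, ∑ k ∈ range H, ∑ k' ∈ range H,
        (if s i ∣ n + q * k ∧ s j ∣ n + q * k' then (1 : ℝ) else 0) -
        X * ((H : ℝ) ^ 2 / (s i * s j))| ≤
        X * (H * ((Nat.gcd (s i) (s j) : ℝ) / (s i * s j))) + (H : ℝ) ^ 2 := by
    intro i hi j hj
    set g := Nat.gcd (s i) (s j) with hg
    have hgpos : 0 < g := Nat.gcd_pos_of_pos_left _ (hs i hi).1
    have hsi : (0 : ℝ) < s i := by exact_mod_cast (hs i hi).1
    have hsj : (0 : ℝ) < s j := by exact_mod_cast (hs j hj).1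
    have hgr : (0 : ℝ) < g := by exact_mod_cast hgpos
    have e : ∑ n ∈ N, ∑ k ∈ range H, ∑ k' ∈ range H,
        (if s i ∣ n + q * k ∧ s j ∣ n + q * k' then (1 : ℝ) else 0) =
        ∑ k ∈ range H, ∑ k' ∈ range H,
          (((Ioc A B).filter fun n => n ≡ a [MOD q] ∧ s i ∣ n + q * k ∧ s j ∣ n + q * k').card : ℝ) := by
      rw [sum_comm]
      refine sum_congr rfl fun k _ => ?_
      rw [sum_comm]
      refine sum_congr rfl fun k' _ => ?_
      rw [← filter_filter, ← hN, card_filter]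
      push_cast
      rfl
    rw [e]
    have e2 : ∑ k ∈ range H, ∑ k' ∈ range H,
          (((Ioc A B).filter fun n => n ≡ a [MOD q] ∧ s i ∣ n + q * k ∧ s j ∣ n + q * k').card : ℝ) -
        X * ((H : ℝ) ^ 2 / (s i * s j)) =
        ∑ k ∈ range H, ∑ k' ∈ range H,
          ((((Ioc A B).filter fun n => n ≡ a [MOD q] ∧ s i ∣ n + q * k ∧ s j ∣ n + q * k').card : ℝ) -
            (if k ≡ k' [MOD g] then X * ((g : ℝ) / (s i * s j)) else 0)) +
        X * ((g : ℝ) / (s i * s j)) * (∑ k ∈ range H, ∑ k' ∈ range H, (if k ≡ k' [MOD g] then (1 : ℝ) else 0) -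
          (H : ℝ) ^ 2 / g) := by
      have e3 : ∀ k k' : ℕ, (if k ≡ k' [MOD g] then X * ((g : ℝ) / (s i * s j)) else 0) =
          X * ((g : ℝ) / (s i * s j)) * (if k ≡ k' [MOD g] then (1 : ℝ) else 0) := by
        intro k k'
        split_ifs <;> simp
      simp only [e3, sum_sub_distrib, ← mul_sum]
      field_simp
      ring
    rw [e2]
    refine (abs_add_le _ _).trans ?_
    have f1 : |∑ k ∈ range H, ∑ k' ∈ range H,
          ((((Ioc A B).filter fun n => n ≡ a [MOD q] ∧ s i ∣ n + q * k ∧ s j ∣ n + q * k').card : ℝ) -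
            (if k ≡ k' [MOD g] then X * ((g : ℝ) / (s i * s j)) else 0))| ≤ (H : ℝ) ^ 2 := by
      refine (abs_sum_le_sum_abs _ _).trans ?_
      refine (sum_le_sum fun k _ => (abs_sum_le_sum_abs _ _).trans
        (sum_le_sum fun k' _ => cnt_pair hq (hs i hi).1 (hs j hj).1 (hs i hi).2 (hs j hj).2 hAB)).trans ?_
      simp
      nlinarith
    have f2 : |X * ((g : ℝ) / (s i * s j)) * (∑ k ∈ range H, ∑ k' ∈ range H, (if k ≡ k' [MOD g] then (1 : ℝ) else 0) -
          (H : ℝ) ^ 2 / g)| ≤ X * (H * ((g : ℝ) / (s i * s j))) := by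
      rw [abs_mul, abs_of_nonneg (by positivity : (0 : ℝ) ≤ X * ((g : ℝ) / (s i * s j)))]
      have := mul_le_mul_of_nonneg_left (cnt_kk H g hgpos) (by positivity : (0 : ℝ) ≤ X * ((g : ℝ) / (s i * s j)))
      refine this.trans (le_of_eq ?_)
      ring
    linarith
  -- assembly
  have hsum : ∑ n ∈ N, (∑ k ∈ range H, ∑ i ∈ S, (if s i ∣ n + q * k then w i else 0) - H * V) ^ 2 =
      ∑ i ∈ S, ∑ j ∈ S, w i * w j * (∑ n ∈ N, ∑ k ∈ range H, ∑ k' ∈ range H,
        (if s i ∣ n + q * k ∧ s j ∣ n + q * k' then (1 : ℝ) else 0) - X * ((H : ℝ) ^ 2 / (s i * s j))) -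
      2 * (H * V) * ∑ i ∈ S, w i * (∑ n ∈ N, ∑ k ∈ range H, (if s i ∣ n + q * k then (1 : ℝ) else 0) -
        H * (X * (1 / (s i : ℝ)))) + (H * V) ^ 2 * ((N.card : ℝ) - X) := by
    rw [sum_congr rfl fun n _ => hexp n, sum_add_distrib, sum_sub_distrib, sum_const, nsmul_eq_mul]
    have g1 : ∑ n ∈ N, ∑ i ∈ S, ∑ j ∈ S, w i * w j * ∑ k ∈ range H, ∑ k' ∈ range H,
        (if s i ∣ n + q * k ∧ s j ∣ n + q * k' then (1 : ℝ) else 0) =
        ∑ i ∈ S, ∑ j ∈ S, w i * w j * ∑ n ∈ N, ∑ k ∈ range H, ∑ k' ∈ range H,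
        (if s i ∣ n + q * k ∧ s j ∣ n + q * k' then (1 : ℝ) else 0) := by
      rw [sum_comm]
      refine sum_congr rfl fun i _ => ?_
      rw [sum_comm]
      refine sum_congr rfl fun j _ => ?_
      rw [mul_sum]
    have g2 : ∑ n ∈ N, 2 * (H * V) * ∑ i ∈ S, w i * ∑ k ∈ range H, (if s i ∣ n + q * k then (1 : ℝ) else 0) =
        2 * (H * V) * ∑ i ∈ S, w i * ∑ n ∈ N, ∑ k ∈ range H, (if s i ∣ n + q * k then (1 : ℝ) else 0) := by
      rw [← mul_sum, sum_comm]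
      congr 1
      refine sum_congr rfl fun i _ => ?_
      rw [mul_sum]
    rw [g1, g2]
    have g3 : ∑ i ∈ S, ∑ j ∈ S, w i * w j * (X * ((H : ℝ) ^ 2 / (s i * s j))) = X * (H * V) ^ 2 := by
      have : (H * V) ^ 2 = ∑ i ∈ S, ∑ j ∈ S, ((H : ℝ) * (w i / s i)) * (H * (w j / s j)) := by
        rw [← sum_mul_sum, ← mul_sum, ← hV]
        ring
      rw [this, mul_sum]
      refine sum_congr rfl fun i _ => ?_
      rw [mul_sum]
      refine sum_congr rfl fun j _ => ?_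
      ring
    have g4 : ∑ i ∈ S, w i * (H * (X * (1 / (s i : ℝ)))) = X * (H * V) := by
      rw [hV, mul_sum, mul_sum]
      refine sum_congr rfl fun i _ => ?_
      ring
    simp only [mul_sub, sum_sub_distrib]
    rw [g3, g4]
    ring
  rw [hsum]
  have k1 : ∑ i ∈ S, ∑ j ∈ S, w i * w j * (∑ n ∈ N, ∑ k ∈ range H, ∑ k' ∈ range H,
        (if s i ∣ n + q * k ∧ s j ∣ n + q * k' then (1 : ℝ) else 0) - X * ((H : ℝ) ^ 2 / (s i * s j))) ≤
      X * (H * ∑ i ∈ S, ∑ j ∈ S, |w i| * |w j| * ((Nat.gcd (s i) (s j) : ℝ) / (s i * s j))) + (H * W) ^ 2 := by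
    have k2 : X * (H * ∑ i ∈ S, ∑ j ∈ S, |w i| * |w j| * ((Nat.gcd (s i) (s j) : ℝ) / (s i * s j))) + (H * W) ^ 2 =
        ∑ i ∈ S, ∑ j ∈ S, |w i| * |w j| * (X * (H * ((Nat.gcd (s i) (s j) : ℝ) / (s i * s j))) + (H : ℝ) ^ 2) := by
      have : (H * W) ^ 2 = ∑ i ∈ S, ∑ j ∈ S, |w i| * |w j| * (H : ℝ) ^ 2 := by
        have h3 : (H * W) ^ 2 = ∑ i ∈ S, ∑ j ∈ S, ((H : ℝ) * |w i|) * (H * |w j|) := by
          rw [← sum_mul_sum, ← mul_sum, ← hW]
          ring
        rw [h3]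
        refine sum_congr rfl fun i _ => sum_congr rfl fun j _ => ?_
        ring
      rw [this, mul_sum, mul_sum, ← sum_add_distrib]
      refine sum_congr rfl fun i _ => ?_
      rw [mul_sum, mul_sum, ← sum_add_distrib]
      refine sum_congr rfl fun j _ => ?_
      ring
    rw [k2]
    refine sum_le_sum fun i hi => sum_le_sum fun j hj => ?_
    refine (le_abs_self _).trans ?_
    rw [abs_mul, abs_mul]
    exact mul_le_mul_of_nonneg_left (h2 i hi j hj) (by positivity)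
  have k3 : |2 * (H * V) * ∑ i ∈ S, w i * (∑ n ∈ N, ∑ k ∈ range H, (if s i ∣ n + q * k then (1 : ℝ) else 0) -
        H * (X * (1 / (s i : ℝ))))| ≤ 2 * (H * W) ^ 2 := by
    rw [abs_mul]
    have k4 : |∑ i ∈ S, w i * (∑ n ∈ N, ∑ k ∈ range H, (if s i ∣ n + q * k then (1 : ℝ) else 0) -
        H * (X * (1 / (s i : ℝ))))| ≤ H * W := by
      refine (abs_sum_le_sum_abs _ _).trans ?_
      rw [hW, mul_sum]
      refine sum_le_sum fun i hi => ?_
      rw [abs_mul, mul_comm]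
      exact mul_le_mul_of_nonneg_right (h1 i hi) (abs_nonneg _)
    have k5 : |2 * ((H : ℝ) * V)| ≤ 2 * (H * W) := by
      rw [abs_mul, abs_mul, Nat.abs_cast, abs_of_pos (by norm_num : (0 : ℝ) < 2)]
      have := mul_le_mul_of_nonneg_left hVW (Nat.cast_nonneg (α := ℝ) H)
      linarith
    calc |2 * ((H : ℝ) * V)| * _ ≤ (2 * (H * W)) * (H * W) := mul_le_mul k5 k4 (abs_nonneg _) (by positivity)
      _ = 2 * (H * W) ^ 2 := by ring
  have k6 : (H * V) ^ 2 * ((N.card : ℝ) - X) ≤ (H * W) ^ 2 := by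
    have k7 : (H * V) ^ 2 ≤ (H * W) ^ 2 := by
      rw [mul_pow, mul_pow]
      apply mul_le_mul_of_nonneg_left _ (by positivity)
      exact sq_le_sq' (by linarith [neg_abs_le V]) ((le_abs_self V).trans hVW)
    have k8 : (N.card : ℝ) - X ≤ 1 := (le_abs_self _).trans hcard
    calc (H * V) ^ 2 * ((N.card : ℝ) - X) ≤ (H * V) ^ 2 * 1 := mul_le_mul_of_nonneg_left k8 (by positivity)
      _ ≤ (H * W) ^ 2 := by linarith
  have k9 := (abs_le.mp k3).1
  linarith

end Pool.Agent.Lib.TT
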