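import Pool.Agent.Lib.MP_092512_nt.TT.Def
import Pool.Agent.Lib.MP_7b7e48_nt.TCF.CA1

/-!
# TT / Cv2: sums over tuples of primes

`FB y0 B`: the sets `B c` consist of primes `> y0` and are disjoint. The tuples `f` and their products `mrk f`: divisibility, squarefreeness, injectivity;
`∑_{f, f'} gcd(mrk f, mrk f') / (mrk f mrk f') ≤ ρ ∏ (1 + V_c)`.
-/

set_option autoImplicit false

open Finset

namespace Pool.Agent.Lib.TT

open Pool.Agent.Lib.TCF (pht TUP rho tp mrk sum_tp sum_tp2 sum_mrk mrk_mem)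
open Pool.Agent.Lib.RG (Rough PN)

/-- disjoint sets of primes `> y0` -/
structure FB (y0 : ℕ) {n : ℕ} (B : Fin n → Finset ℕ) : Prop where
  pr : ∀ c, ∀ p ∈ B c, p.Prime ∧ y0 < p
  disj : ∀ c c', c ≠ c' → Disjoint (B c) (B c')

theorem Fam.fb {P : Par} {x y0 n : ℕ} {B : Fin n → Finset ℕ} (h : Fam P x y0 B) : FB y0 B := ⟨h.pr, h.disj⟩

section

variable {y0 n : ℕ} {B : Fin n → Finset ℕ}

theorem fb_prime (hF : FB y0 B) {f : Fin n → ℕ} (hf : f ∈ tp B) (c : Fin n) : (f c).Prime :=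
  (hF.pr c _ (mrk_mem hf c)).1

theorem fb_gt (hF : FB y0 B) {f : Fin n → ℕ} (hf : f ∈ tp B) (c : Fin n) : y0 < f c :=
  (hF.pr c _ (mrk_mem hf c)).2

theorem fb_ne (hF : FB y0 B) {f g : Fin n → ℕ} (hf : f ∈ tp B) (hg : g ∈ tp B)
    {c c' : Fin n} (hc : c ≠ c') : f c ≠ g c' := by
  intro h
  have h1 := Finset.disjoint_left.mp (hF.disj c c' hc) (mrk_mem hf c)
  rw [h] at h1
  exact h1 (mrk_mem hg c')

theorem fb_dvd (hF : FB y0 B) {f : Fin n → ℕ} (hf : f ∈ tp B) (m : ℕ) :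
    mrk f ∣ m ↔ ∀ c, f c ∣ m := by
  constructor
  · intro h c
    exact (Finset.dvd_prod_of_mem f (Finset.mem_univ c)).trans h
  · intro h
    have h1 : ((∏ c, f c : ℕ) : ℤ) ∣ (m : ℤ) := by
      push_cast
      refine Finset.prod_dvd_of_coprime ?_ ?_
      · intro a _ b _ hab
        show IsCoprime (f a : ℤ) (f b : ℤ)
        rw [Nat.isCoprime_iff_coprime]
        exact (Nat.coprime_primes (fb_prime hF hf a) (fb_prime hF hf b)).mpr (fb_ne hF hf hf hab)
      · intro c _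
        exact_mod_cast h c
    exact_mod_cast h1

theorem fb_sq (hF : FB y0 B) {f : Fin n → ℕ} (hf : f ∈ tp B) : 1 ≤ mrk f ∧
    Squarefree (mrk f) ∧ ∀ p : ℕ, p.Prime → (p ∣ mrk f ↔ ∃ c, p = f c) := by
  refine ⟨Finset.prod_pos fun c _ => (fb_prime hF hf c).pos, ?_, fun p hp => ?_⟩
  · unfold mrk
    refine Finset.squarefree_prod_of_pairwise_isCoprime ?_ ?_
    · intro a _ b _ hab
      show IsRelPrime (f a) (f b)
      rw [← Nat.coprime_iff_isRelPrime]
      exact (Nat.coprime_primes (fb_prime hF hf a) (fb_prime hF hf b)).mpr (fb_ne hF hf hf hab)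
    · intro c _
      exact (fb_prime hF hf c).prime.squarefree
  · constructor
    · intro h
      obtain ⟨c, _, hc⟩ := (hp.prime.dvd_finsetProd_iff f).mp h
      exact ⟨c, (Nat.prime_dvd_prime_iff_eq hp (fb_prime hF hf c)).mp hc⟩
    · rintro ⟨c, rfl⟩
      exact Finset.dvd_prod_of_mem f (Finset.mem_univ c)

/-- a product of primes `≤ y0` is coprime to the products of the tuples -/
theorem fb_cop (hF : FB y0 B) {f : Fin n → ℕ} (hf : f ∈ tp B) {d : ℕ}
    (hd : ∀ p : ℕ, p.Prime → p ∣ d → p ≤ y0) : d.Coprime (mrk f) := by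
  rw [Nat.coprime_iff_isRelPrime, ← Nat.coprime_iff_isRelPrime]
  refine Nat.Coprime.symm (Nat.Coprime.prod_left fun c _ => ?_)
  rw [Nat.Prime.coprime_iff_not_dvd (fb_prime hF hf c)]
  intro h
  have h1 := hd _ (fb_prime hF hf c) h
  have h2 := fb_gt hF hf c
  omega

theorem fb_inj (hF : FB y0 B) {f g : Fin n → ℕ} (hf : f ∈ tp B) (hg : g ∈ tp B)
    (h : mrk f = mrk g) : f = g := by
  funext c
  have h1 : f c ∣ mrk g := h ▸ Finset.dvd_prod_of_mem f (Finset.mem_univ c)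
  obtain ⟨c', hc'⟩ := ((fb_sq hF hg).2.2 _ (fb_prime hF hf c)).mp h1
  by_cases hcc : c = c'
  · rw [hc', hcc]
  · exact absurd hc' (fb_ne hF hf hg hcc)

theorem fb_sum (hF : FB y0 B) (g : ℕ → ℝ) : ∑ t ∈ TUP B, g t = ∑ f ∈ tp B, g (mrk f) := by
  unfold TUP
  rw [Finset.sum_image]
  · rfl
  · intro f hf g' hg' h
    exact fb_inj hF hf hg' h

theorem fb_pht (hF : FB y0 B) (m : ℕ) :
    pht B m = ∑ f ∈ tp B, if mrk f ∣ m then (1 : ℝ) else 0 := by
  unfold pht
  have h1 : ∀ c, (((B c).filter fun p => p ∣ m).card : ℝ) = ∑ p ∈ B c, if p ∣ m then (1 : ℝ) else 0 := by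
    intro c
    rw [Finset.card_filter]
    push_cast
    rfl
  simp only [h1]
  rw [Finset.prod_univ_sum]
  refine Finset.sum_congr rfl fun f hf => ?_
  by_cases h : mrk f ∣ m
  · rw [if_pos h]
    have h2 := (fb_dvd hF hf m).mp h
    exact Finset.prod_eq_one fun c _ => if_pos (h2 c)
  · rw [if_neg h]
    have h2 : ¬ ∀ c, f c ∣ m := fun h3 => h ((fb_dvd hF hf m).mpr h3)
    push Not at h2
    obtain ⟨c, hc⟩ := h2
    exact Finset.prod_eq_zero (Finset.mem_univ c) (if_neg hc)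

theorem fb_mrk_le {X : ℝ} (hX : ∀ m ∈ TUP B, (m : ℝ) ≤ X) {f : Fin n → ℕ} (hf : f ∈ tp B) : (mrk f : ℝ) ≤ X :=
  hX _ (Finset.mem_image_of_mem _ hf)

theorem fb_card (hF : FB y0 B) {X : ℝ} (hX0 : 0 ≤ X) (hX : ∀ m ∈ TUP B, (m : ℝ) ≤ X) : ((tp B).card : ℝ) ≤ X := by
  have h1 : (tp B).card ≤ (Finset.Icc 1 ⌊X⌋₊).card := by
    refine Finset.card_le_card_of_injOn mrk ?_ ?_
    · intro f hf
      rw [Finset.mem_coe] at hf
      rw [Finset.mem_coe, Finset.mem_Icc]
      exact ⟨(fb_sq hF hf).1, Nat.le_floor (fb_mrk_le hX hf)⟩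
    · intro f hf g hg h
      exact fb_inj hF hf hg h
  rw [Nat.card_Icc, Nat.add_sub_cancel] at h1
  exact (Nat.cast_le.mpr h1).trans (Nat.floor_le hX0)

theorem fb_gcd (hF : FB y0 B) {f g : Fin n → ℕ} (hf : f ∈ tp B) (hg : g ∈ tp B) :
    Nat.gcd (mrk f) (mrk g) = ∏ c, (if f c = g c then f c else 1) := by
  have e1 : mrk f = (∏ c, (if f c = g c then f c else 1)) * ∏ c, (if f c = g c then 1 else f c) := by
    rw [← prod_mul_distrib]
    unfold mrk
    refine prod_congr rfl fun c _ => ?_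
    split_ifs <;> simp
  have e2 : mrk g = (∏ c, (if f c = g c then f c else 1)) * ∏ c, (if f c = g c then 1 else g c) := by
    rw [← prod_mul_distrib]
    unfold mrk
    refine prod_congr rfl fun c _ => ?_
    split_ifs with h
    · rw [h]; simp
    · simp
  have hco : Nat.Coprime (∏ c, (if f c = g c then 1 else f c)) (∏ c, (if f c = g c then 1 else g c)) := by
    refine Nat.Coprime.prod_left fun c _ => Nat.Coprime.prod_right fun c' _ => ?_
    split_ifs with h1 h2 h2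
    · exact Nat.coprime_one_left _
    · exact Nat.coprime_one_left _
    · exact Nat.coprime_one_right _
    · rw [Nat.coprime_primes (fb_prime hF hf c) (fb_prime hF hg c')]
      by_cases hcc : c = c'
      · subst hcc
        exact h1
      · exact fb_ne hF hf hg hcc
  conv_lhs => rw [e1, e2]
  rw [Nat.gcd_mul_left, Nat.Coprime.gcd_eq_one hco, mul_one]

theorem fb_sum_gcd (hF : FB y0 B) :
    ∑ f ∈ tp B, ∑ g ∈ tp B, (Nat.gcd (mrk f) (mrk g) : ℝ) / (mrk f * mrk g) ≤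
      rho B * ∏ c, (1 + ∑ p ∈ B c, 1 / (p : ℝ)) := by
  have h1 : ∀ f ∈ tp B, ∀ g ∈ tp B, (Nat.gcd (mrk f) (mrk g) : ℝ) / (mrk f * mrk g) =
      ∏ c, ((if f c = g c then (f c : ℝ) else 1) / ((f c : ℝ) * g c)) := by
    intro f hf g hg
    rw [fb_gcd hF hf hg, prod_div_distrib, prod_mul_distrib]
    unfold mrk
    push_cast
    rfl
  rw [sum_congr rfl fun f hf => sum_congr rfl fun g hg => h1 f hf g hg,
    sum_tp2 B fun _ p p' => (if p = p' then (p : ℝ) else 1) / ((p : ℝ) * p')]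
  unfold rho
  rw [← prod_mul_distrib]
  refine prod_le_prod (fun c _ => sum_nonneg fun p _ => sum_nonneg fun p' _ => ?_) fun c _ => ?_
  · split_ifs <;> positivity
  · rw [mul_add, mul_one, sum_mul, ← sum_add_distrib]
    refine sum_le_sum fun p hp => ?_
    have hp0 : (0 : ℝ) < p := by exact_mod_cast (hF.pr c p hp).1.pos
    have h2 : ∀ p' ∈ B c, (if p = p' then (p : ℝ) else 1) / ((p : ℝ) * p') ≤
        1 / (p : ℝ) * (1 / p') + (if p = p' then 1 / (p : ℝ) else 0) := by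
      intro p' hp'
      have hp1 : (0 : ℝ) < p' := by exact_mod_cast (hF.pr c p' hp').1.pos
      split_ifs with h
      · subst h
        have e : (p : ℝ) / ((p : ℝ) * p) = 1 / p := by field_simp
        rw [e]
        have : (0 : ℝ) ≤ 1 / (p : ℝ) * (1 / p) := by positivity
        linarith
      · rw [add_zero]
        exact le_of_eq (by field_simp)
    refine (sum_le_sum h2).trans ?_
    rw [sum_add_distrib, ← mul_sum, sum_ite_eq, if_pos hp]
    linarith

theorem rho_nonneg (B : Fin n → Finset ℕ) : 0 ≤ rho B :=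
  prod_nonneg fun c _ => sum_nonneg fun p _ => by positivity

end

end Pool.Agent.Lib.TT
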