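import Pool.Agent.Lib.MP_092512_nt.TT.Cv1
import Pool.Agent.Lib.MP_092512_nt.TT.Cv2
import Pool.Agent.Lib.MP_7b7e48_nt.TCF.CA0
import Pool.Agent.Lib.MP_7b7e48_nt.TCF.CA0U
import Pool.Agent.Lib.MP_7b7e48_nt.RG.SMc2
import Pool.Agent.Lib.MP_7b7e48_nt.RG.A7

/-!
# TT / Cv3: counting with sieve weights, both directions

`cv_core`: the variance of `∑_{k < H} (∑_{d ∣ n + q k} w d) pht B (n + q k)` around `H V ρ`, `V = ∑ w d / d`, from `Cv1.var_abs` with the moduli `d * mrk f`.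
`cv_low`, `cv_up`: the number of the `n ≡ a` in `(A, B']` for which the weight `∑_{k < H} ph (n + q k)` is `< H θ ρ / 2` resp. `> 2 H θ ρ`, `θ = ∏_{p ≤ y0, p ∤ q} (1 - 1/p)`.
-/

set_option autoImplicit false

open Finset

namespace Pool.Agent.Lib.TT

open Pool.Agent.Lib.TCF (pht TUP rho tp mrk sum_tp sum_tp2 sum_mrk mrk_mem lower_weights_eta upper_weights_eta)
open Pool.Agent.Lib.RG (Rough PN Ew SMc2_sum_le SMc2_sum_gcd prod_upper prod_lower)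

theorem cv_Ew {d : ℕ} (hd : Squarefree d) : Ew (fun p => 1 / (p : ℝ)) (fun _ => 0) d = 1 / (d : ℝ) := by
  unfold Ew
  conv_rhs => rw [← Nat.prod_primeFactors_of_squarefree hd]
  push_cast
  rw [one_div, ← prod_inv_distrib]
  refine prod_congr rfl fun p _ => ?_
  rw [abs_zero, add_zero, abs_of_nonneg (by positivity), one_div]

/-- the sum over the moduli of the sieve -/
theorem cv_dd (P D : Finset ℕ) (hP : ∀ p ∈ P, p.Prime)
    (hD : ∀ d ∈ D, 1 ≤ d ∧ Squarefree d ∧ ∀ p : ℕ, p.Prime → p ∣ d → p ∈ P) :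
    ∑ d ∈ D, ∑ d' ∈ D, (Nat.gcd d d' : ℝ) / (d * d') ≤
      (∏ p ∈ P, (1 + 2 / (p : ℝ))) * ∏ p ∈ P, (1 + 1 / (p : ℝ)) := by
  have h1 : ∀ d ∈ D, ∑ d' ∈ D, (Nat.gcd d d' : ℝ) / (d * d') ≤
      (∏ p ∈ d.primeFactors, 2 / (p : ℝ)) * ∏ p ∈ P, (1 + 1 / (p : ℝ)) := by
    intro d hd
    have hd0 : (0 : ℝ) < d := by exact_mod_cast (hD d hd).1
    have e1 : ∑ d' ∈ D, (Nat.gcd d d' : ℝ) / (d * d') =
        1 / (d : ℝ) * ∑ d' ∈ D, Ew (fun p => 1 / (p : ℝ)) (fun _ => 0) (d' / d.gcd d') := by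
      rw [mul_sum]
      refine sum_congr rfl fun d' hd' => ?_
      have hd'0 : (0 : ℝ) < d' := by exact_mod_cast (hD d' hd').1
      have hg : (0 : ℝ) < d.gcd d' := by exact_mod_cast Nat.gcd_pos_of_pos_left _ (hD d hd).1
      have hsq : Squarefree (d' / d.gcd d') :=
        Squarefree.squarefree_of_dvd (Nat.div_dvd_of_dvd (Nat.gcd_dvd_right _ _)) (hD d' hd').2.1
      rw [cv_Ew hsq, Nat.cast_div (Nat.gcd_dvd_right _ _) hg.ne']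
      field_simp
    rw [e1]
    have h2 := SMc2_sum_gcd P D (fun p => 1 / (p : ℝ)) (fun _ => 0) d (hD d hd).1 hD
    have e2 : ∏ p ∈ P, (1 + (|1 / (p : ℝ)| + |(0 : ℝ)|)) = ∏ p ∈ P, (1 + 1 / (p : ℝ)) := by
      refine prod_congr rfl fun p _ => ?_
      rw [abs_zero, add_zero, abs_of_nonneg (by positivity)]
    rw [e2] at h2
    have e3 : (∏ p ∈ d.primeFactors, 2 / (p : ℝ)) = (d.divisors.card : ℝ) * (1 / d) := by
      rw [prod_div_distrib, prod_const]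
      have hdne : d ≠ 0 := by
        have := (hD d hd).1
        omega
      have h4 := Nat.card_divisors hdne
      have h5 : d.divisors.card = 2 ^ d.primeFactors.card := by
        rw [h4, ← prod_const]
        refine prod_congr rfl fun p hp => ?_
        have h6 : d.factorization p = 1 := by
          have h7 := (hD d hd).2.1.natFactorization_le_one p
          have h8 : 0 < d.factorization p :=
            (Nat.mem_primeFactors.mp hp).1.factorization_pos_of_dvd hdne (Nat.mem_primeFactors.mp hp).2.1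
          omega
        rw [h6]
      rw [h5]
      have h9 : ((∏ p ∈ d.primeFactors, (p : ℝ))) = d := by
        rw [← Nat.cast_prod, Nat.prod_primeFactors_of_squarefree (hD d hd).2.1]
      rw [h9]
      push_cast
      ring
    rw [e3]
    calc 1 / (d : ℝ) * _ ≤ 1 / (d : ℝ) * ((d.divisors.card : ℝ) * ∏ p ∈ P, (1 + 1 / (p : ℝ))) :=
          mul_le_mul_of_nonneg_left h2 (by positivity)
      _ = _ := by ring
  refine (sum_le_sum h1).trans ?_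
  rw [← sum_mul]
  refine mul_le_mul_of_nonneg_right ?_ (prod_nonneg fun p _ => by positivity)
  exact SMc2_sum_le P D (fun p => 2 / (p : ℝ)) (fun p _ => by positivity) hD

section

variable {y0 r : ℕ} {B : Fin r → Finset ℕ}

/-- the sum over all moduli -/
theorem cv_gg (hF : FB y0 B) (P D : Finset ℕ) (hP : ∀ p ∈ P, p.Prime ∧ p ≤ y0)
    (hD : ∀ d ∈ D, 1 ≤ d ∧ Squarefree d ∧ ∀ p : ℕ, p.Prime → p ∣ d → p ∈ P) (w : ℕ → ℝ) (Lam : ℝ)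
    (hw : ∀ d, |w d| ≤ Lam) :
    ∑ i ∈ D ×ˢ tp B, ∑ j ∈ D ×ˢ tp B, |w i.1| * |w j.1| *
      ((Nat.gcd (i.1 * mrk i.2) (j.1 * mrk j.2) : ℝ) / (((i.1 * mrk i.2 : ℕ) : ℝ) * ((j.1 * mrk j.2 : ℕ) : ℝ))) ≤
    Lam ^ 2 * ((∏ p ∈ P, (1 + 2 / (p : ℝ))) * ∏ p ∈ P, (1 + 1 / (p : ℝ))) *
      (rho B * ∏ c, (1 + ∑ p ∈ B c, 1 / (p : ℝ))) := by
  have hL0 : 0 ≤ Lam := (abs_nonneg _).trans (hw 0)
  have h1 : ∀ i ∈ D ×ˢ tp B, ∀ j ∈ D ×ˢ tp B, |w i.1| * |w j.1| *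
      ((Nat.gcd (i.1 * mrk i.2) (j.1 * mrk j.2) : ℝ) / (((i.1 * mrk i.2 : ℕ) : ℝ) * ((j.1 * mrk j.2 : ℕ) : ℝ))) ≤
      Lam ^ 2 * (((Nat.gcd i.1 j.1 : ℝ) / (i.1 * j.1)) * ((Nat.gcd (mrk i.2) (mrk j.2) : ℝ) / (mrk i.2 * mrk j.2))) := by
    rintro ⟨d, f⟩ hi ⟨d', f'⟩ hj
    rw [mem_product] at hi hj
    have c1 : d'.Coprime (mrk f) := fb_cop hF hi.2 fun p hp hpd => (hP p ((hD d' hj.1).2.2 p hp hpd)).2
    have c2 : d.Coprime (mrk f') := fb_cop hF hj.2 fun p hp hpd => (hP p ((hD d hi.1).2.2 p hp hpd)).2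
    have c3 : d'.Coprime (mrk f') := fb_cop hF hj.2 fun p hp hpd => (hP p ((hD d' hj.1).2.2 p hp hpd)).2
    have e1 : Nat.gcd (d * mrk f) (d' * mrk f') = Nat.gcd d d' * Nat.gcd (mrk f) (mrk f') := by
      rw [Nat.Coprime.gcd_mul _ c3, Nat.Coprime.gcd_mul_right_cancel d c1.symm,
        Nat.Coprime.gcd_mul_left_cancel (mrk f) c2]
    have e2 : ((Nat.gcd (d * mrk f) (d' * mrk f') : ℝ) / (((d * mrk f : ℕ) : ℝ) * ((d' * mrk f' : ℕ) : ℝ))) =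
        ((Nat.gcd d d' : ℝ) / (d * d')) * ((Nat.gcd (mrk f) (mrk f') : ℝ) / (mrk f * mrk f')) := by
      rw [e1]
      push_cast
      ring
    show |w d| * |w d'| * ((Nat.gcd (d * mrk f) (d' * mrk f') : ℝ) / (((d * mrk f : ℕ) : ℝ) * ((d' * mrk f' : ℕ) : ℝ))) ≤
      Lam ^ 2 * (((Nat.gcd d d' : ℝ) / (d * d')) * ((Nat.gcd (mrk f) (mrk f') : ℝ) / (mrk f * mrk f')))
    rw [e2]
    refine mul_le_mul_of_nonneg_right ?_ (by positivity)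
    rw [sq]
    exact mul_le_mul (hw d) (hw d') (abs_nonneg _) hL0
  refine (sum_le_sum fun i hi => sum_le_sum fun j hj => h1 i hi j hj).trans ?_
  have e3 : ∑ i ∈ D ×ˢ tp B, ∑ j ∈ D ×ˢ tp B,
      Lam ^ 2 * (((Nat.gcd i.1 j.1 : ℝ) / (i.1 * j.1)) * ((Nat.gcd (mrk i.2) (mrk j.2) : ℝ) / (mrk i.2 * mrk j.2))) =
      Lam ^ 2 * (∑ d ∈ D, ∑ d' ∈ D, (Nat.gcd d d' : ℝ) / (d * d')) *
        ∑ f ∈ tp B, ∑ g ∈ tp B, (Nat.gcd (mrk f) (mrk g) : ℝ) / (mrk f * mrk g) := by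
    simp only [sum_product]
    rw [mul_assoc, sum_mul_sum, mul_sum]
    refine sum_congr rfl fun d _ => ?_
    rw [mul_sum]
    refine sum_congr rfl fun f _ => ?_
    rw [sum_mul_sum, mul_sum]
    refine sum_congr rfl fun d' _ => ?_
    rw [mul_sum]
  rw [e3]
  refine mul_le_mul (mul_le_mul_of_nonneg_left (cv_dd P D (fun p hp => (hP p hp).1) hD) (by positivity))
    (fb_sum_gcd hF) (sum_nonneg fun f _ => sum_nonneg fun g _ => by positivity) ?_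
  have h5 : (0 : ℝ) ≤ ∏ p ∈ P, (1 + 2 / (p : ℝ)) := prod_nonneg fun p _ => by positivity
  have h6 : (0 : ℝ) ≤ ∏ p ∈ P, (1 + 1 / (p : ℝ)) := prod_nonneg fun p _ => by positivity
  positivity

theorem mem_PN {q z p : ℕ} : p ∈ PN q z ↔ p.Prime ∧ p ≤ z ∧ ¬ p ∣ q := by
  unfold PN
  rw [mem_filter, mem_range]
  constructor
  · rintro ⟨h1, h2, h3⟩
    exact ⟨h2, by omega, h3⟩
  · rintro ⟨h1, h2, h3⟩
    exact ⟨by omega, h1, h3⟩

/-- the weighted sum as a sum over moduli -/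
theorem cv_split (hF : FB y0 B) (P D : Finset ℕ) (hP : ∀ p ∈ P, p.Prime ∧ p ≤ y0)
    (hD : ∀ d ∈ D, 1 ≤ d ∧ Squarefree d ∧ ∀ p : ℕ, p.Prime → p ∣ d → p ∈ P) (w : ℕ → ℝ) (m : ℕ) :
    ∑ i ∈ D ×ˢ tp B, (if i.1 * mrk i.2 ∣ m then w i.1 else 0) = (∑ d ∈ D with d ∣ m, w d) * pht B m := by
  rw [fb_pht hF, sum_filter, sum_mul_sum, sum_product]
  refine sum_congr rfl fun d hd => sum_congr rfl fun f hf => ?_
  have c1 : d.Coprime (mrk f) := fb_cop hF hf fun p hp hpd => (hP p ((hD d hd).2.2 p hp hpd)).2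
  have h1 : d * mrk f ∣ m ↔ d ∣ m ∧ mrk f ∣ m :=
    ⟨fun h => ⟨(Dvd.intro _ rfl).trans h, (Dvd.intro_left _ rfl).trans h⟩, fun h => c1.mul_dvd_of_dvd_of_dvd h.1 h.2⟩
  by_cases h2 : d ∣ m <;> by_cases h3 : mrk f ∣ m <;> simp [h1, h2, h3]

/-- the variance for sieve weights -/
theorem cv_core : ∃ C : ℝ, 1 ≤ C ∧ ∀ (q y0 r : ℕ) (B : Fin r → Finset ℕ), 1 ≤ q → 2 ≤ y0 → q ≤ y0 → FB y0 B →
    ∀ (D : Finset ℕ) (w : ℕ → ℝ) (K0 : ℕ) (X : ℝ), 0 ≤ X → (∀ m ∈ TUP B, (m : ℝ) ≤ X) →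
    (∀ d ∈ D, 1 ≤ d ∧ Squarefree d ∧ ∀ p : ℕ, p.Prime → p ∣ d → p ∈ PN q y0) →
    (∀ d : ℕ, |w d| ≤ 2 + 2 * Real.log y0) → (∑ d ∈ D, |w d| ≤ (y0 : ℝ) ^ K0) →
    ∀ (A A' a H : ℕ), A ≤ A' →
    ∑ n ∈ (Ioc A A').filter (fun n => n ≡ a [MOD q]),
      (∑ k ∈ range H, (∑ d ∈ D with d ∣ n + q * k, w d) * pht B (n + q * k) - H * ((∑ d ∈ D, w d / d) * rho B)) ^ 2 ≤
    ((A' : ℝ) - A) / q * (H * (C * (1 + Real.log y0) ^ 5 * (rho B * ∏ c, (1 + ∑ p ∈ B c, 1 / (p : ℝ))))) +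
      4 * (H * ((y0 : ℝ) ^ K0 * X)) ^ 2 := by
  obtain ⟨C1, hC1, H1⟩ := prod_upper 1
  obtain ⟨C2, hC2, H2⟩ := prod_upper 2
  refine ⟨4 * (C2 * C1), by nlinarith, ?_⟩
  intro q y0 r B hq hy0 hqy hF D w K0 X hX0 hX hD hw hw1 A A' a H hAA
  have hP : ∀ p ∈ PN q y0, p.Prime ∧ p ≤ y0 := fun p hp => ⟨(mem_PN.mp hp).1, (mem_PN.mp hp).2.1⟩
  have hcop : ∀ i ∈ D ×ˢ tp B, 0 < i.1 * mrk i.2 ∧ (i.1 * mrk i.2).Coprime q := by
    rintro ⟨d, f⟩ hi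
    rw [mem_product] at hi
    refine ⟨Nat.mul_pos (hD d hi.1).1 (fb_sq hF hi.2).1, ?_⟩
    refine Nat.Coprime.mul_left ?_ ?_
    · rw [Nat.coprime_iff_isRelPrime, ← Nat.coprime_iff_isRelPrime]
      by_contra hc
      obtain ⟨p, hp, h1, h2⟩ := Nat.Prime.not_coprime_iff_dvd.mp hc
      exact (mem_PN.mp ((hD d hi.1).2.2 p hp h1)).2.2 h2
    · refine Nat.Coprime.symm (fb_cop hF hi.2 fun p hp hpd => ?_)
      exact (Nat.le_of_dvd (by omega) hpd).trans hqy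
  have hv := var_abs (q := q) (D ×ˢ tp B) (fun i => i.1 * mrk i.2) (fun i => w i.1) (by omega) hcop hAA a H
  have e1 : ∀ n k : ℕ, ∑ i ∈ D ×ˢ tp B, (if i.1 * mrk i.2 ∣ n + q * k then w i.1 else 0) =
      (∑ d ∈ D with d ∣ n + q * k, w d) * pht B (n + q * k) := fun n k => cv_split hF (PN q y0) D hP hD w _
  have e2 : ∑ i ∈ D ×ˢ tp B, w i.1 / ((i.1 * mrk i.2 : ℕ) : ℝ) = (∑ d ∈ D, w d / d) * rho B := by
    rw [← sum_mrk, sum_mul_sum, sum_product]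
    refine sum_congr rfl fun d _ => sum_congr rfl fun f _ => ?_
    push_cast
    ring
  have e3 : ∑ i ∈ D ×ˢ tp B, |w i.1| = (∑ d ∈ D, |w d|) * (tp B).card := by
    rw [sum_product, sum_mul]
    refine sum_congr rfl fun d _ => ?_
    show ∑ _f ∈ tp B, |w d| = |w d| * ((tp B).card : ℝ)
    rw [sum_const, nsmul_eq_mul, mul_comm]
  simp only [e1, e2, e3] at hv
  refine hv.trans ?_
  have hlog0 : 0 ≤ Real.log y0 := Real.log_natCast_nonneg y0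
  have hX' : (0 : ℝ) ≤ ((A' : ℝ) - A) / q := by
    have : (A : ℝ) ≤ A' := by exact_mod_cast hAA
    apply div_nonneg (by linarith)
    positivity
  have hpi0 : 0 ≤ rho B * ∏ c, (1 + ∑ p ∈ B c, 1 / (p : ℝ)) := by
    refine mul_nonneg (rho_nonneg B) (prod_nonneg fun c _ => ?_)
    have : (0 : ℝ) ≤ ∑ p ∈ B c, 1 / (p : ℝ) := sum_nonneg fun p _ => by positivity
    linarith
  have g1 := cv_gg hF (PN q y0) D hP hD w (2 + 2 * Real.log y0) hw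
  have g2 : (2 + 2 * Real.log y0) ^ 2 * ((∏ p ∈ PN q y0, (1 + 2 / (p : ℝ))) * ∏ p ∈ PN q y0, (1 + 1 / (p : ℝ))) ≤
      4 * (C2 * C1) * (1 + Real.log y0) ^ 5 := by
    have h1 := H1 y0 hy0 (PN q y0) hP
    have h2 := H2 y0 hy0 (PN q y0) hP
    norm_num at h1 h2
    have h3 : (0 : ℝ) ≤ ∏ p ∈ PN q y0, (1 + 1 / (p : ℝ)) := prod_nonneg fun p _ => by positivity
    have h4 : (∏ p ∈ PN q y0, (1 + 2 / (p : ℝ))) * ∏ p ∈ PN q y0, (1 + 1 / (p : ℝ)) ≤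
        (C2 * (1 + Real.log y0) ^ 2) * (C1 * (1 + Real.log y0)) := by
      refine mul_le_mul h2 ?_ h3 (by positivity)
      simpa [one_div] using h1
    calc (2 + 2 * Real.log y0) ^ 2 * ((∏ p ∈ PN q y0, (1 + 2 / (p : ℝ))) * ∏ p ∈ PN q y0, (1 + 1 / (p : ℝ))) ≤
        (2 + 2 * Real.log y0) ^ 2 * ((C2 * (1 + Real.log y0) ^ 2) * (C1 * (1 + Real.log y0))) :=
          mul_le_mul_of_nonneg_left h4 (by positivity)
      _ = 4 * (C2 * C1) * (1 + Real.log y0) ^ 5 := by ring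
  have g3 : (∑ d ∈ D, |w d|) * ((tp B).card : ℝ) ≤ (y0 : ℝ) ^ K0 * X :=
    mul_le_mul hw1 (fb_card hF hX0 hX) (Nat.cast_nonneg _) (by positivity)
  have g4 : (0 : ℝ) ≤ (∑ d ∈ D, |w d|) * ((tp B).card : ℝ) :=
    mul_nonneg (sum_nonneg fun d _ => abs_nonneg _) (Nat.cast_nonneg _)
  refine add_le_add ?_ ?_
  · refine mul_le_mul_of_nonneg_left ?_ hX'
    refine mul_le_mul_of_nonneg_left ?_ (Nat.cast_nonneg _)
    exact g1.trans (mul_le_mul_of_nonneg_right g2 hpi0)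
  · gcongr

end

end Pool.Agent.Lib.TT
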