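import Pool.Agent.Lib.MP_092512_nt.TT.Cv3

/-!
# TT / Cv4: the number of windows with too little or too much weight

From `Cv3.cv_core` with the sieve weights `TCF.CA0`, `TCF.CA0U` (`η = 1/4`).
-/

set_option autoImplicit false

open Finset

namespace Pool.Agent.Lib.TT

open Pool.Agent.Lib.TCF (pht TUP rho tp mrk sum_tp sum_tp2 sum_mrk mrk_mem lower_weights_eta upper_weights_eta)
open Pool.Agent.Lib.RG (Rough PN Ew SMc2_sum_le SMc2_sum_gcd prod_upper prod_lower)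

section

variable {y0 r : ℕ} {B : Fin r → Finset ℕ}

theorem pht_nonneg (B : Fin r → Finset ℕ) (m : ℕ) : 0 ≤ pht B m := prod_nonneg fun _ _ => Nat.cast_nonneg _

theorem cv_rough {q y0 m : ℕ} (hm : m.Coprime q) : (∀ p ∈ PN q y0, ¬ p ∣ m) ↔ Rough y0 m := by
  constructor
  · intro h p hp hpm
    by_contra hc
    have hpq : ¬ p ∣ q := by
      intro hpq
      exact hp.one_lt.ne' (Nat.eq_one_of_dvd_coprimes hm hpm hpq)
    exact h p (mem_PN.mpr ⟨hp, by omega, hpq⟩) hpm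
  · intro h p hp hpm
    have h1 := h p (mem_PN.mp hp).1 hpm
    have h2 := (mem_PN.mp hp).2.1
    omega

theorem cv_cop {q n a k : ℕ} (h : n ≡ a [MOD q]) (ha : a.Coprime q) : (n + q * k).Coprime q := by
  have h1 : n.Coprime q := by
    have := h.gcd_eq
    unfold Nat.Coprime at *
    rw [this, ha]
  rwa [Nat.coprime_add_mul_left_left]

/-- Markov for squares -/
theorem cv_markov {S : Finset ℕ} {g : ℕ → ℝ} {t R : ℝ} (h : ∑ n ∈ S, g n ^ 2 ≤ R) (T : Finset ℕ) (hT : T ⊆ S)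
    (hg : ∀ n ∈ T, t ^ 2 ≤ g n ^ 2) : (T.card : ℝ) * t ^ 2 ≤ R := by
  refine le_trans ?_ h
  rw [← nsmul_eq_mul, ← sum_const]
  exact (sum_le_sum hg).trans (sum_le_sum_of_subset_of_nonneg hT fun n _ _ => sq_nonneg _)

open Classical in
/-- windows with too little weight -/
theorem cv_low : ∃ (K0 : ℕ) (C : ℝ), 1 ≤ C ∧ ∀ (q y0 r : ℕ) (B : Fin r → Finset ℕ), 1 ≤ q → 2 ≤ y0 → q ≤ y0 → FB y0 B →
    ∀ (X : ℝ), 0 ≤ X → (∀ m ∈ TUP B, (m : ℝ) ≤ X) →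
    ∀ (A A' a H : ℕ), A ≤ A' → a.Coprime q →
    (((Ioc A A').filter (fun n => n ≡ a [MOD q] ∧ ∑ k ∈ range H, ph y0 B (n + q * k) <
      H * ((∏ p ∈ PN q y0, (1 - 1 / (p : ℝ))) * rho B) / 2)).card : ℝ) *
      (H * ((∏ p ∈ PN q y0, (1 - 1 / (p : ℝ))) * rho B) / 4) ^ 2 ≤
    ((A' : ℝ) - A) / q * (H * (C * (1 + Real.log y0) ^ 5 * (rho B * ∏ c, (1 + ∑ p ∈ B c, 1 / (p : ℝ))))) +
      4 * (H * ((y0 : ℝ) ^ K0 * X)) ^ 2 := by
  obtain ⟨C, hC, hcore⟩ := cv_core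
  obtain ⟨K0, _, hw⟩ := lower_weights_eta (1 / 4) (by norm_num)
  refine ⟨K0, C, hC, ?_⟩
  intro q y0 r B hq hy0 hqy hF X hX0 hX A A' a H hAA ha
  have hP : ∀ p ∈ PN q y0, p.Prime ∧ p ≤ y0 := fun p hp => ⟨(mem_PN.mp hp).1, (mem_PN.mp hp).2.1⟩
  obtain ⟨D, w, h1, h2, h3, h4, h5⟩ := hw y0 hy0 (PN q y0) hP
  have hc := hcore q y0 r B hq hy0 hqy hF D w K0 X hX0 hX (fun d hd => ⟨(h1 d hd).1, (h1 d hd).2.2.1, (h1 d hd).2.2.2⟩)
    h2 h3 A A' a H hAA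
  refine cv_markov hc _ ?_ ?_
  · intro n hn
    rw [mem_filter] at hn ⊢
    exact ⟨hn.1, hn.2.1⟩
  · intro n hn
    rw [mem_filter] at hn
    obtain ⟨hn1, hn2, hn3⟩ := hn
    have g1 : ∑ k ∈ range H, (∑ d ∈ D with d ∣ n + q * k, w d) * pht B (n + q * k) ≤
        ∑ k ∈ range H, ph y0 B (n + q * k) := by
      refine sum_le_sum fun k _ => ?_
      refine (mul_le_mul_of_nonneg_right (h4 _) (pht_nonneg B _)).trans ?_
      unfold ph
      have := cv_rough (y0 := y0) (cv_cop (k := k) hn2 ha)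
      by_cases hr : Rough y0 (n + q * k)
      · rw [if_pos (this.mpr hr), if_pos hr, one_mul]
      · rw [if_neg fun h => hr (this.mp h), if_neg hr, zero_mul]
    have g2 : H * ((∏ p ∈ PN q y0, (1 - 1 / (p : ℝ))) * rho B) * (3 / 4) ≤ H * ((∑ d ∈ D, w d / d) * rho B) := by
      have g3 := mul_le_mul_of_nonneg_left (mul_le_mul_of_nonneg_right h5 (rho_nonneg B)) (Nat.cast_nonneg (α := ℝ) H)
      linarith
    have hth : 0 ≤ H * ((∏ p ∈ PN q y0, (1 - 1 / (p : ℝ))) * rho B) := by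
      refine mul_nonneg (Nat.cast_nonneg _) (mul_nonneg (prod_nonneg fun p hp => ?_) (rho_nonneg B))
      have h6 : (1 : ℝ) ≤ p := by exact_mod_cast (hP p hp).1.one_le
      rw [sub_nonneg, div_le_one (by linarith)]
      exact h6
    have g4 : H * ((∏ p ∈ PN q y0, (1 - 1 / (p : ℝ))) * rho B) / 4 ≤
        H * ((∑ d ∈ D, w d / d) * rho B) - ∑ k ∈ range H, (∑ d ∈ D with d ∣ n + q * k, w d) * pht B (n + q * k) := by
      linarith
    rw [← neg_sq (_ - _)]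
    have g5 := pow_le_pow_left₀ (by linarith) g4 2
    refine g5.trans (le_of_eq ?_)
    ring

open Classical in
/-- windows with too much weight -/
theorem cv_up : ∃ (K0 : ℕ) (C : ℝ), 1 ≤ C ∧ ∀ (q y0 r : ℕ) (B : Fin r → Finset ℕ), 1 ≤ q → 2 ≤ y0 → q ≤ y0 → FB y0 B →
    ∀ (X : ℝ), 0 ≤ X → (∀ m ∈ TUP B, (m : ℝ) ≤ X) →
    ∀ (A A' a H : ℕ), A ≤ A' → a.Coprime q →
    (((Ioc A A').filter (fun n => n ≡ a [MOD q] ∧ 3 / 2 * (H * ((∏ p ∈ PN q y0, (1 - 1 / (p : ℝ))) * rho B)) <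
      ∑ k ∈ range H, ph y0 B (n + q * k))).card : ℝ) *
      (H * ((∏ p ∈ PN q y0, (1 - 1 / (p : ℝ))) * rho B) / 4) ^ 2 ≤
    ((A' : ℝ) - A) / q * (H * (C * (1 + Real.log y0) ^ 5 * (rho B * ∏ c, (1 + ∑ p ∈ B c, 1 / (p : ℝ))))) +
      4 * (H * ((y0 : ℝ) ^ K0 * X)) ^ 2 := by
  obtain ⟨C, hC, hcore⟩ := cv_core
  obtain ⟨K0, _, hw⟩ := upper_weights_eta (1 / 4) (by norm_num)
  refine ⟨K0, C, hC, ?_⟩
  intro q y0 r B hq hy0 hqy hF X hX0 hX A A' a H hAA ha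
  have hP : ∀ p ∈ PN q y0, p.Prime ∧ p ≤ y0 := fun p hp => ⟨(mem_PN.mp hp).1, (mem_PN.mp hp).2.1⟩
  obtain ⟨D, w, h1, h2, h3, h4, h5, -⟩ := hw y0 hy0 (PN q y0) hP
  have hc := hcore q y0 r B hq hy0 hqy hF D w K0 X hX0 hX (fun d hd => ⟨(h1 d hd).1, (h1 d hd).2.2.1, (h1 d hd).2.2.2⟩)
    h2 h3 A A' a H hAA
  refine cv_markov hc _ ?_ ?_
  · intro n hn
    rw [mem_filter] at hn ⊢
    exact ⟨hn.1, hn.2.1⟩
  · intro n hn
    rw [mem_filter] at hn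
    obtain ⟨hn1, hn2, hn3⟩ := hn
    have g1 : ∑ k ∈ range H, ph y0 B (n + q * k) ≤
        ∑ k ∈ range H, (∑ d ∈ D with d ∣ n + q * k, w d) * pht B (n + q * k) := by
      refine sum_le_sum fun k _ => ?_
      refine le_trans ?_ (mul_le_mul_of_nonneg_right (h4 _) (pht_nonneg B _))
      unfold ph
      have := cv_rough (y0 := y0) (cv_cop (k := k) hn2 ha)
      by_cases hr : Rough y0 (n + q * k)
      · rw [if_pos (this.mpr hr), if_pos hr, one_mul]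
      · rw [if_neg fun h => hr (this.mp h), if_neg hr, zero_mul]
    have g2 : H * ((∑ d ∈ D, w d / d) * rho B) ≤ H * ((∏ p ∈ PN q y0, (1 - 1 / (p : ℝ))) * rho B) * (5 / 4) := by
      have g3 := mul_le_mul_of_nonneg_left (mul_le_mul_of_nonneg_right h5 (rho_nonneg B)) (Nat.cast_nonneg (α := ℝ) H)
      linarith
    have hth : 0 ≤ H * ((∏ p ∈ PN q y0, (1 - 1 / (p : ℝ))) * rho B) := by
      refine mul_nonneg (Nat.cast_nonneg _) (mul_nonneg (prod_nonneg fun p hp => ?_) (rho_nonneg B))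
      have h6 : (1 : ℝ) ≤ p := by exact_mod_cast (hP p hp).1.one_le
      rw [sub_nonneg, div_le_one (by linarith)]
      exact h6
    have g4 : H * ((∏ p ∈ PN q y0, (1 - 1 / (p : ℝ))) * rho B) / 4 ≤
        ∑ k ∈ range H, (∑ d ∈ D with d ∣ n + q * k, w d) * pht B (n + q * k) - H * ((∑ d ∈ D, w d / d) * rho B) := by
      linarith
    exact pow_le_pow_left₀ (by linarith) g4 2

end

end Pool.Agent.Lib.TT
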