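import Pool.Agent.Lib.MP_092512_nt.TT.Cv4

/-!
# TT / Cv5: windows with too little or too much weight, for all `n` of `(u, 2u]`

The window `[n, n + q H)` and the class `a` contain exactly the numbers `n' + q k`, `k < H`, where `n'` is the first number `≥ n` of the class; a number `n'` belongs to at most `q` windows.
With `1/θ ≤ K`, `C (1 + log y0)^5 ≤ K`: the number of bad `n` times `H ρ` is at most `K^6 u`.
-/

set_option autoImplicit false

open Finset

namespace Pool.Agent.Lib.TT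

open Pool.Agent.Lib.TCF (pht TUP rho tp mrk)
open Pool.Agent.Lib.RG (Rough PN prod_lower)

/-! ## growth -/

theorem ev_pow (n : ℕ) (ε : ℝ) (hε : 0 < ε) : ∃ x0 : ℕ, ∀ x : ℕ, x0 ≤ x → (Real.log x) ^ n ≤ (x : ℝ) ^ ε := by
  have h := (isLittleO_log_rpow_rpow_atTop (n : ℝ) hε).bound (c := 1) one_pos
  have h2 := (Filter.tendsto_atTop.mp tendsto_natCast_atTop_atTop (1 : ℝ)).and (tendsto_natCast_atTop_atTop.eventually h)
  obtain ⟨x0, hx0⟩ := Filter.eventually_atTop.mp h2
  refine ⟨x0, fun x hx => ?_⟩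
  obtain ⟨h3, h4⟩ := hx0 x hx
  rw [Real.rpow_natCast, one_mul, Real.norm_eq_abs, Real.norm_eq_abs] at h4
  have h5 : 0 ≤ Real.log x := Real.log_natCast_nonneg x
  rw [abs_of_nonneg (by positivity), abs_of_nonneg (by positivity)] at h4
  exact h4

theorem ev_log (C c : ℝ) (n : ℕ) (hc : 0 ≤ c) : ∃ K1 : ℝ, 1 ≤ K1 ∧ ∀ K : ℝ, K1 ≤ K → C * (1 + c * Real.log K) ^ n ≤ K := by
  have h := (isLittleO_log_rpow_rpow_atTop (n : ℝ) one_pos).bound (c := 1 / (|C| * (1 + c) ^ n + 1)) (by positivity)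
  obtain ⟨K1, hK1⟩ := Filter.eventually_atTop.mp (h.and (Filter.eventually_ge_atTop (Real.exp 1)))
  refine ⟨max K1 1, le_max_right _ _, fun K hK => ?_⟩
  obtain ⟨h3, h4⟩ := hK1 K ((le_max_left _ _).trans hK)
  have hK0 : 0 < K := (Real.exp_pos 1).trans_le h4
  have h5 : 1 ≤ Real.log K := (Real.le_log_iff_exp_le hK0).mpr h4
  rw [Real.rpow_natCast, Real.rpow_one, Real.norm_eq_abs, Real.norm_eq_abs, abs_of_nonneg (by positivity),
    abs_of_nonneg hK0.le] at h3
  have h6 : 0 ≤ |C| * (1 + c) ^ n := by positivity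
  have h7 : (1 + c * Real.log K) ^ n ≤ (1 + c) ^ n * (Real.log K) ^ n := by
    rw [← mul_pow]
    refine pow_le_pow_left₀ (by positivity) ?_ n
    nlinarith
  have h8 : (|C| * (1 + c) ^ n + 1) * (Real.log K) ^ n ≤ K := by
    have := mul_le_mul_of_nonneg_left h3 (by positivity : 0 ≤ |C| * (1 + c) ^ n + 1)
    refine this.trans (le_of_eq ?_)
    field_simp
  calc C * (1 + c * Real.log K) ^ n ≤ |C| * (1 + c * Real.log K) ^ n :=
        mul_le_mul_of_nonneg_right (le_abs_self C) (by positivity)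
    _ ≤ |C| * ((1 + c) ^ n * (Real.log K) ^ n) := mul_le_mul_of_nonneg_left h7 (abs_nonneg C)
    _ ≤ (|C| * (1 + c) ^ n + 1) * (Real.log K) ^ n := by nlinarith [pow_nonneg (zero_le_one.trans h5) n]
    _ ≤ K := h8

theorem ev_nat (C : ℝ) : ∃ x0 : ℕ, ∀ x : ℕ, x0 ≤ x → C ≤ Real.log x := by
  have h := Filter.tendsto_atTop.mp (Real.tendsto_log_atTop.comp tendsto_natCast_atTop_atTop) C
  obtain ⟨x0, hx0⟩ := Filter.eventually_atTop.mp h
  exact ⟨x0, fun x hx => hx0 x hx⟩

/-! ## windows -/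

section

variable {q : ℕ} [NeZero q]

/-- the first number `≥ n` of the class `a` -/
def nx (a : ZMod q) (n : ℕ) : ℕ := n + (a - (n : ZMod q)).val

theorem nx_cast (a : ZMod q) (n : ℕ) : ((nx a n : ℕ) : ZMod q) = a := by
  unfold nx
  push_cast
  rw [ZMod.natCast_zmod_val]
  ring

theorem nx_ge (a : ZMod q) (n : ℕ) : n ≤ nx a n := Nat.le_add_right _ _

theorem nx_lt (a : ZMod q) (n : ℕ) : nx a n < n + q := by
  unfold nx
  have := ZMod.val_lt (a - (n : ZMod q))
  omega

open Classical in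
theorem win_image (a : ZMod q) (n H : ℕ) :
    (Ico n (n + q * H)).filter (fun X : ℕ => (X : ZMod q) = a) = (range H).image fun k => nx a n + q * k := by
  have hq : 0 < q := Nat.pos_of_ne_zero (NeZero.ne q)
  ext X
  rw [mem_filter, mem_Ico, mem_image]
  have h1 := nx_ge a n
  have h2 := nx_lt a n
  constructor
  · rintro ⟨⟨h3, h4⟩, h5⟩
    have h6 : X ≡ nx a n [MOD q] := by
      rw [← ZMod.natCast_eq_natCast_iff, h5, nx_cast]
    have h7 : nx a n ≤ X := by
      by_contra hc
      push Not at hc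
      have h8 : X % q = nx a n % q := h6
      have h9 : (q : ℕ) ∣ nx a n - X := (Nat.modEq_iff_dvd' hc.le).mp h6
      have h10 := Nat.le_of_dvd (by omega) h9
      omega
    have h9 : (q : ℕ) ∣ X - nx a n := (Nat.modEq_iff_dvd' h7).mp h6.symm
    obtain ⟨k, hk⟩ := h9
    refine ⟨k, ?_, by omega⟩
    rw [mem_range]
    by_contra hc
    push Not at hc
    have h11 : q * H ≤ q * k := Nat.mul_le_mul_left q hc
    omega
  · rintro ⟨k, hk, rfl⟩
    rw [mem_range] at hk
    refine ⟨⟨by omega, ?_⟩, ?_⟩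
    · have h11 : q * (k + 1) ≤ q * H := Nat.mul_le_mul_left q hk
      rw [mul_add, mul_one] at h11
      omega
    · push_cast
      rw [nx_cast]
      simp

open Classical in
theorem win_sum (a : ZMod q) (n H : ℕ) (g : ℕ → ℝ) :
    ∑ X ∈ (Ico n (n + q * H)).filter (fun X : ℕ => (X : ZMod q) = a), g X = ∑ k ∈ range H, g (nx a n + q * k) := by
  have hq : 0 < q := Nat.pos_of_ne_zero (NeZero.ne q)
  rw [win_image, sum_image]
  intro k _ k' _ h
  have h1 : q * k = q * k' := by
    have h2 : nx a n + q * k = nx a n + q * k' := h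
    omega
  exact Nat.eq_of_mul_eq_mul_left hq h1

open Classical in
/-- the bad `n` and the bad `n'` -/
theorem win_count (a : ZMod q) (u v : ℕ) (Q : ℕ → Prop) :
    ((Ioc u v).filter fun n => Q (nx a n)).card ≤
      q * ((Ioc u (v + q)).filter fun n => n ≡ a.val [MOD q] ∧ Q n).card := by
  refine card_le_mul_card_image_of_maps_to (f := nx a) ?_ q ?_
  · intro n hn
    rw [mem_filter, mem_Ioc] at hn
    rw [mem_filter, mem_Ioc]
    have h1 := nx_ge a n
    have h2 := nx_lt a n
    refine ⟨⟨by omega, by omega⟩, ?_, hn.2⟩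
    rw [← ZMod.natCast_eq_natCast_iff, nx_cast, ZMod.natCast_zmod_val]
  · intro m hm
    have h3 : ((Ioc u v).filter fun n => Q (nx a n)).filter (fun n => nx a n = m) ⊆ Ioc (m - q) m := by
      intro n hn
      rw [mem_filter, mem_filter] at hn
      have h1 := nx_ge a n
      have h2 := nx_lt a n
      rw [mem_Ioc]
      have hq : 0 < q := Nat.pos_of_ne_zero (NeZero.ne q)
      have h4 := mem_Ioc.mp hn.1.1
      have h5 := hn.2
      omega
    refine (card_le_card h3).trans ?_
    rw [Nat.card_Ioc]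
    omega

end

end Pool.Agent.Lib.TT
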