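import Pool.Agent.Lib.MP_092512_nt.TT.Nb
import Pool.Agent.Lib.MP_092512_nt.TT.Cl

/-!
# TT / Good (75 minutes): (2.2): most places are good

Text (2.2). `GOOD` as a structure; exceptions: `cl` for the `X`-windows at `w` and at `w / l` (each value has `≤ l` preimages), `cl` and `bs` (for `1` and `l`) for the `Y`-window at `yw` (injective in `w`), `nb` with Markov.
-/

set_option autoImplicit false

open Finset

namespace Pool.Agent.Lib.TT

open Pool.Agent.Lib.TCF (pht TUP rho)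
open Pool.Agent.Lib.RG (Rough PN)
open Pool.Agent.Lib.MP_45349e_nt.LS (lam)


open Classical in
/-- good places -/
structure GOOD (P : Par) (D : Dat) (Bd : ℕ → ℕ → ℕ → Prop) (l w : ℕ) (b b' : (ZMod P.q)ˣ) : Prop where
  ax : mb P D.x D.y0 D.BX / 2 ≤ AW P D D.BX w b
  al : mb P D.x D.y0 D.BX / 2 ≤ AW P D D.BX (w / l) b'
  ay : ∀ c : (ZMod P.q)ˣ, (c : ZMod P.q) = yc P b → mb P D.x D.y0 D.BY / 2 ≤ AW P D D.BY (yw P D l w) c
  bs : ∀ j : ℕ, j = 1 ∨ j = l → ∀ a : ℕ, a.Coprime P.q → ∀ t ∈ TUP D.BX,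
    bb P D Bd j t (yw P D l w) a ≤ mb P D.x D.y0 D.BY / 80
  nn : ∀ j : ℕ, j = 1 ∨ j = l → NN P D Bd l j w b ≤ (H1 P D.x) ^ 2 * rho D.BX * rho D.BY / (Real.log D.x) ^ 60

open Classical in
private theorem good_pieces (Q : ℕ → Prop) (a b : ℕ) (hb : b ≤ 4 * a) :
    ((Ioc a b).filter Q).card ≤ ((Ioc a (2 * a)).filter Q).card + ((Ioc (2 * a) (2 * (2 * a))).filter Q).card := by
  refine (Finset.card_le_card (t := (Ioc a (2 * a)).filter Q ∪ (Ioc (2 * a) (2 * (2 * a))).filter Q) ?_).trans (Finset.card_union_le _ _)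
  intro n hn
  rw [mem_filter, mem_Ioc] at hn
  rw [mem_union, mem_filter, mem_filter, mem_Ioc, mem_Ioc]
  by_cases h : n ≤ 2 * a
  · exact Or.inl ⟨⟨hn.1.1, h⟩, hn.2⟩
  · exact Or.inr ⟨⟨by omega, by omega⟩, hn.2⟩

open Classical in
private theorem good_maps (Q : ℕ → Prop) (f : ℕ → ℕ) (W S : Finset ℕ) (N : ℕ) (hf : ∀ w ∈ W, f w ∈ S)
    (hN : ∀ v ∈ S, (W.filter fun w => f w = v).card ≤ N) :
    (W.filter fun w => Q (f w)).card ≤ N * (S.filter Q).card := by
  refine Finset.card_le_mul_card_image_of_maps_to (f := f) ?_ N ?_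
  · intro w hw
    rw [mem_filter] at hw ⊢
    exact ⟨hf w hw.1, hw.2⟩
  · intro v hv
    refine (Finset.card_le_card ?_).trans (hN v (mem_filter.1 hv).1)
    intro w hw
    rw [mem_filter, mem_filter] at hw
    exact mem_filter.2 ⟨hw.1.1, hw.2⟩

open Classical in
private theorem good_div (Q : ℕ → Prop) (u l : ℕ) (hl : 1 ≤ l) (hu : 3 * l ≤ u) :
    ((Ioc u (2 * u)).filter fun w => Q (w / l)).card ≤ l * ((Ioc (u / l - 1) (4 * (u / l - 1))).filter Q).card := by
  have h3 : 3 ≤ u / l := by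
    rw [Nat.le_div_iff_mul_le (by omega)]
    exact hu
  refine good_maps Q (fun w => w / l) _ _ l ?_ ?_
  · intro w hw
    rw [mem_Ioc] at hw ⊢
    have h1 : u / l ≤ w / l := Nat.div_le_div_right (by omega)
    have h2 : w / l ≤ 2 * u / l := Nat.div_le_div_right hw.2
    have h4 : 2 * u / l ≤ 2 * (u / l) + 1 := by
      rw [← Nat.lt_succ_iff, Nat.div_lt_iff_lt_mul (by omega)]
      have := Nat.lt_mul_div_succ u (by omega : 0 < l)
      calc 2 * u < 2 * (l * (u / l + 1)) := by omega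
        _ = (2 * (u / l) + 1).succ * l := by rw [Nat.succ_eq_add_one]; ring
    show u / l - 1 < w / l ∧ w / l ≤ 4 * (u / l - 1)
    omega
  · intro v _
    refine (Finset.card_le_card (t := Ico (v * l) (v * l + l)) ?_).trans (by rw [Nat.card_Ico]; omega)
    intro w hw
    rw [mem_filter] at hw
    have hw2 : w / l = v := hw.2
    rw [mem_Ico]
    have h1 := Nat.div_mul_le_self w l
    have h2 := Nat.lt_mul_div_succ w (by omega : 0 < l)
    rw [hw2] at h1 h2
    refine ⟨h1, ?_⟩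
    calc w < l * (v + 1) := h2
      _ = v * l + l := by ring

open Classical in
private theorem good_shift (Q : ℕ → Prop) (f : ℕ → ℕ) (u a : ℕ) (hf : ∀ w, u < w → w ≤ 2 * u → f w + u = a + w) :
    ((Ioc u (2 * u)).filter fun w => Q (f w)).card ≤ ((Ioc a (a + u)).filter Q).card := by
  have := good_maps Q f (Ioc u (2 * u)) (Ioc a (a + u)) 1 (by
    intro w hw
    rw [mem_Ioc] at hw ⊢
    have := hf w hw.1 hw.2
    omega) (by
    intro v _
    rw [Finset.card_le_one]
    intro w hw w' hw'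
    rw [mem_filter, mem_Ioc] at hw hw'
    have h1 := hf w hw.1.1 hw.1.2
    have h2 := hf w' hw'.1.1 hw'.1.2
    omega)
  rwa [one_mul] at this

open Classical in
theorem good (P : Par) (hP : P.Ok) : ∃ x0 : ℕ, ∀ D : Dat, x0 ≤ D.x → Ctx P D → ∀ (Bd : ℕ → ℕ → ℕ → Prop) (l : ℕ), Mul P D.x l → l ≠ 1 →
    Inp P D Bd 1 → Inp P D Bd l → ∀ (u : ℕ) (b b' : (ZMod P.q)ˣ), (b : ZMod P.q) = l * b' →
    8 * l * (D.x : ℝ) ^ (1 - P.d0) ≤ u → 2 * u ≤ D.x →
    (((Ioc u (2 * u)).filter fun w => ¬ GOOD P D Bd l w b b').card : ℝ) ≤ u / (Real.log D.x) ^ 100 := by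
  obtain ⟨x1, hx1⟩ := grow P hP 200
  obtain ⟨x2, hx2⟩ := cl P hP
  obtain ⟨x3, hx3⟩ := nb P hP
  obtain ⟨x4, hx4⟩ := ev_pow (P.Cf + P.C1 + 240) (1 / 2) (by norm_num)
  refine ⟨max (max x1 x2) (max x3 x4), ?_⟩
  intro D hx hD Bd l hM hl1 hI1 hIl u b b' hbb hu hu2
  obtain ⟨g3, g8, gq, gqy, gy2, gyK, gKy, gH1, gH1lo, gH1up, gHH, gHHy, gC1, gth, gth1⟩ :=
    hx1 D ((le_max_left _ _).trans ((le_max_left _ _).trans hx)) hD
  have hcl := hx2 D ((le_max_right _ _).trans ((le_max_left _ _).trans hx)) hD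
  have hnb := hx3 D ((le_max_left _ _).trans ((le_max_right _ _).trans hx)) hD Bd l
  have hgN := hx4 D.x ((le_max_right _ _).trans ((le_max_right _ _).trans hx))
  obtain ⟨lp, l1, l2, l3⟩ : l.Prime ∧ (Real.log D.x) ^ P.C1 < l ∧ (l : ℝ) ≤ 4 * (Real.log D.x) ^ P.C1 ∧ ¬ l ∣ P.q := by
    rcases hM with h | h
    · exact absurd h hl1
    · exact h
  have hrX : 0 < rho D.BX := by
    have h := hD.fx.rh
    by_contra hc
    have : (Real.log D.x) ^ P.Cf * rho D.BX ≤ 0 :=
      mul_nonpos_of_nonneg_of_nonpos (pow_nonneg (by linarith) _) (by linarith)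
    linarith
  have hrY : 0 < rho D.BY := by
    have h := hD.fy.rh
    by_contra hc
    have : (Real.log D.x) ^ P.Cf * rho D.BY ≤ 0 :=
      mul_nonpos_of_nonneg_of_nonpos (pow_nonneg (by linarith) _) (by linarith)
    linarith
  set K := Real.log D.x with hK
  set X0 := (D.x : ℝ) ^ (1 - P.d0) with hX0
  have hK1 : 1 ≤ K := by linarith
  have hl2 : 2 ≤ l := lp.two_le
  have hl2' : (2 : ℝ) ≤ l := by exact_mod_cast hl2
  have hKC1 : 1 ≤ K ^ P.C1 := one_le_pow₀ hK1
  have hbig : ((l + 4) * HH P D.x : ℝ) ≤ K ^ (P.Cf + P.C1 + 240) := by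
    have e1 : ((l : ℝ) + 4) ≤ 8 * K ^ P.C1 := by linarith
    calc ((l + 4) * HH P D.x : ℝ) ≤ (8 * K ^ P.C1) * K ^ (P.Cf + 232) :=
          mul_le_mul e1 gHH (by positivity) (by positivity)
      _ ≤ (K ^ 8 * K ^ P.C1) * K ^ (P.Cf + 232) := by
          have : (8 : ℝ) ≤ K ^ 8 := by
            calc (8 : ℝ) ≤ K := by linarith
              _ = K ^ 1 := (pow_one K).symm
              _ ≤ K ^ 8 := pow_le_pow_right₀ hK1 (by norm_num)
          gcongr
      _ = K ^ (P.Cf + P.C1 + 240) := by ring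
  have hx1r : (1 : ℝ) ≤ D.x := by exact_mod_cast (by omega : 1 ≤ D.x)
  have hxd : (D.x : ℝ) ^ ((1 : ℝ) / 2) ≤ X0 :=
    Real.rpow_le_rpow_of_exponent_le hx1r (by linarith [hP.d1])
  have hX01 : 1 ≤ X0 := by
    have : (1 : ℝ) ≤ K ^ (P.Cf + P.C1 + 240) := one_le_pow₀ hK1
    linarith
  have hlX : 16 * X0 ≤ u := by
    have : 16 * X0 ≤ 8 * l * X0 := by nlinarith
    linarith
  have huH : 16 * ((l + 4) * HH P D.x) ≤ u := by
    have : (16 * ((l + 4) * HH P D.x) : ℝ) ≤ u := by linarith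
    exact_mod_cast this
  have hu0 : (0 : ℝ) ≤ u := Nat.cast_nonneg _
  have hK200 : 0 < K ^ 200 := by positivity
  -- the shift
  have e0 : (l + 4) * HH P D.x = (l + 2) * HH P D.x + 2 * HH P D.x := by ring
  have e0' : (l + 2) * HH P D.x = l * HH P D.x + 2 * HH P D.x := by ring
  have e0'' : 2 * HH P D.x ≤ l * HH P D.x := Nat.mul_le_mul_right _ hl2
  have hY : ∀ Q : ℕ → Prop, (∀ v : ℕ, X0 ≤ v → v ≤ D.x → (((Ioc v (2 * v)).filter Q).card : ℝ) ≤ v / K ^ 200) →
      (((Ioc u (2 * u)).filter fun w => Q (yw P D l w)).card : ℝ) ≤ 6 * u / K ^ 200 := by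
    intro Q hQ
    have h1 := good_shift Q (yw P D l) u (yw P D l u) (by
      intro w hw1 hw2
      unfold yw
      split_ifs <;> omega)
    have h1' : (((Ioc u (2 * u)).filter fun w => Q (yw P D l w)).card : ℝ) ≤
        (((Ioc (yw P D l u) (yw P D l u + u)).filter Q).card : ℝ) := by exact_mod_cast h1
    refine h1'.trans ?_
    have h2 := hQ (yw P D l u)
    have h3 := hQ (2 * yw P D l u)
    have h4 := good_pieces Q (yw P D l u) (yw P D l u + u)
    have h5 : (u : ℝ) ≤ 2 * (yw P D l u : ℝ) := by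
      have : u ≤ 2 * yw P D l u := by
        unfold yw
        split_ifs <;> omega
      exact_mod_cast this
    have h6 : (yw P D l u : ℝ) ≤ 2 * u := by
      have : yw P D l u ≤ 2 * u := by
        unfold yw
        split_ifs <;> omega
      exact_mod_cast this
    rcases Bool.eq_false_or_eq_true P.s with hs | hs
    · have h7 : yw P D l u = u - 3 * HH P D.x := by
        unfold yw
        rw [if_pos hs]
      have h8 := h4 (by omega)
      have h9 := h2 (by linarith) (by omega)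
      have h10 := h3 (by push_cast; linarith) (by omega)
      have h11 : (yw P D l u : ℝ) ≤ u := by exact_mod_cast (by omega : yw P D l u ≤ u)
      have h8' : (((Ioc (yw P D l u) (yw P D l u + u)).filter Q).card : ℝ) ≤
          (((Ioc (yw P D l u) (2 * yw P D l u)).filter Q).card : ℝ) +
          (((Ioc (2 * yw P D l u) (2 * (2 * yw P D l u))).filter Q).card : ℝ) := by exact_mod_cast h8
      refine (h8'.trans (add_le_add h9 h10)).trans ?_
      rw [← add_div]
      apply div_le_div_of_nonneg_right _ hK200.le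
      push_cast
      linarith
    · have h7 : yw P D l u = u + (l + 2) * HH P D.x := by
        unfold yw
        rw [hs]
        simp
      have h9 := h2 (by linarith) (by omega)
      have h8' : (((Ioc (yw P D l u) (yw P D l u + u)).filter Q).card : ℝ) ≤
          (((Ioc (yw P D l u) (2 * yw P D l u)).filter Q).card : ℝ) := by
        have : ((Ioc (yw P D l u) (yw P D l u + u)).filter Q).card ≤ ((Ioc (yw P D l u) (2 * yw P D l u)).filter Q).card := by
          refine Finset.card_le_card (Finset.filter_subset_filter _ ?_)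
          exact Finset.Ioc_subset_Ioc le_rfl (by omega)
        exact_mod_cast this
      refine (h8'.trans h9).trans ?_
      apply div_le_div_of_nonneg_right _ hK200.le
      linarith
  -- the exceptional sets
  set S1 := (Ioc u (2 * u)).filter fun w => AW P D D.BX w b < mb P D.x D.y0 D.BX / 2 with hS1
  set S2 := (Ioc u (2 * u)).filter fun w => AW P D D.BX (w / l) b' < mb P D.x D.y0 D.BX / 2 with hS2
  set S3 := (Ioc u (2 * u)).filter fun w => (fun n => ∃ c : (ZMod P.q)ˣ, (c : ZMod P.q) = yc P b ∧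
    AW P D D.BY n c < mb P D.x D.y0 D.BY / 2) (yw P D l w) with hS3
  let S4 : ℕ → Finset ℕ := fun j => (Ioc u (2 * u)).filter fun w => (fun n => ∃ a : ℕ, a.Coprime P.q ∧ ∃ t ∈ TUP D.BX,
      mb P D.x D.y0 D.BY / 80 < bb P D Bd j t n a) (yw P D l w)
  let S5 : ℕ → Finset ℕ := fun j => (Ioc u (2 * u)).filter fun w =>
    (H1 P D.x) ^ 2 * rho D.BX * rho D.BY / K ^ 60 < NN P D Bd l j w b
  have c1 : (S1.card : ℝ) ≤ u / K ^ 200 := by
    refine hcl _ D.BX hD.fx u b (by linarith) (by omega)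
  have c2 : (S2.card : ℝ) ≤ 3 * u / K ^ 200 := by
    have h3l : 3 * l ≤ u := by
      have : l * 1 ≤ l * HH P D.x := Nat.mul_le_mul_left _ (by
        unfold HH
        have := hP.q2
        exact Nat.one_le_iff_ne_zero.2 (Nat.mul_ne_zero (by omega) (by omega)))
      omega
    have h1 := good_div (fun n => AW P D D.BX n b' < mb P D.x D.y0 D.BX / 2) u l (by omega) h3l
    have h2 := good_pieces (fun n => AW P D D.BX n b' < mb P D.x D.y0 D.BX / 2) (u / l - 1) (4 * (u / l - 1)) le_rfl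
    have h4 : u < l * (u / l + 1) := Nat.lt_mul_div_succ u (by omega)
    have h5 : l * (u / l) ≤ u := Nat.mul_div_le u l
    have h6 : 3 ≤ u / l := by
      rw [Nat.le_div_iff_mul_le (by omega)]
      exact h3l
    obtain ⟨v, hv⟩ : ∃ v, u / l = v + 1 := ⟨u / l - 1, by omega⟩
    rw [hv] at h1 h2 h4 h5
    simp only [Nat.add_sub_cancel] at h1 h2
    have h4' : (u : ℝ) < l * (v + 1 + 1) := by exact_mod_cast h4
    have h5' : (l : ℝ) * (v + 1) ≤ u := by exact_mod_cast h5
    have h7 : X0 / 2 ≤ v := by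
      have h8 : (l : ℝ) * (8 * X0) ≤ l * (v + 1 + 1) := by linarith
      have h9 : 8 * X0 ≤ (v : ℝ) + 1 + 1 := le_of_mul_le_mul_left h8 (by linarith)
      linarith
    have h10 : v ≤ u := by
      have : v + 1 ≤ u := by rw [← hv]; exact Nat.div_le_self _ _
      omega
    have h11 := hcl _ D.BX hD.fx v b' (by linarith) (by omega)
    have h12 := hcl _ D.BX hD.fx (2 * v) b' (by push_cast; linarith) (by omega)
    have h13 : (S2.card : ℝ) ≤ l * ((((Ioc v (2 * v)).filter fun n => AW P D D.BX n b' < mb P D.x D.y0 D.BX / 2).card : ℝ) +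
        (((Ioc (2 * v) (2 * (2 * v))).filter fun n => AW P D D.BX n b' < mb P D.x D.y0 D.BX / 2).card : ℝ)) := by
      exact_mod_cast h1.trans (Nat.mul_le_mul_left _ h2)
    refine h13.trans ((mul_le_mul_of_nonneg_left (add_le_add h11 h12) (by linarith)).trans ?_)
    rw [← add_div, ← mul_div_assoc]
    apply div_le_div_of_nonneg_right _ hK200.le
    push_cast
    nlinarith
  have c3 : (S3.card : ℝ) ≤ 6 * u / K ^ 200 := by
    refine hY (fun n => ∃ c : (ZMod P.q)ˣ, (c : ZMod P.q) = yc P b ∧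
      AW P D D.BY n c < mb P D.x D.y0 D.BY / 2) ?_
    intro v hv1 hv2
    by_cases hc : ∃ c : (ZMod P.q)ˣ, (c : ZMod P.q) = yc P b
    · obtain ⟨c, hc⟩ := hc
      refine le_trans ?_ (hcl _ D.BY hD.fy v c (by linarith) (by omega))
      have : ((Ioc v (2 * v)).filter fun n => ∃ c : (ZMod P.q)ˣ, (c : ZMod P.q) = yc P b ∧
          AW P D D.BY n c < mb P D.x D.y0 D.BY / 2).card ≤
          ((Ioc v (2 * v)).filter fun n => AW P D D.BY n c < mb P D.x D.y0 D.BY / 2).card := by
        refine Finset.card_le_card ?_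
        intro n hn
        rw [mem_filter] at hn ⊢
        obtain ⟨hn1, c', hc', hn2⟩ := hn
        have : c' = c := Units.ext (hc'.trans hc.symm)
        exact ⟨hn1, this ▸ hn2⟩
      exact_mod_cast this
    · have : ((Ioc v (2 * v)).filter fun n => ∃ c : (ZMod P.q)ˣ, (c : ZMod P.q) = yc P b ∧
          AW P D D.BY n c < mb P D.x D.y0 D.BY / 2) = ∅ := by
        rw [Finset.filter_eq_empty_iff]
        rintro n _ ⟨c, hc', _⟩
        exact hc ⟨c, hc'⟩
      rw [this, Finset.card_empty, Nat.cast_zero]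
      positivity
  have c4 : ∀ j : ℕ, j = 1 ∨ j = l → ((S4 j).card : ℝ) ≤ 6 * u / K ^ 200 := by
    intro j hj
    have hI : Inp P D Bd j := by
      rcases hj with h | h
      · rw [h]; exact hI1
      · rw [h]; exact hIl
    exact hY _ hI.bs
  have hT : 0 < (H1 P D.x : ℝ) ^ 2 * rho D.BX * rho D.BY / K ^ 60 := by
    have : (0 : ℝ) < H1 P D.x := by exact_mod_cast (by omega : 0 < H1 P D.x)
    positivity
  have c5 : ∀ j : ℕ, j = 1 ∨ j = l → ((S5 j).card : ℝ) ≤ 40 * P.q ^ 2 * u / K ^ 140 := by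
    intro j hj
    have hI : Inp P D Bd j := by
      rcases hj with h | h
      · rw [h]; exact hI1
      · rw [h]; exact hIl
    have h1 := hnb j hM hl1 hj hI u b (by linarith) hu2
    have h2 : ((S5 j).card : ℝ) * ((H1 P D.x : ℝ) ^ 2 * rho D.BX * rho D.BY / K ^ 60) ≤ ∑ w ∈ Ioc u (2 * u), NN P D Bd l j w b := by
      have hnn : ∀ w, 0 ≤ NN P D Bd l j w b := by
        intro w
        unfold NN
        refine Finset.sum_nonneg fun X _ => Finset.sum_nonneg fun Y _ => ?_
        split_ifs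
        · unfold cnt
          split_ifs
          · exact Finset.sum_nonneg fun _ _ => Nat.cast_nonneg _
          · exact le_rfl
        · exact le_rfl
      calc ((S5 j).card : ℝ) * ((H1 P D.x : ℝ) ^ 2 * rho D.BX * rho D.BY / K ^ 60)
          = ∑ _w ∈ S5 j, ((H1 P D.x : ℝ) ^ 2 * rho D.BX * rho D.BY / K ^ 60) := by rw [Finset.sum_const, nsmul_eq_mul]
        _ ≤ ∑ w ∈ S5 j, NN P D Bd l j w b := Finset.sum_le_sum fun w hw => (mem_filter.1 hw).2.le
        _ ≤ _ := Finset.sum_le_sum_of_subset_of_nonneg (Finset.filter_subset _ _) fun w _ _ => hnn w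
    have h3 := h2.trans h1
    rw [← le_div_iff₀ hT] at h3
    refine h3.trans (le_of_eq ?_)
    have hKne : K ≠ 0 := by linarith
    have hHne : (H1 P D.x : ℝ) ≠ 0 := by
      have : (0 : ℝ) < H1 P D.x := by exact_mod_cast (by omega : 0 < H1 P D.x)
      exact this.ne'
    have hrXne := hrX.ne'
    have hrYne := hrY.ne'
    field_simp
  have hsub : ((Ioc u (2 * u)).filter fun w => ¬ GOOD P D Bd l w b b') ⊆
      S1 ∪ (S2 ∪ (S3 ∪ (S4 1 ∪ (S4 l ∪ (S5 1 ∪ S5 l))))) := by
    intro w hw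
    rw [mem_filter] at hw
    obtain ⟨hw1, hw2⟩ := hw
    by_contra hcon
    simp only [mem_union, not_or] at hcon
    obtain ⟨n1, n2, n3, n4, n4', n5, n5'⟩ := hcon
    apply hw2
    refine ⟨?_, ?_, ?_, ?_, ?_⟩
    · by_contra hc
      exact n1 (mem_filter.2 ⟨hw1, not_le.1 hc⟩)
    · by_contra hc
      exact n2 (mem_filter.2 ⟨hw1, not_le.1 hc⟩)
    · intro c hc
      by_contra hc'
      exact n3 (mem_filter.2 ⟨hw1, c, hc, not_le.1 hc'⟩)
    · intro j hj a ha t ht
      by_contra hc'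
      rcases hj with h | h
      · subst h
        exact n4 (mem_filter.2 ⟨hw1, a, ha, t, ht, not_le.1 hc'⟩)
      · subst h
        exact n4' (mem_filter.2 ⟨hw1, a, ha, t, ht, not_le.1 hc'⟩)
    · intro j hj
      by_contra hc'
      rcases hj with h | h
      · subst h
        exact n5 (mem_filter.2 ⟨hw1, not_le.1 hc'⟩)
      · subst h
        exact n5' (mem_filter.2 ⟨hw1, not_le.1 hc'⟩)
  have htot : (((Ioc u (2 * u)).filter fun w => ¬ GOOD P D Bd l w b b').card : ℝ) ≤
      S1.card + (S2.card + (S3.card + ((S4 1).card + ((S4 l).card + ((S5 1).card + (S5 l).card))))) := by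
    have h := (Finset.card_le_card hsub).trans ((Finset.card_union_le _ _).trans (Nat.add_le_add_left
      ((Finset.card_union_le _ _).trans (Nat.add_le_add_left ((Finset.card_union_le _ _).trans (Nat.add_le_add_left
      ((Finset.card_union_le _ _).trans (Nat.add_le_add_left ((Finset.card_union_le _ _).trans (Nat.add_le_add_left
      (Finset.card_union_le _ _) _)) _)) _)) _)) _))
    exact_mod_cast h
  have f1 := c4 1 (Or.inl rfl)
  have f2 := c4 l (Or.inr rfl)
  have f3 := c5 1 (Or.inl rfl)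
  have f4 := c5 l (Or.inr rfl)
  have hsum : (((Ioc u (2 * u)).filter fun w => ¬ GOOD P D Bd l w b b').card : ℝ) ≤
      22 * u / K ^ 200 + 80 * P.q ^ 2 * u / K ^ 140 := by
    refine htot.trans ?_
    have e1 : 22 * (u : ℝ) / K ^ 200 = u / K ^ 200 + 3 * u / K ^ 200 + 6 * u / K ^ 200 + 6 * u / K ^ 200 + 6 * u / K ^ 200 := by ring
    have e2 : 80 * (P.q : ℝ) ^ 2 * u / K ^ 140 = 40 * P.q ^ 2 * u / K ^ 140 + 40 * P.q ^ 2 * u / K ^ 140 := by ring
    rw [e1, e2]
    linarith
  refine hsum.trans ?_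
  have hq0 : (0 : ℝ) ≤ P.q := Nat.cast_nonneg _
  have k1 : 22 * (u : ℝ) / K ^ 200 ≤ u / K ^ 100 / 2 := by
    rw [div_div, div_le_div_iff₀ (by positivity) (by positivity)]
    have : K ^ 200 = K ^ 100 * K ^ 100 := by ring
    rw [this]
    have h100 : 44 ≤ K ^ 100 := by
      calc (44 : ℝ) ≤ K := by linarith
        _ = K ^ 1 := (pow_one K).symm
        _ ≤ K ^ 100 := pow_le_pow_right₀ hK1 (by norm_num)
    have hp : 0 ≤ u * K ^ 100 := by positivity
    nlinarith
  have k2 : 80 * (P.q : ℝ) ^ 2 * u / K ^ 140 ≤ u / K ^ 100 / 2 := by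
    rw [div_div, div_le_div_iff₀ (by positivity) (by positivity)]
    have h140 : K ^ 140 = K ^ 100 * K ^ 40 := by ring
    rw [h140]
    have h40 : 160 * (P.q : ℝ) ^ 2 ≤ K ^ 40 := by
      calc 160 * (P.q : ℝ) ^ 2 ≤ K * K ^ 2 := by
            have h2 : (P.q : ℝ) ^ 2 ≤ K ^ 2 := pow_le_pow_left₀ hq0 gq 2
            have h3 : (160 : ℝ) ≤ K := by linarith
            exact mul_le_mul h3 h2 (by positivity) (by linarith)
        _ = K ^ 3 := by ring
        _ ≤ K ^ 40 := pow_le_pow_right₀ hK1 (by norm_num)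
    have hp : 0 ≤ u * K ^ 100 := by positivity
    calc 80 * (P.q : ℝ) ^ 2 * u * (K ^ 100 * 2) = (160 * (P.q : ℝ) ^ 2) * (u * K ^ 100) := by ring
      _ ≤ K ^ 40 * (u * K ^ 100) := mul_le_mul_of_nonneg_right h40 hp
      _ = u * (K ^ 100 * K ^ 40) := by ring
  linarith

end Pool.Agent.Lib.TT
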