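import Pool.Agent.Lib.MP_092512_nt.TT.Cl

/-!
# TT / Sm (60 minutes): second and first moments, (1.2), (1.3)

Text (1.2), (1.3). `sm`: the variance `Cv1.var_abs` with `q = 1`, the moduli `mrk f` and weights `1`, around the mean `HH ρ`; `∑ gcd/(m m') ≤ ρ ∏ (1 + V_c)`.
-/

set_option autoImplicit false

open Finset

namespace Pool.Agent.Lib.TT

open Pool.Agent.Lib.TCF (pht TUP rho tp mrk sum_mrk)
open Pool.Agent.Lib.RG (Rough PN)
open Pool.Agent.Lib.MP_45349e_nt.LS (lam)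

/-- the variance of the number of tuples in a window -/
theorem sm_var {y0 r : ℕ} {B : Fin r → Finset ℕ} (hF : FB y0 B) {X : ℝ} (hX0 : 0 ≤ X) (hX : ∀ m ∈ TUP B, (m : ℝ) ≤ X)
    (u v H : ℕ) (huv : u ≤ v) :
    ∑ n ∈ Ioc u v, (∑ F ∈ Ico n (n + H), pht B F - H * rho B) ^ 2 ≤
      ((v : ℝ) - u) * (H * (rho B * ∏ c, (1 + ∑ p ∈ B c, 1 / (p : ℝ)))) + 4 * (H * X) ^ 2 := by
  have h := var_abs (q := 1) (tp B) mrk (fun _ => (1 : ℝ)) one_pos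
    (fun f hf => ⟨(fb_sq hF hf).1, Nat.coprime_one_right _⟩) huv 0 H
  have e0 : (Ioc u v).filter (fun n => n ≡ 0 [MOD 1]) = Ioc u v :=
    filter_true_of_mem fun n _ => Nat.modEq_one
  have e1 : ∀ n : ℕ, ∑ k ∈ range H, ∑ f ∈ tp B, (if mrk f ∣ n + 1 * k then (1 : ℝ) else 0) = ∑ F ∈ Ico n (n + H), pht B F := by
    intro n
    rw [sum_Ico_eq_sum_range, Nat.add_sub_cancel_left]
    refine sum_congr rfl fun k _ => ?_
    rw [fb_pht hF, one_mul]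
  rw [e0] at h
  simp only [e1, sum_mrk] at h
  refine h.trans ?_
  have h2 := fb_sum_gcd hF
  have h3 := fb_card hF hX0 hX
  have huv' : (0 : ℝ) ≤ (v : ℝ) - u := by
    have : (u : ℝ) ≤ v := by exact_mod_cast huv
    linarith
  refine add_le_add ?_ ?_
  · rw [Nat.cast_one, div_one]
    refine mul_le_mul_of_nonneg_left (mul_le_mul_of_nonneg_left ?_ (Nat.cast_nonneg _)) huv'
    simpa using h2
  · have h4 : ∑ f ∈ tp B, |(1 : ℝ)| = (tp B).card := by simp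
    rw [h4]
    gcongr

open Classical in
theorem sm (P : Par) (hP : P.Ok) : ∃ x0 : ℕ, ∀ D : Dat, x0 ≤ D.x → Ctx P D → ∀ (r : ℕ) (B : Fin r → Finset ℕ), Fam P D.x D.y0 B →
    ∀ u : ℕ, (D.x : ℝ) ^ (1 - P.d0) / 2 ≤ u → u ≤ 4 * D.x →
    ∑ n ∈ Ioc u (2 * u), (∑ F ∈ Ico n (n + HH P D.x), pht B F) ^ 2 ≤ (Real.log D.x) ^ 6 * (rho B * H1 P D.x) ^ 2 * u := by
  obtain ⟨x1, hx1⟩ := grow P hP 8
  obtain ⟨x2, hx2⟩ := fam_sizes P hP
  refine ⟨max x1 x2, ?_⟩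
  intro D hx hD r B hB u hu _
  obtain ⟨g1, g2, gqK, gq, gy, gy1, -, gH, -, -, -⟩ := hx1 D ((le_max_left _ _).trans hx) hD
  obtain ⟨s1, s2, s3, s4⟩ := hx2 D ((le_max_right _ _).trans hx) hD r B hB
  have hu' := u_half hP (by omega) hu
  have htot := hB.tot
  set K := Real.log D.x with hK
  set X := (D.x : ℝ) ^ (1 / 200 : ℝ) with hX
  have hx1r : (1 : ℝ) ≤ D.x := by exact_mod_cast (by omega : 1 ≤ D.x)
  have hx0 : (0 : ℝ) < D.x := by linarith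
  have hX0 : 0 ≤ X := by positivity
  have hv := sm_var hB.fb hX0 s1 u (2 * u) (HH P D.x) (by omega)
  set Pd := ∏ c, (1 + ∑ p ∈ B c, 1 / (p : ℝ)) with hPd
  have hK1 : 1 ≤ K := by linarith
  have hu0 : (0 : ℝ) ≤ u := Nat.cast_nonneg u
  have hr0 := rho_nonneg B
  have hH1r : (1 : ℝ) ≤ H1 P D.x := by exact_mod_cast gH
  have hHH : (HH P D.x : ℝ) ≤ K * H1 P D.x := by
    unfold HH
    push_cast
    gcongr
  have hHH0 : (0 : ℝ) ≤ HH P D.x := Nat.cast_nonneg _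
  set G := rho B * (H1 P D.x : ℝ) with hG
  have hG1 : 1 ≤ G := by
    have h1 : (1 : ℝ) ≤ K ^ 230 := one_le_pow₀ hK1
    rw [hG, mul_comm]
    linarith
  -- the square
  have h1 : ∀ n ∈ Ioc u (2 * u), (∑ F ∈ Ico n (n + HH P D.x), pht B F) ^ 2 ≤
      2 * (∑ F ∈ Ico n (n + HH P D.x), pht B F - HH P D.x * rho B) ^ 2 + 2 * (HH P D.x * rho B) ^ 2 := by
    intro n _
    nlinarith [sq_nonneg (∑ F ∈ Ico n (n + HH P D.x), pht B F - 2 * (HH P D.x * rho B))]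
  refine (sum_le_sum h1).trans ?_
  rw [sum_add_distrib, ← mul_sum, sum_const, Nat.card_Ioc, nsmul_eq_mul]
  have e1 : ((2 * u - u : ℕ) : ℝ) = u := by
    rw [two_mul, Nat.add_sub_cancel]
  have e2 : ((2 * u : ℕ) : ℝ) - u = u := by
    push_cast
    ring
  rw [e1]
  rw [e2] at hv
  -- the three terms
  have t1 : (u : ℝ) * (HH P D.x * (rho B * Pd)) ≤ K ^ 3 * G ^ 2 * u := by
    calc (u : ℝ) * (HH P D.x * (rho B * Pd)) ≤ u * ((K * H1 P D.x) * (rho B * K ^ 2)) := by gcongr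
      _ = K ^ 3 * G * u := by rw [hG]; ring
      _ ≤ K ^ 3 * G ^ 2 * u := by
          have : G ≤ G ^ 2 := by nlinarith
          gcongr
  have t2 : (HH P D.x * rho B) ^ 2 ≤ K ^ 2 * G ^ 2 := by
    calc (HH P D.x * rho B) ^ 2 ≤ ((K * H1 P D.x) * rho B) ^ 2 := by gcongr
      _ = K ^ 2 * G ^ 2 := by rw [hG]; ring
  have t3 : 4 * (HH P D.x * X) ^ 2 ≤ K ^ 3 * G ^ 2 * u := by
    have h5 : X ^ 2 ≤ 2 * (rho B) ^ 2 * u := by
      have h6 : X ^ 2 = (D.x : ℝ) ^ (1 / 100 : ℝ) := by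
        rw [hX, ← Real.rpow_natCast, ← Real.rpow_mul hx0.le]
        norm_num
      have h7 : ((D.x : ℝ) ^ (-(1 / 100) : ℝ)) ^ 2 = (D.x : ℝ) ^ (-(1 / 50) : ℝ) := by
        rw [← Real.rpow_natCast, ← Real.rpow_mul hx0.le]
        norm_num
      have h8 : ((D.x : ℝ) ^ (-(1 / 100) : ℝ)) ^ 2 ≤ (rho B) ^ 2 := by gcongr
      calc X ^ 2 = (D.x : ℝ) ^ (1 / 100 : ℝ) := h6
        _ ≤ (D.x : ℝ) ^ (1 / 2 - 1 / 50 : ℝ) := Real.rpow_le_rpow_of_exponent_le hx1r (by norm_num)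
        _ = (D.x : ℝ) ^ (-(1 / 50) : ℝ) * (D.x : ℝ) ^ (1 / 2 : ℝ) := by
            rw [← Real.rpow_add hx0]
            norm_num
        _ ≤ (rho B) ^ 2 * (2 * u) := by
            rw [← h7]
            have h9 : (D.x : ℝ) ^ (1 / 2 : ℝ) ≤ 2 * u := by linarith
            gcongr
        _ = 2 * (rho B) ^ 2 * u := by ring
    calc 4 * (HH P D.x * X) ^ 2 = 4 * (HH P D.x : ℝ) ^ 2 * X ^ 2 := by ring
      _ ≤ 4 * (K * H1 P D.x) ^ 2 * (2 * (rho B) ^ 2 * u) := by gcongr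
      _ = 8 * (K ^ 2 * G ^ 2 * u) := by rw [hG]; ring
      _ ≤ K * (K ^ 2 * G ^ 2 * u) := by
          have : 0 ≤ K ^ 2 * G ^ 2 * u := by positivity
          nlinarith
      _ = K ^ 3 * G ^ 2 * u := by ring
  have t4 : 0 ≤ G ^ 2 * u := by positivity
  have t5 : 2 * (u * (HH P D.x * (rho B * Pd)) + 4 * (HH P D.x * X) ^ 2) + u * (2 * (HH P D.x * rho B) ^ 2) ≤
      (4 * K ^ 3 + 2 * K ^ 2) * (G ^ 2 * u) := by
    have t6 : u * (2 * (HH P D.x * rho B) ^ 2) ≤ u * (2 * (K ^ 2 * G ^ 2)) := by gcongr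
    nlinarith
  have t7 : 4 * K ^ 3 + 2 * K ^ 2 ≤ K ^ 6 := by
    have h9 : K ^ 6 = K ^ 3 * K ^ 3 := by ring
    have h10 : K ^ 2 ≤ K ^ 3 := pow_le_pow_right₀ hK1 (by norm_num)
    have h11 : (6 : ℝ) ≤ K ^ 3 := by
      have : K ^ 1 ≤ K ^ 3 := pow_le_pow_right₀ hK1 (by norm_num)
      rw [pow_one] at this
      linarith
    have h12 : 6 * K ^ 3 ≤ K ^ 3 * K ^ 3 := mul_le_mul_of_nonneg_right h11 (by positivity)
    linarith
  calc _ ≤ 2 * (u * (HH P D.x * (rho B * Pd)) + 4 * (HH P D.x * X) ^ 2) + u * (2 * (HH P D.x * rho B) ^ 2) := by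
        linarith
    _ ≤ (4 * K ^ 3 + 2 * K ^ 2) * (G ^ 2 * u) := t5
    _ ≤ K ^ 6 * (G ^ 2 * u) := mul_le_mul_of_nonneg_right t7 t4
    _ = K ^ 6 * G ^ 2 * u := by ring

open Classical in
theorem sm1 (P : Par) (hP : P.Ok) : ∃ x0 : ℕ, ∀ D : Dat, x0 ≤ D.x → Ctx P D → ∀ (r : ℕ) (B : Fin r → Finset ℕ), Fam P D.x D.y0 B →
    ∀ u v : ℕ, (D.x : ℝ) ^ (P.d0 / 10) ≤ v → ∑ F ∈ Ioc u (u + v), pht B F ≤ 2 * rho B * v := by
  have hd0 := hP.d0
  obtain ⟨x1, hx1⟩ := grow P hP 2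
  obtain ⟨x2, hx2⟩ := ev_pow P.Cf (P.d0 * (9 / 100)) (by positivity)
  refine ⟨max x1 x2, ?_⟩
  intro D hx hD r B hB u v hv
  obtain ⟨g1, g2, -⟩ := hx1 D ((le_max_left _ _).trans hx) hD
  have h2 := hx2 D.x ((le_max_right _ _).trans hx)
  have hrh := hB.rh
  set K := Real.log D.x with hK
  have hx1r : (1 : ℝ) ≤ D.x := by exact_mod_cast (by omega : 1 ≤ D.x)
  have hx0 : (0 : ℝ) < D.x := by linarith
  have hc := fb_card hB.fb (by positivity : (0 : ℝ) ≤ (D.x : ℝ) ^ (P.d0 / 100)) hB.tup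
  have e1 : ∑ F ∈ Ioc u (u + v), pht B F = ∑ f ∈ tp B, (((Ioc u (u + v)).filter fun n => n ≡ 0 [MOD 1] ∧ mrk f ∣ n + 1 * 0).card : ℝ) := by
    rw [sum_congr rfl fun F _ => fb_pht hB.fb F, sum_comm]
    refine sum_congr rfl fun f _ => ?_
    rw [card_filter]
    push_cast
    refine sum_congr rfl fun n _ => ?_
    simp only [Nat.modEq_one, true_and, mul_zero, add_zero]
  rw [e1]
  have h3 : ∀ f ∈ tp B, (((Ioc u (u + v)).filter fun n => n ≡ 0 [MOD 1] ∧ mrk f ∣ n + 1 * 0).card : ℝ) ≤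
      v * (1 / (mrk f : ℝ)) + 1 := by
    intro f hf
    have h4 := (abs_le.mp (cnt_one (q := 1) (s := mrk f) (k := 0) (a := 0) (A := u) (B := u + v) one_pos
      (fb_sq hB.fb hf).1 (Nat.coprime_one_right _) (by omega))).2
    have e2 : ((u + v : ℕ) : ℝ) - u = v := by
      push_cast
      ring
    rw [e2, Nat.cast_one, div_one] at h4
    linarith
  refine (sum_le_sum h3).trans ?_
  rw [sum_add_distrib, ← mul_sum, sum_mrk, sum_const, nsmul_eq_mul, mul_one]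
  have h5 : (D.x : ℝ) ^ (P.d0 / 100) ≤ rho B * v := by
    have h6 : (D.x : ℝ) ^ (P.d0 / 10) = (D.x : ℝ) ^ (P.d0 / 100) * (D.x : ℝ) ^ (P.d0 * (9 / 100)) := by
      rw [← Real.rpow_add hx0]
      congr 1
      ring
    have h7 : 1 ≤ (D.x : ℝ) ^ (P.d0 * (9 / 100)) * rho B :=
      hrh.trans (mul_le_mul_of_nonneg_right h2 (rho_nonneg B))
    calc (D.x : ℝ) ^ (P.d0 / 100) ≤ (D.x : ℝ) ^ (P.d0 / 100) * ((D.x : ℝ) ^ (P.d0 * (9 / 100)) * rho B) :=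
          le_mul_of_one_le_right (by positivity) h7
      _ = rho B * (D.x : ℝ) ^ (P.d0 / 10) := by rw [h6]; ring
      _ ≤ rho B * v := mul_le_mul_of_nonneg_left hv (rho_nonneg B)
  linarith

end Pool.Agent.Lib.TT
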