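import Pool.Agent.Lib.MP_092512_nt.TT.Mj
import Pool.Agent.Lib.MP_092512_nt.TT.Sm

/-!
# TT / Wr (45 minutes): (2.4): total weight of the wrong signs

Text (2.4). Good places: `mj`; the others: Cauchy-Schwarz with `sm` (`wr ≤ ∑ pht` over the window). The class `b` is arbitrary, `b = l b'` with `b' = b / l` (`l` is a unit mod `q`).
-/

set_option autoImplicit false

open Finset

namespace Pool.Agent.Lib.TT

open Pool.Agent.Lib.TCF (pht TUP rho)
open Pool.Agent.Lib.RG (Rough PN)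
open Pool.Agent.Lib.MP_45349e_nt.LS (lam)

private theorem Wr_pht_nonneg {r : ℕ} (B : Fin r → Finset ℕ) (m : ℕ) : 0 ≤ pht B m := by
  unfold pht
  positivity

private theorem Wr_rho_nonneg {r : ℕ} (B : Fin r → Finset ℕ) : 0 ≤ rho B := by
  unfold rho
  exact Finset.prod_nonneg fun c _ => Finset.sum_nonneg fun p _ => by positivity

private theorem Wr_le (P : Par) (D : Dat) (w : ℕ) (b : (ZMod P.q)ˣ) :
    wr P D w b ≤ ∑ F ∈ Ico w (w + HH P D.x), pht D.BX F := by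
  classical
  unfold wr
  refine le_trans (Finset.sum_le_sum (g := fun X => pht D.BX X) fun X _ => ?_)
    (Finset.sum_le_sum_of_subset_of_nonneg (Finset.filter_subset _ _) fun X _ _ =>
      Wr_pht_nonneg _ _)
  split_ifs
  · unfold ph
    split_ifs
    · exact le_rfl
    · exact Wr_pht_nonneg _ _
  · exact Wr_pht_nonneg _ _

open Classical in
theorem wrs (P : Par) (hP : P.Ok) : ∃ x0 : ℕ, ∀ D : Dat, x0 ≤ D.x → Ctx P D → ∀ (Bd : ℕ → ℕ → ℕ → Prop) (l : ℕ), Mul P D.x l → l ≠ 1 →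
    Inp P D Bd 1 → Inp P D Bd l → ∀ (u : ℕ) (b : (ZMod P.q)ˣ), 8 * l * (D.x : ℝ) ^ (1 - P.d0) ≤ u → 2 * u ≤ D.x →
    ∑ w ∈ Ioc u (2 * u), wr P D w b ≤ H1 P D.x * rho D.BX * u / (Real.log D.x) ^ 40 := by
  obtain ⟨x1, h1⟩ := grow P hP 2
  obtain ⟨x2, h2⟩ := mj P hP
  obtain ⟨x3, h3⟩ := good P hP
  obtain ⟨x4, h4⟩ := sm P hP
  refine ⟨max (max x1 x2) (max x3 x4), fun D hD hC Bd l hl hl1 hi1 hil u b hu hu2 => ?_⟩
  have d1 : x1 ≤ D.x := le_trans (le_trans (le_max_left _ _) (le_max_left _ _)) hD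
  have d2 : x2 ≤ D.x := le_trans (le_trans (le_max_right _ _) (le_max_left _ _)) hD
  have d3 : x3 ≤ D.x := le_trans (le_trans (le_max_left _ _) (le_max_right _ _)) hD
  have d4 : x4 ≤ D.x := le_trans (le_trans (le_max_right _ _) (le_max_right _ _)) hD
  obtain ⟨g1, g2, -⟩ := h1 D d1 hC
  set K : ℝ := Real.log D.x with hK
  have hK0 : 0 < K := by linarith
  have hl' : l.Prime ∧ (Real.log D.x) ^ P.C1 < l ∧ (l : ℝ) ≤ 4 * (Real.log D.x) ^ P.C1 ∧
      ¬ l ∣ P.q := by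
    rcases hl with h | h
    · exact absurd h hl1
    · exact h
  have hcop : l.Coprime P.q := (hl'.1.coprime_iff_not_dvd).2 hl'.2.2.2
  set lu : (ZMod P.q)ˣ := ZMod.unitOfCoprime l hcop with hlu
  set b' : (ZMod P.q)ˣ := lu⁻¹ * b with hb'
  have hbb : (b : ZMod P.q) = l * b' := by
    have e1 : b = lu * b' := by rw [hb', mul_inv_cancel_left]
    have e2 : ((lu : (ZMod P.q)ˣ) : ZMod P.q) = (l : ZMod P.q) := ZMod.coe_unitOfCoprime l hcop
    conv_lhs => rw [e1]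
    rw [Units.val_mul, e2]
  have hgood := h3 D d3 hC Bd l hl hl1 hi1 hil u b b' hbb hu hu2
  have hxp : (0 : ℝ) ≤ (D.x : ℝ) ^ (1 - P.d0) := by positivity
  have hl2 : (1 : ℝ) ≤ l := by exact_mod_cast hl'.1.one_lt.le
  have hsm := h4 D d4 hC D.nX D.BX hC.fx u (by nlinarith) (by omega)
  set rr : ℝ := rho D.BX with hrr
  have hr0 : 0 ≤ rr := Wr_rho_nonneg _
  set h : ℝ := (H1 P D.x : ℝ) with hh
  have hh0 : 0 ≤ h := by positivity
  have hu0 : (0 : ℝ) ≤ u := by positivity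
  -- split
  rw [← Finset.sum_filter_add_sum_filter_not (Ioc u (2 * u)) (fun w => ¬ GOOD P D Bd l w b b')]
  have hA : ∑ w ∈ (Ioc u (2 * u)).filter (fun w => ¬ ¬ GOOD P D Bd l w b b'), wr P D w b ≤
      u * (h * rr / K ^ 50) := by
    calc ∑ w ∈ (Ioc u (2 * u)).filter (fun w => ¬ ¬ GOOD P D Bd l w b b'), wr P D w b
        ≤ ∑ w ∈ (Ioc u (2 * u)).filter (fun w => ¬ ¬ GOOD P D Bd l w b b'), h * rr / K ^ 50 := by
          refine Finset.sum_le_sum fun w hw => ?_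
          have := (Finset.mem_filter.1 hw).2
          push Not at this
          exact (h2 D d2 hC Bd l hl hl1 w b b' hbb this).2
      _ = (((Ioc u (2 * u)).filter (fun w => ¬ ¬ GOOD P D Bd l w b b')).card : ℝ) *
            (h * rr / K ^ 50) := by rw [Finset.sum_const, nsmul_eq_mul]
      _ ≤ u * (h * rr / K ^ 50) := by
          refine mul_le_mul_of_nonneg_right ?_ (by positivity)
          have h5 := Finset.card_filter_le (Ioc u (2 * u)) (fun w => ¬ ¬ GOOD P D Bd l w b b')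
          rw [Nat.card_Ioc] at h5
          have h6 : 2 * u - u = u := by omega
          rw [h6] at h5
          exact_mod_cast h5
  have hB : ∑ w ∈ (Ioc u (2 * u)).filter (fun w => ¬ GOOD P D Bd l w b b'), wr P D w b ≤
      u * (h * rr / K ^ 47) := by
    have e6 : 0 ≤ (u : ℝ) * (h * rr / K ^ 47) :=
      mul_nonneg hu0 (div_nonneg (mul_nonneg hh0 hr0) (pow_nonneg hK0.le _))
    set S := (Ioc u (2 * u)).filter (fun w => ¬ GOOD P D Bd l w b b') with hS
    set f : ℕ → ℝ := fun w => ∑ F ∈ Ico w (w + HH P D.x), pht D.BX F with hf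
    have e1 : ∑ w ∈ S, wr P D w b ≤ ∑ w ∈ S, f w :=
      Finset.sum_le_sum fun w _ => Wr_le P D w b
    have hf0 : ∀ w, 0 ≤ f w := fun w => Finset.sum_nonneg fun F _ => Wr_pht_nonneg _ _
    have e2 : (∑ w ∈ S, f w) ^ 2 ≤ (S.card : ℝ) * ∑ w ∈ S, f w ^ 2 := sq_sum_le_card_mul_sum_sq
    have e3 : ∑ w ∈ S, f w ^ 2 ≤ ∑ w ∈ Ioc u (2 * u), f w ^ 2 :=
      Finset.sum_le_sum_of_subset_of_nonneg (Finset.filter_subset _ _) fun w _ _ => sq_nonneg _
    have e4 : (∑ w ∈ S, f w) ^ 2 ≤ (u / K ^ 100) * (K ^ 6 * (rr * h) ^ 2 * u) := by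
      refine e2.trans ?_
      exact mul_le_mul hgood (e3.trans hsm)
        (Finset.sum_nonneg fun w _ => sq_nonneg _) (by positivity)
    have e5 : (u / K ^ 100) * (K ^ 6 * (rr * h) ^ 2 * u) = (u * (h * rr / K ^ 47)) ^ 2 := by
      field_simp
    rw [e5] at e4
    generalize (u : ℝ) * (h * rr / K ^ 47) = Z at e4 e6 ⊢
    exact e1.trans ((pow_le_pow_iff_left₀ (Finset.sum_nonneg fun w _ => hf0 w) e6 two_ne_zero).1 e4)
  have hC1 : u * (h * rr / K ^ 47) + u * (h * rr / K ^ 50) ≤ h * rr * u / K ^ 40 := by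
    have a1 : (u : ℝ) * (h * rr / K ^ 47) = (h * rr * u / K ^ 40) * (1 / K ^ 7) := by
      field_simp
    have a2 : (u : ℝ) * (h * rr / K ^ 50) = (h * rr * u / K ^ 40) * (1 / K ^ 10) := by
      field_simp
    rw [a1, a2, ← mul_add]
    refine mul_le_of_le_one_right (by positivity) ?_
    have b1 : (1 : ℝ) / K ^ 7 ≤ 1 / 2 ^ 7 :=
      one_div_le_one_div_of_le (by positivity) (pow_le_pow_left₀ (by norm_num) g2 7)
    have b2 : (1 : ℝ) / K ^ 10 ≤ 1 / 2 ^ 10 :=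
      one_div_le_one_div_of_le (by positivity) (pow_le_pow_left₀ (by norm_num) g2 10)
    norm_num at b1 b2 ⊢
    linarith
  linarith

end Pool.Agent.Lib.TT
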