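import Pool.Agent.Lib.MP_092512_nt.TT.Ch
import Pool.Agent.Lib.MP_092512_nt.TT.Wr

/-!
# TT / Lb (100 minutes): (3.3): long blocks

Text (3.3). `l` by Bertrand between `K ^ C1` and `4 K ^ C1` (does not divide `q` as it is larger), `r` minimal with `x ^ (3 δ) ≤ l ^ r`, `gg v b = (-1) ^ r FF v (b / l ^ r)`.
-/

set_option autoImplicit false

open Finset

namespace Pool.Agent.Lib.TT

open Pool.Agent.Lib.TCF (pht TUP rho)
open Pool.Agent.Lib.RG (Rough PN)
open Pool.Agent.Lib.MP_45349e_nt.LS (lam)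


private theorem Lb_pht_nonneg {r : ℕ} (B : Fin r → Finset ℕ) (m : ℕ) : 0 ≤ pht B m := by
  unfold pht
  positivity

private theorem Lb_rho_nonneg {r : ℕ} (B : Fin r → Finset ℕ) : 0 ≤ rho B := by
  unfold rho
  exact Finset.prod_nonneg fun c _ => Finset.sum_nonneg fun p _ => by positivity

private theorem Lb_ph_le (y0 : ℕ) {r : ℕ} (B : Fin r → Finset ℕ) (m : ℕ) : ph y0 B m ≤ pht B m := by
  unfold ph
  split_ifs
  · exact le_rfl
  · exact Lb_pht_nonneg _ _

private theorem Lb_ph_nonneg (y0 : ℕ) {r : ℕ} (B : Fin r → Finset ℕ) (m : ℕ) : 0 ≤ ph y0 B m := by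
  unfold ph
  split_ifs
  · exact Lb_pht_nonneg _ _
  · exact le_rfl

private theorem Lb_FF (P : Par) (D : Dat) (n : ℕ) (a : (ZMod P.q)ˣ) :
    FF P D n a = 1 ∨ FF P D n a = -1 := by
  unfold FF
  split_ifs
  · exact Or.inl rfl
  · exact Or.inr rfl

private theorem Lb_wr_nonneg (P : Par) (D : Dat) (n : ℕ) (a : (ZMod P.q)ˣ) : 0 ≤ wr P D n a := by
  unfold wr
  refine Finset.sum_nonneg fun X _ => ?_
  split_ifs
  · exact Lb_ph_nonneg _ _ _
  · exact le_rfl

private theorem Lb_CS (f : ℕ → ℝ) (hf : ∀ w, 0 ≤ f w) (v : ℕ) (A E : ℝ) (hA : 0 ≤ A) (hE : 0 ≤ E)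
    (hsm : ∑ n ∈ Ioc v (2 * v), f n ^ 2 ≤ A ^ 2 * v) (S : Finset ℕ) (hS : S ⊆ Ioc v (2 * v))
    (hc : (S.card : ℝ) ≤ v * E ^ 2) : ∑ w ∈ S, f w ≤ A * v * E := by
  have e2 : (∑ w ∈ S, f w) ^ 2 ≤ (S.card : ℝ) * ∑ w ∈ S, f w ^ 2 := sq_sum_le_card_mul_sum_sq
  have e3 : ∑ w ∈ S, f w ^ 2 ≤ ∑ w ∈ Ioc v (2 * v), f w ^ 2 :=
    Finset.sum_le_sum_of_subset_of_nonneg hS fun w _ _ => sq_nonneg _
  have e4 : (∑ w ∈ S, f w) ^ 2 ≤ (v * E ^ 2) * (A ^ 2 * v) := by
    refine e2.trans ?_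
    exact mul_le_mul hc (e3.trans hsm) (Finset.sum_nonneg fun w _ => sq_nonneg _) (by positivity)
  have e5 : ((v : ℝ) * E ^ 2) * (A ^ 2 * v) = (A * v * E) ^ 2 := by ring
  rw [e5] at e4
  exact (pow_le_pow_iff_left₀ (Finset.sum_nonneg fun w _ => hf w) (by positivity) two_ne_zero).1 e4

private theorem Lb_split (g : ℕ → ℝ) (hg : ∀ w, 0 ≤ g w) (u H u1 : ℕ) (hu1 : u1 ≤ u - H)
    (hu2 : u ≤ 2 * u1) :
    ∑ w ∈ Ioc (u - H) (2 * u), g w ≤ ∑ w ∈ Ioc u1 (2 * u1), g w + ∑ w ∈ Ioc u (2 * u), g w := by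
  have h1 : Ioc (u - H) (2 * u) ⊆ Ioc u1 (2 * u1) ∪ Ioc u (2 * u) := by
    intro w hw
    rw [Finset.mem_Ioc] at hw
    rw [Finset.mem_union, Finset.mem_Ioc, Finset.mem_Ioc]
    omega
  have h2 := Finset.sum_le_sum_of_subset_of_nonneg h1 (f := g) fun w _ _ => hg w
  have h3 := Finset.sum_union_inter (s₁ := Ioc u1 (2 * u1)) (s₂ := Ioc u (2 * u)) (f := g)
  have h4 : 0 ≤ ∑ w ∈ Ioc u1 (2 * u1) ∩ Ioc u (2 * u), g w := Finset.sum_nonneg fun w _ => hg w
  linarith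

open Classical in
private theorem Lb_one (f φ : ℕ → ℝ) (hφ : ∀ m, 0 ≤ φ m) (H u Lam : ℕ)
    (hf : ∀ w, f w = ∑ F ∈ Ico w (w + H), φ F) (S : Finset ℕ)
    (hS : ∀ Y ∈ S, u < Y ∧ Y ≤ 2 * u ∧ Y % Lam < H) (hH : H ≤ u) :
    ∑ Y ∈ S, φ Y ≤ ∑ w ∈ (Ioc (u - H) (2 * u)).filter (fun w => Lam ∣ w), f w := by
  rw [← Finset.sum_fiberwise_of_maps_to (s := S) (g := fun Y => Lam * (Y / Lam))
    (t := (Ioc (u - H) (2 * u)).filter (fun w => Lam ∣ w))]
  · refine Finset.sum_le_sum fun w _ => ?_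
    rw [hf]
    refine Finset.sum_le_sum_of_subset_of_nonneg ?_ fun m _ _ => hφ m
    intro Y hY
    rw [Finset.mem_filter] at hY
    rw [Finset.mem_Ico]
    have h1 := (hS Y hY.1).2.2
    have h2 := Nat.div_add_mod Y Lam
    omega
  · intro Y hY
    have h1 := hS Y hY
    have h2 := Nat.div_add_mod Y Lam
    rw [Finset.mem_filter, Finset.mem_Ioc]
    exact ⟨by omega, dvd_mul_right _ _⟩

open Classical in
private theorem Lb_two (P : Par) (D : Dat) (H u Lam : ℕ) (hHH : H = HH P D.x) (a b' : (ZMod P.q)ˣ)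
    (sg : ℝ) (f : ℕ → ℝ) (hf : ∀ w, f w = ∑ F ∈ Ico w (w + H), pht D.BX F) (hH : H ≤ u)
    (hL : 0 < Lam) (S : Finset ℕ)
    (hS : ∀ Y ∈ S, u < Y ∧ Y ≤ 2 * u ∧ H ≤ Y % Lam ∧ (Y : ZMod P.q) = a ∧
      (lam Y : ℝ) ≠ sg * FF P D (Y / Lam) b') :
    (H : ℝ) * ∑ Y ∈ S, ph D.y0 D.BX Y ≤ ∑ w ∈ Ioc (u - H) (2 * u), wr P D w a +
      ∑ w ∈ (Ioc (u - H) (2 * u)).filter (fun w => FF P D w a ≠ sg * FF P D (w / Lam) b'), f w := by
  have h1 : (H : ℝ) * ∑ Y ∈ S, ph D.y0 D.BX Y =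
      ∑ Y ∈ S, ∑ w ∈ Ioc (u - H) (2 * u), if Y < w + H ∧ w ≤ Y then ph D.y0 D.BX Y else 0 := by
    rw [Finset.mul_sum]
    refine Finset.sum_congr rfl fun Y hY => ?_
    have h2 := hS Y hY
    rw [← Finset.sum_filter, Finset.sum_const, nsmul_eq_mul]
    have h3 : (Ioc (u - H) (2 * u)).filter (fun w => Y < w + H ∧ w ≤ Y) = Ioc (Y - H) Y := by
      ext w
      rw [Finset.mem_filter, Finset.mem_Ioc, Finset.mem_Ioc]
      omega
    rw [h3, Nat.card_Ioc]
    have h4 : Y - (Y - H) = H := by omega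
    rw [h4]
  rw [h1, Finset.sum_comm]
  have h5 : ∀ w ∈ Ioc (u - H) (2 * u),
      ∑ Y ∈ S, (if Y < w + H ∧ w ≤ Y then ph D.y0 D.BX Y else 0) ≤
        wr P D w a + if FF P D w a ≠ sg * FF P D (w / Lam) b' then f w else 0 := by
    intro w _
    have hf0 : 0 ≤ f w := by
      rw [hf]
      exact Finset.sum_nonneg fun m _ => Lb_pht_nonneg _ _
    rw [← Finset.sum_filter]
    by_cases hw : FF P D w a ≠ sg * FF P D (w / Lam) b'
    · rw [if_pos hw]
      have h6 : ∑ Y ∈ S.filter (fun Y => Y < w + H ∧ w ≤ Y), ph D.y0 D.BX Y ≤ f w := by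
        rw [hf]
        refine (Finset.sum_le_sum fun Y _ => Lb_ph_le D.y0 D.BX Y).trans ?_
        refine Finset.sum_le_sum_of_subset_of_nonneg ?_ fun m _ _ => Lb_pht_nonneg _ _
        intro Y hY
        rw [Finset.mem_filter] at hY
        rw [Finset.mem_Ico]
        omega
      have h7 := Lb_wr_nonneg P D w a
      linarith
    · rw [if_neg hw, add_zero]
      push Not at hw
      unfold wr
      rw [← Finset.sum_filter]
      refine Finset.sum_le_sum_of_subset_of_nonneg ?_ fun m _ _ => Lb_ph_nonneg _ _ _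
      intro Y hY
      rw [Finset.mem_filter] at hY
      obtain ⟨h8, h9, h10, h11, h12⟩ := hS Y hY.1
      rw [Finset.mem_filter, Finset.mem_filter, Finset.mem_Ico, ← hHH]
      refine ⟨⟨by omega, h11⟩, ?_⟩
      have h13 : w / Lam = Y / Lam := by
        have h14 := Nat.div_add_mod Y Lam
        have h15 := Nat.mod_lt Y hL
        have h16 : Lam * (Y / Lam + 1) = Lam * (Y / Lam) + Lam := by ring
        refine Nat.div_eq_of_lt_le ?_ ?_
        · rw [mul_comm]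
          omega
        · rw [mul_comm, h16]
          omega
      rw [hw, h13]
      exact h12
  refine (Finset.sum_le_sum h5).trans ?_
  rw [Finset.sum_add_distrib, Finset.sum_filter]

private theorem Lb_mult (v Lam : ℕ) (hL : 0 < Lam) :
    (((Ioc v (2 * v)).filter fun w => Lam ∣ w).card : ℝ) ≤ v / Lam + 2 := by
  have h1 : ((Ioc v (2 * v)).filter fun w => Lam ∣ w).card ≤ (Icc (v / Lam) (2 * v / Lam)).card := by
    refine Finset.card_le_card_of_injOn (fun w => w / Lam) ?_ ?_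
    · intro w hw
      have hw' := Finset.mem_filter.1 (Finset.mem_coe.1 hw)
      rw [Finset.mem_Ioc] at hw'
      refine Finset.mem_coe.2 (Finset.mem_Icc.2 ⟨?_, ?_⟩)
      · exact Nat.div_le_div_right (by omega)
      · exact Nat.div_le_div_right (by omega)
    · intro w hw w' hw' h
      have h1 := (Finset.mem_filter.1 (Finset.mem_coe.1 hw)).2
      have h2 := (Finset.mem_filter.1 (Finset.mem_coe.1 hw')).2
      obtain ⟨c, hc⟩ := h1
      obtain ⟨c', hc'⟩ := h2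
      have h3 : w / Lam = w' / Lam := h
      rw [hc, hc', Nat.mul_div_cancel_left _ hL, Nat.mul_div_cancel_left _ hL] at h3
      rw [hc, hc', h3]
  have h2 : (Icc (v / Lam) (2 * v / Lam)).card ≤ v / Lam + 2 := by
    rw [Nat.card_Icc]
    have h3 : 2 * v / Lam ≤ 2 * (v / Lam) + 1 := by
      have h4 := Nat.div_add_mod v Lam
      have h5 := Nat.mod_lt v hL
      have h6 : 2 * v / Lam < 2 * (v / Lam) + 2 := by
        rw [Nat.div_lt_iff_lt_mul hL]
        have h7 : (2 * (v / Lam) + 2) * Lam = 2 * (Lam * (v / Lam)) + 2 * Lam := by ring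
        rw [h7]
        omega
      omega
    omega
  have h3 : ((v / Lam : ℕ) : ℝ) ≤ v / Lam := Nat.cast_div_le
  have h4 : (((Ioc v (2 * v)).filter fun w => Lam ∣ w).card : ℝ) ≤ ((v / Lam + 2 : ℕ) : ℝ) := by
    exact_mod_cast h1.trans h2
  push_cast at h4
  linarith

private theorem Lb_grow (M : ℕ) (c : ℝ) (hc : 0 < c) : ∃ x0 : ℕ, ∀ x : ℕ, x0 ≤ x →
    (Real.log x) ^ M ≤ (x : ℝ) ^ c := by
  have h1 := (isLittleO_log_rpow_rpow_atTop (M : ℝ) hc).bound one_pos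
  have h2 := Real.tendsto_log_atTop.eventually_ge_atTop 1
  have h3 := (h1.and h2).and (Filter.eventually_ge_atTop (3 : ℝ))
  obtain ⟨a, ha⟩ := Filter.eventually_atTop.1 h3
  refine ⟨⌈a⌉₊, fun x hx => ?_⟩
  have hax : a ≤ (x : ℝ) := (Nat.le_ceil a).trans (by exact_mod_cast hx)
  obtain ⟨⟨g1, g2⟩, g3⟩ := ha x hax
  rw [one_mul, Real.norm_of_nonneg (by positivity), Real.norm_of_nonneg (by positivity)] at g1
  rw [← Real.rpow_natCast]
  exact g1

private theorem Lb_prime (P : Par) (hP : P.Ok) (x : ℕ) (hK : 4 ≤ Real.log x)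
    (hq : (P.q : ℝ) ≤ Real.log x) : ∃ l : ℕ, l ≠ 1 ∧ Mul P x l := by
  set K := Real.log x with hKd
  have hK1 : (1 : ℝ) ≤ K ^ P.C1 := one_le_pow₀ (by linarith)
  have hn : ⌈K ^ P.C1⌉₊ ≠ 0 := by
    have := Nat.le_ceil (K ^ P.C1)
    intro h
    rw [h] at this
    simp at this
    linarith
  obtain ⟨l, hl, h1, h2⟩ := Nat.exists_prime_lt_and_le_two_mul ⌈K ^ P.C1⌉₊ hn
  have h3 : K ^ P.C1 < l := lt_of_le_of_lt (Nat.le_ceil _) (by exact_mod_cast h1)
  have h4 : (l : ℝ) ≤ 4 * K ^ P.C1 := by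
    have h5 : (l : ℝ) ≤ 2 * (⌈K ^ P.C1⌉₊ : ℝ) := by exact_mod_cast h2
    have h6 := Nat.ceil_lt_add_one (show 0 ≤ K ^ P.C1 by positivity)
    linarith
  have h5 : ¬ l ∣ P.q := by
    intro h
    have h6 := Nat.le_of_dvd (by have := hP.q2; omega) h
    have h7 : (l : ℝ) ≤ P.q := by exact_mod_cast h6
    have h8 : K ≤ K ^ P.C1 := by
      have h9 : K ^ 1 ≤ K ^ P.C1 := pow_le_pow_right₀ (by linarith) (by have := hP.c1; omega)
      rwa [pow_one] at h9
    linarith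
  exact ⟨l, hl.one_lt.ne', Or.inr ⟨hl, h3, h4, h5⟩⟩

open Classical in
theorem lbk (P : Par) (hP : P.Ok) : ∃ x0 : ℕ, ∀ D : Dat, x0 ≤ D.x → Ctx P D → ∀ Bd : ℕ → ℕ → ℕ → Prop,
    (∀ l : ℕ, Mul P D.x l → Inp P D Bd l) → ∃ (gg : ℕ → (ZMod P.q)ˣ → ℝ) (Lam : ℕ), LBk P D gg Lam := by
  have hd0 := hP.d0
  have hd1 := hP.d1
  obtain ⟨x1, h1⟩ := grow P hP 288
  obtain ⟨x2, h2⟩ := wrs P hP
  obtain ⟨x3, h3⟩ := chain P hP
  obtain ⟨x4, h4⟩ := sm P hP
  obtain ⟨x5, h5⟩ := Lb_grow (2 * P.Cf + 2 * P.C1 + 520) (3 * dl P) (by unfold dl; linarith)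
  refine ⟨max x1 (max (max x2 x3) (max x4 x5)), fun D hD hC Bd hB => ?_⟩
  have d1 : x1 ≤ D.x := le_trans (le_max_left _ _) hD
  have d2 : x2 ≤ D.x := le_trans (le_trans (le_trans (le_max_left _ _) (le_max_left _ _)) (le_max_right _ _)) hD
  have d3 : x3 ≤ D.x := le_trans (le_trans (le_trans (le_max_right _ _) (le_max_left _ _)) (le_max_right _ _)) hD
  have d4 : x4 ≤ D.x := le_trans (le_trans (le_trans (le_max_left _ _) (le_max_right _ _)) (le_max_right _ _)) hD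
  have d5 : x5 ≤ D.x := le_trans (le_trans (le_trans (le_max_right _ _) (le_max_right _ _)) (le_max_right _ _)) hD
  obtain ⟨g0, g1, g2, -, -, -, -, g3, -, g4, g5, -, -, -, -⟩ := h1 D d1 hC
  have g6 := h5 D.x d5
  set K : ℝ := Real.log D.x with hK
  have hK0 : 0 < K := by linarith
  have hK1 : (1 : ℝ) ≤ K := by linarith
  set X3 : ℝ := (D.x : ℝ) ^ (3 * dl P) with hX3
  have hx1 : (1 : ℝ) ≤ D.x := by exact_mod_cast (show 1 ≤ D.x by omega)
  have hxp : (0 : ℝ) < D.x := by linarith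
  -- growth
  have e1 : 288 * K ^ (2 * P.C1) ≤ X3 := by
    refine le_trans ?_ g6
    have a1 : 288 * K ^ (2 * P.C1) ≤ K ^ (2 * P.C1 + 1) := by
      rw [pow_succ K (2 * P.C1)]
      have : 0 < K ^ (2 * P.C1) := by positivity
      nlinarith
    exact a1.trans (pow_le_pow_right₀ hK1 (by omega))
  have e2 : 8 * K ^ (2 * P.Cf + 512) ≤ X3 := by
    refine le_trans ?_ g6
    have a1 : 8 * K ^ (2 * P.Cf + 512) ≤ K ^ (2 * P.Cf + 512 + 1) := by
      rw [pow_succ K (2 * P.Cf + 512)]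
      have : 0 < K ^ (2 * P.Cf + 512) := by positivity
      nlinarith
    exact a1.trans (pow_le_pow_right₀ hK1 (by omega))
  have hX1 : 1 < X3 := by
    have : (1 : ℝ) ≤ K ^ (2 * P.Cf + 512) := one_le_pow₀ hK1
    linarith
  -- the prime
  obtain ⟨l, hl1, hl⟩ := Lb_prime P hP D.x (by linarith) g2
  have hl' : l.Prime ∧ K ^ P.C1 < l ∧ (l : ℝ) ≤ 4 * K ^ P.C1 ∧ ¬ l ∣ P.q := by
    rcases hl with h | h
    · exact absurd h hl1
    · exact h
  have hl2 : (2 : ℝ) ≤ l := by exact_mod_cast hl'.1.two_le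
  have hex : ∃ r : ℕ, X3 ≤ (l : ℝ) ^ r := by
    obtain ⟨n, hn⟩ := pow_unbounded_of_one_lt X3 (show (1 : ℝ) < l by linarith)
    exact ⟨n, hn.le⟩
  set r := Nat.find hex with hr
  have hr1 : X3 ≤ (l : ℝ) ^ r := Nat.find_spec hex
  have hr0 : r ≠ 0 := by
    intro h
    rw [h, pow_zero] at hr1
    linarith
  have hr2 : (l : ℝ) ^ r ≤ X3 * (4 * K ^ P.C1) := by
    have a1 : ¬ X3 ≤ (l : ℝ) ^ (r - 1) := Nat.find_min hex (by omega)
    push Not at a1
    have a2 : r = (r - 1) + 1 := by omega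
    rw [a2, pow_succ]
    exact mul_le_mul a1.le hl'.2.2.1 (by positivity) (by linarith)
  have hcop : l.Coprime P.q := (hl'.1.coprime_iff_not_dvd).2 hl'.2.2.2
  set lu : (ZMod P.q)ˣ := ZMod.unitOfCoprime l hcop with hlu
  have hluc : ((lu : (ZMod P.q)ˣ) : ZMod P.q) = (l : ZMod P.q) := ZMod.coe_unitOfCoprime l hcop
  set sg : ℝ := (-1) ^ r with hsg
  have hsg1 : sg = 1 ∨ sg = -1 := neg_one_pow_eq_or ℝ r
  refine ⟨fun v b => sg * FF P D v ((lu ^ r)⁻¹ * b), l ^ r, ?_, ?_, ?_, ?_⟩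
  · intro v a
    show sg * FF P D v ((lu ^ r)⁻¹ * a) = 1 ∨ sg * FF P D v ((lu ^ r)⁻¹ * a) = -1
    rcases hsg1 with h | h <;> rcases Lb_FF P D v ((lu ^ r)⁻¹ * a) with h' | h' <;>
      rw [h, h'] <;> norm_num
  · push_cast
    exact hr1
  · push_cast
    exact hr2
  · intro u a hu hux
    set Lam := l ^ r with hLam
    have hLam0 : 0 < Lam := pow_pos hl'.1.pos r
    have hLamR : (Lam : ℝ) = (l : ℝ) ^ r := by rw [hLam]; push_cast; rfl
    set b' : (ZMod P.q)ˣ := (lu ^ r)⁻¹ * a with hb'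
    have hab : (a : ZMod P.q) = (l : ZMod P.q) ^ r * b' := by
      have a1 : a = lu ^ r * b' := by rw [hb', mul_inv_cancel_left]
      conv_lhs => rw [a1]
      rw [Units.val_mul, Units.val_pow_eq_pow_val, hluc]
    set H := HH P D.x with hH
    have hHq : (H : ℝ) = P.q * (H1 P D.x : ℝ) := by
      rw [hH]
      unfold HH
      push_cast
      rfl
    set rr : ℝ := rho D.BX with hrr
    have hrr0 : 0 ≤ rr := Lb_rho_nonneg _
    set h : ℝ := (H1 P D.x : ℝ) with hh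
    have hh0 : (1 : ℝ) ≤ h := by rw [hh]; exact_mod_cast g3
    -- sizes
    have hX12 : X3 ≤ (D.x : ℝ) ^ (1 - 2 * dl P) := by
      rw [hX3]
      exact Real.rpow_le_rpow_of_exponent_le hx1 (by unfold dl; linarith)
    have hXd : (D.x : ℝ) ^ (1 - 2 * dl P) = X3 * (X3 * (D.x : ℝ) ^ (1 - P.d0)) := by
      rw [hX3, ← Real.rpow_add hxp, ← Real.rpow_add hxp]
      congr 1
      unfold dl
      ring
    have hXd1 : (1 : ℝ) ≤ (D.x : ℝ) ^ (1 - P.d0) := Real.one_le_rpow hx1 (by linarith)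
    have hKC : K ^ (P.Cf + 232) ≤ K ^ (2 * P.Cf + 512) := pow_le_pow_right₀ hK1 (by omega)
    have hKC1 : (1 : ℝ) ≤ K ^ (2 * P.Cf + 512) := one_le_pow₀ hK1
    have huH : 2 * H + 1 ≤ u := by
      have a1 : (2 * (H : ℝ) + 1) ≤ u := by linarith
      exact_mod_cast a1
    set u1 := (u + 1) / 2 with hu1
    have b1 : u1 ≤ u - H := by omega
    have b2 : u ≤ 2 * u1 := by omega
    have b3 : u1 ≤ u := by omega
    have b4 : 2 * u1 ≤ D.x := by omega
    have hu1R : (u : ℝ) / 2 ≤ u1 := by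
      have : (u : ℝ) ≤ 2 * u1 := by exact_mod_cast b2
      linarith
    -- conditions for the two scales
    have key : ∀ v : ℕ, (u : ℝ) / 2 ≤ v → v ≤ u → 2 * v ≤ D.x →
        ∑ w ∈ Ioc v (2 * v), wr P D w a ≤ h * rr * u / K ^ 40 ∧
        (∀ S ⊆ Ioc v (2 * v), ∀ E : ℝ, 0 ≤ E → (S.card : ℝ) ≤ v * E ^ 2 →
          ∑ w ∈ S, (∑ F ∈ Ico w (w + H), pht D.BX F) ≤ K ^ 3 * (rr * h) * u * E) ∧
        (((Ioc v (2 * v)).filter fun w => FF P D w a ≠ sg * FF P D (w / Lam) b').card : ℝ) ≤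
          v * (1 / K ^ 45) ^ 2 ∧
        (((Ioc v (2 * v)).filter fun w => Lam ∣ w).card : ℝ) ≤ v * (1 / K ^ (P.Cf + 256)) ^ 2 := by
      intro v hv hvu hvx
      have hvuR : (v : ℝ) ≤ u := by exact_mod_cast hvu
      have hv0 : (0 : ℝ) ≤ v := Nat.cast_nonneg v
      have c0 : (X3 * (X3 * (D.x : ℝ) ^ (1 - P.d0))) / 2 ≤ v := by rw [← hXd]; linarith
      have c1 : 9 * (l : ℝ) ^ (r + 1) * (D.x : ℝ) ^ (1 - P.d0) ≤ v := by
        have a1 : (l : ℝ) ^ (r + 1) ≤ X3 * (16 * K ^ (2 * P.C1)) := by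
          rw [pow_succ]
          have a2 : (l : ℝ) ^ r * l ≤ (X3 * (4 * K ^ P.C1)) * (4 * K ^ P.C1) :=
            mul_le_mul hr2 hl'.2.2.1 (by positivity) (by positivity)
          refine a2.trans (le_of_eq ?_)
          rw [two_mul, pow_add]
          ring
        have a3 : 9 * (l : ℝ) ^ (r + 1) ≤ X3 * X3 / 2 := by
          have a4 : X3 * (288 * K ^ (2 * P.C1)) ≤ X3 * X3 :=
            mul_le_mul_of_nonneg_left e1 (by linarith)
          linarith
        have a5 : 9 * (l : ℝ) ^ (r + 1) * (D.x : ℝ) ^ (1 - P.d0) ≤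
            X3 * X3 / 2 * (D.x : ℝ) ^ (1 - P.d0) :=
          mul_le_mul_of_nonneg_right a3 (by linarith)
        linarith
      have c2 : 8 * l * (D.x : ℝ) ^ (1 - P.d0) ≤ v := by
        refine le_trans ?_ c1
        refine mul_le_mul_of_nonneg_right ?_ (by linarith)
        have a1 : (l : ℝ) ≤ (l : ℝ) ^ (r + 1) := by
          have a2 : (1 : ℝ) ≤ (l : ℝ) ^ r := one_le_pow₀ (by linarith)
          rw [pow_succ]
          nlinarith
        nlinarith
      have c3 : (D.x : ℝ) ^ (1 - P.d0) / 2 ≤ v := by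
        have a1 : (D.x : ℝ) ^ (1 - P.d0) ≤ 8 * l * (D.x : ℝ) ^ (1 - P.d0) := by nlinarith
        linarith
      have hsm := h4 D d4 hC D.nX D.BX hC.fx v c3 (by omega)
      refine ⟨?_, ?_, ?_, ?_⟩
      · refine (h2 D d2 hC Bd l hl hl1 (hB 1 (Or.inl rfl)) (hB l hl) v a c2 hvx).trans ?_
        exact div_le_div_of_nonneg_right
          (mul_le_mul_of_nonneg_left hvuR (by positivity)) (by positivity)
      · intro S hS E hE hc
        have hsm' : ∑ n ∈ Ioc v (2 * v), (∑ F ∈ Ico n (n + H), pht D.BX F) ^ 2 ≤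
            (K ^ 3 * (rr * h)) ^ 2 * v := by
          refine hsm.trans (le_of_eq ?_)
          ring
        have a1 := Lb_CS (fun w => ∑ F ∈ Ico w (w + H), pht D.BX F)
          (fun w => Finset.sum_nonneg fun F _ => Lb_pht_nonneg _ _) v (K ^ 3 * (rr * h)) E
          (by positivity) hE hsm' S hS hc
        refine a1.trans ?_
        refine mul_le_mul_of_nonneg_right ?_ hE
        exact mul_le_mul_of_nonneg_left hvuR (by positivity)
      · refine (h3 D d3 hC Bd l hl hl1 (hB 1 (Or.inl rfl)) (hB l hl) r v a b' hab c1 hvx).trans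
          (le_of_eq ?_)
        rw [div_pow, one_pow, ← pow_mul, mul_one_div]
      · refine (Lb_mult v Lam hLam0).trans ?_
        have a1 : (1 / K ^ (P.Cf + 256)) ^ 2 = 1 / K ^ (2 * P.Cf + 512) := by
          have a2 : 2 * P.Cf + 512 = (P.Cf + 256) * 2 := by ring
          rw [div_pow, one_pow, ← pow_mul, a2]
        rw [a1]
        set Z := K ^ (2 * P.Cf + 512) with hZ
        have hZ0 : 0 < Z := by linarith
        have a2 : (v : ℝ) / Lam ≤ v * (1 / Z) / 2 := by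
          have a3 : 2 * Z ≤ Lam := by rw [hLamR]; linarith
          have a4 : (1 : ℝ) / Lam ≤ 1 / (2 * Z) := one_div_le_one_div_of_le (by positivity) a3
          have a5 : (v : ℝ) * (1 / Lam) ≤ v * (1 / (2 * Z)) := mul_le_mul_of_nonneg_left a4 hv0
          have a6 : (v : ℝ) * (1 / (2 * Z)) = v * (1 / Z) / 2 := by
            field_simp
          rw [a6] at a5
          rw [div_eq_mul_one_div]
          exact a5
        have a7 : (2 : ℝ) ≤ v * (1 / Z) / 2 := by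
          have a8 : 4 * Z ≤ v := by
            have a9 : X3 / 2 ≤ v := by linarith
            linarith
          rw [mul_one_div, le_div_iff₀ (by norm_num), le_div_iff₀ hZ0]
          linarith
        linarith
    obtain ⟨k1, k2, k3, k4⟩ := key u1 hu1R b3 b4
    obtain ⟨m1, m2, m3, m4⟩ := key u (by have : (0 : ℝ) ≤ u := Nat.cast_nonneg u; linarith) le_rfl hux
    set f : ℕ → ℝ := fun w => ∑ F ∈ Ico w (w + H), pht D.BX F with hf
    have hf0 : ∀ w, 0 ≤ f w := fun w => Finset.sum_nonneg fun F _ => Lb_pht_nonneg _ _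
    -- sums over the exceptional windows
    have s1 : ∑ w ∈ (Ioc (u - H) (2 * u)).filter
        (fun w => FF P D w a ≠ sg * FF P D (w / Lam) b'), f w ≤
        2 * (K ^ 3 * (rr * h) * u * (1 / K ^ 45)) := by
      rw [Finset.sum_filter]
      refine (Lb_split _ (fun w => ?_) u H u1 b1 b2).trans ?_
      · split_ifs
        · exact hf0 w
        · exact le_rfl
      · rw [← Finset.sum_filter, ← Finset.sum_filter]
        have t1 := k2 _ (Finset.filter_subset _ _) (1 / K ^ 45) (by positivity) k3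
        have t2 := m2 _ (Finset.filter_subset _ _) (1 / K ^ 45) (by positivity) m3
        linarith
    have s2 : ∑ w ∈ (Ioc (u - H) (2 * u)).filter (fun w => Lam ∣ w), f w ≤
        2 * (K ^ 3 * (rr * h) * u * (1 / K ^ (P.Cf + 256))) := by
      rw [Finset.sum_filter]
      refine (Lb_split _ (fun w => ?_) u H u1 b1 b2).trans ?_
      · split_ifs
        · exact hf0 w
        · exact le_rfl
      · rw [← Finset.sum_filter, ← Finset.sum_filter]
        have t1 := k2 _ (Finset.filter_subset _ _) (1 / K ^ (P.Cf + 256)) (by positivity) k4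
        have t2 := m2 _ (Finset.filter_subset _ _) (1 / K ^ (P.Cf + 256)) (by positivity) m4
        linarith
    have s3 : ∑ w ∈ Ioc (u - H) (2 * u), wr P D w a ≤ 2 * (h * rr * u / K ^ 40) := by
      have t := Lb_split _ (fun w => Lb_wr_nonneg P D w a) u H u1 b1 b2
      linarith
    -- the bad numbers
    rw [← Finset.sum_filter, ← Finset.sum_filter_add_sum_filter_not _ (fun Y => Y % Lam < H)]
    have p1 : ∑ Y ∈ ((((Ioc u (2 * u)).filter (fun Y : ℕ => (Y : ZMod P.q) = a)).filter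
        (fun Y => (lam Y : ℝ) ≠ sg * FF P D (Y / Lam) ((lu ^ r)⁻¹ * a))).filter (fun Y => Y % Lam < H)),
        ph D.y0 D.BX Y ≤ 2 * (K ^ 3 * (rr * h) * u * (1 / K ^ (P.Cf + 256))) := by
      refine (Finset.sum_le_sum fun Y _ => Lb_ph_le D.y0 D.BX Y).trans ?_
      refine (Lb_one f (pht D.BX) (fun m => Lb_pht_nonneg _ _) H u Lam (fun w => rfl) _ ?_
        (by omega)).trans s2
      intro Y hY
      rw [Finset.mem_filter, Finset.mem_filter, Finset.mem_filter, Finset.mem_Ioc] at hY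
      exact ⟨hY.1.1.1.1, hY.1.1.1.2, hY.2⟩
    have p2 : (H : ℝ) * ∑ Y ∈ ((((Ioc u (2 * u)).filter (fun Y : ℕ => (Y : ZMod P.q) = a)).filter
        (fun Y => (lam Y : ℝ) ≠ sg * FF P D (Y / Lam) ((lu ^ r)⁻¹ * a))).filter
        (fun Y => ¬ Y % Lam < H)), ph D.y0 D.BX Y ≤
        2 * (h * rr * u / K ^ 40) + 2 * (K ^ 3 * (rr * h) * u * (1 / K ^ 45)) := by
      refine (Lb_two P D H u Lam hH a b' sg f (fun w => rfl) (by omega) hLam0 _ ?_).trans
        (add_le_add s3 s1)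
      intro Y hY
      rw [Finset.mem_filter, Finset.mem_filter, Finset.mem_filter, Finset.mem_Ioc] at hY
      exact ⟨hY.1.1.1.1, hY.1.1.1.2, not_lt.1 hY.2, hY.1.1.2, hY.1.2⟩
    have hu0 : (0 : ℝ) ≤ u := Nat.cast_nonneg u
    have q2 : (2 : ℝ) ≤ P.q := by exact_mod_cast hP.q2
    -- second part
    have p3 : ∑ Y ∈ ((((Ioc u (2 * u)).filter (fun Y : ℕ => (Y : ZMod P.q) = a)).filter
        (fun Y => (lam Y : ℝ) ≠ sg * FF P D (Y / Lam) ((lu ^ r)⁻¹ * a))).filter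
        (fun Y => ¬ Y % Lam < H)), ph D.y0 D.BX Y ≤ 2 * (rr * u / K ^ 40) := by
      have hH0 : 0 < (H : ℝ) := by rw [hHq]; positivity
      refine le_of_mul_le_mul_left (p2.trans ?_) hH0
      rw [hHq]
      have t1 : K ^ 3 * (rr * h) * u * (1 / K ^ 45) = (h * rr * u / K ^ 40) * (1 / K ^ 2) := by
        field_simp
      have t2 : (1 : ℝ) / K ^ 2 ≤ 1 := by
        rw [div_le_one (by positivity)]
        exact one_le_pow₀ hK1
      have t3 : 0 ≤ h * rr * u / K ^ 40 := by positivity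
      have t4 : (h * rr * u / K ^ 40) * (1 / K ^ 2) ≤ h * rr * u / K ^ 40 :=
        mul_le_of_le_one_right t3 t2
      have t5 : (P.q : ℝ) * h * (2 * (rr * u / K ^ 40)) = P.q * (2 * (h * rr * u / K ^ 40)) := by
        ring
      rw [t1, t5]
      nlinarith
    have p4 : 2 * (K ^ 3 * (rr * h) * u * (1 / K ^ (P.Cf + 256))) ≤ 4 * (rr * u / K ^ 23) := by
      have t1 : K ^ 3 * (rr * h) * u * (1 / K ^ (P.Cf + 256)) ≤
          K ^ 3 * (rr * (2 * K ^ (P.Cf + 230))) * u * (1 / K ^ (P.Cf + 256)) := by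
        refine mul_le_mul_of_nonneg_right ?_ (by positivity)
        refine mul_le_mul_of_nonneg_right ?_ hu0
        refine mul_le_mul_of_nonneg_left ?_ (by positivity)
        exact mul_le_mul_of_nonneg_left g4 hrr0
      have t2 : K ^ 3 * (rr * (2 * K ^ (P.Cf + 230))) * u * (1 / K ^ (P.Cf + 256)) =
          2 * (rr * u / K ^ 23) := by
        have t3 : K ^ (P.Cf + 256) = K ^ (P.Cf + 230) * (K ^ 3 * K ^ 23) := by
          rw [← pow_add, ← pow_add]
        rw [t3]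
        field_simp
      rw [t2] at t1
      linarith
    have p5 : 4 * (rr * u / K ^ 23) + 2 * (rr * u / K ^ 40) ≤ rr * u / K ^ 20 := by
      have t1 : rr * (u : ℝ) / K ^ 23 = (rr * u / K ^ 20) * (1 / K ^ 3) := by field_simp
      have t2 : rr * (u : ℝ) / K ^ 40 = (rr * u / K ^ 20) * (1 / K ^ 20) := by field_simp
      have t3 : (1 : ℝ) / K ^ 3 ≤ 1 / 8 := by
        refine one_div_le_one_div_of_le (by norm_num) ?_
        have : (2 : ℝ) ^ 3 ≤ K ^ 3 := pow_le_pow_left₀ (by norm_num) (by linarith) 3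
        linarith
      have t4 : (1 : ℝ) / K ^ 20 ≤ 1 / 8 := by
        refine one_div_le_one_div_of_le (by norm_num) ?_
        have a1 : (2 : ℝ) ^ 20 ≤ K ^ 20 := pow_le_pow_left₀ (by norm_num) (by linarith) 20
        have a2 : (8 : ℝ) ≤ 2 ^ 20 := by norm_num
        linarith
      have t5 : 0 ≤ rr * u / K ^ 20 := by positivity
      rw [t1, t2]
      nlinarith
    refine le_trans (add_le_add (p1.trans p4) p3) p5

end Pool.Agent.Lib.TT
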