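import Pool.Agent.Lib.MP_092512_nt.TT.Good

/-!
# TT / Mj (90 minutes): (2.3): the majority argument

Text (2.3). `s` = sign of the `ph`-weighted sum of `lam` over the `Y`-window of the class `yc b` (a unit: every prime of `q` divides `R`); for each `(X,t)` the `Y` with sign `s` carry at least `A_Y/2 - mb/80 ≥ A_Y/4` pairs which are not bad (`cnt` as a sum over `t`, `pht_card`).
-/

set_option autoImplicit false

open Finset

namespace Pool.Agent.Lib.TT

open Pool.Agent.Lib.TCF (pht TUP rho)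
open Pool.Agent.Lib.RG (Rough PN)
open Pool.Agent.Lib.MP_45349e_nt.LS (lam)


private theorem mj_lam_pm (a : ℕ) : lam a = 1 ∨ lam a = -1 := by
  have h := Pool.Agent.Lib.MP_45349e_nt.LS.abs_lam a
  rcases (abs_eq (by norm_num : (0 : ℝ) ≤ 1)).mp h with h1 | h1
  · exact Or.inl h1
  · exact Or.inr h1

private theorem mj_rough_ne {y0 a : ℕ} (h0 : 2 ≤ y0) (ha : Rough y0 a) : a ≠ 0 := by
  rintro rfl
  have h := ha 2 Nat.prime_two (dvd_zero 2)
  omega

open Classical in
private theorem mj_sign (W : Finset ℕ) (f : ℕ → ℝ) (s : ℝ) (hs : s = 1 ∨ s = -1)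
    (h : 2 * (∑ X ∈ W, if lam X ≠ s then f X else 0) < ∑ X ∈ W, f X) :
    (if 0 ≤ ∑ X ∈ W, f X * lam X then (1 : ℝ) else -1) = s := by
  have key : s * ∑ X ∈ W, f X * lam X =
      ∑ X ∈ W, f X - 2 * (∑ X ∈ W, if lam X ≠ s then f X else 0) := by
    rw [mul_sum, mul_sum, ← sum_sub_distrib]
    refine sum_congr rfl fun X _ => ?_
    by_cases hX : lam X = s
    · rw [if_neg (fun h => h hX), hX]
      rcases hs with h1 | h1 <;> rw [h1] <;> ring
    · rw [if_pos hX]
      rcases mj_lam_pm X with h2 | h2 <;> rcases hs with h1 | h1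
      · exact absurd (h2.trans h1.symm) hX
      · rw [h1, h2]; ring
      · rw [h1, h2]; ring
      · exact absurd (h2.trans h1.symm) hX
  rcases hs with h1 | h1
  · rw [h1] at key h ⊢
    rw [if_pos (by linarith)]
  · rw [h1] at key h ⊢
    rw [if_neg (by linarith)]

open Classical in
private theorem mj_half (W : Finset ℕ) (f : ℕ → ℝ) : ∃ s : ℝ, (s = 1 ∨ s = -1) ∧
    (∑ X ∈ W, f X) / 2 ≤ ∑ X ∈ W, if lam X = s then f X else 0 := by
  have h1 : ∑ X ∈ W, f X = (∑ X ∈ W, if lam X = 1 then f X else 0) +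
      ∑ X ∈ W, if lam X = -1 then f X else 0 := by
    rw [← sum_add_distrib]
    refine sum_congr rfl fun X _ => ?_
    rcases mj_lam_pm X with h2 | h2
    · rw [h2, if_pos rfl, if_neg (by norm_num)]; ring
    · rw [h2, if_pos rfl, if_neg (by norm_num)]; ring
  by_cases h : (∑ X ∈ W, if lam X = -1 then f X else 0) ≤ ∑ X ∈ W, if lam X = 1 then f X else 0
  · exact ⟨1, Or.inl rfl, by linarith⟩
  · exact ⟨-1, Or.inr rfl, by push Not at h; linarith⟩

open Classical in
private theorem mj_cnt_nonneg (D : Dat) (Bd : ℕ → ℕ → ℕ → Prop) (j X Y : ℕ) :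
    0 ≤ cnt D Bd j X Y := by
  unfold cnt
  split_ifs
  · exact sum_nonneg fun t _ => Nat.cast_nonneg _
  · exact le_rfl

open Classical in
private theorem mj_core {P : Par} {D : Dat} (hF : Fam P D.x D.y0 D.BX)
    (hG : Fam P D.x D.y0 D.BY) (hy0 : 2 ≤ D.y0) (Bd : ℕ → ℕ → ℕ → Prop) (l j w : ℕ)
    (b : (ZMod P.q)ˣ) (s AY m : ℝ) (a : ℕ) (ha : (a : ZMod P.q) = yc P b)
    (hAY : AY / 2 ≤ ∑ Y ∈ (Ico (yw P D l w) (yw P D l w + HH P D.x)).filter
      (fun Y : ℕ => (Y : ZMod P.q) = yc P b), if lam Y = s then ph D.y0 D.BY Y else 0)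
    (hm : ∀ t ∈ TUP D.BX, bb P D Bd j t (yw P D l w) a ≤ m) (hm2 : m ≤ AY / 4) :
    (∑ X ∈ (Ico (w / j) (w / j + HH P D.x)).filter (fun X : ℕ => ((j * X : ℕ) : ZMod P.q) = b),
      if lam (j * X) ≠ s then ph D.y0 D.BX X else 0) * (AY / 4) ≤ NN P D Bd l j w b := by
  unfold NN
  rw [sum_mul]
  refine sum_le_sum fun X _ => ?_
  set WY := (Ico (yw P D l w) (yw P D l w + HH P D.x)).filter
      (fun Y : ℕ => (Y : ZMod P.q) = yc P b) with hWY
  have hnn : 0 ≤ ∑ Y ∈ WY, if lam (j * X) ≠ lam Y then cnt D Bd j X Y else 0 := by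
    refine sum_nonneg fun Y _ => ?_
    split_ifs
    · exact mj_cnt_nonneg D Bd j X Y
    · exact le_rfl
  by_cases h : lam (j * X) = s
  · rw [if_neg (fun h' => h' h), zero_mul]
    exact hnn
  rw [if_pos h]
  by_cases hr : Rough D.y0 X
  swap
  · unfold ph
    rw [if_neg hr, zero_mul]
    exact hnn
  have hX0 := mj_rough_ne hy0 hr
  -- the inner sums
  have hin : ∀ t ∈ (TUP D.BX).filter (fun t => t ∣ X), AY / 4 ≤
      ∑ Y ∈ WY, if lam Y = s ∧ Rough D.y0 Y then
        (((TUP D.BY).filter fun t' => t' ∣ Y ∧ ¬ Bd j t t').card : ℝ) else 0 := by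
    intro t ht
    have hbb : bb P D Bd j t (yw P D l w) a = ∑ Y ∈ WY, if Rough D.y0 Y then
        (((TUP D.BY).filter fun t' => t' ∣ Y ∧ Bd j t t').card : ℝ) else 0 := by
      unfold bb
      rw [← sum_filter, hWY, filter_filter]
      refine sum_congr (filter_congr fun Y _ => ?_) fun _ _ => rfl
      rw [← ha, ZMod.natCast_eq_natCast_iff]
    have h1 : ∑ Y ∈ WY, (if lam Y = s then ph D.y0 D.BY Y else 0) ≤
        (∑ Y ∈ WY, if lam Y = s ∧ Rough D.y0 Y then
          (((TUP D.BY).filter fun t' => t' ∣ Y ∧ ¬ Bd j t t').card : ℝ) else 0) +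
        ∑ Y ∈ WY, if Rough D.y0 Y then
          (((TUP D.BY).filter fun t' => t' ∣ Y ∧ Bd j t t').card : ℝ) else 0 := by
      rw [← sum_add_distrib]
      refine sum_le_sum fun Y _ => ?_
      by_cases hrY : Rough D.y0 Y
      · by_cases hsY : lam Y = s
        · rw [if_pos hsY, if_pos ⟨hsY, hrY⟩, if_pos hrY]
          unfold ph
          rw [if_pos hrY, pht_card hG (mj_rough_ne hy0 hrY)]
          have h2 : (TUP D.BY).filter (fun t' => t' ∣ Y) ⊆
              (TUP D.BY).filter (fun t' => t' ∣ Y ∧ ¬ Bd j t t') ∪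
              (TUP D.BY).filter (fun t' => t' ∣ Y ∧ Bd j t t') := by
            intro t' ht'
            obtain ⟨h3, h4⟩ := mem_filter.mp ht'
            by_cases h5 : Bd j t t'
            · exact mem_union_right _ (mem_filter.mpr ⟨h3, h4, h5⟩)
            · exact mem_union_left _ (mem_filter.mpr ⟨h3, h4, h5⟩)
          have h6 := (card_le_card h2).trans (card_union_le _ _)
          exact_mod_cast h6
        · rw [if_neg hsY, if_neg (fun h' => hsY h'.1), if_pos hrY, zero_add]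
          exact Nat.cast_nonneg _
      · have h7 : ph D.y0 D.BY Y = 0 := by
          unfold ph
          rw [if_neg hrY]
        have h7b : ¬ (lam Y = s ∧ Rough D.y0 Y) := fun h' => hrY h'.2
        rw [h7, if_neg h7b, if_neg hrY]
        split_ifs <;> norm_num
    have h8 := hm t (mem_filter.mp ht).1
    rw [hbb] at h8
    linarith
  have hsum : ph D.y0 D.BX X * (AY / 4) ≤ ∑ t ∈ (TUP D.BX).filter (fun t => t ∣ X),
      ∑ Y ∈ WY, if lam Y = s ∧ Rough D.y0 Y then
        (((TUP D.BY).filter fun t' => t' ∣ Y ∧ ¬ Bd j t t').card : ℝ) else 0 := by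
    have h9 := card_nsmul_le_sum ((TUP D.BX).filter (fun t => t ∣ X)) _ (AY / 4) hin
    unfold ph
    rw [if_pos hr, pht_card hF hX0]
    rwa [nsmul_eq_mul] at h9
  refine hsum.trans ?_
  rw [sum_comm]
  refine sum_le_sum fun Y _ => ?_
  by_cases hsY : lam Y = s
  · rw [if_pos (by rw [hsY]; exact h)]
    by_cases hrY : Rough D.y0 Y
    · unfold cnt
      rw [if_pos ⟨hr, hrY⟩]
      refine le_of_eq (sum_congr rfl fun t _ => ?_)
      rw [if_pos ⟨hsY, hrY⟩]
    · refine le_trans (le_of_eq ?_) (mj_cnt_nonneg D Bd j X Y)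
      refine sum_eq_zero fun t _ => ?_
      rw [if_neg (fun h' => hrY h'.2)]
  · refine le_trans (le_of_eq (b := 0) ?_) ?_
    · refine sum_eq_zero fun t _ => ?_
      rw [if_neg (fun h' => hsY h'.1)]
    · split_ifs
      · exact mj_cnt_nonneg D Bd j X Y
      · exact le_rfl

/-- a natural number of the class `yc` -/
private theorem mj_rep {P : Par} (hP : P.Ok) (b : (ZMod P.q)ˣ) :
    ∃ a : ℕ, a.Coprime P.q ∧ (a : ZMod P.q) = yc P b := by
  have : NeZero P.q := ⟨by have := hP.q2; omega⟩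
  have hb := ZMod.val_coe_unit_coprime b
  have hcast : (((b : ZMod P.q).val : ℕ) : ZMod P.q) = b := by
    rw [ZMod.natCast_val, ZMod.cast_id', id]
  have hcop : ∀ r : ℕ, (∀ p : ℕ, p.Prime → p ∣ P.q → p ∣ r) →
      ((b : ZMod P.q).val + r).Coprime P.q := by
    intro r hr
    refine Nat.Coprime.symm (Nat.coprime_of_dvd ?_)
    intro p hp hpq hpb
    have h1 : p ∣ (b : ZMod P.q).val := (Nat.dvd_add_left (hr p hp hpq)).mp hpb
    have h2 : p ∣ Nat.gcd (b : ZMod P.q).val P.q := Nat.dvd_gcd h1 hpq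
    rw [hb] at h2
    exact hp.one_lt.ne' (Nat.dvd_one.mp h2)
  by_cases hs : P.s = true
  · refine ⟨(b : ZMod P.q).val + (P.q - 1) * P.R, hcop _ fun p hp hpq =>
      Dvd.dvd.mul_left (hP.rq p hp hpq) _, ?_⟩
    unfold yc
    rw [if_pos hs]
    push_cast [Nat.cast_sub (show 1 ≤ P.q by have := hP.q2; omega)]
    rw [hcast, ZMod.natCast_self]
    ring
  · refine ⟨(b : ZMod P.q).val + P.R, hcop _ fun p hp hpq => hP.rq p hp hpq, ?_⟩
    unfold yc
    rw [if_neg hs]
    push_cast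
    rw [hcast]

private theorem mj_num {K H rX rY AY AX wrg : ℝ} (hK : 2 ≤ K) (hH : 1 ≤ H) (hX : 0 < rX)
    (hY : 0 < rY) (hAY : rY * H / (2 * K) ≤ AY) (hAX : rX * H / (2 * K) ≤ AX) (hw : 0 ≤ wrg)
    (h : wrg * (AY / 4) ≤ H ^ 2 * rX * rY / K ^ 60) :
    2 * wrg < AX ∧ wrg ≤ H * rX / K ^ 50 := by
  have hK0 : 0 < K := by linarith
  have h1 : wrg * (rY * H / (8 * K)) ≤ H ^ 2 * rX * rY / K ^ 60 := by
    refine le_trans (mul_le_mul_of_nonneg_left ?_ hw) h
    have : rY * H / (8 * K) = (rY * H / (2 * K)) / 4 := by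
      field_simp
      ring
    rw [this]
    linarith
  have hc : 0 < rY * H / (8 * K) := by positivity
  have h2 : wrg ≤ 8 * (H * rX) / K ^ 59 := by
    have h3 : H ^ 2 * rX * rY / K ^ 60 = (8 * (H * rX) / K ^ 59) * (rY * H / (8 * K)) := by
      field_simp
    rw [h3] at h1
    exact le_of_mul_le_mul_right h1 hc
  have he : 0 < H * rX := by positivity
  have h9 : (512 : ℝ) ≤ K ^ 9 := by
    calc (512 : ℝ) = 2 ^ 9 := by norm_num
      _ ≤ K ^ 9 := pow_le_pow_left₀ (by norm_num) hK 9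
  have h4 : 8 * (H * rX) / K ^ 59 ≤ (H * rX / K ^ 50) / 64 := by
    rw [show K ^ 59 = K ^ 50 * K ^ 9 by ring, div_div, div_le_div_iff₀ (by positivity) (by positivity)]
    have : 0 < K ^ 50 := by positivity
    nlinarith [mul_le_mul_of_nonneg_left h9 (mul_nonneg he.le this.le)]
  have h5 : H * rX / K ^ 50 ≤ H * rX / K := by
    refine div_le_div_of_nonneg_left he.le hK0 ?_
    calc K = K ^ 1 := (pow_one K).symm
      _ ≤ K ^ 50 := pow_le_pow_right₀ (by linarith) (by norm_num)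
  have h6 : rX * H / (2 * K) = (H * rX / K) / 2 := by
    field_simp
  have h7 : 0 < H * rX / K := by positivity
  have h8 : 0 < H * rX / K ^ 50 := by positivity
  constructor
  · rw [h6] at hAX
    linarith
  · linarith

open Classical in
theorem mj (P : Par) (hP : P.Ok) : ∃ x0 : ℕ, ∀ D : Dat, x0 ≤ D.x → Ctx P D → ∀ (Bd : ℕ → ℕ → ℕ → Prop) (l : ℕ), Mul P D.x l → l ≠ 1 →
    ∀ (w : ℕ) (b b' : (ZMod P.q)ˣ), (b : ZMod P.q) = l * b' → GOOD P D Bd l w b b' →
    FF P D w b = -FF P D (w / l) b' ∧ wr P D w b ≤ H1 P D.x * rho D.BX / (Real.log D.x) ^ 50 := by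
  obtain ⟨x0, hx0⟩ := grow P hP 2
  refine ⟨x0, fun D hx hc Bd l hl hl1 w b b' hb hg => ?_⟩
  obtain ⟨-, hK2, -, -, hy2, -, -, hH1, -, -, -, -, -, hth, -⟩ := hx0 D hx hc
  have hK0 : 0 < Real.log D.x := by linarith
  have hH1' : (1 : ℝ) ≤ (H1 P D.x : ℝ) := by exact_mod_cast hH1
  have hrpos : ∀ r : ℝ, 1 ≤ (Real.log D.x) ^ P.Cf * r → 0 < r := by
    intro r hr
    by_contra hcon
    push Not at hcon
    have h1 : (Real.log D.x) ^ P.Cf * r ≤ 0 := mul_nonpos_of_nonneg_of_nonpos (by positivity) hcon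
    linarith
  have hX := hrpos _ hc.fx.rh
  have hY := hrpos _ hc.fy.rh
  have hlp : l.Prime := by
    rcases hl with h | h
    · exact absurd h hl1
    · exact h.1
  obtain ⟨a, haq, hay⟩ := mj_rep hP b
  have hac : ((ZMod.unitOfCoprime a haq : (ZMod P.q)ˣ) : ZMod P.q) = yc P b := by
    rw [ZMod.coe_unitOfCoprime, hay]
  have hA := hg.ay _ hac
  set AY := AW P D D.BY (yw P D l w) (ZMod.unitOfCoprime a haq) with hAYd
  have hAYe : AY = ∑ Y ∈ (Ico (yw P D l w) (yw P D l w + HH P D.x)).filter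
      (fun Y : ℕ => (Y : ZMod P.q) = yc P b), ph D.y0 D.BY Y := by
    rw [hAYd]
    unfold AW
    rw [hac]
  have hmbY : rho D.BY * H1 P D.x / Real.log D.x ≤ mb P D.x D.y0 D.BY := by
    unfold mb
    have h1 : 0 < rho D.BY * H1 P D.x := by positivity
    calc rho D.BY * H1 P D.x / Real.log D.x = 1 / Real.log D.x * (rho D.BY * H1 P D.x) := by ring
      _ ≤ th P D.y0 * (rho D.BY * H1 P D.x) := mul_le_mul_of_nonneg_right hth h1.le
      _ = th P D.y0 * rho D.BY * H1 P D.x := by ring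
  have hmbX : rho D.BX * H1 P D.x / Real.log D.x ≤ mb P D.x D.y0 D.BX := by
    unfold mb
    have h1 : 0 < rho D.BX * H1 P D.x := by positivity
    calc rho D.BX * H1 P D.x / Real.log D.x = 1 / Real.log D.x * (rho D.BX * H1 P D.x) := by ring
      _ ≤ th P D.y0 * (rho D.BX * H1 P D.x) := mul_le_mul_of_nonneg_right hth h1.le
      _ = th P D.y0 * rho D.BX * H1 P D.x := by ring
  have hmbY0 : 0 < rho D.BY * H1 P D.x / Real.log D.x := by positivity
  have hAY2 : rho D.BY * H1 P D.x / (2 * Real.log D.x) ≤ AY := by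
    have h1 : rho D.BY * H1 P D.x / (2 * Real.log D.x) =
        (rho D.BY * H1 P D.x / Real.log D.x) / 2 := by
      field_simp
    rw [h1]
    linarith
  have hAX2 : ∀ A : ℝ, mb P D.x D.y0 D.BX / 2 ≤ A →
      rho D.BX * H1 P D.x / (2 * Real.log D.x) ≤ A := by
    intro A hA
    have h1 : rho D.BX * H1 P D.x / (2 * Real.log D.x) =
        (rho D.BX * H1 P D.x / Real.log D.x) / 2 := by
      field_simp
    rw [h1]
    linarith
  obtain ⟨s, hs, hhalf⟩ := mj_half ((Ico (yw P D l w) (yw P D l w + HH P D.x)).filter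
      (fun Y : ℕ => (Y : ZMod P.q) = yc P b)) (fun Y => ph D.y0 D.BY Y)
  rw [← hAYe] at hhalf
  have hcore : ∀ j : ℕ, j = 1 ∨ j = l →
      (∑ X ∈ (Ico (w / j) (w / j + HH P D.x)).filter (fun X : ℕ => ((j * X : ℕ) : ZMod P.q) = b),
        if lam (j * X) ≠ s then ph D.y0 D.BX X else 0) * (AY / 4) ≤
      (H1 P D.x : ℝ) ^ 2 * rho D.BX * rho D.BY / (Real.log D.x) ^ 60 := by
    intro j hj
    refine (mj_core hc.fx hc.fy hy2 Bd l j w b s AY (mb P D.x D.y0 D.BY / 80) a hay hhalf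
      (fun t ht => hg.bs j hj a haq t ht) ?_).trans (hg.nn j hj)
    linarith
  have hwn : ∀ j : ℕ, 0 ≤ ∑ X ∈ (Ico (w / j) (w / j + HH P D.x)).filter
      (fun X : ℕ => ((j * X : ℕ) : ZMod P.q) = b),
        if lam (j * X) ≠ s then ph D.y0 D.BX X else 0 := by
    intro j
    refine sum_nonneg fun X _ => ?_
    split_ifs
    · exact ph_nonneg _ _ _
    · exact le_rfl
  -- multiplier 1
  have c1 := hcore 1 (Or.inl rfl)
  have w1 := hwn 1
  simp only [one_mul, Nat.div_one] at c1 w1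
  obtain ⟨n1, n2⟩ := mj_num hK2 hH1' hX hY hAY2 (hAX2 _ hg.ax) w1 c1
  have hF1 : FF P D w b = s := by
    unfold FF
    exact mj_sign _ _ s hs (by unfold AW at n1; exact n1)
  -- multiplier l
  have c2 := hcore l (Or.inr rfl)
  have w2 := hwn l
  obtain ⟨n3, -⟩ := mj_num hK2 hH1' hX hY hAY2 (hAX2 _ hg.al) w2 c2
  have hlu : IsUnit (l : ZMod P.q) := by
    have h1 : IsUnit ((l : ZMod P.q) * b') := by
      rw [← hb]
      exact b.isUnit
    exact isUnit_of_mul_isUnit_left h1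
  have hfil : (Ico (w / l) (w / l + HH P D.x)).filter (fun X : ℕ => ((l * X : ℕ) : ZMod P.q) = b) =
      (Ico (w / l) (w / l + HH P D.x)).filter (fun X : ℕ => (X : ZMod P.q) = b') := by
    refine filter_congr fun X _ => ?_
    rw [Nat.cast_mul, hb]
    exact hlu.mul_right_inj
  rw [hfil] at n3
  have hsw : (∑ X ∈ (Ico (w / l) (w / l + HH P D.x)).filter (fun X : ℕ => (X : ZMod P.q) = b'),
      if lam (l * X) ≠ s then ph D.y0 D.BX X else 0) =
      ∑ X ∈ (Ico (w / l) (w / l + HH P D.x)).filter (fun X : ℕ => (X : ZMod P.q) = b'),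
        if lam X ≠ -s then ph D.y0 D.BX X else 0 := by
    refine sum_congr rfl fun X _ => ?_
    by_cases hX0 : X = 0
    · have h1 : ph D.y0 D.BX X = 0 := by
        unfold ph
        rw [if_neg (fun h => mj_rough_ne hy2 h hX0)]
      rw [h1]
      split_ifs <;> rfl
    · have h2 : lam (l * X) = -lam X := by
        rw [Pool.Agent.Lib.MP_45349e_nt.LS.lam_mul l X hlp.ne_zero hX0,
          Pool.Agent.Lib.MP_45349e_nt.LS.lam_prime l hlp]
        ring
      have h3 : (lam (l * X) ≠ s) ↔ (lam X ≠ -s) := by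
        rw [h2, Ne, Ne, neg_eq_iff_eq_neg]
      by_cases h4 : lam X ≠ -s
      · rw [if_pos (h3.2 h4), if_pos h4]
      · rw [if_neg (fun h => h4 (h3.1 h)), if_neg h4]
  rw [hsw] at n3
  have hs' : -s = 1 ∨ -s = -1 := by
    rcases hs with h | h
    · right; rw [h]
    · left; rw [h]; norm_num
  have hF2 : FF P D (w / l) b' = -s := by
    unfold FF
    exact mj_sign _ _ (-s) hs' (by unfold AW at n3; exact n3)
  refine ⟨by rw [hF1, hF2, neg_neg], ?_⟩
  unfold wr
  rw [hF1]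
  exact n2

end Pool.Agent.Lib.TT
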