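import Pool.Agent.Lib.MP_092512_nt.TT.Ce
import Pool.Agent.Lib.MP_092512_nt.TT.Cn
import Pool.Agent.Lib.MP_092512_nt.TT.Ss
import Pool.Agent.Lib.MP_092512_nt.TT.Sm

/-!
# TT / N3 (100 minutes): (4.3): dilation by `n`

Text (4.3).
-/

set_option autoImplicit false

open Finset

namespace Pool.Agent.Lib.TT

open Pool.Agent.Lib.TCF (pht TUP rho)
open Pool.Agent.Lib.RG (Rough PN)
open Pool.Agent.Lib.MP_45349e_nt.LS (lam)

private theorem N3_ev (N : ℕ) (s c : ℝ) (hs : 0 < s) (hc : 0 < c) : ∃ x0 : ℕ, ∀ x : ℕ, x0 ≤ x →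
    (Real.log x) ^ N ≤ c * (x : ℝ) ^ s := by
  have h := (isLittleO_log_rpow_rpow_atTop (N : ℝ) hs).def hc
  have h2 := (tendsto_natCast_atTop_atTop (R := ℝ)).eventually h
  obtain ⟨x0, hx0⟩ := Filter.eventually_atTop.1 h2
  refine ⟨x0, fun x hx => ?_⟩
  have h3 := hx0 x hx
  rw [Real.rpow_natCast, Real.norm_eq_abs, Real.norm_eq_abs,
    abs_of_nonneg (Real.rpow_nonneg (Nat.cast_nonneg x) s)] at h3
  exact (le_abs_self _).trans h3

private theorem N3_lam {m n : ℕ} (hm : m ≠ 0) (hn : n ≠ 0) : lam (m * n) = lam m * lam n := by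
  unfold Pool.Agent.Lib.MP_45349e_nt.LS.lam
  rw [ArithmeticFunction.cardFactors_mul hm hn, pow_add]

open Classical in
/-- the weight of a bad number divided by the number -/
private noncomputable def N3t (P : Par) (D : Dat) (gg : ℕ → (ZMod P.q)ˣ → ℝ) (Lam : ℕ)
    (b : (ZMod P.q)ˣ) (Y : ℕ) : ℝ :=
  (if lam Y ≠ gg (Y / Lam) b then ph D.y0 D.BX Y else 0) / (Y : ℝ)

private theorem N3t_nonneg (P : Par) (D : Dat) (gg : ℕ → (ZMod P.q)ˣ → ℝ) (Lam : ℕ)
    (b : (ZMod P.q)ˣ) (Y : ℕ) : 0 ≤ N3t P D gg Lam b Y := by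
  unfold N3t
  split_ifs
  · exact div_nonneg (ph_nonneg _ _ _) (Nat.cast_nonneg _)
  · rw [zero_div]

open Classical in
private theorem N3_dy {P : Par} {D : Dat} {gg : ℕ → (ZMod P.q)ˣ → ℝ} {Lam : ℕ}
    (hL : LBk P D gg Lam) (a : (ZMod P.q)ˣ) {w0 : ℕ} (hw : (D.x : ℝ) ^ (1 - 2 * dl P) ≤ w0)
    (hw1 : 1 ≤ w0) : ∀ i : ℕ, 2 ^ i * w0 ≤ D.x →
    ∑ Y ∈ (Ioc w0 (2 ^ i * w0)).filter (fun Y : ℕ => (Y : ZMod P.q) = a), N3t P D gg Lam a Y ≤
      i * (rho D.BX / (Real.log D.x) ^ 20) := by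
  intro i
  induction i with
  | zero =>
    intro _
    simp
  | succ i ih =>
    intro hi
    have e1 : 2 ^ (i + 1) * w0 = 2 * (2 ^ i * w0) := by ring
    have h0 : 2 * (2 ^ i * w0) ≤ D.x := by omega
    have h1 := ih (by omega)
    have hu : w0 ≤ 2 ^ i * w0 := Nat.le_mul_of_pos_left w0 (by positivity)
    have hupos : 0 < 2 ^ i * w0 := by omega
    have h2 := hL.lb (2 ^ i * w0) a (hw.trans (by exact_mod_cast hu)) h0
    have hur : (0 : ℝ) < ((2 ^ i * w0 : ℕ) : ℝ) := by exact_mod_cast hupos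
    have h3 : ∑ Y ∈ (Ioc (2 ^ i * w0) (2 * (2 ^ i * w0))).filter
        (fun Y : ℕ => (Y : ZMod P.q) = a), N3t P D gg Lam a Y ≤
        rho D.BX / (Real.log D.x) ^ 20 := by
      have h4 : ∑ Y ∈ (Ioc (2 ^ i * w0) (2 * (2 ^ i * w0))).filter
          (fun Y : ℕ => (Y : ZMod P.q) = a), N3t P D gg Lam a Y ≤
          (∑ Y ∈ (Ioc (2 ^ i * w0) (2 * (2 ^ i * w0))).filter (fun Y : ℕ => (Y : ZMod P.q) = a),
            (if lam Y ≠ gg (Y / Lam) a then ph D.y0 D.BX Y else 0)) / ((2 ^ i * w0 : ℕ) : ℝ) := by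
        rw [Finset.sum_div]
        refine Finset.sum_le_sum fun Y hY => ?_
        rw [Finset.mem_filter, Finset.mem_Ioc] at hY
        unfold N3t
        refine div_le_div_of_nonneg_left ?_ hur (by exact_mod_cast hY.1.1.le)
        split_ifs
        · exact ph_nonneg _ _ _
        · exact le_rfl
      refine h4.trans ?_
      rw [div_le_iff₀ hur]
      refine h2.trans (le_of_eq ?_)
      ring
    rw [e1]
    have h5 : (Ioc w0 (2 * (2 ^ i * w0))).filter (fun Y : ℕ => (Y : ZMod P.q) = a) =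
        (Ioc w0 (2 ^ i * w0)).filter (fun Y : ℕ => (Y : ZMod P.q) = a) ∪
        (Ioc (2 ^ i * w0) (2 * (2 ^ i * w0))).filter (fun Y : ℕ => (Y : ZMod P.q) = a) := by
      rw [← Finset.filter_union, Finset.Ioc_union_Ioc_eq_Ioc hu (by omega)]
    have h6 : Disjoint ((Ioc w0 (2 ^ i * w0)).filter (fun Y : ℕ => (Y : ZMod P.q) = a))
        ((Ioc (2 ^ i * w0) (2 * (2 ^ i * w0))).filter (fun Y : ℕ => (Y : ZMod P.q) = a)) := by
      refine Finset.disjoint_left.2 fun Y hY hY' => ?_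
      rw [Finset.mem_filter, Finset.mem_Ioc] at hY hY'
      omega
    rw [h5, Finset.sum_union h6]
    push_cast
    linarith

open Classical in
private theorem N3_g {P : Par} {D : Dat} {gg : ℕ → (ZMod P.q)ˣ → ℝ} {Lam : ℕ}
    (hL : LBk P D gg Lam) (a : (ZMod P.q)ˣ) {w0 : ℕ} (hw : (D.x : ℝ) ^ (1 - 2 * dl P) ≤ w0)
    (hw1 : 1 ≤ w0) (hK : 2 ≤ Real.log D.x) (hrho : 0 ≤ rho D.BX) {X0 : ℕ} (hX : 2 * X0 ≤ D.x) :
    ∑ Y ∈ (Ioc w0 X0).filter (fun Y : ℕ => (Y : ZMod P.q) = a), N3t P D gg Lam a Y ≤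
      2 * rho D.BX / (Real.log D.x) ^ 19 := by
  have hKp : 0 < Real.log D.x := by linarith
  have hR : 0 ≤ rho D.BX / (Real.log D.x) ^ 20 := div_nonneg hrho (by positivity)
  rcases Nat.lt_or_ge w0 X0 with h0 | h0
  · have hex : ∃ i, X0 ≤ 2 ^ i * w0 := ⟨X0, by
      have h1 : X0 < 2 ^ X0 := Nat.lt_two_pow_self
      nlinarith⟩
    have hs := Nat.find_spec hex
    have hm : ∀ i, i < Nat.find hex → 2 ^ i * w0 < X0 := fun i hi => by
      have := Nat.find_min hex hi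
      omega
    generalize Nat.find hex = i at hs hm
    rcases Nat.eq_zero_or_pos i with h1 | h1
    · rw [h1, pow_zero, one_mul] at hs
      omega
    · obtain ⟨i', rfl⟩ : ∃ i', i = i' + 1 := ⟨i - 1, by omega⟩
      have h2 := hm i' (by omega)
      have e1 : 2 ^ (i' + 1) * w0 = 2 * (2 ^ i' * w0) := by ring
      have h3 := N3_dy hL a hw hw1 (i' + 1) (by rw [e1]; omega)
      have h4 : ∑ Y ∈ (Ioc w0 X0).filter (fun Y : ℕ => (Y : ZMod P.q) = a),
          N3t P D gg Lam a Y ≤ ∑ Y ∈ (Ioc w0 (2 ^ (i' + 1) * w0)).filter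
            (fun Y : ℕ => (Y : ZMod P.q) = a), N3t P D gg Lam a Y := by
        refine Finset.sum_le_sum_of_subset_of_nonneg ?_ fun Y _ _ => N3t_nonneg P D gg Lam a Y
        exact Finset.filter_subset_filter _ (Finset.Ioc_subset_Ioc_right hs)
      have h5 : ((i' + 1 : ℕ) : ℝ) ≤ 2 * Real.log D.x := by
        have h6 : (2 : ℝ) ^ i' ≤ D.x := by
          have h7 : 2 ^ i' ≤ D.x := by nlinarith
          exact_mod_cast h7
        have h8 : (i' : ℝ) * Real.log 2 ≤ Real.log D.x := by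
          rw [← Real.log_pow]
          exact Real.log_le_log (by positivity) h6
        have h9 := Real.log_two_gt_d9
        have h10 : (i' : ℝ) * 0.69 ≤ (i' : ℝ) * Real.log 2 :=
          mul_le_mul_of_nonneg_left (by linarith) (Nat.cast_nonneg _)
        push_cast
        linarith
      refine h4.trans (h3.trans ?_)
      calc ((i' + 1 : ℕ) : ℝ) * (rho D.BX / (Real.log D.x) ^ 20)
          ≤ 2 * Real.log D.x * (rho D.BX / (Real.log D.x) ^ 20) :=
            mul_le_mul_of_nonneg_right h5 hR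
        _ = 2 * rho D.BX / (Real.log D.x) ^ 19 := by
            field_simp
  · rw [Finset.Ioc_eq_empty (by omega), Finset.filter_empty, Finset.sum_empty]
    positivity

private theorem N3_mono {P : Par} {x : ℕ} (hQ : 0 < QQ P x) {i j : ℕ} (h : i ≤ j) :
    ee P x i ≤ ee P x j := by
  unfold ee
  refine mul_le_mul_of_nonneg_left ?_ ?_
  · apply Real.exp_le_exp.2
    exact div_le_div_of_nonneg_right (by exact_mod_cast h) hQ.le
  · unfold U0
    positivity

private theorem N3_two {P : Par} {x : ℕ} (hQ : 2 ≤ QQ P x) (j : ℕ) :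
    ee P x (j + 1) ≤ 2 * ee P x j := by
  have hQ0 : 0 < QQ P x := by linarith
  unfold ee
  have h1 : Real.exp (((j + 1 : ℕ) : ℝ) / QQ P x) =
      Real.exp (1 / QQ P x) * Real.exp ((j : ℝ) / QQ P x) := by
    rw [← Real.exp_add]
    congr 1
    push_cast
    ring
  have h2 : Real.exp (1 / QQ P x) ≤ 2 := by
    have h3 : 1 / QQ P x ≤ 1 / 2 := one_div_le_one_div_of_le (by norm_num) hQ
    have h4 : (1 / 2 : ℝ) ≤ Real.log 2 := by
      have := Real.log_two_gt_d9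
      linarith
    calc Real.exp (1 / QQ P x) ≤ Real.exp (Real.log 2) := Real.exp_le_exp.2 (h3.trans h4)
      _ = 2 := Real.exp_log (by norm_num)
  have h5 : 0 ≤ U0 P x := by
    unfold U0
    positivity
  rw [h1]
  have h6 : 0 ≤ U0 P x * Real.exp ((j : ℝ) / QQ P x) := mul_nonneg h5 (Real.exp_pos _).le
  nlinarith

open Classical in
/-- the sum of the weights `N3t` over the classes -/
private noncomputable def N3h (P : Par) (D : Dat) [NeZero P.q] (gg : ℕ → (ZMod P.q)ˣ → ℝ)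
    (Lam : ℕ) (Y : ℕ) : ℝ :=
  ∑ b : (ZMod P.q)ˣ, if (Y : ZMod P.q) = b then N3t P D gg Lam b Y else 0

private theorem N3h_nonneg (P : Par) (D : Dat) [NeZero P.q] (gg : ℕ → (ZMod P.q)ˣ → ℝ)
    (Lam : ℕ) (Y : ℕ) : 0 ≤ N3h P D gg Lam Y := by
  classical
  unfold N3h
  refine Finset.sum_nonneg fun b _ => ?_
  split_ifs
  · exact N3t_nonneg P D gg Lam b Y
  · exact le_rfl

private theorem N3_pt {P : Par} {D : Dat} [NeZero P.q] {gg : ℕ → (ZMod P.q)ˣ → ℝ} {Lam : ℕ}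
    (h2 : 2 ≤ D.y0) {n m : ℕ} {y : ℝ} (a un : (ZMod P.q)ˣ) (hun : (un : ZMod P.q) = n)
    (hn : Rough D.y0 n) (hn1 : 1 ≤ n) (hn2 : (n : ℝ) ≤ 2 * y) (hm : (m : ZMod P.q) = a)
    (hm1 : 1 ≤ m) {v v' : ℕ} (hv : m / Lam = v) (hv' : n * m / Lam = v')
    (hne : gg v' (un * a) ≠ lam n * gg v a) :
    ph D.y0 D.BX m / m ≤ N3t P D gg Lam a m + 2 * y * N3h P D gg Lam (n * m) := by
  classical
  have hy : 0 ≤ 2 * y := le_trans (Nat.cast_nonneg n) hn2
  have hh := mul_nonneg hy (N3h_nonneg P D gg Lam (n * m))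
  by_cases hbad : lam m ≠ gg (m / Lam) a
  · have h1 : N3t P D gg Lam a m = ph D.y0 D.BX m / m := by
      unfold N3t
      rw [if_pos hbad]
    rw [h1]
    linarith
  · rw [not_not] at hbad
    have ht := N3t_nonneg P D gg Lam a m
    by_cases hr : Rough D.y0 m
    · have hbad' : lam (n * m) ≠ gg (n * m / Lam) (un * a) := by
        rw [N3_lam (by omega) (by omega), hbad, hv, hv']
        exact fun h => hne h.symm
      have hcl : ((n * m : ℕ) : ZMod P.q) = ((un * a : (ZMod P.q)ˣ) : ZMod P.q) := by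
        push_cast
        rw [hun, hm]
      have h1 : N3t P D gg Lam (un * a) (n * m) = ph D.y0 D.BX (n * m) / ((n * m : ℕ) : ℝ) := by
        unfold N3t
        rw [if_pos hbad']
      have h3 : N3t P D gg Lam (un * a) (n * m) ≤ N3h P D gg Lam (n * m) := by
        unfold N3h
        have h4 := Finset.single_le_sum (s := (Finset.univ : Finset (ZMod P.q)ˣ))
          (f := fun b : (ZMod P.q)ˣ => if ((n * m : ℕ) : ZMod P.q) = b then
            N3t P D gg Lam b (n * m) else 0) (fun b _ => by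
              show (0 : ℝ) ≤ if ((n * m : ℕ) : ZMod P.q) = b then N3t P D gg Lam b (n * m) else 0
              split_ifs
              · exact N3t_nonneg P D gg Lam b (n * m)
              · exact le_rfl) (Finset.mem_univ (un * a))
        rw [if_pos hcl] at h4
        exact h4
      have h5 := ph_mul_le D.y0 h2 D.BX hn hr
      have hnp : (0 : ℝ) < n := by exact_mod_cast hn1
      have hmp : (0 : ℝ) < m := by exact_mod_cast hm1
      have h6 : ph D.y0 D.BX m / m ≤ n * (ph D.y0 D.BX (n * m) / ((n * m : ℕ) : ℝ)) := by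
        push_cast
        rw [mul_div_assoc']
        rw [mul_div_mul_left _ _ hnp.ne']
        exact div_le_div_of_nonneg_right h5 hmp.le
      have h7 : (n : ℝ) * (ph D.y0 D.BX (n * m) / ((n * m : ℕ) : ℝ)) ≤
          2 * y * N3h P D gg Lam (n * m) := by
        refine mul_le_mul hn2 (h1 ▸ h3) ?_ hy
        exact div_nonneg (ph_nonneg _ _ _) (Nat.cast_nonneg _)
      linarith
    · have h1 : ph D.y0 D.BX m = 0 := by
        unfold ph
        rw [if_neg hr]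
      rw [h1, zero_div]
      linarith

open Classical in
private theorem N3_S3 {P : Par} {D : Dat} [NeZero P.q] {gg : ℕ → (ZMod P.q)ˣ → ℝ} {Lam : ℕ}
    (h2 : 2 ≤ D.y0) (hK : 0 < Real.log D.x) (hQ : 2 ≤ QQ P D.x)
    (a un : (ZMod P.q)ˣ) {n w0 : ℕ} {y : ℝ} (hun : (un : ZMod P.q) = n)
    (hn : Rough D.y0 n) (hn1 : 1 ≤ n) (hn2 : (n : ℝ) ≤ 2 * y)
    (hw : (w0 : ℝ) < ee P D.x 0) (hJ : ee P D.x (JJ P D.x) ≤ D.x / 4)
    (cm : ∀ j, j < JJ P D.x → rho D.BX * ee P D.x j / (QQ P D.x * (Real.log D.x) ^ 2) ≤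
      ∑ m ∈ (cell P D.x j).filter (fun m : ℕ => (m : ZMod P.q) = a), ph D.y0 D.BX m)
    (em : ∀ m j : ℕ, ee P D.x j ≤ m → (m : ℝ) < ee P D.x (j + 1) →
      ee P D.x (j + sn P D.x n) ≤ (n * m : ℕ) ∧
        ((n * m : ℕ) : ℝ) < ee P D.x (j + sn P D.x n + 2))
    (vc : ∀ m j : ℕ, Clean P D.x Lam j → ee P D.x j ≤ m → (m : ℝ) < ee P D.x (j + 3) →
      m / Lam = vv P D.x Lam j)
    (S : Finset ℕ) (hS : ∀ j ∈ S, j + sn P D.x n + 3 < JJ P D.x ∧ Clean P D.x Lam j ∧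
      Clean P D.x Lam (j + sn P D.x n) ∧
      ff P D.x gg Lam (j + sn P D.x n) (un * a) ≠ lam n * ff P D.x gg Lam j a) :
    rho D.BX * S.card ≤ 2 * QQ P D.x * (Real.log D.x) ^ 2 *
      (∑ Y ∈ (Ioc w0 (D.x / 4)).filter (fun Y : ℕ => (Y : ZMod P.q) = a), N3t P D gg Lam a Y +
        2 * y * ∑ Y ∈ (Ioc w0 (D.x / 4)).filter (fun Y => n ∣ Y), N3h P D gg Lam Y) := by
  have hQ0 : 0 < QQ P D.x := by linarith
  have hy : 0 ≤ 2 * y := le_trans (Nat.cast_nonneg n) hn2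
  set C : ℕ → Finset ℕ := fun j => (cell P D.x j).filter (fun m : ℕ => (m : ZMod P.q) = a) with hC
  have hmemC : ∀ j m, m ∈ C j → 1 ≤ m ∧ ee P D.x j ≤ m ∧ (m : ℝ) < ee P D.x (j + 1) ∧
      (m : ZMod P.q) = a := by
    intro j m hm
    rw [hC] at hm
    simp only [cell, Finset.mem_filter, Finset.mem_Icc] at hm
    exact ⟨hm.1.1.1, hm.1.2.1, hm.1.2.2, hm.2⟩
  set F : ℕ → ℝ := fun m => N3t P D gg Lam a m + 2 * y * N3h P D gg Lam (n * m) with hF
  -- one cell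
  have h1 : ∀ j ∈ S, rho D.BX ≤ 2 * QQ P D.x * (Real.log D.x) ^ 2 * ∑ m ∈ C j, F m := by
    intro j hj
    obtain ⟨hj1, hj2, hj3, hj4⟩ := hS j hj
    have hep : 0 < ee P D.x j := by
      refine lt_of_lt_of_le ?_ (N3_mono hQ0 (Nat.zero_le j))
      exact lt_of_le_of_lt (Nat.cast_nonneg w0) hw
    have h3 := cm j (by omega)
    have h4 : ∀ m ∈ C j, ph D.y0 D.BX m ≤ 2 * ee P D.x j * F m := by
      intro m hm
      obtain ⟨m1, m2, m3, m4⟩ := hmemC j m hm
      have hmp : (0 : ℝ) < m := by exact_mod_cast m1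
      obtain ⟨k1, k2⟩ := em m j m2 m3
      have hv := vc m j hj2 m2 (m3.trans_le (N3_mono hQ0 (by omega)))
      have hv' := vc (n * m) (j + sn P D.x n) hj3 k1 (k2.trans_le (N3_mono hQ0 (by omega)))
      have h5 : ph D.y0 D.BX m / m ≤ F m :=
        N3_pt h2 a un hun hn hn1 hn2 m4 m1 hv hv' hj4
      have h6 : (m : ℝ) ≤ 2 * ee P D.x j := (m3.trans_le (N3_two hQ j)).le
      have h7 : 0 ≤ F m := le_trans (div_nonneg (ph_nonneg _ _ _) hmp.le) h5
      rw [div_le_iff₀ hmp] at h5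
      calc ph D.y0 D.BX m ≤ F m * m := h5
        _ ≤ F m * (2 * ee P D.x j) := mul_le_mul_of_nonneg_left h6 h7
        _ = 2 * ee P D.x j * F m := by ring
    have h8 : ∑ m ∈ C j, ph D.y0 D.BX m ≤ 2 * ee P D.x j * ∑ m ∈ C j, F m := by
      rw [Finset.mul_sum]
      exact Finset.sum_le_sum h4
    have h9 := h3.trans h8
    rw [div_le_iff₀ (by positivity)] at h9
    have h10 : rho D.BX * ee P D.x j ≤
        (2 * QQ P D.x * (Real.log D.x) ^ 2 * ∑ m ∈ C j, F m) * ee P D.x j := by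
      refine h9.trans (le_of_eq ?_)
      ring
    exact le_of_mul_le_mul_right h10 hep
  have hsum : rho D.BX * S.card ≤ 2 * QQ P D.x * (Real.log D.x) ^ 2 * ∑ j ∈ S, ∑ m ∈ C j, F m := by
    rw [Finset.mul_sum]
    calc rho D.BX * S.card = ∑ j ∈ S, rho D.BX := by
          rw [Finset.sum_const, nsmul_eq_mul, mul_comm]
      _ ≤ _ := Finset.sum_le_sum h1
  have hdisj : Set.PairwiseDisjoint (↑S : Set ℕ) C := by
    intro i _ j _ hij
    refine Finset.disjoint_left.2 fun m hm hm' => ?_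
    obtain ⟨-, a2, a3, -⟩ := hmemC i m hm
    obtain ⟨-, b2, b3, -⟩ := hmemC j m hm'
    rcases Nat.lt_or_ge i j with h | h
    · have := N3_mono (P := P) hQ0 (show i + 1 ≤ j from h)
      linarith
    · have h' : j + 1 ≤ i := by omega
      have := N3_mono (P := P) hQ0 h'
      linarith
  rw [← Finset.sum_biUnion hdisj] at hsum
  refine hsum.trans (mul_le_mul_of_nonneg_left ?_ (by positivity))
  rw [hF, Finset.sum_add_distrib, ← Finset.mul_sum]
  -- members of the union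
  have hmem : ∀ m ∈ S.biUnion C, (w0 < m ∧ m ≤ D.x / 4 ∧ (m : ZMod P.q) = a) ∧
      w0 < n * m ∧ n * m ≤ D.x / 4 := by
    intro m hm
    rw [Finset.mem_biUnion] at hm
    obtain ⟨j, hj, hm⟩ := hm
    obtain ⟨hj1, hj2, hj3, hj4⟩ := hS j hj
    obtain ⟨m1, m2, m3, m4⟩ := hmemC j m hm
    obtain ⟨k1, k2⟩ := em m j m2 m3
    have l1 : (w0 : ℝ) < m := hw.trans_le ((N3_mono hQ0 (Nat.zero_le j)).trans m2)
    have l1' : w0 < m := by exact_mod_cast l1
    have l2 : (m : ℝ) ≤ D.x / 4 :=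
      (m3.le.trans (N3_mono hQ0 (by omega))).trans hJ
    have l3 : ((n * m : ℕ) : ℝ) ≤ D.x / 4 :=
      (k2.le.trans (N3_mono hQ0 (by omega))).trans hJ
    have l2' : 4 * m ≤ D.x := by
      have : (4 * m : ℝ) ≤ D.x := by linarith
      exact_mod_cast this
    have l3' : 4 * (n * m) ≤ D.x := by
      have : (4 * (n * m : ℕ) : ℝ) ≤ D.x := by linarith
      exact_mod_cast this
    refine ⟨⟨l1', by omega, m4⟩, ?_, by omega⟩
    calc w0 < m := l1'
      _ ≤ n * m := Nat.le_mul_of_pos_left m hn1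
  refine add_le_add ?_ (mul_le_mul_of_nonneg_left ?_ hy)
  · refine Finset.sum_le_sum_of_subset_of_nonneg (fun m hm => ?_)
      fun Y _ _ => N3t_nonneg P D gg Lam a Y
    obtain ⟨⟨c1, c2, c3⟩, -⟩ := hmem m hm
    rw [Finset.mem_filter, Finset.mem_Ioc]
    exact ⟨⟨c1, c2⟩, c3⟩
  · have hinj : Set.InjOn (fun m : ℕ => n * m) (↑(S.biUnion C) : Set ℕ) := by
      intro u _ v _ huv
      exact Nat.eq_of_mul_eq_mul_left hn1 huv
    rw [← Finset.sum_image (f := fun Y => N3h P D gg Lam Y) hinj]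
    refine Finset.sum_le_sum_of_subset_of_nonneg (fun Y hY => ?_)
      fun Y _ _ => N3h_nonneg P D gg Lam Y
    rw [Finset.mem_image] at hY
    obtain ⟨m, hm, rfl⟩ := hY
    obtain ⟨-, c4, c5⟩ := hmem m hm
    rw [Finset.mem_filter, Finset.mem_Ioc]
    exact ⟨⟨c4, c5⟩, Dvd.intro m rfl⟩

open Classical in
private theorem N3_hsum {P : Par} {D : Dat} [NeZero P.q] {gg : ℕ → (ZMod P.q)ˣ → ℝ} {Lam : ℕ}
    (I : Finset ℕ) {G : ℝ} (hG0 : 0 ≤ G)
    (hG : ∀ b : (ZMod P.q)ˣ, ∑ Y ∈ I.filter (fun Y : ℕ => (Y : ZMod P.q) = b),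
      N3t P D gg Lam b Y ≤ G) : ∑ Y ∈ I, N3h P D gg Lam Y ≤ P.q * G := by
  unfold N3h
  rw [Finset.sum_comm]
  have h1 : ∀ b ∈ (Finset.univ : Finset (ZMod P.q)ˣ),
      ∑ Y ∈ I, (if (Y : ZMod P.q) = b then N3t P D gg Lam b Y else 0) ≤ G := by
    intro b _
    rw [← Finset.sum_filter]
    exact hG b
  refine (Finset.sum_le_sum h1).trans ?_
  rw [Finset.sum_const, nsmul_eq_mul, Finset.card_univ]
  refine mul_le_mul_of_nonneg_right ?_ hG0
  have h2 : Fintype.card (ZMod P.q)ˣ ≤ P.q := by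
    rw [ZMod.card_units_eq_totient]
    exact Nat.totient_le P.q
  exact_mod_cast h2

private theorem N3_div {S I : Finset ℕ} {h : ℕ → ℝ} (h0 : ∀ Y, 0 ≤ h Y) {C : ℝ}
    (hC : ∀ Y ∈ I, ((S.filter fun n => n ∣ Y).card : ℝ) ≤ C) :
    ∑ n ∈ S, ∑ Y ∈ I.filter (fun Y => n ∣ Y), h Y ≤ C * ∑ Y ∈ I, h Y := by
  classical
  simp only [Finset.sum_filter]
  rw [Finset.sum_comm, Finset.mul_sum]
  refine Finset.sum_le_sum fun Y hY => ?_
  rw [← Finset.sum_filter, Finset.sum_const, nsmul_eq_mul]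
  exact mul_le_mul_of_nonneg_right (hC Y hY) (h0 Y)

private theorem N3_fin {K C J Q s y q r G N : ℝ} (hK : 16 * C + 10 ≤ K) (hC : 0 < C)
    (hs : 0 ≤ s) (hr : 0 < r) (hQ : 0 < Q) (hQJ : Q ≤ J) (hy : y ≤ K * s) (hy0 : 0 ≤ y)
    (hqK : q ≤ K) (hq : 0 ≤ q) (hG : G ≤ 2 * r / K ^ 19) (hG0 : 0 ≤ G)
    (hN : r * N ≤ 2 * Q * K ^ 2 * (s * G + 2 * y * (C * (q * G)))) :
    N ≤ s * J / (2 * K ^ 5) := by
  have hK10 : 10 ≤ K := by linarith
  have hK0 : 0 < K := by linarith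
  have hJ : 0 < J := by linarith
  have e1 : s * G + 2 * y * (C * (q * G)) ≤ (s + 2 * C * K ^ 2 * s) * G := by
    have f1 : y * q ≤ K * s * K := mul_le_mul hy hqK hq (by positivity)
    have f2 : 2 * y * (C * (q * G)) = 2 * C * G * (y * q) := by ring
    have f3 : 2 * C * G * (y * q) ≤ 2 * C * G * (K * s * K) :=
      mul_le_mul_of_nonneg_left f1 (by positivity)
    rw [f2]
    nlinarith
  have e2 : (s + 2 * C * K ^ 2 * s) * G ≤ (s + 2 * C * K ^ 2 * s) * (2 * r / K ^ 19) :=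
    mul_le_mul_of_nonneg_left hG (by positivity)
  have e3 : r * N ≤ 2 * Q * K ^ 2 * ((s + 2 * C * K ^ 2 * s) * (2 * r / K ^ 19)) :=
    hN.trans (mul_le_mul_of_nonneg_left (e1.trans e2) (by positivity))
  have e4 : 2 * Q * K ^ 2 * ((s + 2 * C * K ^ 2 * s) * (2 * r / K ^ 19)) =
      r * (4 * Q * s * (1 + 2 * C * K ^ 2) / K ^ 17) := by
    field_simp
    ring
  rw [e4] at e3
  have e5 : N ≤ 4 * Q * s * (1 + 2 * C * K ^ 2) / K ^ 17 := le_of_mul_le_mul_left e3 hr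
  refine e5.trans ?_
  rw [div_le_div_iff₀ (by positivity) (by positivity)]
  have e6 : 8 * (1 + 2 * C * K ^ 2) ≤ K ^ 3 := by
    have g1 : 8 * (1 + 2 * C * K ^ 2) ≤ (16 * C + 10) * K ^ 2 := by nlinarith
    have g2 : (16 * C + 10) * K ^ 2 ≤ K * K ^ 2 := mul_le_mul_of_nonneg_right hK (by positivity)
    calc 8 * (1 + 2 * C * K ^ 2) ≤ (16 * C + 10) * K ^ 2 := g1
      _ ≤ K * K ^ 2 := g2
      _ = K ^ 3 := by ring
  have e7 : K ^ 3 ≤ K ^ 12 := pow_le_pow_right₀ (by linarith) (by norm_num)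
  have e8 : Q * s ≤ s * J := by nlinarith
  calc 4 * Q * s * (1 + 2 * C * K ^ 2) * (2 * K ^ 5)
      = (Q * s) * (8 * (1 + 2 * C * K ^ 2)) * K ^ 5 := by ring
    _ ≤ (s * J) * K ^ 12 * K ^ 5 := by
        refine mul_le_mul_of_nonneg_right ?_ (by positivity)
        exact mul_le_mul e8 (e6.trans e7) (by positivity) (by positivity)
    _ = s * J * K ^ 17 := by ring

open Classical in
theorem dil (P : Par) (hP : P.Ok) (β' : ℝ) (h0 : 0 < β') (h1 : β' ≤ be P / 30) : ∃ x0 : ℕ, ∀ D : Dat, x0 ≤ D.x → Ctx P D →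
    ∀ (gg : ℕ → (ZMod P.q)ˣ → ℝ) (Lam : ℕ), LBk P D gg Lam → ∀ un : ℕ → (ZMod P.q)ˣ, (∀ n ∈ Sr P β' D.x, (un n : ZMod P.q) = n) →
    ∀ a : (ZMod P.q)ˣ,
    ∑ n ∈ Sr P β' D.x, (((range (JJ P D.x)).filter fun j => j + sn P D.x n + 3 < JJ P D.x ∧
      ff P D.x gg Lam (j + sn P D.x n) (un n * a) ≠ lam n * ff P D.x gg Lam j a).card : ℝ) ≤
      (Sr P β' D.x).card * JJ P D.x / (Real.log D.x) ^ 5 := by
  have hq0 : P.q ≠ 0 := by
    have := hP.q2
    omega
  haveI : NeZero P.q := ⟨hq0⟩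
  have hdl : 0 < dl P := by
    unfold dl
    have := hP.d0
    linarith
  have hdl1 : dl P ≤ 1 / 16 := by
    unfold dl
    have := hP.d1
    linarith
  obtain ⟨C, xd, hC, hdiv⟩ := sr_div P hP β' h0 h1
  obtain ⟨x1, g1⟩ := grow P hP (16 * C + 10)
  obtain ⟨x2, g2⟩ := cmass P hP
  obtain ⟨x3, g3⟩ := clean_card P hP
  obtain ⟨x4, g4⟩ := ee_le P hP
  obtain ⟨x5, g5⟩ := ee_mul P hP
  obtain ⟨x6, g6⟩ := vv_of_clean P hP
  obtain ⟨x7, g7⟩ := sr_card P hP β' h0 h1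
  obtain ⟨x8, g8⟩ := N3_ev P.Cp β' 1 h0 one_pos
  obtain ⟨x9, g9⟩ := N3_ev 5 (dl P / 2) (1 / 4) (by linarith) (by norm_num)
  obtain ⟨x10, g10⟩ := N3_ev 0 (dl P) (1 / 16) hdl (by norm_num)
  obtain ⟨x11, g11⟩ := N3_ev 0 (1 - 2 * dl P) (1 / 2) (by linarith) (by norm_num)
  refine ⟨xd + x1 + x2 + x3 + x4 + x5 + x6 + x7 + x8 + x9 + x10 + x11,
    fun D hx hctx gg Lam hL un hun a => ?_⟩
  obtain ⟨hx3, hKC, hqK, hqy, hy2, hyK, -⟩ := g1 D (by omega) hctx
  have hcm := g2 D (by omega) hctx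
  have hcl := g3 D.x (by omega) Lam hL.lo
  obtain ⟨hJ4, he0, hJ1, hQJ, hJx⟩ := g4 D.x (by omega)
  have hem := g5 D.x (by omega)
  have hvc := g6 D.x (by omega)
  have hsr := g7 D.x (by omega)
  have a8 := g8 D.x (by omega)
  have a9 := g9 D.x (by omega)
  have a10 := g10 D.x (by omega)
  have a11 := g11 D.x (by omega)
  rw [pow_zero] at a10 a11
  rw [one_mul] at a8
  have hK10 : 10 ≤ Real.log D.x := by linarith
  have hK : 0 < Real.log D.x := by linarith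
  have hxp : (0 : ℝ) < D.x := by
    have : 0 < D.x := by omega
    exact_mod_cast this
  have hQ2 : 2 ≤ QQ P D.x := by
    unfold QQ
    linarith
  have hQ0 : 0 < QQ P D.x := by linarith
  have hLam : 1 ≤ Lam := by
    have h2 : (0 : ℝ) < Lam := lt_of_lt_of_le (Real.rpow_pos_of_pos hxp _) hL.lo
    exact_mod_cast h2
  have hrho : 0 < rho D.BX := by
    have h2 := hctx.fx.rh
    by_contra h3
    rw [not_lt] at h3
    have h4 : (Real.log D.x) ^ P.Cf * rho D.BX ≤ 0 :=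
      mul_nonpos_of_nonneg_of_nonpos (by positivity) h3
    linarith
  -- the beginning of the dyadic intervals
  set w0 : ℕ := ⌈QQ P D.x⌉₊ with hw0
  have hw : (D.x : ℝ) ^ (1 - 2 * dl P) ≤ w0 := Nat.le_ceil _
  have hw1 : 1 ≤ w0 := Nat.one_le_ceil_iff.2 hQ0
  have hwe : (w0 : ℝ) < ee P D.x 0 := by
    have h2 : (w0 : ℝ) < QQ P D.x + 1 := Nat.ceil_lt_add_one hQ0.le
    have h3 : (D.x : ℝ) ^ (1 - dl P) = QQ P D.x * (D.x : ℝ) ^ dl P := by
      unfold QQ
      rw [← Real.rpow_add hxp]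
      congr 1
      ring
    have h4 : QQ P D.x * 16 ≤ QQ P D.x * (D.x : ℝ) ^ dl P :=
      mul_le_mul_of_nonneg_left (by linarith) hQ0.le
    rw [h3] at he0
    linarith
  set G : ℝ := 2 * rho D.BX / (Real.log D.x) ^ 19 with hG
  have hG0 : 0 ≤ G := by positivity
  have hGb : ∀ b : (ZMod P.q)ˣ, ∑ Y ∈ (Ioc w0 (D.x / 4)).filter
      (fun Y : ℕ => (Y : ZMod P.q) = b), N3t P D gg Lam b Y ≤ G :=
    fun b => N3_g hL b hw hw1 (by linarith) hrho.le (by omega)
  -- the elements of `Sr`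
  have hmemS : ∀ n ∈ Sr P β' D.x, Rough D.y0 n ∧ 1 ≤ n ∧ (n : ℝ) ≤ 2 * (yy P D.x : ℝ) := by
    intro n hn
    unfold Sr at hn
    rw [Finset.mem_filter, Finset.mem_Ioc] at hn
    refine ⟨fun p hp hpn => ?_, by omega, by exact_mod_cast hn.1.2⟩
    refine lt_of_le_of_lt ?_ (hn.2 p hp hpn)
    exact Nat.le_floor (hyK.trans a8)
  -- the three kinds of pairs
  set NC : Finset ℕ := (range (JJ P D.x)).filter fun j => ¬ Clean P D.x Lam j with hNC
  set S3 : ℕ → Finset ℕ := fun n => (range (JJ P D.x)).filter fun j =>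
    j + sn P D.x n + 3 < JJ P D.x ∧ Clean P D.x Lam j ∧ Clean P D.x Lam (j + sn P D.x n) ∧
      ff P D.x gg Lam (j + sn P D.x n) (un n * a) ≠ lam n * ff P D.x gg Lam j a with hS3
  have hsplit : ∀ n ∈ Sr P β' D.x, (((range (JJ P D.x)).filter fun j =>
      j + sn P D.x n + 3 < JJ P D.x ∧
      ff P D.x gg Lam (j + sn P D.x n) (un n * a) ≠ lam n * ff P D.x gg Lam j a).card : ℝ) ≤
      2 * (NC.card : ℝ) + ((S3 n).card : ℝ) := by
    intro n _
    have h2 : ((range (JJ P D.x)).filter fun j => j + sn P D.x n + 3 < JJ P D.x ∧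
        ff P D.x gg Lam (j + sn P D.x n) (un n * a) ≠ lam n * ff P D.x gg Lam j a) ⊆
        NC ∪ ((range (JJ P D.x)).filter fun j => j + sn P D.x n ∈ NC) ∪ S3 n := by
      intro j hj
      rw [Finset.mem_filter] at hj
      obtain ⟨hj0, hj1, hj2⟩ := hj
      rw [Finset.mem_union, Finset.mem_union]
      by_cases hc1 : Clean P D.x Lam j
      · by_cases hc2 : Clean P D.x Lam (j + sn P D.x n)
        · right
          rw [hS3, Finset.mem_filter]
          exact ⟨hj0, hj1, hc1, hc2, hj2⟩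
        · left
          right
          rw [Finset.mem_filter, hNC, Finset.mem_filter]
          exact ⟨hj0, Finset.mem_range.2 (by omega), hc2⟩
      · left
        left
        rw [hNC, Finset.mem_filter]
        exact ⟨hj0, hc1⟩
    have h3 : ((range (JJ P D.x)).filter fun j => j + sn P D.x n ∈ NC).card ≤ NC.card := by
      refine Finset.card_le_card_of_injOn (fun j => j + sn P D.x n) (fun j hj => ?_) ?_
      · rw [Finset.mem_coe, Finset.mem_filter] at hj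
        exact hj.2
      · intro u _ v _ huv
        have h4 : u + sn P D.x n = v + sn P D.x n := huv
        omega
    have h4 := (Finset.card_le_card h2).trans (Finset.card_union_le _ _)
    have h5 := Finset.card_union_le NC ((range (JJ P D.x)).filter fun j => j + sn P D.x n ∈ NC)
    have h6 : ((range (JJ P D.x)).filter fun j => j + sn P D.x n + 3 < JJ P D.x ∧
        ff P D.x gg Lam (j + sn P D.x n) (un n * a) ≠ lam n * ff P D.x gg Lam j a).card ≤
        2 * NC.card + (S3 n).card := by omega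
    exact_mod_cast h6
  -- the clean pairs
  have hclean : ∀ n ∈ Sr P β' D.x, rho D.BX * ((S3 n).card : ℝ) ≤
      2 * QQ P D.x * (Real.log D.x) ^ 2 * (G + 2 * (yy P D.x : ℝ) *
        ∑ Y ∈ (Ioc w0 (D.x / 4)).filter (fun Y => n ∣ Y), N3h P D gg Lam Y) := by
    intro n hn
    obtain ⟨r1, r2, r3⟩ := hmemS n hn
    have h2 := N3_S3 (gg := gg) (Lam := Lam) hy2 hK hQ2 a (un n) (hun n hn) r1 r2 r3 hwe hJ4
      (fun j hj => hcm j a hj) (fun m j => hem n m j r2) (fun m j => hvc Lam m j hLam) (S3 n)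
      (fun j hj => by
        rw [hS3, Finset.mem_filter] at hj
        exact hj.2)
    refine h2.trans (mul_le_mul_of_nonneg_left ?_ (by positivity))
    have h3 := hGb a
    linarith
  have hsumS : rho D.BX * ∑ n ∈ Sr P β' D.x, ((S3 n).card : ℝ) ≤
      2 * QQ P D.x * (Real.log D.x) ^ 2 * ((Sr P β' D.x).card * G + 2 * (yy P D.x : ℝ) *
        (C * (P.q * G))) := by
    rw [Finset.mul_sum]
    refine (Finset.sum_le_sum hclean).trans ?_
    rw [← Finset.mul_sum, Finset.sum_add_distrib, Finset.sum_const, nsmul_eq_mul,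
      ← Finset.mul_sum]
    refine mul_le_mul_of_nonneg_left (add_le_add le_rfl
      (mul_le_mul_of_nonneg_left ?_ (by positivity))) (by positivity)
    have h2 := N3_div (S := Sr P β' D.x) (I := Ioc w0 (D.x / 4))
      (h := N3h P D gg Lam) (fun Y => N3h_nonneg P D gg Lam Y) (C := C) (fun Y hY => by
        rw [Finset.mem_Ioc] at hY
        refine hdiv D.x (by omega) Y (by omega) ?_
        have h3 : D.x / 4 ≤ D.x := Nat.div_le_self _ _
        nlinarith)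
    refine h2.trans (mul_le_mul_of_nonneg_left ?_ hC.le)
    exact N3_hsum _ hG0 hGb
  have hyS : (yy P D.x : ℝ) ≤ Real.log D.x * ((Sr P β' D.x).card : ℝ) := by
    rw [div_le_iff₀ hK] at hsr
    linarith
  have hN := N3_fin (K := Real.log D.x) (C := C) (J := (JJ P D.x : ℝ)) (Q := QQ P D.x)
    (s := ((Sr P β' D.x).card : ℝ)) (y := (yy P D.x : ℝ)) (q := (P.q : ℝ)) (r := rho D.BX)
    (G := G) (N := ∑ n ∈ Sr P β' D.x, ((S3 n).card : ℝ)) hKC hC (Nat.cast_nonneg _) hrho hQ0 hQJ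
    hyS (Nat.cast_nonneg _) hqK (Nat.cast_nonneg _) le_rfl hG0 hsumS
  have hNCb : 2 * (NC.card : ℝ) ≤ JJ P D.x / (2 * (Real.log D.x) ^ 5) := by
    have h2 : (D.x : ℝ) ^ (-(dl P / 2)) ≤ 1 / (4 * (Real.log D.x) ^ 5) := by
      rw [Real.rpow_neg hxp.le, ← one_div]
      exact one_div_le_one_div_of_le (by positivity) (by linarith)
    have h3 : (NC.card : ℝ) ≤ 1 / (4 * (Real.log D.x) ^ 5) * JJ P D.x :=
      hcl.trans (mul_le_mul_of_nonneg_right h2 (Nat.cast_nonneg _))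
    calc 2 * (NC.card : ℝ) ≤ 2 * (1 / (4 * (Real.log D.x) ^ 5) * JJ P D.x) := by linarith
      _ = JJ P D.x / (2 * (Real.log D.x) ^ 5) := by
          field_simp
          norm_num
  refine (Finset.sum_le_sum hsplit).trans ?_
  rw [Finset.sum_add_distrib, Finset.sum_const, nsmul_eq_mul]
  calc ((Sr P β' D.x).card : ℝ) * (2 * (NC.card : ℝ)) + ∑ n ∈ Sr P β' D.x, ((S3 n).card : ℝ)
      ≤ ((Sr P β' D.x).card : ℝ) * (JJ P D.x / (2 * (Real.log D.x) ^ 5)) +
        ((Sr P β' D.x).card : ℝ) * JJ P D.x / (2 * (Real.log D.x) ^ 5) :=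
        add_le_add (mul_le_mul_of_nonneg_left hNCb (Nat.cast_nonneg _)) hN
    _ = ((Sr P β' D.x).card : ℝ) * JJ P D.x / (Real.log D.x) ^ 5 := by
        field_simp
        ring

end Pool.Agent.Lib.TT
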