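import Pool.Agent.Lib.MP_092512_nt.TT.Cm

/-!
# TT / Nb (90 minutes): (2.1): the pairs with different signs

Text (2.1). `d = |j X - Y|` lies in `[1, (l+4) H]` and is `≡ R` modulo `q` (from the classes `b` and `yc b`); for fixed `X, d` at most `HH` values of `w` (the place of the `Y`-window determines `w` up to `HH` values); `Inp.ap` at the scales `u/2` (`u - u/2`), `u`, `2u` for every `d`; for `j = 1` the `d` lie in an interval of length `2 HH`.
-/

set_option autoImplicit false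

open Finset

namespace Pool.Agent.Lib.TT

open Pool.Agent.Lib.TCF (pht TUP rho)
open Pool.Agent.Lib.RG (Rough PN)
open Pool.Agent.Lib.MP_45349e_nt.LS (lam)

private theorem cover {α ι κ : Type} [DecidableEq α] [DecidableEq κ] (W : Finset ι) (S : ι → Finset α) (g : α → ℝ) (hg : ∀ p, 0 ≤ g p)
    (N : ℕ) (hN : ∀ p, (W.filter (fun w => p ∈ S w)).card ≤ N) (E : Finset κ) (i : α → κ) (G : κ → ℝ)
    (hG : ∀ k, 0 ≤ G k) (hi : ∀ w ∈ W, ∀ p ∈ S w, i p ∈ E ∧ g p = G (i p))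
    (inj : ∀ w ∈ W, ∀ p ∈ S w, ∀ w' ∈ W, ∀ p' ∈ S w', i p = i p' → p = p') :
    ∑ w ∈ W, ∑ p ∈ S w, g p ≤ N * ∑ k ∈ E, G k := by
  have h1 : ∑ w ∈ W, ∑ p ∈ S w, g p = ∑ p ∈ W.biUnion S, ∑ w ∈ W.filter (fun w => p ∈ S w), g p := by
    apply Finset.sum_comm'
    intro w p
    simp only [mem_filter, mem_biUnion]
    constructor
    · rintro ⟨hw, hp⟩
      exact ⟨⟨hw, hp⟩, w, hw, hp⟩
    · rintro ⟨⟨hw, hp⟩, _⟩
      exact ⟨hw, hp⟩
  rw [h1]
  have h2 : ∑ p ∈ W.biUnion S, ∑ w ∈ W.filter (fun w => p ∈ S w), g p ≤ ∑ p ∈ W.biUnion S, (N : ℝ) * g p := by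
    apply Finset.sum_le_sum
    intro p _
    rw [Finset.sum_const, nsmul_eq_mul]
    exact mul_le_mul_of_nonneg_right (by exact_mod_cast hN p) (hg p)
  refine h2.trans ?_
  rw [← Finset.mul_sum]
  apply mul_le_mul_of_nonneg_left _ (by positivity)
  have h3 : ∑ p ∈ W.biUnion S, g p = ∑ p ∈ W.biUnion S, G (i p) := by
    apply Finset.sum_congr rfl
    intro p hp
    obtain ⟨w, hw, hp⟩ := mem_biUnion.1 hp
    exact (hi w hw p hp).2
  rw [h3]
  have h4 : ∑ p ∈ W.biUnion S, G (i p) = ∑ k ∈ (W.biUnion S).image i, G k := by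
    rw [Finset.sum_image]
    intro p hp p' hp' hpp
    obtain ⟨w, hw, hp⟩ := mem_biUnion.1 (Finset.mem_coe.1 hp)
    obtain ⟨w', hw', hp'⟩ := mem_biUnion.1 (Finset.mem_coe.1 hp')
    exact inj w hw p hp w' hw' p' hp' hpp
  rw [h4]
  apply Finset.sum_le_sum_of_subset_of_nonneg
  · intro k hk
    obtain ⟨p, hp, rfl⟩ := Finset.mem_image.1 hk
    obtain ⟨w, hw, hp⟩ := mem_biUnion.1 hp
    exact (hi w hw p hp).1
  · intro k _ _
    exact hG k

private theorem sum_union_le {α : Type} [DecidableEq α] (s t : Finset α) (f : α → ℝ) (hf : ∀ a, 0 ≤ f a) :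
    ∑ a ∈ s ∪ t, f a ≤ ∑ a ∈ s, f a + ∑ a ∈ t, f a := by
  rw [← Finset.sum_union_inter]
  have : 0 ≤ ∑ a ∈ s ∩ t, f a := Finset.sum_nonneg fun a _ => hf a
  linarith

/-- the arithmetic of one pair -/
private theorem geo (s : Bool) (H l j u w X Y : ℕ) (_ : 1 ≤ H) (hl : 2 ≤ l) (hlH : 2 * l ≤ H)
    (hu : 4 * ((l + 4) * H) ≤ u) (hj : j = 1 ∨ j = l) (hw : u < w) (hw2 : w ≤ 2 * u)
    (hX : w / j ≤ X) (hX2 : X < w / j + H)
    (hY : (if s then w - 3 * H else w + (l + 2) * H) ≤ Y)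
    (hY2 : Y < (if s then w - 3 * H else w + (l + 2) * H) + H) :
    (1 ≤ X ∧ u - u / 2 < j * X ∧ j * X ≤ 4 * u) ∧
    (∃ d, d = (if s then j * X - Y else Y - j * X) ∧ Y = sh s (j * X) d ∧ 1 ≤ d ∧ d ≤ (l + 4) * H ∧
      (j = 1 → (if s then 2 * H else (l + 1) * H) ≤ d ∧ d < (if s then 2 * H else (l + 1) * H) + 2 * H) ∧
      (if s then j * X = Y + d else Y = j * X + d)) ∧
    (if s then (Y + 2 * H < w ∧ w ≤ Y + 3 * H) else (w ≤ Y - (l + 2) * H ∧ Y - (l + 3) * H < w)) := by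
  have hj1 : 1 ≤ j := by omega
  have hjl : j ≤ l := by omega
  have e1 : (l + 4) * H = l * H + 4 * H := by ring
  have e2 : (l + 2) * H = l * H + 2 * H := by ring
  have e3 : (l + 3) * H = l * H + 3 * H := by ring
  have e4 : (l + 1) * H = l * H + H := by ring
  have hjH : j * H ≤ l * H := Nat.mul_le_mul_right _ hjl
  have hHj : H ≤ j * H := Nat.le_mul_of_pos_left _ hj1
  have a1 : j * (w / j) ≤ w := Nat.mul_div_le w j
  have a2 : w < j * (w / j) + j := by
    have := Nat.lt_mul_div_succ w (by omega : 0 < j)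
    calc w < j * (w / j + 1) := this
      _ = j * (w / j) + j := by ring
  have a3 : j * (w / j) ≤ j * X := Nat.mul_le_mul_left _ hX
  have a4 : j * X + j ≤ j * (w / j) + j * H := by
    have : j * (X + 1) ≤ j * (w / j + H) := Nat.mul_le_mul_left _ hX2
    calc j * X + j = j * (X + 1) := by ring
      _ ≤ _ := this
      _ = _ := by ring
  have a5 : j = 1 → j * X = X ∧ j * H = H ∧ j * (w / j) = w ∧ w / j = w := by
    rintro rfl
    simp
  have hX1 : 1 ≤ X := by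
    by_contra h
    have : X = 0 := by omega
    rw [this] at a3 a4
    simp only [mul_zero] at a3 a4
    omega
  rw [e1] at hu
  rw [e2] at hY hY2
  rw [e1, e2, e3, e4]
  generalize j * X = jX at *
  generalize l * H = lH at *
  generalize j * H = jH at *
  generalize j * (w / j) = jw at *
  cases s
  · simp only [Bool.false_eq_true, if_false, sh] at *
    refine ⟨⟨hX1, by omega, by omega⟩, ⟨Y - jX, rfl, by omega, by omega, by omega, ?_, by omega⟩, by omega, by omega⟩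
    intro h
    have := a5 h
    omega
  · simp only [if_true, sh] at *
    refine ⟨⟨hX1, by omega, by omega⟩, ⟨jX - Y, rfl, by omega, by omega, by omega, ?_, by omega⟩, by omega, by omega⟩
    intro h
    have := a5 h
    omega

private theorem growth (N : ℕ) : ∃ x0 : ℕ, ∀ x : ℕ, x0 ≤ x → (Real.log x) ^ N ≤ (x : ℝ) ^ ((1 : ℝ) / 2) := by
  have h := (isLittleO_log_rpow_rpow_atTop (N : ℝ) (by norm_num : (0 : ℝ) < 1 / 2)).bound (by norm_num : (0 : ℝ) < 1)
  rw [Filter.eventually_atTop] at h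
  obtain ⟨X, hX⟩ := h
  refine ⟨max 1 ⌈X⌉₊, fun x hx => ?_⟩
  have h1 : (1 : ℝ) ≤ x := by exact_mod_cast le_trans (le_max_left _ _) hx
  have h2 : X ≤ x := le_trans (Nat.le_ceil _) (by exact_mod_cast le_trans (le_max_right _ _) hx)
  have h3 := hX x h2
  rw [Real.rpow_natCast, one_mul, Real.norm_of_nonneg (pow_nonneg (Real.log_nonneg h1) _),
    Real.norm_of_nonneg (Real.rpow_nonneg (by linarith) _)] at h3
  exact h3

open Classical in
private theorem cnt_nonneg (D : Dat) (Bd : ℕ → ℕ → ℕ → Prop) (l X Y : ℕ) : 0 ≤ cnt D Bd l X Y := by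
  unfold cnt
  split_ifs
  · exact Finset.sum_nonneg fun _ _ => Nat.cast_nonneg _
  · exact le_rfl

open Classical in
theorem nb (P : Par) (hP : P.Ok) : ∃ x0 : ℕ, ∀ D : Dat, x0 ≤ D.x → Ctx P D → ∀ (Bd : ℕ → ℕ → ℕ → Prop) (l j : ℕ), Mul P D.x l → l ≠ 1 →
    (j = 1 ∨ j = l) → Inp P D Bd j → ∀ (u : ℕ) (b : (ZMod P.q)ˣ), 4 * (D.x : ℝ) ^ (1 - P.d0) ≤ u → 2 * u ≤ D.x →
    ∑ w ∈ Ioc u (2 * u), NN P D Bd l j w b ≤ 40 * P.q ^ 2 * (H1 P D.x) ^ 2 * rho D.BX * rho D.BY * u / (Real.log D.x) ^ 200 := by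
  obtain ⟨x1, h1⟩ := grow P hP 8
  obtain ⟨x2, h2⟩ := growth (P.Cf + P.C1 + 240)
  refine ⟨max x1 x2, ?_⟩
  intro D hD hC Bd l j hM hl1 hj hI u b hu hu2
  obtain ⟨g3, g8, gq, gqy, gy2, gyK, gKy, gH1, gH1lo, gH1up, gHH, gHHy, gC1, gth, gth1⟩ :=
    h1 D (le_trans (le_max_left _ _) hD) hC
  have gN := h2 D.x (le_trans (le_max_right _ _) hD)
  obtain ⟨lp, l1, l2, l3⟩ : l.Prime ∧ (Real.log D.x) ^ P.C1 < l ∧ (l : ℝ) ≤ 4 * (Real.log D.x) ^ P.C1 ∧ ¬ l ∣ P.q := by
    rcases hM with h | h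
    · exact absurd h hl1
    · exact h
  have hHval : (HH P D.x : ℝ) = P.q * H1 P D.x := by
    unfold HH; push_cast; ring
  have hHpos : 1 ≤ HH P D.x := by
    have : 2 ≤ P.q := hP.q2
    unfold HH
    exact Nat.one_le_iff_ne_zero.2 (Nat.mul_ne_zero (by omega) (by omega))
  have hap := hI.ap
  have hrX : 0 ≤ rho D.BX := by
    have h := hC.fx.rh
    by_contra hc
    have : (Real.log D.x) ^ P.Cf * rho D.BX ≤ 0 :=
      mul_nonpos_of_nonneg_of_nonpos (pow_nonneg (by linarith) _) (by linarith)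
    linarith
  have hrY : 0 ≤ rho D.BY := by
    have h := hC.fy.rh
    by_contra hc
    have : (Real.log D.x) ^ P.Cf * rho D.BY ≤ 0 :=
      mul_nonpos_of_nonneg_of_nonpos (pow_nonneg (by linarith) _) (by linarith)
    linarith
  have hNN : ∀ w, NN P D Bd l j w b = ∑ p ∈ ((Ico (w / j) (w / j + HH P D.x)).filter (fun X : ℕ => ((j * X : ℕ) : ZMod P.q) = b)) ×ˢ
      ((Ico (yw P D l w) (yw P D l w + HH P D.x)).filter (fun Y : ℕ => (Y : ZMod P.q) = yc P b)),
      (fun p : ℕ × ℕ => if lam (j * p.1) ≠ lam p.2 then cnt D Bd j p.1 p.2 else 0) p := by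
    intro w
    rw [Finset.sum_product]
    rfl
  have hyw : ∀ w, yw P D l w = if P.s then w - 3 * HH P D.x else w + (l + 2) * HH P D.x := fun w => rfl
  generalize hKdef : Real.log D.x = K at *
  generalize hHdef : HH P D.x = H at *
  have hK1 : 1 ≤ K := by linarith
  have hl2 : 2 ≤ l := lp.two_le
  have hlH : 2 * l ≤ H := by
    have : (2 * l : ℝ) ≤ H := by linarith
    exact_mod_cast this
  have hKC1 : 1 ≤ K ^ P.C1 := one_le_pow₀ hK1
  have hbig : ((l + 4) * H : ℝ) ≤ K ^ (P.Cf + P.C1 + 240) := by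
    have e1 : ((l : ℝ) + 4) ≤ 8 * K ^ P.C1 := by linarith
    calc ((l + 4) * H : ℝ) ≤ (8 * K ^ P.C1) * K ^ (P.Cf + 232) :=
          mul_le_mul e1 gHH (by positivity) (by positivity)
      _ ≤ (K ^ 8 * K ^ P.C1) * K ^ (P.Cf + 232) := by
          have : (8 : ℝ) ≤ K ^ 8 := g8.trans (by simpa using pow_le_pow_right₀ hK1 (by norm_num : 1 ≤ 8))
          gcongr
      _ = K ^ (P.Cf + P.C1 + 240) := by ring
  have hx1 : (1 : ℝ) ≤ D.x := by exact_mod_cast (by omega : 1 ≤ D.x)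
  have hxd : (D.x : ℝ) ^ ((1 : ℝ) / 2) ≤ (D.x : ℝ) ^ (1 - P.d0) :=
    Real.rpow_le_rpow_of_exponent_le hx1 (by linarith [hP.d1])
  have huH : 4 * ((l + 4) * H) ≤ u := by
    have : (4 * ((l + 4) * H) : ℝ) ≤ u := by linarith
    exact_mod_cast this
  have hj1 : 1 ≤ j := by omega
  have hj1' : (1 : ℝ) ≤ j := by exact_mod_cast hj1
  have hu0 : (0 : ℝ) ≤ u := Nat.cast_nonneg _
  have hK200 : 0 < K ^ 200 := by positivity
  -- the sets
  let c : ℕ := if P.s then 2 * H else (l + 1) * H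
  let Dd : Finset ℕ := (Icc 1 ((l + 4) * H)).filter (fun d => d ≡ P.R [MOD P.q] ∧ (j = 1 → c ≤ d ∧ d < c + 2 * H))
  let Ev : ℕ → Finset ℕ := fun v => (Icc 1 (2 * v)).filter (fun X => v < j * X ∧ j * X ≤ 2 * v)
  let EX : Finset ℕ := (Ev (u - u / 2) ∪ Ev u) ∪ Ev (2 * u)
  let G : ℕ × ℕ → ℝ := fun k =>
    if lam (j * k.2) ≠ lam (sh P.s (j * k.2) k.1) then cnt D Bd j k.2 (sh P.s (j * k.2) k.1) else 0
  have hG : ∀ k, 0 ≤ G k := by
    intro k
    show 0 ≤ (if lam (j * k.2) ≠ lam (sh P.s (j * k.2) k.1) then cnt D Bd j k.2 (sh P.s (j * k.2) k.1) else 0)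
    split_ifs
    · exact cnt_nonneg _ _ _ _ _
    · exact le_rfl
  have hDd : (Dd.card : ℝ) ≤ 5 * j * H := by
    rcases hj with h | h
    · have hs : Dd ⊆ Ico c (c + 2 * H) := by
        intro d hd
        have := (mem_filter.1 hd).2.2 h
        exact mem_Ico.2 this
      have h5 := Finset.card_le_card hs
      rw [Nat.card_Ico] at h5
      have h6 : Dd.card ≤ 5 * j * H := by
        rw [h]; omega
      exact_mod_cast h6
    · have h5 := Finset.card_filter_le (Icc 1 ((l + 4) * H)) (fun d => d ≡ P.R [MOD P.q] ∧ (j = 1 → c ≤ d ∧ d < c + 2 * H))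
      rw [Nat.card_Icc] at h5
      have h6 : Dd.card ≤ 5 * j * H := by
        rw [h]
        calc Dd.card ≤ (l + 4) * H + 1 - 1 := h5
          _ = (l + 4) * H := by omega
          _ ≤ 5 * l * H := Nat.mul_le_mul_right _ (by omega)
      exact_mod_cast h6
  have hev : ∀ v d : ℕ, d ∈ Dd → (D.x : ℝ) ^ (1 - P.d0) ≤ v → v ≤ D.x →
      ∑ X ∈ Ev v, G (d, X) ≤ rho D.BX * rho D.BY * v / (j * K ^ 200) := by
    intro v d hd hv1 hv2
    obtain ⟨hd1, hd2⟩ := mem_filter.1 hd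
    obtain ⟨hd3, hd4⟩ := mem_Icc.1 hd1
    refine hap v d hv1 hv2 hd3 ?_ hd2.1
    refine le_trans ?_ hbig
    exact_mod_cast hd4
  have hEX : ∀ d ∈ Dd, ∑ X ∈ EX, G (d, X) ≤ rho D.BX * rho D.BY * (4 * u) / (j * K ^ 200) := by
    intro d hd
    have hx0 : 0 ≤ (D.x : ℝ) ^ (1 - P.d0) := Real.rpow_nonneg (by linarith) _
    have b1 := hev (u - u / 2) d hd (by
      have : u ≤ 2 * (u - u / 2) := by omega
      have : (u : ℝ) ≤ 2 * ((u - u / 2 : ℕ) : ℝ) := by exact_mod_cast this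
      linarith) (by omega)
    have b2 := hev u d hd (by linarith) (by omega)
    have b3 := hev (2 * u) d hd (by push_cast; linarith) hu2
    have s1 := sum_union_le (Ev (u - u / 2) ∪ Ev u) (Ev (2 * u)) (fun X => G (d, X)) (fun X => hG _)
    have s2 := sum_union_le (Ev (u - u / 2)) (Ev u) (fun X => G (d, X)) (fun X => hG _)
    have s3 : ∑ X ∈ EX, G (d, X) ≤ rho D.BX * rho D.BY * ((u - u / 2 : ℕ) : ℝ) / (j * K ^ 200) +
        rho D.BX * rho D.BY * u / (j * K ^ 200) + rho D.BX * rho D.BY * ((2 * u : ℕ) : ℝ) / (j * K ^ 200) :=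
      s1.trans (add_le_add (s2.trans (add_le_add b1 b2)) b3)
    refine s3.trans ?_
    rw [← add_div, ← add_div]
    apply div_le_div_of_nonneg_right _ (by positivity)
    have h7 : (((u - u / 2 : ℕ) : ℝ)) ≤ u := by exact_mod_cast Nat.sub_le _ _
    have h8 : 0 ≤ rho D.BX * rho D.BY := mul_nonneg hrX hrY
    push_cast
    nlinarith
  have hcov := cover (Ioc u (2 * u)) (fun w => ((Ico (w / j) (w / j + H)).filter (fun X : ℕ => ((j * X : ℕ) : ZMod P.q) = b)) ×ˢ
      ((Ico (yw P D l w) (yw P D l w + H)).filter (fun Y : ℕ => (Y : ZMod P.q) = yc P b)))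
      (fun p : ℕ × ℕ => if lam (j * p.1) ≠ lam p.2 then cnt D Bd j p.1 p.2 else 0) (by
        intro p
        show 0 ≤ (if lam (j * p.1) ≠ lam p.2 then cnt D Bd j p.1 p.2 else 0)
        split_ifs
        · exact cnt_nonneg _ _ _ _ _
        · exact le_rfl) H (by
        intro p
        obtain ⟨X, Y⟩ := p
        have key : ∀ w, (w ∈ Ioc u (2 * u) ∧ (X, Y) ∈ ((Ico (w / j) (w / j + H)).filter (fun X : ℕ => ((j * X : ℕ) : ZMod P.q) = b)) ×ˢ
            ((Ico (yw P D l w) (yw P D l w + H)).filter (fun Y : ℕ => (Y : ZMod P.q) = yc P b))) →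
            (if P.s then (Y + 2 * H < w ∧ w ≤ Y + 3 * H) else (w ≤ Y - (l + 2) * H ∧ Y - (l + 3) * H < w)) := by
          intro w hw
          simp only [mem_filter, mem_product, mem_Ico, mem_Ioc] at hw
          obtain ⟨⟨w1, w2⟩, ⟨⟨X1, X2⟩, _⟩, ⟨Y1, Y2⟩, _⟩ := hw
          rw [hyw] at Y1 Y2
          exact (geo P.s H l j u w X Y hHpos hl2 hlH huH hj w1 w2 X1 X2 Y1 Y2).2.2
        have e2 : (l + 2) * H = l * H + 2 * H := by ring
        have e3 : (l + 3) * H = l * H + 3 * H := by ring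
        rw [e2, e3] at key
        rcases Bool.eq_false_or_eq_true P.s with h | h
        · rw [h] at key
          simp only [if_true] at key
          refine (Finset.card_le_card (fun w hw => mem_Ioc.2 (key w (mem_filter.1 hw)))).trans ?_
          rw [Nat.card_Ioc]
          omega
        · rw [h] at key
          simp only [Bool.false_eq_true, if_false] at key
          refine (Finset.card_le_card (fun w hw => mem_Ioc.2 ⟨(key w (mem_filter.1 hw)).2, (key w (mem_filter.1 hw)).1⟩)).trans ?_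
          rw [Nat.card_Ioc]
          omega) (Dd ×ˢ EX)
      (fun p : ℕ × ℕ => ((if P.s then j * p.1 - p.2 else p.2 - j * p.1, p.1) : ℕ × ℕ)) G hG (by
        intro w hw p hp
        obtain ⟨X, Y⟩ := p
        simp only [mem_filter, mem_product, mem_Ico] at hp
        obtain ⟨w1, w2⟩ := mem_Ioc.1 hw
        obtain ⟨⟨⟨X1, X2⟩, X3⟩, ⟨Y1, Y2⟩, Y3⟩ := hp
        rw [hyw] at Y1 Y2
        obtain ⟨⟨x1, x2, x3⟩, ⟨d, hd, hYd, d1, d2, d3, d4⟩, _⟩ :=
          geo P.s H l j u w X Y hHpos hl2 hlH huH hj w1 w2 X1 X2 Y1 Y2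
        simp only [← hd]
        refine ⟨mem_product.2 ⟨mem_filter.2 ⟨mem_Icc.2 ⟨d1, d2⟩, ?_, d3⟩, ?_⟩, ?_⟩
        · rw [← ZMod.natCast_eq_natCast_iff]
          unfold yc at Y3
          rcases Bool.eq_false_or_eq_true P.s with h | h
          · rw [h] at Y3 d4
            simp only [if_true] at Y3 d4
            rw [d4] at X3
            push_cast at X3
            rw [Y3] at X3
            linear_combination X3
          · rw [h] at Y3 d4
            simp only [Bool.false_eq_true, if_false] at Y3 d4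
            rw [d4] at Y3
            rw [Nat.cast_add, X3] at Y3
            linear_combination Y3
        · have hXj : X ≤ j * X := Nat.le_mul_of_pos_left _ hj1
          simp only [EX, Ev, mem_union, mem_filter, mem_Icc]
          by_cases c1 : j * X ≤ 2 * (u - u / 2)
          · exact Or.inl (Or.inl ⟨⟨x1, by omega⟩, x2, c1⟩)
          · by_cases c2 : j * X ≤ 2 * u
            · exact Or.inl (Or.inr ⟨⟨x1, by omega⟩, by omega, c2⟩)
            · exact Or.inr ⟨⟨x1, by omega⟩, by omega, by omega⟩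
        · show (if lam (j * X) ≠ lam Y then cnt D Bd j X Y else 0) =
            if lam (j * X) ≠ lam (sh P.s (j * X) d) then cnt D Bd j X (sh P.s (j * X) d) else 0
          rw [← hYd]) (by
        intro w hw p hp w' hw' p' hp' heq
        obtain ⟨X, Y⟩ := p
        obtain ⟨X', Y'⟩ := p'
        simp only [mem_filter, mem_product, mem_Ico] at hp hp'
        obtain ⟨w1, w2⟩ := mem_Ioc.1 hw
        obtain ⟨⟨⟨X1, X2⟩, X3⟩, ⟨Y1, Y2⟩, Y3⟩ := hp
        obtain ⟨w1', w2'⟩ := mem_Ioc.1 hw'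
        obtain ⟨⟨⟨X1', X2'⟩, X3'⟩, ⟨Y1', Y2'⟩, Y3'⟩ := hp'
        rw [hyw] at Y1 Y2 Y1' Y2'
        obtain ⟨_, ⟨d, hd, hYd, _⟩, _⟩ := geo P.s H l j u w X Y hHpos hl2 hlH huH hj w1 w2 X1 X2 Y1 Y2
        obtain ⟨_, ⟨d', hd', hYd', _⟩, _⟩ := geo P.s H l j u w' X' Y' hHpos hl2 hlH huH hj w1' w2' X1' X2' Y1' Y2'
        simp only [← hd, ← hd', Prod.mk.injEq] at heq
        obtain ⟨h5, h6⟩ := heq
        rw [Prod.mk.injEq]
        refine ⟨h6, ?_⟩
        rw [hYd, hYd', h5, h6])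
  calc ∑ w ∈ Ioc u (2 * u), NN P D Bd l j w b
      = ∑ w ∈ Ioc u (2 * u), ∑ p ∈ ((Ico (w / j) (w / j + H)).filter (fun X : ℕ => ((j * X : ℕ) : ZMod P.q) = b)) ×ˢ
      ((Ico (yw P D l w) (yw P D l w + H)).filter (fun Y : ℕ => (Y : ZMod P.q) = yc P b)),
      (fun p : ℕ × ℕ => if lam (j * p.1) ≠ lam p.2 then cnt D Bd j p.1 p.2 else 0) p :=
        Finset.sum_congr rfl fun w _ => hNN w
    _ ≤ H * ∑ k ∈ Dd ×ˢ EX, G k := hcov
    _ = H * ∑ d ∈ Dd, ∑ X ∈ EX, G (d, X) := by rw [Finset.sum_product]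
    _ ≤ H * ∑ d ∈ Dd, rho D.BX * rho D.BY * (4 * u) / (j * K ^ 200) :=
        mul_le_mul_of_nonneg_left (Finset.sum_le_sum hEX) (Nat.cast_nonneg _)
    _ = H * (Dd.card * (rho D.BX * rho D.BY * (4 * u) / (j * K ^ 200))) := by
        rw [Finset.sum_const, nsmul_eq_mul]
    _ ≤ H * (5 * j * H * (rho D.BX * rho D.BY * (4 * u) / (j * K ^ 200))) := by
        apply mul_le_mul_of_nonneg_left _ (Nat.cast_nonneg _)
        apply mul_le_mul_of_nonneg_right hDd
        have := mul_nonneg hrX hrY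
        positivity
    _ = 20 * H ^ 2 * rho D.BX * rho D.BY * u / K ^ 200 := by
        field_simp
        ring
    _ ≤ 40 * H ^ 2 * rho D.BX * rho D.BY * u / K ^ 200 := by
        apply div_le_div_of_nonneg_right _ hK200.le
        have : 0 ≤ H ^ 2 * rho D.BX * rho D.BY * u := by positivity
        nlinarith
    _ = 40 * P.q ^ 2 * (H1 P D.x) ^ 2 * rho D.BX * rho D.BY * u / K ^ 200 := by
        rw [hHval]; ring

end Pool.Agent.Lib.TT
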